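import Mathlib

/-!
# LNActive: choice of the active children (pure)

Proof.  Let `n ℓ` be the number of the `v ∈ Ch` with `lev v = ℓ`, `S ℓ = n 1 + ... + n ℓ`, and
`a ℓ = (S ℓ + 1) / 2 - (S (ℓ - 1) + 1) / 2` for `ℓ >= 1`.  Then `a ℓ <= n ℓ`, and
`n ℓ <= 2 * a ℓ + S (ℓ - 1)` (if `S (ℓ - 1) = 0` then `a ℓ = (n ℓ + 1) / 2`; otherwise `2 * a ℓ >= n ℓ - 1`).
Choose `a ℓ` elements of level `ℓ` for every `ℓ <= Λ` (`Λ` = the largest level in `Ch`); their union `Act` has
`(S Λ + 1) / 2 <= Ch.card / 2` elements (`S Λ <= Ch.card`, which is even), so `Ch \ Act` contains a subset `K'` with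
`Act.card` elements.  `S (ℓ - 1)` is the cardinality of `Ch.filter (1 <= lev v < ℓ)`.
(An induction on a bound for the levels may be more convenient: prove the existence of `Act` with
`2 * Act.card <= (Ch.filter (1 <= lev v)).card + 1` and the inequality for all `ℓ`, adding one level at a time and
keeping `Act.card = ((Ch.filter (1 <= lev v <= ℓ)).card + 1) / 2`.)
-/

set_option autoImplicit false

open Finset

namespace Pool.Agent.H60.LN

private theorem active_aux {V : Type*} [DecidableEq V] (Ch : Finset V) (lev : V → ℕ) (L : ℕ) :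
    ∃ Act : Finset V, Act ⊆ Ch.filter (fun v => 1 ≤ lev v ∧ lev v < L + 1) ∧
      Act.card = ((Ch.filter (fun v => 1 ≤ lev v ∧ lev v < L + 1)).card + 1) / 2 ∧
      ∀ ℓ, 1 ≤ ℓ → ℓ < L + 1 → (Ch.filter (fun v => lev v = ℓ)).card
        ≤ 2 * (Act.filter (fun v => lev v = ℓ)).card
          + (Ch.filter (fun v => 1 ≤ lev v ∧ lev v < ℓ)).card := by
  induction L with
  | zero =>
    refine ⟨∅, Finset.empty_subset _, ?_, ?_⟩
    · have h : Ch.filter (fun v => 1 ≤ lev v ∧ lev v < 0 + 1) = ∅ := by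
        rw [Finset.filter_eq_empty_iff]
        intro v _ h
        omega
      rw [h, Finset.card_empty]
    · intro ℓ h1 h2
      omega
  | succ L ih =>
    obtain ⟨Act, hA1, hA2, hA3⟩ := ih
    obtain ⟨S, hS⟩ : ∃ S, S = Ch.filter (fun v => 1 ≤ lev v ∧ lev v < L + 1) := ⟨_, rfl⟩
    obtain ⟨N, hN⟩ : ∃ N, N = Ch.filter (fun v => lev v = L + 1) := ⟨_, rfl⟩
    rw [← hS] at hA1 hA2
    have hSN : Ch.filter (fun v => 1 ≤ lev v ∧ lev v < L + 1 + 1) = S ∪ N := by
      ext v
      rw [hS, hN, Finset.mem_union, Finset.mem_filter, Finset.mem_filter, Finset.mem_filter]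
      constructor
      · rintro ⟨h1, h2, h3⟩
        rcases Nat.lt_or_ge (lev v) (L + 1) with h4 | h4
        · exact Or.inl ⟨h1, h2, h4⟩
        · exact Or.inr ⟨h1, by omega⟩
      · rintro (⟨h1, h2, h3⟩ | ⟨h1, h2⟩)
        · exact ⟨h1, h2, by omega⟩
        · exact ⟨h1, by omega, by omega⟩
    have hdis : Disjoint S N := by
      rw [Finset.disjoint_left]
      intro v h1 h2
      rw [hS, Finset.mem_filter] at h1
      rw [hN, Finset.mem_filter] at h2
      omega
    have hc : (S ∪ N).card = S.card + N.card := Finset.card_union_of_disjoint hdis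
    obtain ⟨T, hT1, hT2⟩ := Finset.exists_subset_card_eq
      (show (S.card + N.card + 1) / 2 - (S.card + 1) / 2 ≤ N.card by omega)
    have hAT : Disjoint Act T := Finset.disjoint_of_subset_left hA1
      (Finset.disjoint_of_subset_right hT1 hdis)
    refine ⟨Act ∪ T, ?_, ?_, ?_⟩
    · rw [hSN]
      exact Finset.union_subset_union hA1 hT1
    · rw [hSN, hc, Finset.card_union_of_disjoint hAT, hA2, hT2]
      omega
    · intro ℓ h1 h2
      rcases Nat.lt_or_ge ℓ (L + 1) with h3 | h3
      · have h4 := hA3 ℓ h1 h3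
        have h5 : (Act.filter (fun v => lev v = ℓ)).card ≤
            ((Act ∪ T).filter (fun v => lev v = ℓ)).card :=
          Finset.card_le_card (Finset.filter_subset_filter _ Finset.subset_union_left)
        omega
      · have h4 : ℓ = L + 1 := by omega
        subst h4
        have h5 : T ⊆ (Act ∪ T).filter (fun v => lev v = L + 1) := by
          intro v hv
          rw [Finset.mem_filter]
          have h6 := hT1 hv
          rw [hN, Finset.mem_filter] at h6
          exact ⟨Finset.mem_union_right _ hv, h6.2⟩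
        have h6 := Finset.card_le_card h5
        rw [← hS, ← hN]
        omega

theorem exists_active {V : Type*} [DecidableEq V] (Ch : Finset V) (hCh : Even Ch.card)
    (lev : V → ℕ) :
    ∃ Act K' : Finset V, Act ⊆ Ch ∧ K' ⊆ Ch ∧ Disjoint Act K' ∧ K'.card = Act.card ∧
      (∀ v ∈ Act, 1 ≤ lev v) ∧
      ∀ ℓ, 1 ≤ ℓ → (Ch.filter (fun v => lev v = ℓ)).card
        ≤ 2 * (Act.filter (fun v => lev v = ℓ)).card
          + (Ch.filter (fun v => 1 ≤ lev v ∧ lev v < ℓ)).card := by
  obtain ⟨Act, hA1, hA2, hA3⟩ := active_aux Ch lev (Ch.sup lev)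
  have hsub : Act ⊆ Ch := hA1.trans (Finset.filter_subset _ _)
  have hc : (Ch.filter (fun v => 1 ≤ lev v ∧ lev v < Ch.sup lev + 1)).card ≤ Ch.card :=
    Finset.card_le_card (Finset.filter_subset _ _)
  obtain ⟨k, hk⟩ := hCh
  have h1 : Act.card ≤ (Ch \ Act).card := by
    rw [Finset.card_sdiff_of_subset hsub]
    omega
  obtain ⟨K', hK1, hK2⟩ := Finset.exists_subset_card_eq h1
  refine ⟨Act, K', hsub, hK1.trans Finset.sdiff_subset, ?_, hK2, ?_, ?_⟩
  · rw [Finset.disjoint_left]
    intro v hv hv2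
    exact (Finset.mem_sdiff.1 (hK1 hv2)).2 hv
  · intro v hv
    exact (Finset.mem_filter.1 (hA1 hv)).2.1
  · intro ℓ h2
    rcases Nat.lt_or_ge ℓ (Ch.sup lev + 1) with h3 | h3
    · exact hA3 ℓ h2 h3
    · have h4 : Ch.filter (fun v => lev v = ℓ) = ∅ := by
        rw [Finset.filter_eq_empty_iff]
        intro v hv h5
        have := Finset.le_sup (f := lev) hv
        omega
      rw [h4, Finset.card_empty]
      exact Nat.zero_le _

end Pool.Agent.H60.LN
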