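import Mathlib
import Pool.Agent.H60.FN.Defs

/-!
# Project MP_3cf290_LN: odd trees with at most `c * 2^n` non-leaves (definitions)

`J` is a finite abelian group of exponent two.  `Lv J` is a system of levels: subgroups
`Z 0 = {0} <= Z 1 <= Z 2 <= ... <= Z L` growing fast, and a function `reg : J -> {1..L}` which is
constant on the coset `x + Z (reg x)`: so `J` is partitioned into the regulated cosets
`cst x = x + Z (reg x)`.

`blk U`: the elements of `Z L` and of the regulated cosets in which nearly a sixteenth of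
the elements is in `U`.  `CapOK U`: outside `Z L` at most a sixteenth of every regulated coset
is in `U`.
-/

set_option autoImplicit false

open Finset

namespace Pool.Agent.H60.LN

/-- The translate `x + W` (groups of exponent two). -/
def tr {J : Type*} [AddCommGroup J] [DecidableEq J] [Fintype J] (x : J) (W : Finset J) : Finset J :=
  univ.filter (fun y => x + y ∈ W)

/-- A system of levels. -/
structure Lv (J : Type*) [AddCommGroup J] [DecidableEq J] [Fintype J] where
  L : ℕ
  Z : ℕ → Finset J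
  reg : J → ℕ
  dbl : ∀ x : J, x + x = 0
  hL : 1 ≤ L
  zero : ∀ ℓ, (0 : J) ∈ Z ℓ
  add : ∀ ℓ, ∀ x ∈ Z ℓ, ∀ y ∈ Z ℓ, x + y ∈ Z ℓ
  mono : ∀ ℓ, Z ℓ ⊆ Z (ℓ + 1)
  Z0 : Z 0 = {0}
  big : ∀ ℓ, 1 ≤ ℓ → ℓ ≤ L → 2 ^ (40 * ℓ) ≤ (Z ℓ).card
  gap : ∀ ℓ, 1 ≤ ℓ → ℓ < L → 2 ^ 40 * (Z ℓ).card ≤ (Z (ℓ + 1)).card
  reg_one : ∀ x, 1 ≤ reg x
  reg_le : ∀ x, reg x ≤ L
  reg_inv : ∀ x y, x + y ∈ Z (reg x) → reg y = reg x
  reg_L : ∀ x ∈ Z L, reg x = L

section

variable {J : Type*} [AddCommGroup J] [DecidableEq J] [Fintype J]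

/-- The regulated coset of `x`. -/
def Lv.cst (D : Lv J) (x : J) : Finset J := tr x (D.Z (D.reg x))

/-- The blocked elements. -/
def Lv.blk (D : Lv J) (U : Finset J) : Finset J :=
  univ.filter (fun x => x ∈ D.Z D.L ∨ (D.cst x).card < 16 * ((U ∩ D.cst x).card + 2))

/-- Outside `Z L` at most a sixteenth of every regulated coset is used. -/
def Lv.CapOK (D : Lv J) (U : Finset J) : Prop :=
  ∀ x, x ∉ D.Z D.L → 16 * (U ∩ D.cst x).card ≤ (D.cst x).card

theorem mem_tr {x y : J} {W : Finset J} : y ∈ tr x W ↔ x + y ∈ W := by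
  simp [tr]

theorem Lv.monotone (D : Lv J) : Monotone D.Z := monotone_nat_of_le_succ D.mono

theorem Lv.card_tr (D : Lv J) (x : J) (W : Finset J) : (tr x W).card = W.card := by
  have h : ∀ y : J, x + (x + y) = y := fun y => by rw [← add_assoc, D.dbl, zero_add]
  apply Finset.card_bij (fun y _ => x + y)
  · intro y hy
    exact mem_tr.1 hy
  · intro a _ b _ hab
    exact add_left_cancel hab
  · intro b hb
    exact ⟨x + b, mem_tr.2 (by rw [h]; exact hb), h b⟩

theorem Lv.self_mem_cst (D : Lv J) (x : J) : x ∈ D.cst x := by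
  rw [Lv.cst, mem_tr, D.dbl]
  exact D.zero _

/-- Two regulated cosets which meet are equal. -/
theorem Lv.cst_eq (D : Lv J) {x y w : J} (hx : w ∈ D.cst x) (hy : w ∈ D.cst y) :
    D.cst x = D.cst y := by
  have h1 : D.reg w = D.reg x := D.reg_inv x w (mem_tr.1 hx)
  have h2 : D.reg w = D.reg y := D.reg_inv y w (mem_tr.1 hy)
  have h3 : D.reg x = D.reg y := h1.symm.trans h2
  have hxy : x + y ∈ D.Z (D.reg x) := by
    have h4 := D.add _ _ (mem_tr.1 hx) _ (h3 ▸ mem_tr.1 hy)
    have h5 : x + w + (y + w) = x + y := by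
      have : x + w + (y + w) = x + y + (w + w) := by abel
      rw [this, D.dbl, add_zero]
    rwa [h5] at h4
  ext z
  rw [Lv.cst, Lv.cst, mem_tr, mem_tr, ← h3]
  constructor
  · intro hz
    have h4 := D.add _ _ hxy _ hz
    have h5 : x + y + (x + z) = y + z := by
      have : x + y + (x + z) = (x + x) + (y + z) := by abel
      rw [this, D.dbl, zero_add]
    rwa [h5] at h4
  · intro hz
    have h4 := D.add _ _ hxy _ hz
    have h5 : x + y + (y + z) = x + z := by
      have : x + y + (y + z) = (y + y) + (x + z) := by abel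
      rw [this, D.dbl, zero_add]
    rwa [h5] at h4

end

end Pool.Agent.H60.LN
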