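import Mathlib
import Pool.Agent.H60.LN.Defs

/-!
# LNBlk: covering lemmas

Proof of `cover_card`.  The classes `C ∈ X.image c` are pairwise disjoint (`hc`: two classes which meet are
equal) subsets of `W`, and cover `X` (`hx`).  `X.card <= ∑ C ∈ X.image c, C.card <= D * ∑ C ∈ X.image c, (U ∩ C).card
= D * (U ∩ ⋃ C).card <= D * (U ∩ W).card` (`Finset.card_biUnion`, pairwise disjoint).

Proof of `blk_card`.  `blk U ⊆ Z L ∪ X`, `X = (blk U) \ Z L`, `cover_card` with `D = 32`, `W = univ`, `c = cst`: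
for `x ∈ X`, `(cst x).card = (Z (reg x)).card >= 2 ^ 40` (`card_tr`, `big`), and `card < 16 * (u + 2)`, so
`card <= 32 * u` (`32 <= card / 2`).  Classes: `cst_eq`.

Proof of `blk_local`.  `cover_card` on `X = blk U ∩ tr x W0`, `c = cst`, `W = tr x W0`, `D = 32`.  Let `w ∈ X`,
`ℓ = reg w`.  `w ∉ Z L`: otherwise `x = (x + w) + w ∈ Z L` (`W0 ⊆ Z L`).  So
`(cst w).card < 16 * ((U ∩ cst w).card + 2)`.  If `Z ℓ ⊆ W0` then `cst w ⊆ tr x W0` and the inequality is as before.
If `W0 ⊆ Z ℓ` then `cst w = tr w (Z ℓ) = tr x (Z ℓ)` (as `x + w ∈ W0 ⊆ Z ℓ`), and `hyp` contradicts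
the inequality.

Proof of `maxi`.  For `x` in the set let `i x` be the largest `i <= n` with the property,
`c x = tr x (F (i x))`.  If `c x` and `c y` meet and `i x <= i y` then `x + y ∈ F (i y)`, so
`tr x (F (i y)) = tr y (F (i y))` has the property at `x`, hence `i y <= i x`, `i x = i y` and `c x = c y`.
`cover_card` with `W = univ`.  (`F i` are subgroups: `zero`, `add`, exponent two.)
-/

set_option autoImplicit false

open Finset

namespace Pool.Agent.H60.LN

theorem cover_card {J : Type*} [DecidableEq J] (D : ℕ) (U W X : Finset J) (c : J → Finset J)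
    (hx : ∀ x ∈ X, x ∈ c x) (hc : ∀ x ∈ X, ∀ y ∈ X, (c x ∩ c y).Nonempty → c x = c y)
    (hW : ∀ x ∈ X, c x ⊆ W) (hD : ∀ x ∈ X, (c x).card ≤ D * (U ∩ c x).card) :
    X.card ≤ D * (U ∩ W).card := by
  classical
  have h1 : X ⊆ (X.image c).biUnion id := by
    intro x hx'
    rw [mem_biUnion]
    exact ⟨c x, mem_image_of_mem c hx', hx x hx'⟩
  have h2 : X.card ≤ ∑ C ∈ X.image c, C.card := (card_le_card h1).trans card_biUnion_le
  have h3 : ∑ C ∈ X.image c, C.card ≤ ∑ C ∈ X.image c, D * (U ∩ C).card := by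
    apply sum_le_sum
    intro C hC
    obtain ⟨x, hx', rfl⟩ := mem_image.1 hC
    exact hD x hx'
  have h4 : ∑ C ∈ X.image c, (U ∩ C).card = ((X.image c).biUnion (fun C => U ∩ C)).card := by
    rw [card_biUnion]
    intro C hC C' hC' hne
    obtain ⟨x, hx', rfl⟩ := mem_image.1 hC
    obtain ⟨y, hy', rfl⟩ := mem_image.1 hC'
    show Disjoint (U ∩ c x) (U ∩ c y)
    rw [Finset.disjoint_left]
    intro z hz hz'
    apply hne
    exact hc x hx' y hy' ⟨z, mem_inter.2 ⟨(mem_inter.1 hz).2, (mem_inter.1 hz').2⟩⟩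
  have h5 : ((X.image c).biUnion (fun C => U ∩ C)).card ≤ (U ∩ W).card := by
    apply card_le_card
    intro z hz
    obtain ⟨C, hC, hzC⟩ := mem_biUnion.1 hz
    obtain ⟨x, hx', rfl⟩ := mem_image.1 hC
    exact mem_inter.2 ⟨(mem_inter.1 hzC).1, hW x hx' (mem_inter.1 hzC).2⟩
  calc X.card ≤ ∑ C ∈ X.image c, D * (U ∩ C).card := h2.trans h3
    _ = D * ∑ C ∈ X.image c, (U ∩ C).card := (mul_sum _ _ _).symm
    _ ≤ D * (U ∩ W).card := by rw [h4]; exact Nat.mul_le_mul_left _ h5

section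

variable {J : Type*} [AddCommGroup J] [DecidableEq J] [Fintype J]

private theorem Blk_tr_eq (hdbl : ∀ x : J, x + x = 0) {W : Finset J}
    (hadd : ∀ x ∈ W, ∀ y ∈ W, x + y ∈ W) {x y : J} (h : x + y ∈ W) : tr x W = tr y W := by
  ext z
  rw [mem_tr, mem_tr]
  constructor
  · intro hz
    have h1 := hadd _ h _ hz
    have h2 : x + y + (x + z) = y + z := by
      have : x + y + (x + z) = (x + x) + (y + z) := by abel
      rw [this, hdbl, zero_add]
    rwa [h2] at h1
  · intro hz
    have h1 := hadd _ h _ hz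
    have h2 : x + y + (y + z) = x + z := by
      have : x + y + (y + z) = (y + y) + (x + z) := by abel
      rw [this, hdbl, zero_add]
    rwa [h2] at h1

private theorem Blk_card_tr (hdbl : ∀ x : J, x + x = 0) (x : J) (W : Finset J) :
    (tr x W).card = W.card := by
  have h : ∀ y : J, x + (x + y) = y := fun y => by rw [← add_assoc, hdbl, zero_add]
  apply Finset.card_bij (fun y _ => x + y)
  · intro y hy
    exact mem_tr.1 hy
  · intro a _ b _ hab
    exact add_left_cancel hab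
  · intro b hb
    exact ⟨x + b, mem_tr.2 (by rw [h]; exact hb), h b⟩

private theorem Blk_big (D : Lv J) (x : J) : 2 ^ 40 ≤ (D.cst x).card := by
  rw [Lv.cst, D.card_tr]
  refine le_trans (Nat.pow_le_pow_right (by norm_num) ?_) (D.big _ (D.reg_one x) (D.reg_le x))
  have := D.reg_one x
  omega

private theorem Blk_32 (D : Lv J) (U : Finset J) {x : J}
    (h : (D.cst x).card < 16 * ((U ∩ D.cst x).card + 2)) :
    (D.cst x).card ≤ 32 * (U ∩ D.cst x).card := by
  have h1 := Blk_big D x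
  omega

theorem blk_card (D : Lv J) (U : Finset J) :
    (D.blk U).card ≤ 32 * U.card + (D.Z D.L).card := by
  have h1 : (D.blk U).card ≤ (D.blk U \ D.Z D.L).card + (D.Z D.L).card :=
    card_le_card_sdiff_add_card
  have h2 : (D.blk U \ D.Z D.L).card ≤ 32 * (U ∩ univ).card := by
    refine cover_card 32 U univ _ D.cst (fun x _ => D.self_mem_cst x) ?_
      (fun _ _ => subset_univ _) ?_
    · rintro x _ y _ ⟨z, hz⟩
      exact D.cst_eq (mem_inter.1 hz).1 (mem_inter.1 hz).2
    · intro x hx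
      obtain ⟨hx1, hx2⟩ := mem_sdiff.1 hx
      rw [Lv.blk, mem_filter] at hx1
      exact Blk_32 D U (hx1.2.resolve_left hx2)
  rw [inter_univ] at h2
  omega

theorem blk_local (D : Lv J) (U W0 : Finset J) (h0 : (0 : J) ∈ W0)
    (hadd : ∀ x ∈ W0, ∀ y ∈ W0, x + y ∈ W0) (hnest : ∀ ℓ, D.Z ℓ ⊆ W0 ∨ W0 ⊆ D.Z ℓ)
    (hWL : W0 ⊆ D.Z D.L) {x : J} (hx : x ∉ D.Z D.L)
    (hyp : ∀ ℓ, 1 ≤ ℓ → ℓ ≤ D.L → W0 ⊆ D.Z ℓ →
      16 * ((U ∩ tr x (D.Z ℓ)).card + 2) ≤ (D.Z ℓ).card) :
    (D.blk U ∩ tr x W0).card ≤ 32 * (U ∩ tr x W0).card := by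
  have key : ∀ w ∈ D.blk U ∩ tr x W0, D.cst w ⊆ tr x W0 ∧
      (D.cst w).card ≤ 32 * (U ∩ D.cst w).card := by
    intro w hw
    obtain ⟨hw1, hw2⟩ := mem_inter.1 hw
    have hxw := mem_tr.1 hw2
    have hwL : w ∉ D.Z D.L := by
      intro hwL
      apply hx
      have h1 := D.add _ _ (hWL hxw) _ hwL
      have h2 : x + w + w = x := by rw [add_assoc, D.dbl, add_zero]
      rwa [h2] at h1
    rw [Lv.blk, mem_filter] at hw1
    have hlt := hw1.2.resolve_left hwL
    refine ⟨?_, Blk_32 D U hlt⟩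
    rcases hnest (D.reg w) with hn | hn
    · intro y hy
      rw [mem_tr]
      have h1 := hadd _ hxw _ (hn (mem_tr.1 hy))
      have h2 : x + w + (w + y) = x + y := by
        have : x + w + (w + y) = x + y + (w + w) := by abel
        rw [this, D.dbl, add_zero]
      rwa [h2] at h1
    · exfalso
      have h1 := hyp (D.reg w) (D.reg_one w) (D.reg_le w) hn
      have h2 : tr x (D.Z (D.reg w)) = D.cst w :=
        Blk_tr_eq D.dbl (D.add _) (hn hxw)
      rw [h2] at h1
      have h3 : (D.cst w).card = (D.Z (D.reg w)).card := D.card_tr w _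
      omega
  refine cover_card 32 U (tr x W0) _ D.cst (fun w _ => D.self_mem_cst w) ?_
    (fun w hw => (key w hw).1) (fun w hw => (key w hw).2)
  rintro w _ y _ ⟨z, hz⟩
  exact D.cst_eq (mem_inter.1 hz).1 (mem_inter.1 hz).2

theorem maxi (hdbl : ∀ x : J, x + x = 0) (F : ℕ → Finset J) (hF0 : ∀ i, (0 : J) ∈ F i)
    (hFadd : ∀ i, ∀ x ∈ F i, ∀ y ∈ F i, x + y ∈ F i) (hFm : ∀ i, F i ⊆ F (i + 1)) (D n : ℕ)
    (U : Finset J) :
    (univ.filter (fun x => ∃ i ≤ n, (F i).card < D * (U ∩ tr x (F i)).card)).card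
      ≤ D * U.card := by
  classical
  have hmono : Monotone F := monotone_nat_of_le_succ hFm
  set P : J → ℕ → Prop := fun x i => (F i).card < D * (U ∩ tr x (F i)).card with hP
  set g : J → ℕ := fun x => Nat.findGreatest (P x) n with hg
  have hgn : ∀ x, g x ≤ n := fun x => Nat.findGreatest_le n
  have hgP : ∀ x, (∃ i ≤ n, P x i) → P x (g x) := by
    rintro x ⟨i, hi, hPi⟩
    exact Nat.findGreatest_spec hi hPi
  have hgm : ∀ x i, i ≤ n → P x i → i ≤ g x := fun x i hi hPi => Nat.le_findGreatest hi hPi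
  have main : ∀ x y, (∃ i ≤ n, P y i) → g x ≤ g y →
      (tr x (F (g x)) ∩ tr y (F (g y))).Nonempty → tr x (F (g x)) = tr y (F (g y)) := by
    rintro x y hy hle ⟨z, hz⟩
    have h1 := hmono hle (mem_tr.1 (mem_inter.1 hz).1)
    have h2 := mem_tr.1 (mem_inter.1 hz).2
    have h3 := hFadd _ _ h1 _ h2
    have h4 : x + z + (y + z) = x + y := by
      have : x + z + (y + z) = x + y + (z + z) := by abel
      rw [this, hdbl, add_zero]
    rw [h4] at h3
    have h5 : tr x (F (g y)) = tr y (F (g y)) := Blk_tr_eq hdbl (hFadd _) h3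
    have h6 : P x (g y) := by
      have := hgP y hy
      simp only [hP] at this ⊢
      rw [h5]
      exact this
    have h7 := hgm x (g y) (hgn y) h6
    have h8 : g x = g y := le_antisymm hle h7
    rw [h8]
    exact h5
  have hfin : (univ.filter (fun x => ∃ i ≤ n, P x i)).card ≤ D * (U ∩ univ).card := by
    refine cover_card D U univ _ (fun x => tr x (F (g x))) ?_ ?_ (fun _ _ => subset_univ _) ?_
    · intro x _
      rw [mem_tr, hdbl]
      exact hF0 _
    · intro x hx y hy hne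
      have hx' := (mem_filter.1 hx).2
      have hy' := (mem_filter.1 hy).2
      rcases le_total (g x) (g y) with hle | hle
      · exact main x y hy' hle hne
      · rw [inter_comm] at hne
        exact (main y x hx' hle hne).symm
    · intro x hx
      have h1 := hgP x (mem_filter.1 hx).2
      simp only [hP] at h1
      show (tr x (F (g x))).card ≤ _
      rw [Blk_card_tr hdbl]
      exact h1.le
  rw [inter_univ] at hfin
  exact hfin

end

end Pool.Agent.H60.LN
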