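import Mathlib
import Pool.Agent.H60.LN.Blk

/-!
# LNAvail: choices by counting

Proof of `avail`.  `blk_local` with `W0 = Z ℓ` (nested by `D.monotone`; if `Z ℓ ⊆ Z i`, `1 <= i <= L`, then `ℓ <= i`, since
for `i < ℓ` the cardinality of `Z i` is smaller by `gap` and monotonicity; then `16 * (2^-26 * (Z i).card + 2) <= (Z i).card`
by `hgood`, `big`).  So `((U ∪ blk U) ∩ tr x (Z ℓ)).card <= 33 * (U ∩ tr x (Z ℓ)).card <= 33 * 2^-26 * (Z ℓ).card <
2^-20 * (Z ℓ).card <= (T \ U).card`.  The map `z ↦ x + z` sends `T \ U` injectively into `tr x (Z ℓ)`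
(`x + (x + z) = z`), so some `x + z`, `z ∈ T \ U`, is not in `U ∪ blk U`.

Proof of `exists_good_pair`.  `u = U.card`.  The bad `x` are those in `U`, `blk U` (at most `32 * u + (Z L).card`, `blk_card`),
in the set of `maxi` with `F = Z`, `D = 2 ^ 27`, `n = L` (at most `2 ^ 27 * u`), and those with `x + y` in one of these
sets: altogether at most `2 * (33 * u + (Z L).card + 2 ^ 27 * u) <= 2 ^ 29 * u + 2 * (Z L).card < card J`.
-/

set_option autoImplicit false

open Finset

namespace Pool.Agent.H60.LN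

variable {J : Type*} [AddCommGroup J] [DecidableEq J] [Fintype J]

theorem avail (D : Lv J) {U : Finset J} {x : J} (hx : x ∉ D.Z D.L) {ℓ : ℕ} (h1 : 1 ≤ ℓ)
    (h2 : ℓ ≤ D.L) {T : Finset J} (hT : T ⊆ D.Z ℓ)
    (hgood : ∀ i, ℓ ≤ i → i ≤ D.L → 2 ^ 26 * (U ∩ tr x (D.Z i)).card ≤ (D.Z i).card)
    (hrem : (D.Z ℓ).card ≤ 2 ^ 20 * (T \ U).card) :
    ∃ z ∈ T, z ∉ U ∧ x + z ∉ U ∧ x + z ∉ D.blk U := by
  classical
  have hZL := D.big ℓ h1 h2
  have hp : 2 ^ 40 ≤ 2 ^ (40 * ℓ) := Nat.pow_le_pow_right (by norm_num) (by omega)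
  have hloc := blk_local D U (D.Z ℓ) (D.zero ℓ) (D.add ℓ)
    (fun i => (le_total i ℓ).imp (fun h => D.monotone h) (fun h => D.monotone h))
    (D.monotone h2) hx (by
      intro i hi1 hi2 hsub
      have hle : ℓ ≤ i := by
        by_contra hlt
        push Not at hlt
        have hg := D.gap i hi1 (by omega)
        have hm := card_le_card (D.monotone (show i + 1 ≤ ℓ by omega))
        have hc := card_le_card hsub
        have hb := D.big i hi1 hi2
        have : 1 ≤ 2 ^ (40 * i) := Nat.one_le_two_pow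
        omega
      have hg := hgood i hle hi2
      have hb := D.big i hi1 hi2
      have hp' : 2 ^ 40 ≤ 2 ^ (40 * i) := Nat.pow_le_pow_right (by norm_num) (by omega)
      omega)
  have hgl := hgood ℓ le_rfl h2
  set S := (U ∪ D.blk U) ∩ tr x (D.Z ℓ) with hS
  have hScard : S.card ≤ 33 * (U ∩ tr x (D.Z ℓ)).card := by
    rw [hS, union_inter_distrib_right]
    refine (card_union_le _ _).trans ?_
    omega
  have himg : (((T \ U).image (fun z => x + z))).card = (T \ U).card :=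
    card_image_of_injective _ (add_right_injective x)
  have hlt : S.card < ((T \ U).image (fun z => x + z)).card := by
    rw [himg]
    omega
  obtain ⟨w, hw, hwS⟩ := exists_mem_notMem_of_card_lt_card hlt
  obtain ⟨z, hz, rfl⟩ := mem_image.1 hw
  obtain ⟨hzT, hzU⟩ := mem_sdiff.1 hz
  have htr : x + z ∈ tr x (D.Z ℓ) := by
    rw [mem_tr, ← add_assoc, D.dbl, zero_add]
    exact hT hzT
  refine ⟨z, hzT, hzU, fun h => hwS ?_, fun h => hwS ?_⟩
  · exact mem_inter.2 ⟨mem_union_left _ h, htr⟩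
  · exact mem_inter.2 ⟨mem_union_right _ h, htr⟩

theorem exists_good_pair (D : Lv J) (U : Finset J) (y : J)
    (hsize : 2 ^ 29 * U.card + 2 * (D.Z D.L).card < Fintype.card J) :
    ∃ x : J, x ∉ U ∧ x ∉ D.blk U ∧ x + y ∉ U ∧ x + y ∉ D.blk U ∧
      ∀ i, 1 ≤ i → i ≤ D.L → 2 ^ 27 * (U ∩ tr x (D.Z i)).card ≤ (D.Z i).card ∧
        2 ^ 27 * (U ∩ tr (x + y) (D.Z i)).card ≤ (D.Z i).card := by
  classical
  set M : Finset J := univ.filter (fun x => ∃ i ≤ D.L,
    (D.Z i).card < 2 ^ 27 * (U ∩ tr x (D.Z i)).card) with hM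
  have hMc : M.card ≤ 2 ^ 27 * U.card := maxi D.dbl D.Z D.zero D.add D.mono (2 ^ 27) D.L U
  set B : Finset J := (U ∪ D.blk U) ∪ M with hB
  have hBc : B.card ≤ U.card + (32 * U.card + (D.Z D.L).card) + 2 ^ 27 * U.card := by
    have e1 := card_union_le (U ∪ D.blk U) M
    have e2 := card_union_le U (D.blk U)
    have e3 := blk_card D U
    rw [hB]
    omega
  have htr : (tr y B).card = B.card := D.card_tr y B
  have hlt : (B ∪ tr y B).card < (univ : Finset J).card := by
    rw [card_univ]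
    refine (card_union_le _ _).trans_lt ?_
    omega
  obtain ⟨x, -, hx⟩ := exists_mem_notMem_of_card_lt_card hlt
  have hx1 : x ∉ B := fun h => hx (mem_union_left _ h)
  have hx2 : x + y ∉ B := fun h => hx (mem_union_right _ (by rw [mem_tr, add_comm]; exact h))
  have key : ∀ w, w ∉ B → w ∉ U ∧ w ∉ D.blk U ∧ ∀ i ≤ D.L,
      2 ^ 27 * (U ∩ tr w (D.Z i)).card ≤ (D.Z i).card := by
    intro w hw
    refine ⟨fun h => hw ?_, fun h => hw ?_, fun i hi => ?_⟩
    · exact mem_union_left _ (mem_union_left _ h)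
    · exact mem_union_left _ (mem_union_right _ h)
    · by_contra hcon
      push Not at hcon
      exact hw (mem_union_right _ (mem_filter.2 ⟨mem_univ _, i, hi, hcon⟩))
  obtain ⟨k1, k2, k3⟩ := key x hx1
  obtain ⟨l1, l2, l3⟩ := key (x + y) hx2
  exact ⟨x, k1, k2, l1, l2, fun i _ hi => ⟨k3 i hi, l3 i hi⟩⟩

end Pool.Agent.H60.LN
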