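import Mathlib
import Pool.Agent.H60.LN.Defs

/-!
# C-case: definitions

`CS V J`: a system of levels `D`, subgroups `Q ℓ` with `Z (ℓ - 1) <= Q ℓ <= Z ℓ`, a closed set `E` of vertices,
for every level `ℓ` a vertex `cu ℓ`, for every vertex `cu ℓ` which is not a child of the root a sibling `mt (cu ℓ)`
(its mate), and for every level `ℓ` a set of `|Z ℓ| - |Q ℓ|` children of `cu ℓ`: the vertices `v` with
`lev v = ℓ`.  These are the special vertices.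

`CSt S E1 g`: the state of the labelling process: the vertex `cu ℓ` (`ℓ` minimal with this vertex) has a label in
`Q ℓ \ Z (ℓ - 1)`, the vertices of level `ℓ` have labels in `Z ℓ \ Q ℓ`, all others (except the root) have labels outside
`Z L`.
-/

set_option autoImplicit false

open Finset

namespace Pool.Agent.H60.LN

open Pool.Agent.H57.SS Pool.Agent.H60.FN

structure CS (V J : Type*) [DecidableEq V] [AddCommGroup J] [DecidableEq J] [Fintype J] where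
  D : Lv J
  p : V → V
  r : V
  d : V → ℕ
  E : Finset V
  Q : ℕ → Finset J
  cu : ℕ → V
  mt : V → V
  lev : V → ℕ
  hpr : p r = r
  hd : ∀ v, v ≠ r → d v = d (p v) + 1
  closed : Closed p r E
  size : 2 ^ 30 * E.card + 2 * (D.Z D.L).card < Fintype.card J
  Q0 : ∀ ℓ, (0 : J) ∈ Q ℓ
  Qadd : ∀ ℓ, ∀ x ∈ Q ℓ, ∀ y ∈ Q ℓ, x + y ∈ Q ℓ
  QZ : ∀ ℓ, Q ℓ ⊆ D.Z ℓ
  ZQ : ∀ ℓ, D.Z ℓ ⊆ Q (ℓ + 1)
  Qcard : ∀ ℓ, 1 ≤ ℓ → ℓ ≤ D.L → (Q ℓ).card = 2 ^ 12 * (D.Z (ℓ - 1)).card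
  cu_spec : ∀ ℓ, 1 ≤ ℓ → ℓ ≤ D.L → cu ℓ ∈ E ∧ cu ℓ ≠ r ∧ lev (cu ℓ) = 0
  /-- the mate is a sibling, has level zero and is not a `cu i` -/
  mt_spec : ∀ ℓ, 1 ≤ ℓ → ℓ ≤ D.L → p (cu ℓ) ≠ r →
    mt (cu ℓ) ∈ E ∧ p (mt (cu ℓ)) = p (cu ℓ) ∧ lev (mt (cu ℓ)) = 0 ∧
      ∀ i, 1 ≤ i → i ≤ D.L → cu i ≠ mt (cu ℓ)
  mt_inj : ∀ ℓ i, 1 ≤ ℓ → ℓ ≤ D.L → 1 ≤ i → i ≤ D.L → p (cu ℓ) ≠ r → p (cu i) ≠ r →
    mt (cu ℓ) = mt (cu i) → cu ℓ = cu i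
  lev_spec : ∀ v, 1 ≤ lev v → lev v ≤ D.L ∧ v ∈ E ∧ v ≠ r ∧ p v = cu (lev v)
  cnt : ∀ ℓ, 1 ≤ ℓ → ℓ ≤ D.L → (E.filter (fun v => lev v = ℓ)).card + (Q ℓ).card = (D.Z ℓ).card
  ev : ∀ ℓ, 1 ≤ ℓ → ℓ ≤ D.L → Even (E.filter (fun v => lev v = ℓ)).card
  /-- the parent of `cu ℓ` is not special -/
  par1 : ∀ ℓ, 1 ≤ ℓ → ℓ ≤ D.L → lev (p (cu ℓ)) = 0 ∧
    ∀ i, 1 ≤ i → i ≤ D.L → cu i ≠ p (cu ℓ) ∧ (p (cu i) ≠ r → mt (cu i) ≠ p (cu ℓ))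
  /-- the grandparent of `cu ℓ` has level zero and is not a `cu i` -/
  par2 : ∀ ℓ, 1 ≤ ℓ → ℓ ≤ D.L → lev (p (p (cu ℓ))) = 0 ∧
    ∀ i, 1 ≤ i → i ≤ D.L → cu i ≠ p (p (cu ℓ))

section

variable {V J : Type*} [DecidableEq V] [AddCommGroup J] [DecidableEq J] [Fintype J]

/-- The vertices `cu ℓ`. -/
def CS.C (S : CS V J) : Finset V := (Finset.Icc 1 S.D.L).image S.cu

/-- The mates. -/
def CS.M (S : CS V J) : Finset V := (S.C.filter (fun a => S.p a ≠ S.r)).image S.mt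

/-- Special vertices. -/
def CS.Spc (S : CS V J) (v : V) : Prop := v ∈ S.C ∨ v ∈ S.M ∨ 1 ≤ S.lev v

instance (S : CS V J) (v : V) : Decidable (S.Spc v) := by
  unfold CS.Spc
  infer_instance

/-- `ℓ` is the smallest level with `cu ℓ = v`. -/
def CS.IsMn (S : CS V J) (ℓ : ℕ) (v : V) : Prop :=
  1 ≤ ℓ ∧ ℓ ≤ S.D.L ∧ S.cu ℓ = v ∧ ∀ i, 1 ≤ i → i < ℓ → S.cu i ≠ v

/-- The state of the labelling process in the C-case. -/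
structure CSt (S : CS V J) (E1 : Finset V) (g : V → J) : Prop where
  lab : Lab S.p S.r E1 g
  cap : S.D.CapOK (E1.image g)
  pure : ∀ v ∈ E1, g v ∈ S.D.Z S.D.L → v = S.r ∨ v ∈ S.C ∨ 1 ≤ S.lev v
  uq : ∀ v ∈ E1, ∀ ℓ, S.IsMn ℓ v → g v ∈ S.Q ℓ ∧ g v ∉ S.D.Z (ℓ - 1)
  sv : ∀ v ∈ E1, 1 ≤ S.lev v → g v ∈ S.D.Z (S.lev v) ∧ g v ∉ S.Q (S.lev v)

/-- The admissible sets: closed, and with every vertex (other than the root) they contain its special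
children. -/
def Adm (S : CS V J) (E1 : Finset V) : Prop :=
  Closed S.p S.r E1 ∧ E1 ⊆ S.E ∧ ∀ v, S.Spc v → S.p v ∈ E1 → S.p v ≠ S.r → v ∈ E1

end

end Pool.Agent.H60.LN
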