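import Mathlib
import Pool.Agent.H60.LN.CDefs

/-!
# CLem: elementary facts about the special vertices

Proofs.
* `mem_C`: unfold.  `M_spec`: unfold, `mt_spec`.  `C_spec`: `cu_spec`.
* `spc_mem`, `spc_ne`: `cu_spec`, `mt_spec` (the mate `v` has `p v = p a ≠ r`, and `p r = r`, so `v ≠ r`), `lev_spec`.
* `C_par`: `a = cu ℓ`.  `p a ∈ C` contradicts `par1`; `p a ∈ M`: `p a = mt (cu i)` with `p (cu i) ≠ r`, contradicts `par1`;
  `lev (p a) = 0` by `par1`.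
* `lev_par`: `p v = cu (lev v)`, `1 <= lev v <= L`.
* `spc_par`: `v ∈ C`: `C_par`.  `v ∈ M`: `v = mt a`, `p v = p a`, `C_par`.
* `exists_mn`: `Nat.find` for `∃ ℓ, 1 <= ℓ ∧ ℓ <= L ∧ cu ℓ = a`.  `mn_unique`, `mn_C`: clear.
* `Q_mono`: `Q i ⊆ Z i ⊆ Q (i + 1)`, `monotone_nat_of_le_succ`.  `Z_Q`: `Z i ⊆ Q (i + 1) ⊆ Q ℓ`.
* `ann_unused`: assume `g v = x`, `v ∈ E1`.  `x ∈ Q ℓ ⊆ Z ℓ ⊆ Z L` (`D.monotone`), so by `pure`: `v = r`: `x = g r = 0 ∈ Z (ℓ - 1)`,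
  contradiction.  `v ∈ C`: let `IsMn i v`; `x ∈ Q i`, `x ∉ Z (i - 1)`.  If `i = ℓ` then `v = cu ℓ = a ∉ E1`.  If `i < ℓ` then
  `x ∈ Q i ⊆ Z i ⊆ Z (ℓ - 1)`; if `ℓ < i` then `x ∈ Q ℓ ⊆ Z ℓ ⊆ Z (i - 1)`.  `i = lev v >= 1`: `x ∈ Z i`, `x ∉ Q i`: if `ℓ <= i` then
  `x ∈ Q ℓ ⊆ Q i`, otherwise `x ∈ Z i ⊆ Z (ℓ - 1)`.
* `lev_used`: `z = g v`, `v ∈ E1`; `z ∈ Z ℓ ⊆ Z L`.  `v = r`: `z = 0 ∈ Q ℓ`.  `v ∈ C`, `IsMn i v`: `z ∈ Q i`, `z ∉ Z (i - 1)`: `i <= ℓ` gives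
  `z ∈ Q i ⊆ Q ℓ`; `ℓ < i` gives `z ∈ Z ℓ ⊆ Z (i - 1)`.  `i = lev v >= 1`: `z ∈ Z i`, `z ∉ Q i`: `i < ℓ`: `z ∈ Z i ⊆ Q ℓ`; `ℓ < i`:
  `z ∈ Z ℓ ⊆ Q i`; so `i = ℓ`.
* `even_spc`.  (1) `w ∈ C`: a special child `v` of `w` has `1 <= lev v` (`spc_par`).  So the set is the union over
  the `ℓ ∈ Icc 1 L` with `cu ℓ = w` of the sets `E.filter (lev v = ℓ)` (`lev_spec`; conversely `lev v = ℓ >= 1` implies
  `p v = cu ℓ = w`), pairwise disjoint, each even by `ev` (`Finset.card_biUnion`, `Finset.even_sum`).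
  (2) `w ∉ C`: no child has `1 <= lev` (`lev_par`).  The set is `A ∪ A.image mt`, `A = C.filter (p a = w)`: a mate
  `v = mt a` with `p v = w` has `p a = w`.  The union is disjoint (`M_spec`), `mt` is injective on `A` (`mt_inj`, `p a = w ≠ r`).
  The cardinality is `2 * A.card`.
-/

set_option autoImplicit false

open Finset

namespace Pool.Agent.H60.LN

open Pool.Agent.H57.SS Pool.Agent.H60.FN

section

variable {V J : Type*} [DecidableEq V] [AddCommGroup J] [DecidableEq J] [Fintype J]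

theorem CS.mem_C (S : CS V J) {v : V} : v ∈ S.C ↔ ∃ ℓ, 1 ≤ ℓ ∧ ℓ ≤ S.D.L ∧ S.cu ℓ = v := by
  unfold CS.C
  rw [Finset.mem_image]
  constructor
  · rintro ⟨ℓ, hℓ, h⟩
    rw [Finset.mem_Icc] at hℓ
    exact ⟨ℓ, hℓ.1, hℓ.2, h⟩
  · rintro ⟨ℓ, h1, h2, h⟩
    exact ⟨ℓ, Finset.mem_Icc.2 ⟨h1, h2⟩, h⟩

theorem CS.C_spec (S : CS V J) {a : V} (h : a ∈ S.C) : a ∈ S.E ∧ a ≠ S.r ∧ S.lev a = 0 := by
  obtain ⟨ℓ, h1, h2, rfl⟩ := S.mem_C.1 h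
  exact S.cu_spec ℓ h1 h2

private theorem CLem_mem_M (S : CS V J) {v : V} : v ∈ S.M ↔ ∃ a ∈ S.C, S.p a ≠ S.r ∧ S.mt a = v := by
  unfold CS.M
  rw [Finset.mem_image]
  constructor
  · rintro ⟨a, ha, h⟩
    rw [Finset.mem_filter] at ha
    exact ⟨a, ha.1, ha.2, h⟩
  · rintro ⟨a, h1, h2, h⟩
    exact ⟨a, Finset.mem_filter.2 ⟨h1, h2⟩, h⟩

theorem CS.M_spec (S : CS V J) {v : V} (h : v ∈ S.M) :
    ∃ a ∈ S.C, S.p a ≠ S.r ∧ S.mt a = v ∧ S.p v = S.p a ∧ S.lev v = 0 ∧ v ∉ S.C ∧ v ∈ S.E := by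
  obtain ⟨a, ha, hp, rfl⟩ := (CLem_mem_M S).1 h
  obtain ⟨ℓ, h1, h2, rfl⟩ := S.mem_C.1 ha
  obtain ⟨h3, h4, h5, h6⟩ := S.mt_spec ℓ h1 h2 hp
  refine ⟨S.cu ℓ, ha, hp, rfl, h4, h5, ?_, h3⟩
  intro hC
  obtain ⟨i, hi1, hi2, hi⟩ := S.mem_C.1 hC
  exact h6 i hi1 hi2 hi

theorem CS.mt_mem (S : CS V J) {a : V} (h : a ∈ S.C) (hp : S.p a ≠ S.r) :
    S.mt a ∈ S.M ∧ S.p (S.mt a) = S.p a := by
  refine ⟨(CLem_mem_M S).2 ⟨a, h, hp, rfl⟩, ?_⟩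
  obtain ⟨ℓ, h1, h2, rfl⟩ := S.mem_C.1 h
  exact (S.mt_spec ℓ h1 h2 hp).2.1

theorem CS.mt_injOn (S : CS V J) {a b : V} (ha : a ∈ S.C) (hb : b ∈ S.C) (hpa : S.p a ≠ S.r)
    (hpb : S.p b ≠ S.r) (h : S.mt a = S.mt b) : a = b := by
  obtain ⟨ℓ, h1, h2, rfl⟩ := S.mem_C.1 ha
  obtain ⟨i, hi1, hi2, rfl⟩ := S.mem_C.1 hb
  exact S.mt_inj ℓ i h1 h2 hi1 hi2 hpa hpb h

theorem CS.spc_mem (S : CS V J) {v : V} (h : S.Spc v) : v ∈ S.E := by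
  rcases h with h | h | h
  · exact (S.C_spec h).1
  · obtain ⟨a, _, _, _, _, _, _, h1⟩ := S.M_spec h
    exact h1
  · exact (S.lev_spec v h).2.1

theorem CS.spc_ne (S : CS V J) {v : V} (h : S.Spc v) : v ≠ S.r := by
  rcases h with h | h | h
  · exact (S.C_spec h).2.1
  · obtain ⟨a, _, hp, _, hpv, _, _, _⟩ := S.M_spec h
    rintro rfl
    apply hp
    rw [← hpv]
    exact S.hpr
  · exact (S.lev_spec v h).2.2.1

theorem CS.C_par (S : CS V J) {a : V} (h : a ∈ S.C) : ¬ S.Spc (S.p a) := by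
  obtain ⟨ℓ, h1, h2, rfl⟩ := S.mem_C.1 h
  obtain ⟨h3, h4⟩ := S.par1 ℓ h1 h2
  rintro (h5 | h5 | h5)
  · obtain ⟨i, hi1, hi2, hi⟩ := S.mem_C.1 h5
    exact (h4 i hi1 hi2).1 hi
  · obtain ⟨b, hb, hpb, hbm⟩ := (CLem_mem_M S).1 h5
    obtain ⟨i, hi1, hi2, rfl⟩ := S.mem_C.1 hb
    exact (h4 i hi1 hi2).2 hpb hbm
  · rw [h3] at h5
    omega

theorem CS.lev_par (S : CS V J) {v : V} (h : 1 ≤ S.lev v) :
    S.p v ∈ S.C ∧ S.lev (S.p v) = 0 := by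
  obtain ⟨h1, _, _, h4⟩ := S.lev_spec v h
  have hC : S.p v ∈ S.C := S.mem_C.2 ⟨S.lev v, h, h1, h4.symm⟩
  exact ⟨hC, (S.C_spec hC).2.2⟩

theorem CS.spc_par (S : CS V J) {v : V} (h : S.Spc v) (h0 : S.lev v = 0) : ¬ S.Spc (S.p v) := by
  rcases h with h | h | h
  · exact S.C_par h
  · obtain ⟨a, ha, _, _, hpv, _, _, _⟩ := S.M_spec h
    rw [hpv]
    exact S.C_par ha
  · omega

theorem CS.exists_mn (S : CS V J) {a : V} (h : a ∈ S.C) :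
    ∃ ℓ, S.IsMn ℓ a ∧ ∀ i, 1 ≤ i → S.cu i = a → ℓ ≤ i := by
  classical
  have hex : ∃ ℓ, 1 ≤ ℓ ∧ ℓ ≤ S.D.L ∧ S.cu ℓ = a := S.mem_C.1 h
  obtain ⟨h1, h2, h3⟩ := Nat.find_spec hex
  have key : ∀ i, 1 ≤ i → i < Nat.find hex → S.cu i ≠ a := by
    intro i hi1 hi2 hi3
    exact Nat.find_min hex hi2 ⟨hi1, by omega, hi3⟩
  refine ⟨Nat.find hex, ⟨h1, h2, h3, key⟩, ?_⟩
  intro i hi1 hi2
  by_contra hcon
  exact key i hi1 (by omega) hi2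

theorem CS.mn_unique (S : CS V J) {a : V} {i ℓ : ℕ} (h : S.IsMn ℓ a) (h' : S.IsMn i a) :
    ℓ = i := by
  obtain ⟨h1, _, h3, h4⟩ := h
  obtain ⟨h1', _, h3', h4'⟩ := h'
  rcases lt_trichotomy ℓ i with hl | hl | hl
  · exact absurd h3 (h4' ℓ h1 hl)
  · exact hl
  · exact absurd h3' (h4 i h1' hl)

theorem CS.mn_C (S : CS V J) {a : V} {ℓ : ℕ} (h : S.IsMn ℓ a) : a ∈ S.C :=
  S.mem_C.2 ⟨ℓ, h.1, h.2.1, h.2.2.1⟩

theorem CS.Q_mono (S : CS V J) {i ℓ : ℕ} (h : i ≤ ℓ) : S.Q i ⊆ S.Q ℓ := by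
  have hm : Monotone S.Q := monotone_nat_of_le_succ fun i => (S.QZ i).trans (S.ZQ i)
  exact hm h

theorem CS.Z_Q (S : CS V J) {i ℓ : ℕ} (h : i < ℓ) : S.D.Z i ⊆ S.Q ℓ :=
  (S.ZQ i).trans (S.Q_mono h)

theorem CSt.ann_unused {S : CS V J} {E1 : Finset V} {g : V → J} (hst : CSt S E1 g)
    {a : V} {ℓ : ℕ} (ha : S.IsMn ℓ a) (haE : a ∉ E1) {x : J} (hx : x ∈ S.Q ℓ)
    (hx' : x ∉ S.D.Z (ℓ - 1)) : x ∉ E1.image g := by
  intro hx0
  obtain ⟨v, hv, hgv⟩ := Finset.mem_image.1 hx0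
  subst hgv
  have hℓ1 := ha.1
  have hℓ2 := ha.2.1
  have hxL : g v ∈ S.D.Z S.D.L := S.D.monotone hℓ2 (S.QZ ℓ hx)
  rcases hst.pure v hv hxL with h | h | h
  · apply hx'
    rw [h, hst.lab.root]
    exact S.D.zero _
  · obtain ⟨i, hi, _⟩ := S.exists_mn h
    obtain ⟨h1, h2⟩ := hst.uq v hv i hi
    have hi1 := hi.1
    rcases lt_trichotomy ℓ i with hl | hl | hl
    · exact h2 (S.D.monotone (by omega : ℓ ≤ i - 1) (S.QZ ℓ hx))
    · apply haE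
      have h3 := ha.2.2.1
      have h4 := hi.2.2.1
      rw [← hl] at h4
      rw [← h3, h4]
      exact hv
    · exact hx' (S.D.monotone (by omega : i ≤ ℓ - 1) (S.QZ i h1))
  · obtain ⟨h1, h2⟩ := hst.sv v hv h
    rcases le_or_gt ℓ (S.lev v) with hl | hl
    · exact h2 (S.Q_mono hl hx)
    · exact hx' (S.D.monotone (by omega : S.lev v ≤ ℓ - 1) h1)

theorem CSt.lev_used {S : CS V J} {E1 : Finset V} {g : V → J} (hst : CSt S E1 g) {ℓ : ℕ}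
    (h1 : 1 ≤ ℓ) (h2 : ℓ ≤ S.D.L) {z : J} (hz : z ∈ S.D.Z ℓ) (hz' : z ∉ S.Q ℓ)
    (hu : z ∈ E1.image g) : ∃ v ∈ E1, S.lev v = ℓ ∧ g v = z := by
  obtain ⟨v, hv, hgv⟩ := Finset.mem_image.1 hu
  subst hgv
  have hzL : g v ∈ S.D.Z S.D.L := S.D.monotone h2 hz
  rcases hst.pure v hv hzL with h | h | h
  · exfalso
    apply hz'
    rw [h, hst.lab.root]
    exact S.Q0 _
  · exfalso
    obtain ⟨i, hi, _⟩ := S.exists_mn h
    obtain ⟨h3, h4⟩ := hst.uq v hv i hi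
    rcases le_or_gt i ℓ with hl | hl
    · exact hz' (S.Q_mono hl h3)
    · exact h4 (S.D.monotone (by omega : ℓ ≤ i - 1) hz)
  · obtain ⟨h3, h4⟩ := hst.sv v hv h
    rcases lt_trichotomy (S.lev v) ℓ with hl | hl | hl
    · exact absurd (S.Z_Q hl h3) hz'
    · exact ⟨v, hv, hl, rfl⟩
    · exact absurd (S.Z_Q hl hz) h4

theorem CS.even_spc (S : CS V J) {w : V} (hw : w ≠ S.r) :
    Even (S.E.filter (fun v => S.Spc v ∧ S.p v = w)).card := by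
  by_cases hwC : w ∈ S.C
  · have h1 : S.E.filter (fun v => S.Spc v ∧ S.p v = w) =
        ((Finset.Icc 1 S.D.L).filter (fun ℓ => S.cu ℓ = w)).biUnion
          (fun ℓ => S.E.filter (fun v => S.lev v = ℓ)) := by
      ext v
      rw [Finset.mem_filter, Finset.mem_biUnion]
      constructor
      · rintro ⟨hv, hs, hp⟩
        have h2 : 1 ≤ S.lev v := by
          by_contra hcon
          have h0 : S.lev v = 0 := by omega
          apply S.spc_par hs h0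
          rw [hp]
          exact Or.inl hwC
        obtain ⟨h3, _, _, h4⟩ := S.lev_spec v h2
        refine ⟨S.lev v, Finset.mem_filter.2 ⟨Finset.mem_Icc.2 ⟨h2, h3⟩, ?_⟩, Finset.mem_filter.2 ⟨hv, rfl⟩⟩
        rw [← h4]
        exact hp
      · rintro ⟨ℓ, hℓ, hv⟩
        rw [Finset.mem_filter, Finset.mem_Icc] at hℓ
        rw [Finset.mem_filter] at hv
        have h2 : 1 ≤ S.lev v := by
          rw [hv.2]
          exact hℓ.1.1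
        refine ⟨hv.1, Or.inr (Or.inr h2), ?_⟩
        rw [(S.lev_spec v h2).2.2.2, hv.2]
        exact hℓ.2
    rw [h1, Finset.card_biUnion]
    · refine Finset.even_sum _ fun ℓ hℓ => ?_
      rw [Finset.mem_filter, Finset.mem_Icc] at hℓ
      exact S.ev ℓ hℓ.1.1 hℓ.1.2
    · intro i _ j _ hij
      refine Finset.disjoint_left.2 fun v hv hv' => hij ?_
      rw [← (Finset.mem_filter.1 hv).2, ← (Finset.mem_filter.1 hv').2]
  · have h1 : S.E.filter (fun v => S.Spc v ∧ S.p v = w) =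
        S.C.filter (fun a => S.p a = w) ∪ (S.C.filter (fun a => S.p a = w)).image S.mt := by
      ext v
      rw [Finset.mem_filter, Finset.mem_union, Finset.mem_filter, Finset.mem_image]
      constructor
      · rintro ⟨hv, hs | hs | hs, hp⟩
        · exact Or.inl ⟨hs, hp⟩
        · obtain ⟨a, ha, _, hm, hpv, _, _, _⟩ := S.M_spec hs
          refine Or.inr ⟨a, Finset.mem_filter.2 ⟨ha, ?_⟩, hm⟩
          rw [← hpv]
          exact hp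
        · exfalso
          apply hwC
          rw [← hp]
          exact (S.lev_par hs).1
      · rintro (⟨h2, h3⟩ | ⟨a, ha, rfl⟩)
        · exact ⟨(S.C_spec h2).1, Or.inl h2, h3⟩
        · rw [Finset.mem_filter] at ha
          have hpa : S.p a ≠ S.r := by
            rw [ha.2]
            exact hw
          obtain ⟨h4, h5⟩ := S.mt_mem ha.1 hpa
          refine ⟨S.spc_mem (Or.inr (Or.inl h4)), Or.inr (Or.inl h4), ?_⟩
          rw [h5]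
          exact ha.2
    have hdis : Disjoint (S.C.filter (fun a => S.p a = w)) ((S.C.filter (fun a => S.p a = w)).image S.mt) := by
      refine Finset.disjoint_left.2 fun v hv hv' => ?_
      obtain ⟨a, ha, rfl⟩ := Finset.mem_image.1 hv'
      rw [Finset.mem_filter] at ha hv
      have hpa : S.p a ≠ S.r := by
        rw [ha.2]
        exact hw
      obtain ⟨_, _, _, _, _, _, h6, _⟩ := S.M_spec (S.mt_mem ha.1 hpa).1
      exact h6 hv.1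
    rw [h1, Finset.card_union_of_disjoint hdis, Finset.card_image_of_injOn]
    · exact ⟨_, rfl⟩
    · intro a ha b hb hab
      rw [Finset.mem_coe, Finset.mem_filter] at ha hb
      refine S.mt_injOn ha.1 hb.1 ?_ ?_ hab
      · rw [ha.2]
        exact hw
      · rw [hb.2]
        exact hw

end

end Pool.Agent.H60.LN
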