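import Mathlib
import Pool.Agent.H60.LN.CLem

/-!
# CAdmA: removing a child `a ∈ C` of the root (all vertices are special)

`E2 = E1.filter (fun v => v ≠ a ∧ p v ≠ a)`.

Proof.  Let `v ∈ E1`, `p v = a`.  Then `v ≠ r` (`p r = r ≠ a`), so `v` is special by `hall`, and `1 <= lev v`: otherwise `spc_par` gives
that `a = p v` is not special.  Conversely, if `1 <= lev v`, `p v = a`, then `v` is special, `p v = a ∈ E1`, `a ≠ r`, so `v ∈ E1` (third condition of
`Adm`); `v ≠ a` (`lev a = 0`).  This gives the decomposition of `E1`.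
`Closed E2`: root: `r ≠ a`, `p r = r ≠ a`.  parents: `v ∈ E2`: `p v ∈ E1`, `p v ≠ a`; if `p (p v) = a` then `p v ∈ E1` has `1 <= lev (p v)` as just shown;
`v ≠ r` (otherwise `p (p v) = r ≠ a`), so `v` is special by `hall`; if `lev v = 0`, `spc_par` contradicts that `p v` is special
(`1 <= lev (p v)`); if `1 <= lev v` then `lev (p v) = 0` by `lev_par`: contradiction.
even: let `x ≠ r`.  If `x = a` the fibre `E2.filter (p v = x)` is empty.  Otherwise it is equal to `E1.filter (p v = x)` (`v = a` has `p v = r ≠ x`).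
`Adm`: `v` special, `p v ∈ E2`, `p v ≠ r`: `v ∈ E1`; `v ≠ a` since `p a = r`; `p v ≠ a` since `p v ∈ E2`.
`E2.card < E1.card` as `a ∈ E1`, `a ∉ E2`.
-/

set_option autoImplicit false

open Finset

namespace Pool.Agent.H60.LN

open Pool.Agent.H57.SS Pool.Agent.H60.FN

theorem adm_root {V J : Type*} [DecidableEq V] [AddCommGroup J] [DecidableEq J] [Fintype J]
    (S : CS V J) {E1 : Finset V} (h : Adm S E1) {a : V} (ha : a ∈ S.C) (hpa : S.p a = S.r)
    (haE : a ∈ E1) (hall : ∀ v ∈ E1, v = S.r ∨ S.Spc v) :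
    ∃ E2 : Finset V, Adm S E2 ∧ E2.card < E1.card ∧ a ∉ E2 ∧
      E1 = insert a E2 ∪ S.E.filter (fun v => 1 ≤ S.lev v ∧ S.p v = a) := by
  classical
  obtain ⟨hcl, hsub, hadm⟩ := h
  have har : a ≠ S.r := (S.C_spec ha).2.1
  have hla : S.lev a = 0 := (S.C_spec ha).2.2
  have key1 : ∀ v ∈ E1, S.p v = a → 1 ≤ S.lev v := by
    intro v hv hpv
    by_contra hlt
    have h0 : S.lev v = 0 := by omega
    have hvr : v ≠ S.r := by
      intro hvr
      rw [hvr, S.hpr] at hpv
      exact har hpv.symm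
    have hs : S.Spc v := (hall v hv).resolve_left hvr
    have h2 := S.spc_par hs h0
    rw [hpv] at h2
    exact h2 (Or.inl ha)
  have key2 : ∀ v, 1 ≤ S.lev v → S.p v = a → v ∈ E1 := by
    intro v h1 hpv
    exact hadm v (Or.inr (Or.inr h1)) (by rw [hpv]; exact haE) (by rw [hpv]; exact har)
  have mem2 : ∀ v, v ∈ E1.filter (fun v => v ≠ a ∧ S.p v ≠ a) ↔
      v ∈ E1 ∧ v ≠ a ∧ S.p v ≠ a := by
    intro v
    rw [Finset.mem_filter]
  refine ⟨E1.filter (fun v => v ≠ a ∧ S.p v ≠ a), ⟨⟨?_, ?_, ?_⟩, ?_, ?_⟩, ?_, ?_, ?_⟩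
  · rw [mem2, S.hpr]
    exact ⟨hcl.root, har.symm, har.symm⟩
  · intro v hv
    rw [mem2] at hv
    obtain ⟨hv1, hva, hpva⟩ := hv
    rw [mem2]
    refine ⟨hcl.parent v hv1, hpva, ?_⟩
    intro hppv
    have h1 : 1 ≤ S.lev (S.p v) := key1 (S.p v) (hcl.parent v hv1) hppv
    have hvr : v ≠ S.r := by
      intro hvr
      rw [hvr, S.hpr, S.hpr] at hppv
      exact har hppv.symm
    have hs : S.Spc v := (hall v hv1).resolve_left hvr
    rcases Nat.eq_zero_or_pos (S.lev v) with h0 | h0
    · exact S.spc_par hs h0 (Or.inr (Or.inr h1))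
    · have h3 := (S.lev_par h0).2
      omega
  · intro w hw
    by_cases hwa : w = a
    · have : (E1.filter (fun v => v ≠ a ∧ S.p v ≠ a)).filter (fun v => S.p v = w) = ∅ := by
        apply Finset.filter_eq_empty_iff.mpr
        intro v hv hpv
        rw [mem2] at hv
        exact hv.2.2 (hpv.trans hwa)
      rw [this]
      simp
    · have : (E1.filter (fun v => v ≠ a ∧ S.p v ≠ a)).filter (fun v => S.p v = w) =
          E1.filter (fun v => S.p v = w) := by
        ext v
        rw [Finset.mem_filter, mem2, Finset.mem_filter]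
        constructor
        · rintro ⟨⟨h1, _, _⟩, h2⟩
          exact ⟨h1, h2⟩
        · rintro ⟨h1, h2⟩
          refine ⟨⟨h1, ?_, ?_⟩, h2⟩
          · intro hva
            rw [hva, hpa] at h2
            exact hw h2.symm
          · rw [h2]
            exact hwa
      rw [this]
      exact hcl.even w hw
  · intro v hv
    rw [mem2] at hv
    exact hsub hv.1
  · intro v hs hp hpr
    rw [mem2] at hp
    rw [mem2]
    refine ⟨hadm v hs hp.1 hpr, ?_, hp.2.1⟩
    intro hva
    rw [hva] at hpr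
    exact hpr hpa
  · apply Finset.card_lt_card
    refine ⟨Finset.filter_subset _ _, ?_⟩
    intro hss
    have h1 := hss haE
    rw [mem2] at h1
    exact h1.2.1 rfl
  · intro h1
    rw [mem2] at h1
    exact h1.2.1 rfl
  · ext v
    rw [Finset.mem_union, Finset.mem_insert, mem2, Finset.mem_filter]
    constructor
    · intro hv
      by_cases hva : v = a
      · exact Or.inl (Or.inl hva)
      · by_cases hpv : S.p v = a
        · exact Or.inr ⟨hsub hv, key1 v hv hpv, hpv⟩
        · exact Or.inl (Or.inr ⟨hv, hva, hpv⟩)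
    · rintro ((hva | hv) | hv)
      · rw [hva]
        exact haE
      · exact hv.1
      · exact key2 v hv.2.1 hv.2.2

end Pool.Agent.H60.LN
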