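import Mathlib
import Pool.Agent.H60.FN.Exact
import Pool.Agent.H60.LN.CLem

/-!
# CAdmB: removing a vertex which is not special, a sibling, and their special descendants

`depth_lt` (`Pool/Agent/H60/FN/Exact.lean`): `d r < d v` for `v ≠ r`.  `w ≠ r` is not special and of maximal depth
among the vertices `≠ r` of `E1` which are not special.

Proof.  (0) Facts.  Let `v ∈ E1`, `v ≠ r`.
 (a) If `d w < d v` then `v` is special (`hmax`).
 (b) If `p v = w` then `v` is special (`d v = d w + 1`), and `lev v = 0`, as otherwise `w = p v ∈ C` (`lev_par`).  So `v ∈ C ∪ M`.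
 (c) If `p (p v) = w`, `p v ≠ r`: `p v` is special (b), `v` is special (`d v = d w + 2`), so `1 <= lev v` (`spc_par`), `p v ∈ C`.
 (d) If `1 <= lev (p v)` and `d w < d v`: impossible: `v` is special; if `lev v = 0` then `spc_par` contradicts `1 <= lev (p v)`; otherwise
     `lev (p v) = 0` by `lev_par`.
(1) The sibling `w'`.  If `p w = r` take `w' = w`.  Otherwise let `x = p w ≠ r`, `x ∈ E1`.  `E1.filter (p v = x)` is even (`h.1.even`).  Its special
elements are all special vertices with parent `x`: `S.E.filter (Spc v ∧ p v = x)` (third condition of `Adm`), even by `even_spc`.  So the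
number of the `v ∈ E1` with `p v = x`, not special, is even, and contains `w`; let `w'` be another one.  In both cases `w' ∈ E1`, `w' ≠ r`,
`d w' = d w`, `w'` is not special, and the facts (0) hold for `w'` too (they only use that `w` is not special and its depth).
(2) `B v`: `v = w ∨ v = w' ∨ p v = w ∨ p v = w' ∨ (1 <= lev v ∧ (p (p v) = w ∨ p (p v) = w'))`.  `E2 = E1.filter (¬ B v)`.
Closed: root: `r ≠ w, w'`, `p r = r`, `lev r = 0` (`lev_spec`).
parents: `v ∈ E2`; if `v = r` clear.  `p v ∈ E1`, `p v ≠ w, w'`.  `p (p v) ≠ w`: otherwise `p v ≠ r` and by (c) `B v`.  Same for `w'`.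
`1 <= lev (p v)`, `p (p (p v)) = w` is impossible by (d) (`p v`, `p (p v)` are not `r`, `d v = d w + 3`).
even: let `x ≠ r`.
 - `x = w` or `x = w'`, or `p x = w` or `p x = w'`: the fibre `E2.filter (p v = x)` is empty (for `p x = w`: by (c) such a `v ∈ E1` has `B v`).
 - `x = p w`: `E2.filter (p v = x) = E1.filter (p v = x) \ {w, w'}`, where `w ≠ w'` as `p w = x ≠ r` (a `v` with `p v = x` and `B v`
   is `w` or `w'`: `p v = x = p w ≠ w`, `p (p v) = p x ≠ w` by depth).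
 - otherwise `E2.filter (p v = x) = E1.filter (p v = x)`.
Third condition of `Adm`: `v` special, `p v ∈ E2`, `p v ≠ r`: `v ∈ E1`, `v ≠ w, w'`, `p v ≠ w, w'` (`p v ∈ E2`), and `p (p v) = w` is excluded by
`p v ∈ E2`.
(3) `w, w' ∉ E2`.  `p w ∈ E2`: `p w ∈ E1`; if `p w = r` clear; otherwise `B (p w)` is excluded by depth: all of `p w`, `p (p w)`, `p (p (p w))` have
depth less than `d w` (or are `r`).
(4) `E1 = ...`: `v ∈ E1` with `B v`: `v = w`, `w'`, or `p v ∈ {w, w'}`: by (b) `v ∈ C`, so `v ∈ A`, or `v ∈ M`: `v = mt a`, `a ∈ C`, `p a = p v ∈ {w, w'}`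
(`M_spec`), so `v ∈ A.image mt`; or `1 <= lev v`, `p (p v) ∈ {w, w'}`: `p v ∈ C` (`lev_par`), `p v ∈ A`.
Conversely `A ⊆ E1`: `a` is special, `p a ∈ {w, w'} ⊆ E1`, not `r`; `mt a` likewise (`mt_mem`); and `1 <= lev v`, `p v ∈ A ⊆ E1`, `p v ≠ r`
(`C_spec`), so `v ∈ E1`.
-/

set_option autoImplicit false

open Finset

namespace Pool.Agent.H60.LN

open Pool.Agent.H57.SS Pool.Agent.H60.FN

private theorem CAdmB_sib {V J : Type*} [DecidableEq V] [AddCommGroup J] [DecidableEq J]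
    [Fintype J] (S : CS V J) {E1 : Finset V} (h : Adm S E1) {w : V} (hw : w ∈ E1)
    (hwr : w ≠ S.r) (hns : ¬ S.Spc w) :
    ∃ w' ∈ E1, w' ≠ S.r ∧ S.p w' = S.p w ∧ ¬ S.Spc w' ∧ S.d w' = S.d w ∧
      ((w' = w ∧ S.p w = S.r) ∨ (w' ≠ w ∧ S.p w ≠ S.r)) := by
  by_cases hp : S.p w = S.r
  · exact ⟨w, hw, hwr, rfl, hns, rfl, Or.inl ⟨rfl, hp⟩⟩
  · have hx : S.p w ∈ E1 := h.1.parent w hw
    have hF := h.1.even (S.p w) hp
    have hFs := S.even_spc hp
    have h1 : (E1.filter (fun v => S.p v = S.p w)).filter (fun v => S.Spc v) =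
        S.E.filter (fun v => S.Spc v ∧ S.p v = S.p w) := by
      ext v
      simp only [mem_filter]
      constructor
      · rintro ⟨⟨h2, h3⟩, h4⟩
        exact ⟨h.2.1 h2, h4, h3⟩
      · rintro ⟨_, h3, h4⟩
        exact ⟨⟨h.2.2 v h3 (by rw [h4]; exact hx) (by rw [h4]; exact hp), h4⟩, h3⟩
    have h2 := Finset.card_filter_add_card_filter_not (s := E1.filter (fun v => S.p v = S.p w))
      (fun v => S.Spc v)
    rw [h1] at h2
    have hwm : w ∈ (E1.filter (fun v => S.p v = S.p w)).filter (fun v => ¬ S.Spc v) := by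
      rw [mem_filter, mem_filter]
      exact ⟨⟨hw, rfl⟩, hns⟩
    have h3 : 0 < ((E1.filter (fun v => S.p v = S.p w)).filter (fun v => ¬ S.Spc v)).card :=
      card_pos.2 ⟨w, hwm⟩
    have h4 : 1 < ((E1.filter (fun v => S.p v = S.p w)).filter (fun v => ¬ S.Spc v)).card := by
      obtain ⟨a, ha⟩ := hF
      obtain ⟨b, hb⟩ := hFs
      omega
    obtain ⟨w', hw', hne⟩ := Finset.exists_mem_ne h4 w
    rw [mem_filter, mem_filter] at hw'
    have hr : w' ≠ S.r := by
      rintro rfl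
      exact hp (by rw [← hw'.1.2, S.hpr])
    refine ⟨w', hw'.1.1, hr, hw'.1.2, hw'.2, ?_, Or.inr ⟨hne, hp⟩⟩
    rw [S.hd w' hr, S.hd w hwr, hw'.1.2]

theorem adm_batch {V J : Type*} [DecidableEq V] [AddCommGroup J] [DecidableEq J] [Fintype J]
    (S : CS V J) {E1 : Finset V} (h : Adm S E1) {w : V} (hw : w ∈ E1) (hwr : w ≠ S.r)
    (hns : ¬ S.Spc w) (hmax : ∀ v ∈ E1, v ≠ S.r → ¬ S.Spc v → S.d v ≤ S.d w) :
    ∃ w' ∈ E1, S.p w' = S.p w ∧ ¬ S.Spc w' ∧
      ((w' = w ∧ S.p w = S.r) ∨ (w' ≠ w ∧ S.p w ≠ S.r)) ∧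
      ∃ E2 A : Finset V, Adm S E2 ∧ E2.card < E1.card ∧ w ∉ E2 ∧ w' ∉ E2 ∧ S.p w ∈ E2 ∧
        (∀ v ∈ E2, S.p v ≠ w ∧ S.p v ≠ w') ∧
        A = S.C.filter (fun a => S.p a = w ∨ S.p a = w') ∧
        E1 = insert w' (insert w E2) ∪ A ∪ A.image S.mt
          ∪ S.E.filter (fun v => 1 ≤ S.lev v ∧ S.p v ∈ A) := by
  obtain ⟨w', hw'E, hw'r, hpp, hns', hdd, hcase⟩ := CAdmB_sib S h hw hwr hns
  -- common facts for `w` and `w'`
  have hT : ∀ u, (u = w ∨ u = w') → u ∈ E1 ∧ u ≠ S.r ∧ ¬ S.Spc u ∧ S.d u = S.d w := by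
    rintro u (rfl | rfl)
    · exact ⟨hw, hwr, hns, rfl⟩
    · exact ⟨hw'E, hw'r, hns', hdd⟩
  have hlr : ¬ 1 ≤ S.lev S.r := fun h1 => (S.lev_spec S.r h1).2.2.1 rfl
  have hA : ∀ v ∈ E1, v ≠ S.r → S.d w < S.d v → S.Spc v := by
    intro v hv hvr hlt
    by_contra hc
    have := hmax v hv hvr hc
    omega
  have hB : ∀ v ∈ E1, (S.p v = w ∨ S.p v = w') → v ≠ S.r ∧ S.Spc v ∧ S.lev v = 0 := by
    intro v hv hpv
    have h1 := hT _ hpv
    have hvr : v ≠ S.r := by
      rintro rfl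
      exact h1.2.1 S.hpr
    have h2 := S.hd v hvr
    refine ⟨hvr, hA v hv hvr (by omega), ?_⟩
    by_contra hc
    exact h1.2.2.1 (Or.inl (S.lev_par (by omega : 1 ≤ S.lev v)).1)
  have hC : ∀ v ∈ E1, (S.p (S.p v) = w ∨ S.p (S.p v) = w') → S.p v ≠ S.r → 1 ≤ S.lev v := by
    intro v hv hpv hpr
    have h1 := hT _ hpv
    have hvr : v ≠ S.r := by
      rintro rfl
      exact hpr S.hpr
    have h2 := S.hd v hvr
    have h3 := S.hd (S.p v) hpr
    have h4 := hB (S.p v) (h.1.parent v hv) hpv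
    have h5 := hA v hv hvr (by omega)
    by_contra hc
    exact S.spc_par h5 (by omega) h4.2.1
  have hD : ∀ v ∈ E1, v ≠ S.r → 1 ≤ S.lev (S.p v) → ¬ S.d w < S.d v := by
    intro v hv hvr hl hlt
    have h5 := hA v hv hvr hlt
    by_cases h6 : S.lev v = 0
    · exact S.spc_par h5 h6 (Or.inr (Or.inr hl))
    · have := (S.lev_par (by omega : 1 ≤ S.lev v)).2
      omega
  -- the new set
  obtain ⟨E2, hE2⟩ : ∃ E2 : Finset V, ∀ v, v ∈ E2 ↔ v ∈ E1 ∧ ¬ (v = w ∨ v = w') ∧
      ¬ (S.p v = w ∨ S.p v = w') ∧ ¬ (1 ≤ S.lev v ∧ (S.p (S.p v) = w ∨ S.p (S.p v) = w')) := by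
    refine ⟨E1.filter (fun v => ¬ (v = w ∨ v = w') ∧
      ¬ (S.p v = w ∨ S.p v = w') ∧ ¬ (1 ≤ S.lev v ∧ (S.p (S.p v) = w ∨ S.p (S.p v) = w'))), ?_⟩
    intro v
    rw [mem_filter]
  have hrE2 : S.r ∈ E2 := by
    rw [hE2, S.hpr]
    refine ⟨h.1.root, fun h1 => (hT _ h1).2.1 rfl, fun h1 => (hT _ h1).2.1 rfl, fun h1 => hlr h1.1⟩
  have hpar : ∀ v ∈ E2, S.p v ∈ E2 := by
    intro v hv
    rw [hE2] at hv
    obtain ⟨hv1, hv2, hv3, hv4⟩ := hv
    rw [hE2]
    refine ⟨h.1.parent v hv1, hv3, ?_, ?_⟩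
    · intro h1
      by_cases hpr : S.p v = S.r
      · rw [hpr, S.hpr] at h1
        exact (hT _ h1).2.1 rfl
      · exact hv4 ⟨hC v hv1 h1 hpr, h1⟩
    · rintro ⟨h1, h2⟩
      have hpr : S.p v ≠ S.r := (S.lev_spec _ h1).2.2.1
      have hvr : v ≠ S.r := by
        rintro rfl
        exact hpr S.hpr
      have hppr : S.p (S.p v) ≠ S.r := by
        intro h3
        rw [h3, S.hpr] at h2
        exact (hT _ h2).2.1 rfl
      have h3 := (hT _ h2).2.2.2
      have h4 := S.hd v hvr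
      have h5 := S.hd _ hpr
      have h6 := S.hd _ hppr
      exact hD v hv1 hvr h1 (by omega)
  have hwE2 : w ∉ E2 := by
    rw [hE2]
    exact fun h1 => h1.2.1 (Or.inl rfl)
  have hw'E2 : w' ∉ E2 := by
    rw [hE2]
    exact fun h1 => h1.2.1 (Or.inr rfl)
  have hTE2 : ∀ u, (u = w ∨ u = w') → u ∉ E2 := by
    rintro u (rfl | rfl)
    · exact hwE2
    · exact hw'E2
  have hsub : E2 ⊆ E1 := fun v hv => ((hE2 v).1 hv).1
  have heven : ∀ x, x ≠ S.r → Even (E2.filter (fun v => S.p v = x)).card := by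
    intro x hx
    by_cases h1 : x = w ∨ x = w'
    · have h2 : E2.filter (fun v => S.p v = x) = ∅ := by
        rw [filter_eq_empty_iff]
        intro v hv h3
        rw [hE2] at hv
        exact hv.2.2.1 (by rw [h3]; exact h1)
      rw [h2, card_empty]
      exact ⟨0, rfl⟩
    by_cases h2 : S.p x = w ∨ S.p x = w'
    · have h3 : E2.filter (fun v => S.p v = x) = ∅ := by
        rw [filter_eq_empty_iff]
        intro v hv h4
        rw [hE2] at hv
        have h5 : S.p (S.p v) = w ∨ S.p (S.p v) = w' := by rw [h4]; exact h2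
        exact hv.2.2.2 ⟨hC v hv.1 h5 (by rw [h4]; exact hx), h5⟩
      rw [h3, card_empty]
      exact ⟨0, rfl⟩
    have hmem : ∀ v, v ∈ E2.filter (fun v => S.p v = x) ↔
        v ∈ E1.filter (fun v => S.p v = x) ∧ v ≠ w ∧ v ≠ w' := by
      intro v
      rw [mem_filter, mem_filter, hE2]
      constructor
      · rintro ⟨⟨h3, h4, _, _⟩, h5⟩
        exact ⟨⟨h3, h5⟩, fun h6 => h4 (Or.inl h6), fun h6 => h4 (Or.inr h6)⟩
      · rintro ⟨⟨h3, h5⟩, h6, h7⟩
        refine ⟨⟨h3, fun h8 => h8.elim h6 h7, ?_, ?_⟩, h5⟩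
        · rw [h5]
          exact h1
        · rw [h5]
          exact fun h8 => h2 h8.2
    by_cases h3 : x = S.p w
    · have hne : w' ≠ w := by
        rcases hcase with h4 | h4
        · exact absurd (h3.trans h4.2) hx
        · exact h4.1
      have h4 : E2.filter (fun v => S.p v = x) =
          ((E1.filter (fun v => S.p v = x)).erase w').erase w := by
        ext v
        rw [hmem v, mem_erase, mem_erase]
        tauto
      rw [h4, card_erase_of_mem, card_erase_of_mem]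
      · obtain ⟨k, hk⟩ := h.1.even x hx
        exact ⟨k - 1, by omega⟩
      · exact mem_filter.2 ⟨hw'E, by rw [hpp, h3]⟩
      · exact mem_erase.2 ⟨hne.symm, mem_filter.2 ⟨hw, h3.symm⟩⟩
    · have h4 : E2.filter (fun v => S.p v = x) = E1.filter (fun v => S.p v = x) := by
        ext v
        rw [hmem v]
        constructor
        · exact fun h5 => h5.1
        · intro h5
          refine ⟨h5, ?_, ?_⟩
          · rintro rfl
            exact h3 (mem_filter.1 h5).2.symm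
          · rintro rfl
            exact h3 (by rw [← hpp]; exact (mem_filter.1 h5).2.symm)
      rw [h4]
      exact h.1.even x hx
  have hadm : Adm S E2 := by
    refine ⟨⟨hrE2, hpar, heven⟩, fun v hv => h.2.1 (hsub hv), ?_⟩
    intro v hv hpv hpr
    have hv1 : v ∈ E1 := h.2.2 v hv (hsub hpv) hpr
    rw [hE2]
    refine ⟨hv1, fun h1 => (hT _ h1).2.2.1 hv, fun h1 => hTE2 _ h1 hpv, ?_⟩
    rintro ⟨_, h2⟩
    rw [hE2] at hpv
    exact hpv.2.2.1 h2
  have hpw : S.p w ∈ E2 := by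
    by_cases hpr : S.p w = S.r
    · rw [hpr]
      exact hrE2
    · have h0 := S.hd w hwr
      rw [hE2]
      refine ⟨h.1.parent w hw, ?_, ?_, ?_⟩
      · intro h1
        have := (hT _ h1).2.2.2
        omega
      · intro h1
        have h2 := (hT _ h1).2.2.2
        have h3 := S.hd _ hpr
        omega
      · rintro ⟨_, h1⟩
        have h2 := (hT _ h1).2.2.2
        have h3 := S.hd _ hpr
        have hppr : S.p (S.p w) ≠ S.r := by
          intro h4
          rw [h4, S.hpr] at h1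
          exact (hT _ h1).2.1 rfl
        have h4 := S.hd _ hppr
        omega
  refine ⟨w', hw'E, hpp, hns', hcase, E2, S.C.filter (fun a => S.p a = w ∨ S.p a = w'), hadm,
    card_lt_card ⟨hsub, fun hc => hwE2 (hc hw)⟩, hwE2, hw'E2, hpw, ?_, rfl, ?_⟩
  · intro v hv
    rw [hE2] at hv
    exact ⟨fun h1 => hv.2.2.1 (Or.inl h1), fun h1 => hv.2.2.1 (Or.inr h1)⟩
  · have hAE : ∀ a ∈ S.C.filter (fun a => S.p a = w ∨ S.p a = w'), a ∈ E1 := by
      intro a ha
      rw [mem_filter] at ha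
      exact h.2.2 a (Or.inl ha.1) (hT _ ha.2).1 (hT _ ha.2).2.1
    ext v
    simp only [mem_union, mem_insert, mem_image]
    constructor
    · intro hv
      by_cases h1 : v = w ∨ v = w'
      · rcases h1 with h1 | h1
        · exact Or.inl (Or.inl (Or.inl (Or.inr (Or.inl h1))))
        · exact Or.inl (Or.inl (Or.inl (Or.inl h1)))
      by_cases h2 : S.p v = w ∨ S.p v = w'
      · have h3 := hB v hv h2
        rcases h3.2.1 with h4 | h4 | h4
        · exact Or.inl (Or.inl (Or.inr (mem_filter.2 ⟨h4, h2⟩)))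
        · obtain ⟨a, ha, _, hmt, hpa, _⟩ := S.M_spec h4
          exact Or.inl (Or.inr ⟨a, mem_filter.2 ⟨ha, by rw [← hpa]; exact h2⟩, hmt⟩)
        · exact absurd h3.2.2 (by omega)
      by_cases h3 : 1 ≤ S.lev v ∧ (S.p (S.p v) = w ∨ S.p (S.p v) = w')
      · exact Or.inr (mem_filter.2 ⟨h.2.1 hv, h3.1, mem_filter.2 ⟨(S.lev_par h3.1).1, h3.2⟩⟩)
      · exact Or.inl (Or.inl (Or.inl (Or.inr (Or.inr ((hE2 v).2 ⟨hv, h1, h2, h3⟩)))))
    · rintro ((((h1 | h1 | h1) | h1) | ⟨a, ha, hmt⟩) | h1)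
      · rw [h1]; exact hw'E
      · rw [h1]; exact hw
      · exact hsub h1
      · exact hAE v h1
      · have ha' := (mem_filter.1 ha).2
        have hm := S.mt_mem (mem_filter.1 ha).1 (hT _ ha').2.1
        rw [hmt] at hm
        exact h.2.2 v (Or.inr (Or.inl hm.1)) (by rw [hm.2]; exact (hT _ ha').1)
          (by rw [hm.2]; exact (hT _ ha').2.1)
      · rw [mem_filter] at h1
        exact h.2.2 v (Or.inr (Or.inr h1.2.1)) (hAE _ h1.2.2)
          (S.C_spec (mem_filter.1 h1.2.2).1).2.1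

end Pool.Agent.H60.LN
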