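import Mathlib
import Pool.Agent.H60.LN.Defs

/-!
# LNCap: adding labels keeps the cap

Proof.  Let `x ∉ Z L`.
* `cap_insert_Z`: `z ∈ Z L` is not in `cst x`: otherwise `x + z ∈ Z (reg x) ⊆ Z L` (`D.monotone`, `reg_le`) and
  `x = (x + z) + z ∈ Z L`.  So `insert z U ∩ cst x = U ∩ cst x`.
* `cap_insert2`: `a ∉ blk U` means `a ∉ Z L` and `16 * ((U ∩ cst a).card + 2) <= (cst a).card`.  If neither `a` nor
  `b` is in `cst x` the intersection does not change.  If for instance `a ∈ cst x` then `cst x = cst a`
  (`cst_eq`) and `(insert b (insert a U) ∩ cst x).card <= (U ∩ cst a).card + 2`.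
* `cap_insert` is `cap_insert2` with `b = a`.
-/

set_option autoImplicit false

open Finset

namespace Pool.Agent.H60.LN

variable {J : Type*} [AddCommGroup J] [DecidableEq J] [Fintype J]

theorem cap_insert_Z (D : Lv J) {U : Finset J} (h : D.CapOK U) {z : J} (hz : z ∈ D.Z D.L) :
    D.CapOK (insert z U) := by
  intro x hx
  have hzx : z ∉ D.cst x := by
    intro h1
    apply hx
    have h2 : x + z ∈ D.Z D.L := D.monotone (D.reg_le x) (mem_tr.1 h1)
    have h3 := D.add _ _ h2 _ hz
    rwa [add_assoc, D.dbl, add_zero] at h3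
  rw [Finset.insert_inter_of_notMem hzx]
  exact h x hx

private theorem Cap_le2 (U C : Finset J) (a b : J) :
    (insert b (insert a U) ∩ C).card ≤ (U ∩ C).card + 2 := by
  have h1 : insert b (insert a U) ∩ C ⊆ insert b (insert a (U ∩ C)) := by
    intro w hw
    rw [Finset.mem_inter, Finset.mem_insert, Finset.mem_insert] at hw
    rw [Finset.mem_insert, Finset.mem_insert, Finset.mem_inter]
    rcases hw with ⟨h | h | h, hC⟩
    · exact Or.inl h
    · exact Or.inr (Or.inl h)
    · exact Or.inr (Or.inr ⟨h, hC⟩)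
  refine le_trans (Finset.card_le_card h1) ?_
  refine le_trans (Finset.card_insert_le _ _) ?_
  have := Finset.card_insert_le a (U ∩ C)
  omega

private theorem Cap_blk (D : Lv J) {U : Finset J} {a : J} (ha : a ∉ D.blk U) :
    16 * ((U ∩ D.cst a).card + 2) ≤ (D.cst a).card := by
  unfold Lv.blk at ha
  rw [Finset.mem_filter, not_and] at ha
  have := ha (Finset.mem_univ a)
  rw [not_or, not_lt] at this
  exact this.2

theorem cap_insert2 (D : Lv J) {U : Finset J} (h : D.CapOK U) {a b : J} (ha : a ∉ D.blk U)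
    (hb : b ∉ D.blk U) : D.CapOK (insert b (insert a U)) := by
  intro x hx
  have h2 := Cap_le2 U (D.cst x) a b
  by_cases hax : a ∈ D.cst x
  · have h3 := D.cst_eq hax (D.self_mem_cst a)
    have h4 := Cap_blk D ha
    rw [← h3] at h4
    omega
  · by_cases hbx : b ∈ D.cst x
    · have h3 := D.cst_eq hbx (D.self_mem_cst b)
      have h4 := Cap_blk D hb
      rw [← h3] at h4
      omega
    · rw [Finset.insert_inter_of_notMem hbx, Finset.insert_inter_of_notMem hax]
      exact h x hx

theorem cap_insert (D : Lv J) {U : Finset J} (h : D.CapOK U) {a : J} (ha : a ∉ D.blk U) :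
    D.CapOK (insert a U) := by
  have h1 := cap_insert2 D h ha ha
  rwa [Finset.insert_eq_of_mem (Finset.mem_insert_self a U)] at h1

end Pool.Agent.H60.LN
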