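import Mathlib
import Pool.Agent.H60.FN.Add
import Pool.Agent.H60.LN.CLem
import Pool.Agent.H60.LN.Blk
import Pool.Agent.H60.LN.Cap

/-!
# CAttach: labelling special children `a ∈ C` of a vertex `w` together with their mates
-/

set_option autoImplicit false

open Finset

namespace Pool.Agent.H60.LN

open Pool.Agent.H57.SS Pool.Agent.H60.FN

section

variable {V J : Type*} [DecidableEq V] [AddCommGroup J] [DecidableEq J] [Fintype J]

private theorem CAttach_inter (D : Lv J) {U W : Finset J} {x y : J} (hy : y ∉ D.Z D.L)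
    (hx : x ∈ D.Z D.L) (hW : W ⊆ D.Z D.L) :
    insert (x + y) (insert x U) ∩ tr y W =
      if x ∈ W then insert (x + y) (U ∩ tr y W) else U ∩ tr y W := by
  have hxy : y + (x + y) = x := by
    rw [add_comm x y, ← add_assoc, D.dbl, zero_add]
  have h1 : x ∉ tr y W := by
    intro h
    apply hy
    have h2 := D.add _ _ (hW (mem_tr.1 h)) _ hx
    rwa [add_assoc, D.dbl, add_zero] at h2
  split_ifs with h
  · rw [Finset.insert_inter_of_mem (by rw [mem_tr, hxy]; exact h),
      Finset.insert_inter_of_notMem h1]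
  · rw [Finset.insert_inter_of_notMem (by rw [mem_tr, hxy]; exact h),
      Finset.insert_inter_of_notMem h1]

private theorem CAttach_pick (S : CS V J) {U : Finset J} {y : J} (hy : y ∉ S.D.Z S.D.L) {ℓ : ℕ}
    (h1 : 1 ≤ ℓ) (h2 : ℓ ≤ S.D.L)
    (hQ : 2 ^ 8 * (U ∩ tr y (S.Q ℓ)).card ≤ (S.Q ℓ).card)
    (hZ : ∀ i, 1 ≤ i → i ≤ S.D.L → 2 ^ 8 * (U ∩ tr y (S.D.Z i)).card ≤ (S.D.Z i).card) :
    ∃ x ∈ S.Q ℓ, x ∉ S.D.Z (ℓ - 1) ∧ x + y ∉ U ∧ x + y ∉ S.D.blk U := by
  have hloc := blk_local S.D U (S.Q ℓ) (S.Q0 ℓ) (S.Qadd ℓ)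
    (fun i => by
      rcases lt_or_ge i ℓ with h | h
      · exact Or.inl (S.Z_Q h)
      · exact Or.inr ((S.QZ ℓ).trans (S.D.monotone h)))
    ((S.QZ ℓ).trans (S.D.monotone h2)) hy (by
      intro i hi1 hi2 _
      have hg := hZ i hi1 hi2
      have hb := S.D.big i hi1 hi2
      have hp : 2 ^ 40 ≤ 2 ^ (40 * i) := Nat.pow_le_pow_right (by norm_num) (by omega)
      omega)
  have hSc : ((U ∪ S.D.blk U) ∩ tr y (S.Q ℓ)).card ≤ 33 * (U ∩ tr y (S.Q ℓ)).card := by
    rw [Finset.union_inter_distrib_right]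
    refine (Finset.card_union_le _ _).trans ?_
    omega
  have hq := S.Qcard ℓ h1 h2
  have hz : 1 ≤ (S.D.Z (ℓ - 1)).card := Finset.card_pos.2 ⟨0, S.D.zero _⟩
  have himg : (((S.Q ℓ \ S.D.Z (ℓ - 1)).image (fun z => z + y))).card =
      (S.Q ℓ \ S.D.Z (ℓ - 1)).card :=
    Finset.card_image_of_injective _ (add_left_injective y)
  have hsd := Finset.le_card_sdiff (S.D.Z (ℓ - 1)) (S.Q ℓ)
  have hlt : ((U ∪ S.D.blk U) ∩ tr y (S.Q ℓ)).card <
      ((S.Q ℓ \ S.D.Z (ℓ - 1)).image (fun z => z + y)).card := by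
    rw [himg]
    omega
  obtain ⟨v, hv, hvS⟩ := Finset.exists_mem_notMem_of_card_lt_card hlt
  obtain ⟨x, hx, rfl⟩ := Finset.mem_image.1 hv
  obtain ⟨hx1, hx2⟩ := Finset.mem_sdiff.1 hx
  have hxy : y + (x + y) = x := by
    rw [add_comm x y, ← add_assoc, S.D.dbl, zero_add]
  have hmem : x + y ∈ tr y (S.Q ℓ) := by rw [mem_tr, hxy]; exact hx1
  refine ⟨x, hx1, hx2, fun h => hvS ?_, fun h => hvS ?_⟩
  · exact Finset.mem_inter.2 ⟨Finset.mem_union_left _ h, hmem⟩
  · exact Finset.mem_inter.2 ⟨Finset.mem_union_right _ h, hmem⟩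

private theorem CAttach_filter {K : Finset V} {a : V} (ha : a ∈ K) (P : V → Prop)
    [DecidablePred P] (hP : P a) :
    ((K.erase a).filter P).card + 1 = (K.filter P).card := by
  rw [Finset.filter_erase]
  exact Finset.card_erase_add_one (Finset.mem_filter.2 ⟨ha, hP⟩)

theorem C_attach (S : CS V J) {w : V} (hwr : w ≠ S.r) (n : ℕ) :
    ∀ (E1 K : Finset V) (g : V → J), S.r ∈ E1 → (∀ v ∈ E1, S.p v ∈ E1) → w ∈ E1 →
      CSt S E1 g → g w ∉ S.D.Z S.D.L → K.card = n → K ⊆ S.C → (∀ a ∈ K, S.p a = w) →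
      Disjoint E1 K → Disjoint E1 (K.image S.mt) →
      (∀ i, 1 ≤ i → i ≤ S.D.L → 2 ^ 8 * ((E1.image g ∩ tr (g w) (S.Q i)).card
        + (K.filter (fun a => a ∈ (Finset.Icc 1 i).image S.cu)).card) ≤ (S.Q i).card) →
      (∀ i, 1 ≤ i → i ≤ S.D.L → 2 ^ 8 * ((E1.image g ∩ tr (g w) (S.D.Z i)).card
        + (K.filter (fun a => a ∈ (Finset.Icc 1 i).image S.cu)).card) ≤ (S.D.Z i).card) →
      ∃ g2 : V → J, (∀ v ∈ E1, g2 v = g v) ∧ CSt S (E1 ∪ K ∪ K.image S.mt) g2 ∧
        ∀ v ∈ K ∪ K.image S.mt, g2 v ∈ S.D.Z S.D.L ∨ g w + g2 v ∈ S.D.Z S.D.L := by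
  induction n with
  | zero =>
    intro E1 K g _ _ _ hst _ hK _ _ _ _ _ _
    rw [Finset.card_eq_zero] at hK
    subst hK
    refine ⟨g, fun _ _ => rfl, ?_, ?_⟩
    · rw [Finset.image_empty, Finset.union_empty, Finset.union_empty]
      exact hst
    · intro v hv
      rw [Finset.image_empty, Finset.union_empty] at hv
      exact absurd hv (Finset.notMem_empty v)
  | succ n ih =>
    intro E1 K g hr hpE hw hst hgw hK hKC hKp hdK hdM hbQ hbZ
    obtain ⟨a, haK⟩ : K.Nonempty := by
      rw [← Finset.card_pos]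
      omega
    have haC : a ∈ S.C := hKC haK
    have hpa : S.p a = w := hKp a haK
    have hpar : S.p a ≠ S.r := by rw [hpa]; exact hwr
    obtain ⟨ℓ, hmn, _⟩ := S.exists_mn haC
    obtain ⟨hl1, hlL, hcu, hmin⟩ := hmn
    have hmn : S.IsMn ℓ a := ⟨hl1, hlL, hcu, hmin⟩
    obtain ⟨hbM, hpb⟩ := S.mt_mem haC hpar
    obtain ⟨b, hb⟩ : ∃ b, b = S.mt a := ⟨_, rfl⟩
    rw [← hb] at hbM hpb
    obtain ⟨_, _, _, _, _, hlevb, hbC, _⟩ := S.M_spec hbM
    have haE : a ∉ E1 := fun h => (Finset.disjoint_left.1 hdK) h haK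
    have hbE : b ∉ E1 := fun h => (Finset.disjoint_left.1 hdM) h
      (hb ▸ Finset.mem_image_of_mem S.mt haK)
    have hne : a ≠ b := fun h => hbC (h ▸ haC)
    have hleva : S.lev a = 0 := (S.C_spec haC).2.2
    obtain ⟨x, hxQ, hxZ, hxyU, hxyB⟩ := CAttach_pick S hgw hl1 hlL
      (le_trans (Nat.mul_le_mul_left _ (Nat.le_add_right _ _)) (hbQ ℓ hl1 hlL))
      (fun i hi1 hiL => le_trans (Nat.mul_le_mul_left _ (Nat.le_add_right _ _)) (hbZ i hi1 hiL))
    have hxU : x ∉ E1.image g := hst.ann_unused hmn haE hxQ hxZ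
    have hxL : x ∈ S.D.Z S.D.L := S.D.monotone hlL (S.QZ ℓ hxQ)
    have hlab := lab_add_two S.D.dbl hr hpE hst.lab haE hbE hne (by rw [hpa]; exact hw)
      (by rw [hpa]; exact hwr) hpb hxU (by rw [hpa]; exact hxyU)
    rw [hpa] at hlab
    obtain ⟨g1, hg1⟩ : ∃ g1 : V → J,
        g1 = Function.update (Function.update g a x) b (x + g w) := ⟨_, rfl⟩
    rw [← hg1] at hlab
    have hg1b : g1 b = x + g w := by rw [hg1, Function.update_self]
    have hg1a : g1 a = x := by rw [hg1, Function.update_of_ne hne, Function.update_self]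
    have hg1E : ∀ v ∈ E1, g1 v = g v := by
      intro v hv
      rw [hg1, Function.update_of_ne (fun h3 : v = b => hbE (h3 ▸ hv)),
        Function.update_of_ne (fun h3 : v = a => haE (h3 ▸ hv))]
    have hg1w : g1 w = g w := hg1E w hw
    have himgE : E1.image g1 = E1.image g := Finset.image_congr (fun v hv => hg1E v hv)
    have himg : (insert b (insert a E1)).image g1 =
        insert (x + g w) (insert x (E1.image g)) := by
      rw [Finset.image_insert, Finset.image_insert, hg1b, hg1a, himgE]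
    have hxyL : x + g w ∉ S.D.Z S.D.L := by
      intro h3
      apply hgw
      have h4 := S.D.add _ _ hxL _ h3
      rwa [← add_assoc, S.D.dbl, zero_add] at h4
    have hst1 : CSt S (insert b (insert a E1)) g1 := by
      refine ⟨hlab, ?_, ?_, ?_, ?_⟩
      · rw [himg, Finset.insert_comm]
        exact cap_insert_Z S.D (cap_insert S.D hst.cap hxyB) hxL
      · intro v hv hvZ
        rw [Finset.mem_insert, Finset.mem_insert] at hv
        rcases hv with rfl | rfl | hv
        · rw [hg1b] at hvZ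
          exact absurd hvZ hxyL
        · exact Or.inr (Or.inl haC)
        · rw [hg1E v hv] at hvZ
          exact hst.pure v hv hvZ
      · intro v hv i hi
        rw [Finset.mem_insert, Finset.mem_insert] at hv
        rcases hv with rfl | rfl | hv
        · exact absurd (S.mn_C hi) hbC
        · have h3 := S.mn_unique hmn hi
          subst h3
          rw [hg1a]
          exact ⟨hxQ, hxZ⟩
        · rw [hg1E v hv]
          exact hst.uq v hv i hi
      · intro v hv hi
        rw [Finset.mem_insert, Finset.mem_insert] at hv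
        rcases hv with rfl | rfl | hv
        · omega
        · omega
        · rw [hg1E v hv]
          exact hst.sv v hv hi
    have hmtC : ∀ c ∈ K.erase a, S.mt c ∉ S.C ∧ S.mt c ≠ b := by
      intro c hc
      obtain ⟨hca, hcK⟩ := Finset.mem_erase.1 hc
      have hcC := hKC hcK
      have hpc : S.p c ≠ S.r := by rw [hKp c hcK]; exact hwr
      obtain ⟨hm, _⟩ := S.mt_mem hcC hpc
      obtain ⟨_, _, _, _, _, _, hmC, _⟩ := S.M_spec hm
      refine ⟨hmC, fun h => hca (S.mt_injOn hcC haC hpc hpar ?_)⟩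
      rw [h, hb]
    have hbud : ∀ (W : Finset J) (i : ℕ), W ⊆ S.D.Z S.D.L → (x ∈ W → ℓ ≤ i) →
        2 ^ 8 * ((E1.image g ∩ tr (g w) W).card
          + (K.filter (fun a => a ∈ (Finset.Icc 1 i).image S.cu)).card) ≤ W.card →
        2 ^ 8 * (((insert b (insert a E1)).image g1 ∩ tr (g1 w) W).card
          + ((K.erase a).filter (fun a => a ∈ (Finset.Icc 1 i).image S.cu)).card) ≤ W.card := by
      intro W i hW hxW h3
      rw [himg, hg1w, CAttach_inter S.D hgw hxL hW]
      refine le_trans (Nat.mul_le_mul_left _ ?_) h3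
      split_ifs with h4
      · have h5 : a ∈ (Finset.Icc 1 i).image S.cu :=
          Finset.mem_image.2 ⟨ℓ, Finset.mem_Icc.2 ⟨hl1, hxW h4⟩, hcu⟩
        have h6 := CAttach_filter haK (fun a => a ∈ (Finset.Icc 1 i).image S.cu) h5
        have h7 := Finset.card_insert_le (x + g w) (E1.image g ∩ tr (g w) W)
        omega
      · have h5 : ((K.erase a).filter (fun a => a ∈ (Finset.Icc 1 i).image S.cu)).card
            ≤ (K.filter (fun a => a ∈ (Finset.Icc 1 i).image S.cu)).card :=
          Finset.card_le_card (Finset.filter_subset_filter _ (Finset.erase_subset _ _))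
        omega
    obtain ⟨g2, hg2, hst2, hloc2⟩ :=
      ih (insert b (insert a E1)) (K.erase a) g1
        (Finset.mem_insert_of_mem (Finset.mem_insert_of_mem hr))
        (by
          intro v hv
          rw [Finset.mem_insert, Finset.mem_insert] at hv
          apply Finset.mem_insert_of_mem
          apply Finset.mem_insert_of_mem
          rcases hv with rfl | rfl | hv
          · rw [hpb, hpa]; exact hw
          · rw [hpa]; exact hw
          · exact hpE v hv)
        (Finset.mem_insert_of_mem (Finset.mem_insert_of_mem hw)) hst1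
        (by rw [hg1w]; exact hgw)
        (by rw [Finset.card_erase_of_mem haK]; omega)
        ((Finset.erase_subset _ _).trans hKC)
        (fun c hc => hKp c (Finset.mem_of_mem_erase hc))
        (by
          rw [Finset.disjoint_left]
          intro c hc hcK
          rw [Finset.mem_erase] at hcK
          rw [Finset.mem_insert, Finset.mem_insert] at hc
          rcases hc with h3 | h3 | h3
          · exact hbC (h3 ▸ hKC hcK.2)
          · exact hcK.1 h3
          · exact (Finset.disjoint_left.1 hdK) h3 hcK.2)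
        (by
          rw [Finset.disjoint_left]
          intro v hv hvM
          obtain ⟨c, hc, hcv⟩ := Finset.mem_image.1 hvM
          obtain ⟨h4, h5⟩ := hmtC c hc
          rw [hcv] at h4 h5
          rw [Finset.mem_insert, Finset.mem_insert] at hv
          rcases hv with h3 | h3 | h3
          · exact h5 h3
          · exact h4 (h3 ▸ haC)
          · exact (Finset.disjoint_left.1 hdM) h3
              (Finset.mem_image.2 ⟨c, Finset.mem_of_mem_erase hc, hcv⟩))
        (fun i hi1 hiL => hbud (S.Q i) i ((S.QZ i).trans (S.D.monotone hiL))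
          (fun h => by
            by_contra h3
            exact hxZ (S.D.monotone (by omega) (S.QZ i h))) (hbQ i hi1 hiL))
        (fun i hi1 hiL => hbud (S.D.Z i) i (S.D.monotone hiL)
          (fun h => by
            by_contra h3
            exact hxZ (S.D.monotone (by omega) h)) (hbZ i hi1 hiL))
    have hKe : insert a (K.erase a) = K := Finset.insert_erase haK
    have hset : insert b (insert a E1) ∪ K.erase a ∪ (K.erase a).image S.mt =
        E1 ∪ K ∪ K.image S.mt := by
      conv_rhs => rw [← hKe, Finset.image_insert, ← hb]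
      ext v
      simp only [Finset.mem_union, Finset.mem_insert]
      tauto
    refine ⟨g2, ?_, ?_, ?_⟩
    · intro v hv
      rw [hg2 v (Finset.mem_insert_of_mem (Finset.mem_insert_of_mem hv)), hg1E v hv]
    · rw [← hset]
      exact hst2
    · intro v hv
      have h3 : v = a ∨ v = b ∨ v ∈ K.erase a ∪ (K.erase a).image S.mt := by
        rw [← hKe, Finset.image_insert, ← hb] at hv
        simp only [Finset.mem_union, Finset.mem_insert] at hv ⊢
        tauto
      rcases h3 with h3 | h3 | h3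
      · left
        rw [h3, hg2 a (by simp), hg1a]
        exact hxL
      · right
        rw [h3, hg2 b (by simp), hg1b, add_comm x (g w), ← add_assoc, S.D.dbl, zero_add]
        exact hxL
      · have h4 := hloc2 v h3
        rwa [hg1w] at h4

end

end Pool.Agent.H60.LN
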