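import Mathlib
import Pool.Agent.H60.FN.BStep
import Pool.Agent.H60.LN.CLem
import Pool.Agent.H60.LN.Blk
import Pool.Agent.H60.LN.Cap

/-!
# CPair: a pair of siblings which are not special

Proof of `good_pair2`.  Compare `exists_good_pair` in `Pool/Agent/H60/LN/Avail.lean`.  `u = U.card`.  The bad `x` are those in `U`,
`blk U` (at most `32 * u + (Z L).card`, `blk_card`), in the sets of `maxi` with `F = Z` and with `F = Q`, `D = 2 ^ 27`, `n = L` (at most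
`2 ^ 27 * u` each), and those with `x + y` in one of these sets: at most
`2 * (33 * u + (Z L).card + 2 ^ 28 * u) <= 2 ^ 30 * u + 2 * (Z L).card < card J`.

Proof of `C_pair`.  Compare `S_pair` in `Pool/Agent/H60/LN/SBatch.lean`.  `U = E1.image g`, `U.card <= E1.card <= E.card`, so `S.size` gives
the hypothesis of `good_pair2` with `y = g (p w)` (`Q_mono`).  `lab_pair` gives `g1`.  The new labels are not in `blk U ⊇ Z L`: pure,
cap (`cap_insert2`; the image is `insert (x + y) (insert x U)`).  uq: `IsMn i w` gives `w ∈ C`, but `w` is not special; the same for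
`w'`.  sv: `lev w = lev w' = 0` as they are not special.
-/

set_option autoImplicit false

open Finset

namespace Pool.Agent.H60.LN

open Pool.Agent.H57.SS Pool.Agent.H60.FN

section

variable {V J : Type*} [DecidableEq V] [AddCommGroup J] [DecidableEq J] [Fintype J]

omit [DecidableEq V] in
theorem good_pair2 (D : Lv J) (Q : ℕ → Finset J) (Q0 : ∀ ℓ, (0 : J) ∈ Q ℓ)
    (Qadd : ∀ ℓ, ∀ x ∈ Q ℓ, ∀ y ∈ Q ℓ, x + y ∈ Q ℓ) (Qm : ∀ i, Q i ⊆ Q (i + 1)) (U : Finset J)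
    (y : J) (hsize : 2 ^ 30 * U.card + 2 * (D.Z D.L).card < Fintype.card J) :
    ∃ x : J, x ∉ U ∧ x ∉ D.blk U ∧ x + y ∉ U ∧ x + y ∉ D.blk U ∧
      ∀ i, 1 ≤ i → i ≤ D.L → 2 ^ 27 * (U ∩ tr x (D.Z i)).card ≤ (D.Z i).card ∧
        2 ^ 27 * (U ∩ tr (x + y) (D.Z i)).card ≤ (D.Z i).card ∧
        2 ^ 27 * (U ∩ tr x (Q i)).card ≤ (Q i).card ∧
        2 ^ 27 * (U ∩ tr (x + y) (Q i)).card ≤ (Q i).card := by
  classical
  obtain ⟨MZ, hMZ⟩ : ∃ M : Finset J, M = univ.filter (fun x => ∃ i ≤ D.L,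
      (D.Z i).card < 2 ^ 27 * (U ∩ tr x (D.Z i)).card) := ⟨_, rfl⟩
  obtain ⟨MQ, hMQ⟩ : ∃ M : Finset J, M = univ.filter (fun x => ∃ i ≤ D.L,
      (Q i).card < 2 ^ 27 * (U ∩ tr x (Q i)).card) := ⟨_, rfl⟩
  have h1 : MZ.card ≤ 2 ^ 27 * U.card := by
    rw [hMZ]
    exact maxi D.dbl D.Z D.zero D.add D.mono (2 ^ 27) D.L U
  have h2 : MQ.card ≤ 2 ^ 27 * U.card := by
    rw [hMQ]
    exact maxi D.dbl Q Q0 Qadd Qm (2 ^ 27) D.L U
  have h3 := blk_card D U
  obtain ⟨B, hB⟩ : ∃ B : Finset J, B = U ∪ D.blk U ∪ MZ ∪ MQ := ⟨_, rfl⟩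
  have h4 : B.card ≤ U.card + (D.blk U).card + MZ.card + MQ.card := by
    rw [hB]
    have e1 := card_union_le (U ∪ D.blk U ∪ MZ) MQ
    have e2 := card_union_le (U ∪ D.blk U) MZ
    have e3 := card_union_le U (D.blk U)
    omega
  have h5 : (B ∪ B.image (fun x => x + y)).card ≤ 2 * B.card := by
    have e1 := card_union_le B (B.image (fun x => x + y))
    have e2 : (B.image (fun x => x + y)).card ≤ B.card := card_image_le
    omega
  have h6 : (B ∪ B.image (fun x => x + y)).card < Fintype.card J := by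
    refine lt_of_le_of_lt ?_ hsize
    have e1 : 2 * B.card ≤ 2 ^ 30 * U.card + 2 * (D.Z D.L).card := by
      have e0 : (2 : ℕ) ^ 27 = 134217728 := by norm_num
      have e00 : (2 : ℕ) ^ 30 = 1073741824 := by norm_num
      rw [e0] at h1 h2
      rw [e00]
      omega
    exact h5.trans e1
  obtain ⟨x, hx⟩ : ∃ x : J, x ∉ B ∪ B.image (fun x => x + y) := by
    by_contra hcon
    push Not at hcon
    have e1 : (univ : Finset J) ⊆ B ∪ B.image (fun x => x + y) := fun x _ => hcon x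
    have e2 := card_le_card e1
    rw [card_univ] at e2
    omega
  rw [mem_union, not_or] at hx
  have hx1 : x ∉ B := hx.1
  have hx2 : x + y ∉ B := by
    intro h
    apply hx.2
    rw [mem_image]
    exact ⟨x + y, h, by rw [add_assoc, D.dbl, add_zero]⟩
  have key : ∀ w : J, w ∉ B → w ∉ U ∧ w ∉ D.blk U ∧ ∀ i, i ≤ D.L →
      2 ^ 27 * (U ∩ tr w (D.Z i)).card ≤ (D.Z i).card ∧
      2 ^ 27 * (U ∩ tr w (Q i)).card ≤ (Q i).card := by
    intro w hw
    rw [hB, mem_union, mem_union, mem_union, not_or, not_or, not_or] at hw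
    obtain ⟨⟨⟨hw1, hw2⟩, hw3⟩, hw4⟩ := hw
    refine ⟨hw1, hw2, fun i hi => ⟨?_, ?_⟩⟩
    · by_contra hcon
      apply hw3
      rw [hMZ, mem_filter]
      exact ⟨mem_univ _, i, hi, not_le.1 hcon⟩
    · by_contra hcon
      apply hw4
      rw [hMQ, mem_filter]
      exact ⟨mem_univ _, i, hi, not_le.1 hcon⟩
  obtain ⟨k1, k2, k3⟩ := key x hx1
  obtain ⟨l1, l2, l3⟩ := key (x + y) hx2
  exact ⟨x, k1, k2, l1, l2, fun i _ hi => ⟨(k3 i hi).1, (l3 i hi).1, (k3 i hi).2, (l3 i hi).2⟩⟩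

theorem C_pair (S : CS V J) {E1 : Finset V} {g : V → J} (hE1 : E1 ⊆ S.E) (hr : S.r ∈ E1)
    (hpE : ∀ v ∈ E1, S.p v ∈ E1) (hst : CSt S E1 g) {w w' : V} (hw : w ∉ E1) (hw' : w' ∉ E1)
    (hpw : S.p w ∈ E1) (hpp : S.p w' = S.p w)
    (hcase : (w' = w ∧ S.p w = S.r) ∨ (w' ≠ w ∧ S.p w ≠ S.r)) (hns : ¬ S.Spc w)
    (hns' : ¬ S.Spc w') :
    ∃ g1 : V → J, (∀ v ∈ E1, g1 v = g v) ∧ CSt S (insert w' (insert w E1)) g1 ∧
      g1 w ∉ S.D.Z S.D.L ∧ g1 w' ∉ S.D.Z S.D.L ∧ g1 w' = g1 w + g (S.p w) ∧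
      ∀ i, 1 ≤ i → i ≤ S.D.L →
        2 ^ 27 * (E1.image g ∩ tr (g1 w) (S.D.Z i)).card ≤ (S.D.Z i).card ∧
        2 ^ 27 * (E1.image g ∩ tr (g1 w') (S.D.Z i)).card ≤ (S.D.Z i).card ∧
        2 ^ 27 * (E1.image g ∩ tr (g1 w) (S.Q i)).card ≤ (S.Q i).card ∧
        2 ^ 27 * (E1.image g ∩ tr (g1 w') (S.Q i)).card ≤ (S.Q i).card := by
  have hUE : (E1.image g).card ≤ S.E.card := card_image_le.trans (card_le_card hE1)
  have hsz : 2 ^ 30 * (E1.image g).card + 2 * (S.D.Z S.D.L).card < Fintype.card J :=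
    lt_of_le_of_lt (Nat.add_le_add_right (Nat.mul_le_mul_left _ hUE) _) S.size
  obtain ⟨x, hxU, hxB, hyU, hyB, hgood⟩ := good_pair2 S.D S.Q S.Q0 S.Qadd
    (fun i => S.Q_mono (Nat.le_succ i)) (E1.image g) (g (S.p w)) hsz
  obtain ⟨g1, hg1E, hg1w, hg1w', hlab⟩ := lab_pair S.D.dbl hr hpE hst.lab hw hw' hpw hpp hcase
    hxU hyU
  have hblk : ∀ a : J, a ∉ S.D.blk (E1.image g) → a ∉ S.D.Z S.D.L := by
    intro a ha h
    apply ha
    rw [Lv.blk, mem_filter]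
    exact ⟨mem_univ _, Or.inl h⟩
  have hxZ := hblk x hxB
  have hyZ := hblk _ hyB
  have himg : (insert w' (insert w E1)).image g1 =
      insert (x + g (S.p w)) (insert x (E1.image g)) := by
    rw [image_insert, image_insert, hg1w', hg1w]
    congr 2
    exact image_congr (fun v hv => hg1E v hv)
  have hlw : ¬ 1 ≤ S.lev w := fun h => hns (Or.inr (Or.inr h))
  have hlw' : ¬ 1 ≤ S.lev w' := fun h => hns' (Or.inr (Or.inr h))
  refine ⟨g1, hg1E, ⟨hlab, ?_, ?_, ?_, ?_⟩, by rw [hg1w]; exact hxZ, by rw [hg1w']; exact hyZ,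
    by rw [hg1w', hg1w], ?_⟩
  · rw [himg]
    exact cap_insert2 S.D hst.cap hxB hyB
  · intro v hv hvZ
    rw [mem_insert, mem_insert] at hv
    rcases hv with rfl | rfl | hv
    · rw [hg1w'] at hvZ
      exact absurd hvZ hyZ
    · rw [hg1w] at hvZ
      exact absurd hvZ hxZ
    · rw [hg1E v hv] at hvZ
      exact hst.pure v hv hvZ
  · intro v hv ℓ hℓ
    rw [mem_insert, mem_insert] at hv
    rcases hv with rfl | rfl | hv
    · exact absurd (Or.inl (S.mn_C hℓ)) hns'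
    · exact absurd (Or.inl (S.mn_C hℓ)) hns
    · rw [hg1E v hv]
      exact hst.uq v hv ℓ hℓ
  · intro v hv hl
    rw [mem_insert, mem_insert] at hv
    rcases hv with rfl | rfl | hv
    · exact absurd hl hlw'
    · exact absurd hl hlw
    · rw [hg1E v hv]
      exact hst.sv v hv hl
  · intro i hi1 hiL
    rw [hg1w, hg1w']
    obtain ⟨e1, e2, e3, e4⟩ := hgood i hi1 hiL
    exact ⟨e1, e2, e3, e4⟩

end

end Pool.Agent.H60.LN
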