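import Mathlib
import Pool.Agent.H60.FN.Add
import Pool.Agent.H60.LN.CLem
import Pool.Agent.H60.LN.Cap

/-!
# CServe: labelling the vertices of level `ℓ` (children of `cu ℓ`) with `Z ℓ \ Q ℓ`

Proof of `C_serve1`.  Induction on `m`, everything generalised.  `m = 0`: `K = ∅`, `g2 = g`.
`m + 1`: `u = cu ℓ`, `x = g u`, `U = E1.image g`.  `u ∈ C`; let `IsMn i u`, `i <= ℓ` (`exists_mn`): `x ∈ Q i ⊆ Q ℓ` (`uq`, `Q_mono`).
Choose `h ≠ h'` in `K` and `z ∈ (Z ℓ \ Q ℓ) \ U`.  `p h = p h' = cu ℓ = u` (`lev_spec`), `u ≠ r`.  `z + x ∈ Z ℓ` (`x ∈ Q ℓ ⊆ Z ℓ`), `z + x ∉ Q ℓ`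
(otherwise `z = (z + x) + x ∈ Q ℓ`), `z + x ∉ U` by `hinv`, `x ≠ 0` (otherwise `u = r` by injectivity, `g r = 0`), so `z + x ≠ z`.
`lab_add_two` with `v = h`, `v' = h'`, label `z`: `g1` on `E1' = insert h' (insert h E1)`, `U' = insert (z + x) (insert z U)`.
State: cap: `cap_insert_Z` twice (`z, z + x ∈ Z ℓ ⊆ Z L`).  pure: `lev h = ℓ >= 1`.  uq: `IsMn i h` would give `h ∈ C`, `lev h = 0`.
sv: clear.  (`g1 = g` on `E1`.)
Conditions for `K' = (K.erase h).erase h'`: `((Z ℓ \ Q ℓ) \ U').card = ((Z ℓ \ Q ℓ) \ U).card - 2`.  `hinv`: for `z1 ∈ Z ℓ \ Q ℓ`, `z1 ∉ U'`: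
`z1 + x ∉ U` by `hinv`, `z1 + x ≠ z` (otherwise `z1 = z + x ∈ U'`), `z1 + x ≠ z + x`.  `g1 u = g u` since `u ∈ E1`.
`E1' ∪ K' = E1 ∪ K`.

Proof of `C_serve`.  `Finset.induction_on Λ`, generalising `E1`, `g`.  `∅`: the filter is empty.  `insert ℓ Λ`: `C_serve1` for
`K = E.filter (lev v = ℓ)`: disjoint from `E1` by hypothesis; even cardinality by `ev`; no label in `Z ℓ \ Q ℓ` is used
(`lev_used`), so `((Z ℓ \ Q ℓ) \ U).card = (Z ℓ).card - (Q ℓ).card = K.card` by `cnt` (`Q ℓ ⊆ Z ℓ`), and `hinv`: `z + g (cu ℓ) ∈ Z ℓ \ Q ℓ` as above,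
so not used.  Then the induction hypothesis for `E1 ∪ K` and `Λ`: closed under `p` (`p v = cu ℓ ∈ E1` for `v ∈ K`); `lev v ≠ i` for
`v ∈ K`, `i ∈ Λ` (`ℓ ∉ Λ`).
-/

set_option autoImplicit false

open Finset

namespace Pool.Agent.H60.LN

open Pool.Agent.H57.SS Pool.Agent.H60.FN

section

variable {V J : Type*} [DecidableEq V] [AddCommGroup J] [DecidableEq J] [Fintype J]

private theorem CServe_gQ (S : CS V J) {ℓ : ℕ} (h1 : 1 ≤ ℓ) (h2 : ℓ ≤ S.D.L) {E1 : Finset V}
    {g : V → J} (hcu : S.cu ℓ ∈ E1) (hst : CSt S E1 g) : g (S.cu ℓ) ∈ S.Q ℓ := by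
  have hC : S.cu ℓ ∈ S.C := S.mem_C.2 ⟨ℓ, h1, h2, rfl⟩
  obtain ⟨i, hmn, hmin⟩ := S.exists_mn hC
  exact S.Q_mono (hmin ℓ h1 rfl) (hst.uq _ hcu i hmn).1

private theorem CServe_add (S : CS V J) {ℓ : ℕ} {z x : J} (hz : z ∈ S.D.Z ℓ) (hzQ : z ∉ S.Q ℓ)
    (hx : x ∈ S.Q ℓ) : z + x ∈ S.D.Z ℓ ∧ z + x ∉ S.Q ℓ := by
  refine ⟨S.D.add ℓ z hz x (S.QZ ℓ hx), ?_⟩
  intro h
  apply hzQ
  have h2 := S.Qadd ℓ _ h _ hx
  rwa [add_assoc, S.D.dbl, add_zero] at h2

theorem C_serve1 (S : CS V J) {ℓ : ℕ} (h1 : 1 ≤ ℓ) (h2 : ℓ ≤ S.D.L) (m : ℕ) :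
    ∀ (E1 K : Finset V) (g : V → J), S.r ∈ E1 → (∀ v ∈ E1, S.p v ∈ E1) → S.cu ℓ ∈ E1 →
      CSt S E1 g → Disjoint E1 K → (∀ v ∈ K, S.lev v = ℓ) → K.card = 2 * m →
      ((S.D.Z ℓ \ S.Q ℓ) \ E1.image g).card = K.card →
      (∀ z ∈ S.D.Z ℓ, z ∉ S.Q ℓ → z ∉ E1.image g → z + g (S.cu ℓ) ∉ E1.image g) →
      ∃ g2 : V → J, (∀ v ∈ E1, g2 v = g v) ∧ CSt S (E1 ∪ K) g2 := by
  induction m with
  | zero =>
    intro E1 K g _ _ _ hst _ _ hKc _ _
    have hK : K = ∅ := by
      rw [← card_eq_zero]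
      omega
    refine ⟨g, fun v _ => rfl, ?_⟩
    rw [hK, union_empty]
    exact hst
  | succ m ih =>
    intro E1 K g hr hp hcu hst hdis hlev hKc hcnt hinv
    obtain ⟨h, hhK, h', hhK', hne⟩ := one_lt_card.1 (by omega : 1 < K.card)
    have hpos : 0 < ((S.D.Z ℓ \ S.Q ℓ) \ E1.image g).card := by omega
    obtain ⟨z, hz⟩ := card_pos.1 hpos
    rw [mem_sdiff, mem_sdiff] at hz
    obtain ⟨⟨hzZ, hzQ⟩, hzU⟩ := hz
    obtain ⟨x, hx⟩ : ∃ x, x = g (S.cu ℓ) := ⟨_, rfl⟩
    have hxQ : x ∈ S.Q ℓ := by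
      rw [hx]
      exact CServe_gQ S h1 h2 hcu hst
    obtain ⟨hzxZ, hzxQ⟩ := CServe_add S hzZ hzQ hxQ
    have hzxU : z + x ∉ E1.image g := by
      rw [hx]
      exact hinv z hzZ hzQ hzU
    have hlh : S.lev h = ℓ := hlev h hhK
    have hlh' : S.lev h' = ℓ := hlev h' hhK'
    have hph : S.p h = S.cu ℓ := by
      have := (S.lev_spec h (by omega)).2.2.2
      rwa [hlh] at this
    have hph' : S.p h' = S.cu ℓ := by
      have := (S.lev_spec h' (by omega)).2.2.2
      rwa [hlh'] at this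
    have hhE : h ∉ E1 := fun hh => disjoint_left.1 hdis hh hhK
    have hhE' : h' ∉ E1 := fun hh => disjoint_left.1 hdis hh hhK'
    have hur : S.cu ℓ ≠ S.r := (S.cu_spec ℓ h1 h2).2.1
    have hlab := lab_add_two S.D.dbl hr hp hst.lab hhE hhE' hne (by rw [hph]; exact hcu)
      (by rw [hph]; exact hur) (by rw [hph, hph']) hzU (by rw [hph, ← hx]; exact hzxU)
    rw [hph, ← hx] at hlab
    obtain ⟨g1, hg1⟩ : ∃ g1 : V → J, g1 = Function.update (Function.update g h z) h' (z + x) :=
      ⟨_, rfl⟩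
    rw [← hg1] at hlab
    have hgE : ∀ v ∈ E1, g1 v = g v := by
      intro v hv
      have n1 : v ≠ h' := fun e => hhE' (e ▸ hv)
      have n2 : v ≠ h := fun e => hhE (e ▸ hv)
      rw [hg1, Function.update_of_ne n1, Function.update_of_ne n2]
    have hgh : g1 h = z := by
      rw [hg1, Function.update_of_ne hne, Function.update_self]
    have hgh' : g1 h' = z + x := by
      rw [hg1, Function.update_self]
    have himg : (insert h' (insert h E1)).image g1 = insert (z + x) (insert z (E1.image g)) := by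
      rw [image_insert, image_insert, hgh, hgh', image_congr (fun v hv => hgE v (mem_coe.1 hv))]
    have hZL : S.D.Z ℓ ⊆ S.D.Z S.D.L := S.D.monotone h2
    have hst1 : CSt S (insert h' (insert h E1)) g1 := by
      constructor
      · exact hlab
      · rw [himg]
        exact cap_insert_Z S.D (cap_insert_Z S.D hst.cap (hZL hzZ)) (hZL hzxZ)
      · intro v hv hgv
        rcases mem_insert.1 hv with rfl | hv
        · right
          right
          omega
        rcases mem_insert.1 hv with rfl | hv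
        · right
          right
          omega
        · rw [hgE v hv] at hgv
          exact hst.pure v hv hgv
      · intro v hv i hi
        rcases mem_insert.1 hv with rfl | hv
        · have := (S.C_spec (S.mn_C hi)).2.2
          omega
        rcases mem_insert.1 hv with rfl | hv
        · have := (S.C_spec (S.mn_C hi)).2.2
          omega
        · rw [hgE v hv]
          exact hst.uq v hv i hi
      · intro v hv hl
        rcases mem_insert.1 hv with rfl | hv
        · rw [hgh', hlh']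
          exact ⟨hzxZ, hzxQ⟩
        rcases mem_insert.1 hv with rfl | hv
        · rw [hgh, hlh]
          exact ⟨hzZ, hzQ⟩
        · rw [hgE v hv]
          exact hst.sv v hv hl
    have hK'c : ((K.erase h).erase h').card = 2 * m := by
      have e1 : h' ∈ K.erase h := mem_erase.2 ⟨hne.symm, hhK'⟩
      rw [card_erase_of_mem e1, card_erase_of_mem hhK]
      omega
    have hxne : z + x ≠ z := by
      intro e
      have hx0 : x = 0 := by
        have : z + x = z + 0 := by rw [e, add_zero]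
        exact add_left_cancel this
      apply hur
      apply hst.lab.inj (mem_coe.2 hcu) (mem_coe.2 hr)
      rw [← hx, hx0, hst.lab.root]
    have hcnt' : ((S.D.Z ℓ \ S.Q ℓ) \ (insert h' (insert h E1)).image g1).card =
        ((K.erase h).erase h').card := by
      have e1 : (S.D.Z ℓ \ S.Q ℓ) \ (insert h' (insert h E1)).image g1 =
          (((S.D.Z ℓ \ S.Q ℓ) \ E1.image g).erase z).erase (z + x) := by
        rw [himg]
        ext y
        simp only [mem_sdiff, mem_insert, mem_erase, not_or]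
        tauto
      have e2 : z ∈ (S.D.Z ℓ \ S.Q ℓ) \ E1.image g := by
        rw [mem_sdiff, mem_sdiff]
        exact ⟨⟨hzZ, hzQ⟩, hzU⟩
      have e3 : z + x ∈ ((S.D.Z ℓ \ S.Q ℓ) \ E1.image g).erase z := by
        rw [mem_erase, mem_sdiff, mem_sdiff]
        exact ⟨hxne, ⟨hzxZ, hzxQ⟩, hzxU⟩
      rw [e1, card_erase_of_mem e3, card_erase_of_mem e2, hK'c]
      omega
    obtain ⟨g2, hg2, hst2⟩ := ih (insert h' (insert h E1)) ((K.erase h).erase h') g1
      (mem_insert_of_mem (mem_insert_of_mem hr))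
      (by
        intro v hv
        rcases mem_insert.1 hv with rfl | hv
        · rw [hph']
          exact mem_insert_of_mem (mem_insert_of_mem hcu)
        rcases mem_insert.1 hv with rfl | hv
        · rw [hph]
          exact mem_insert_of_mem (mem_insert_of_mem hcu)
        · exact mem_insert_of_mem (mem_insert_of_mem (hp v hv)))
      (mem_insert_of_mem (mem_insert_of_mem hcu)) hst1
      (by
        rw [disjoint_left]
        intro v hv hvK
        rw [mem_erase, mem_erase] at hvK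
        rcases mem_insert.1 hv with rfl | hv
        · exact hvK.1 rfl
        rcases mem_insert.1 hv with rfl | hv
        · exact hvK.2.1 rfl
        · exact disjoint_left.1 hdis hv hvK.2.2)
      (by
        intro v hv
        exact hlev v (mem_of_mem_erase (mem_of_mem_erase hv)))
      hK'c hcnt'
      (by
        intro z1 hz1 hz1Q hz1U
        rw [himg, mem_insert, mem_insert, not_or, not_or] at hz1U
        obtain ⟨n1, n2, n3⟩ := hz1U
        rw [hgE _ hcu, ← hx, himg, mem_insert, mem_insert, not_or, not_or]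
        refine ⟨?_, ?_, ?_⟩
        · intro e
          exact n2 (add_right_cancel e)
        · intro e
          apply n1
          rw [← e, add_assoc, S.D.dbl, add_zero]
        · rw [hx]
          exact hinv z1 hz1 hz1Q n3)
    refine ⟨g2, ?_, ?_⟩
    · intro v hv
      rw [hg2 v (mem_insert_of_mem (mem_insert_of_mem hv)), hgE v hv]
    · have e4 : insert h' (insert h E1) ∪ (K.erase h).erase h' = E1 ∪ K := by
        ext v
        simp only [mem_union, mem_insert, mem_erase]
        constructor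
        · rintro ((rfl | rfl | hv) | ⟨-, -, hv⟩)
          · exact Or.inr hhK'
          · exact Or.inr hhK
          · exact Or.inl hv
          · exact Or.inr hv
        · rintro (hv | hv)
          · exact Or.inl (Or.inr (Or.inr hv))
          · by_cases e5 : v = h'
            · exact Or.inl (Or.inl e5)
            · by_cases e6 : v = h
              · exact Or.inl (Or.inr (Or.inl e6))
              · exact Or.inr ⟨e5, e6, hv⟩
      rw [← e4]
      exact hst2

theorem C_serve (S : CS V J) (Λ : Finset ℕ) :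
    ∀ (E1 : Finset V) (g : V → J), S.r ∈ E1 → (∀ v ∈ E1, S.p v ∈ E1) → CSt S E1 g →
      (∀ ℓ ∈ Λ, 1 ≤ ℓ ∧ ℓ ≤ S.D.L ∧ S.cu ℓ ∈ E1 ∧ ∀ v ∈ E1, S.lev v ≠ ℓ) →
      ∃ g2 : V → J, (∀ v ∈ E1, g2 v = g v) ∧
        CSt S (E1 ∪ S.E.filter (fun v => S.lev v ∈ Λ)) g2 := by
  induction Λ using Finset.induction_on with
  | empty =>
    intro E1 g _ _ hst _
    refine ⟨g, fun v _ => rfl, ?_⟩
    have e1 : S.E.filter (fun v => S.lev v ∈ (∅ : Finset ℕ)) = ∅ := by
      apply filter_false_of_mem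
      intro v _
      exact notMem_empty _
    rw [e1, union_empty]
    exact hst
  | insert ℓ Λ hℓ ih =>
    intro E1 g hr hp hst hΛ
    obtain ⟨h1, h2, hcu, hno⟩ := hΛ ℓ (mem_insert_self ℓ Λ)
    obtain ⟨K, hK⟩ : ∃ K : Finset V, K = S.E.filter (fun v => S.lev v = ℓ) := ⟨_, rfl⟩
    have hKlev : ∀ v ∈ K, S.lev v = ℓ := by
      intro v hv
      rw [hK] at hv
      exact (mem_filter.1 hv).2
    have hnoU : ∀ z ∈ S.D.Z ℓ, z ∉ S.Q ℓ → z ∉ E1.image g := by
      intro z hz hzQ hzU
      obtain ⟨v, hv, hlv, -⟩ := hst.lev_used h1 h2 hz hzQ hzU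
      exact hno v hv hlv
    obtain ⟨m, hm⟩ := S.ev ℓ h1 h2
    rw [← hK] at hm
    have hcnt : ((S.D.Z ℓ \ S.Q ℓ) \ E1.image g).card = K.card := by
      have e1 : (S.D.Z ℓ \ S.Q ℓ) \ E1.image g = S.D.Z ℓ \ S.Q ℓ := by
        apply sdiff_eq_self_of_disjoint
        rw [disjoint_left]
        intro z hz
        rw [mem_sdiff] at hz
        exact hnoU z hz.1 hz.2
      have e2 := card_sdiff_add_card_eq_card (S.QZ ℓ)
      have e3 := S.cnt ℓ h1 h2
      rw [← hK] at e3
      rw [e1]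
      omega
    obtain ⟨g2, hg2, hst2⟩ := C_serve1 S h1 h2 m E1 K g hr hp hcu hst
      (by
        rw [disjoint_left]
        intro v hv hvK
        exact hno v hv (hKlev v hvK))
      hKlev (by omega) hcnt
      (by
        intro z hz hzQ _
        obtain ⟨e1, e2⟩ := CServe_add S hz hzQ (CServe_gQ S h1 h2 hcu hst)
        exact hnoU _ e1 e2)
    obtain ⟨g3, hg3, hst3⟩ := ih (E1 ∪ K) g2 (mem_union_left _ hr)
      (by
        intro v hv
        rcases mem_union.1 hv with hv | hv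
        · exact mem_union_left _ (hp v hv)
        · have hlv := hKlev v hv
          have hpv : S.p v = S.cu ℓ := by
            have := (S.lev_spec v (by omega)).2.2.2
            rwa [hlv] at this
          rw [hpv]
          exact mem_union_left _ hcu)
      hst2
      (by
        intro i hi
        obtain ⟨k1, k2, k3, k4⟩ := hΛ i (mem_insert_of_mem hi)
        refine ⟨k1, k2, mem_union_left _ k3, ?_⟩
        intro v hv
        rcases mem_union.1 hv with hv | hv
        · exact k4 v hv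
        · rw [hKlev v hv]
          rintro rfl
          exact hℓ hi)
    refine ⟨g3, ?_, ?_⟩
    · intro v hv
      rw [hg3 v (mem_union_left _ hv), hg2 v hv]
    · have e4 : E1 ∪ S.E.filter (fun v => S.lev v ∈ insert ℓ Λ) =
          (E1 ∪ K) ∪ S.E.filter (fun v => S.lev v ∈ Λ) := by
        rw [hK]
        ext v
        simp only [mem_union, mem_filter, mem_insert]
        tauto
      rw [e4]
      exact hst3

end

end Pool.Agent.H60.LN
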