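import Mathlib
import Pool.Agent.H60.LN.CServe
import Pool.Agent.H60.LN.CAttach
import Pool.Agent.H60.LN.CPair

/-!
# CBatch: the two steps of the C-case

Proof of `C_batch`.  Notation: `L = D.L`, `A1 = C.filter (p a = w)`, `A2 = C.filter (p a = w')`, `A = A1 ∪ A2` (the set `A` of the statement).
`w ≠ r`, `w' ≠ r` since `r ∈ E1`.  Elements `a ∈ A` are not in `E1` (`hno`), not `w`, `w'` (these are not special), and the same for
`mt a` (`p (mt a) = p a`, which is `≠ r`).
`C_pair` gives `g1` on `E1' = insert w' (insert w E1)`; `y = g1 w`, `y' = g1 w' = y + g (p w)`, `U1 = E1'.image g1 = U ∪ {y, y'}`.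
(1) `C_attach` for `w`, `K = A1`, on `E1'`.  Budgets at `i`: `(U1 ∩ tr y (Q i)).card <= (U ∩ tr y (Q i)).card + 2`,
`(K.filter ..).card <= i` (contained in the image of `Icc 1 i`).  `i <= (Z (i - 1)).card` (`i = 1`: clear, `0 ∈ Z 0`; otherwise `D.big`), so
`2 ^ 12 * i <= (Q i).card` (`Qcard`) and `2 ^ 8 * ((U ∩ tr y (Q i)).card + 2 + i) <= 2^-19 * (Q i).card + 2 ^ 8 * 3 * i <= (Q i).card`.
Same for `Z i`: `(Z i).card >= 2 ^ (40 * i) >= 2 ^ 12 * i`.
We get `g2` on `E2 = E1' ∪ A1 ∪ A1.image mt`.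
(2) If `w' ≠ w` and `A2 ≠ ∅`: `C_attach` for `w'`, `K = A2`, on `E2`.  Here `p w = p w' = p (p a)` for some `a ∈ A2`, so by `par2` `lev (p w) = 0` and
`p w ∉ C`, and `p w ≠ r`: by `pure`, `g (p w) ∉ Z L`, that is `y + y' ∉ Z L`.  A label of `A1 ∪ A1.image mt` is `z` or `y + z` with `z ∈ Z L`
(last statement of `C_attach`), and not in `tr y' (Z L)`: `y' + z ∉ Z L`, `y' + y + z ∉ Z L`.  So `E2.image g2 ∩ tr y' (Q i)` is contained in
`U1 ∩ tr y' (Q i)` and the budgets are as in (1).  Disjointness: `A2` and `A2.image mt` have parent `w'`, the elements of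
`A1 ∪ A1.image mt` have parent `w ≠ w'`.  We get `g3` on `E3 = E1' ∪ A ∪ A.image mt` (if `w' = w` then `A2 = A1`; if `A2 = ∅` then `A = A1`: `g3 = g2`).
(3) `C_serve` on `E3` with `Λ = (Icc 1 L).filter (cu ℓ ∈ A)`: `cu ℓ ∈ A ⊆ E3`; a vertex `v ∈ E3` with `lev v = ℓ ∈ Λ` has `p v = cu ℓ ∈ A`: if
`v ∈ E1` then `cu ℓ ∈ E1`, a contradiction; `w`, `w'`, the elements of `A`, `A.image mt` have level `0`.  Finally
`E.filter (lev v ∈ Λ) = E.filter (1 <= lev v ∧ p v ∈ A)` by `lev_spec`.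

Proof of `C_root`.  `IsMn ℓ a`.  `(Q ℓ).card = 2 ^ 12 * (Z (ℓ - 1)).card > (Z (ℓ - 1)).card`, so there is `x ∈ Q ℓ`, `x ∉ Z (ℓ - 1)`; `x ∉ E1.image g` by
`ann_unused`.  `lab_add_one` (`p a = r`) with label `x`: cap by `cap_insert_Z` (`x ∈ Q ℓ ⊆ Z ℓ ⊆ Z L`), pure: `a ∈ C`, uq: `mn_unique`, sv: `lev a = 0`.
Then `C_serve` with `Λ = (Icc 1 L).filter (cu i = a)`; a vertex `v ∈ insert a E1` with `lev v = i ∈ Λ` has `p v = a`, so `v ∉ E1` (`a ∉ E1`), and
`v ≠ a` (`lev a = 0`).
-/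

set_option autoImplicit false

open Finset

namespace Pool.Agent.H60.LN

open Pool.Agent.H57.SS Pool.Agent.H60.FN

section

variable {V J : Type*} [DecidableEq V] [AddCommGroup J] [DecidableEq J] [Fintype J]

private theorem CBatch_Zi (D : Lv J) {i : ℕ} (h1 : 1 ≤ i) (h2 : i ≤ D.L) :
    2 ^ 12 * i ≤ (D.Z i).card := by
  have h3 := D.big i h1 h2
  have h4 : i < 2 ^ i := Nat.lt_two_pow_self
  have h5 : 2 ^ 12 * 2 ^ i ≤ 2 ^ (40 * i) := by
    rw [← pow_add]
    exact Nat.pow_le_pow_right (by norm_num) (by omega)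
  exact (Nat.mul_le_mul_left _ h4.le).trans (h5.trans h3)

private theorem CBatch_Qi (S : CS V J) {i : ℕ} (h1 : 1 ≤ i) (h2 : i ≤ S.D.L) :
    2 ^ 12 * i ≤ (S.Q i).card := by
  rw [S.Qcard i h1 h2]
  apply Nat.mul_le_mul_left
  by_cases h : i = 1
  · subst h
    exact card_pos.2 ⟨0, S.D.zero _⟩
  · have h3 := S.D.big (i - 1) (by omega) (by omega)
    have h4 : i < 2 ^ i := Nat.lt_two_pow_self
    have h5 : 2 ^ i ≤ 2 ^ (40 * (i - 1)) := Nat.pow_le_pow_right (by norm_num) (by omega)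
    exact h4.le.trans (h5.trans h3)

private theorem CBatch_K {V : Type*} [DecidableEq V] (cu : ℕ → V) (K : Finset V) (i : ℕ) :
    (K.filter (fun a => a ∈ (Finset.Icc 1 i).image cu)).card ≤ i := by
  have h1 : K.filter (fun a => a ∈ (Finset.Icc 1 i).image cu) ⊆ (Finset.Icc 1 i).image cu :=
    fun a ha => (mem_filter.1 ha).2
  have h2 := card_le_card h1
  have h3 : ((Finset.Icc 1 i).image cu).card ≤ (Finset.Icc 1 i).card := card_image_le
  rw [Nat.card_Icc] at h3
  omega

private theorem CBatch_ins {J : Type*} [DecidableEq J] (U W : Finset J) (a b : J) :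
    ((insert b (insert a U)) ∩ W).card ≤ (U ∩ W).card + 2 := by
  have h1 : (insert b (insert a U)) ∩ W ⊆ insert b (insert a (U ∩ W)) := by
    intro x hx
    simp only [mem_inter, mem_insert] at hx ⊢
    tauto
  have h2 := card_le_card h1
  have h3 := card_insert_le b (insert a (U ∩ W))
  have h4 := card_insert_le a (U ∩ W)
  omega

private theorem CBatch_bud {u q i v k : ℕ} (h1 : 1 ≤ i) (hu : 2 ^ 27 * u ≤ q)
    (hq : 2 ^ 12 * i ≤ q) (hv : v ≤ u + 2) (hk : k ≤ i) : 2 ^ 8 * (v + k) ≤ q := by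
  norm_num at hu hq ⊢
  omega

private theorem CBatch_filter (S : CS V J) (A : Finset V) :
    S.E.filter (fun v => S.lev v ∈ (Finset.Icc 1 S.D.L).filter (fun ℓ => S.cu ℓ ∈ A)) =
      S.E.filter (fun v => 1 ≤ S.lev v ∧ S.p v ∈ A) := by
  apply filter_congr
  intro v _
  rw [mem_filter, mem_Icc]
  constructor
  · rintro ⟨⟨h1, h2⟩, h3⟩
    refine ⟨h1, ?_⟩
    rw [(S.lev_spec v h1).2.2.2]
    exact h3
  · rintro ⟨h1, h2⟩
    refine ⟨⟨h1, (S.lev_spec v h1).1⟩, ?_⟩
    rw [(S.lev_spec v h1).2.2.2] at h2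
    exact h2

private theorem CBatch_serve (S : CS V J) {E3 : Finset V} {g3 : V → J} (hr : S.r ∈ E3)
    (hp : ∀ v ∈ E3, S.p v ∈ E3) (hst : CSt S E3 g3) {A : Finset V} (hA : A ⊆ E3)
    (hlev : ∀ v ∈ E3, 1 ≤ S.lev v → S.p v ∉ A) :
    ∃ g4 : V → J, (∀ v ∈ E3, g4 v = g3 v) ∧
      CSt S (E3 ∪ S.E.filter (fun v => 1 ≤ S.lev v ∧ S.p v ∈ A)) g4 := by
  rw [← CBatch_filter]
  refine C_serve S _ E3 g3 hr hp hst (fun ℓ hℓ => ?_)
  obtain ⟨h1, h2⟩ := mem_filter.1 hℓ
  obtain ⟨h3, h4⟩ := mem_Icc.1 h1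
  refine ⟨h3, h4, hA h2, fun v hv hlv => ?_⟩
  have h5 : 1 ≤ S.lev v := by omega
  apply hlev v hv h5
  rw [(S.lev_spec v h5).2.2.2, hlv]
  exact h2

theorem C_batch (S : CS V J) {E1 : Finset V} {g : V → J} (hE1 : E1 ⊆ S.E) (hr : S.r ∈ E1)
    (hpE : ∀ v ∈ E1, S.p v ∈ E1) (hst : CSt S E1 g) {w w' : V} (hw : w ∉ E1) (hw' : w' ∉ E1)
    (hpw : S.p w ∈ E1) (hpp : S.p w' = S.p w)
    (hcase : (w' = w ∧ S.p w = S.r) ∨ (w' ≠ w ∧ S.p w ≠ S.r)) (hns : ¬ S.Spc w)
    (hns' : ¬ S.Spc w') (hno : ∀ v ∈ E1, S.p v ≠ w ∧ S.p v ≠ w') {A : Finset V}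
    (hA : A = S.C.filter (fun a => S.p a = w ∨ S.p a = w')) :
    ∃ g2 : V → J, (∀ v ∈ E1, g2 v = g v) ∧
      CSt S (insert w' (insert w E1) ∪ A ∪ A.image S.mt
        ∪ S.E.filter (fun v => 1 ≤ S.lev v ∧ S.p v ∈ A)) g2 := by
  have hwr : w ≠ S.r := fun h => hw (h ▸ hr)
  have hwr' : w' ≠ S.r := fun h => hw' (h ▸ hr)
  obtain ⟨g1, hg1, hst1, hyZ, hy'Z, hyy', hb⟩ :=
    C_pair S hE1 hr hpE hst hw hw' hpw hpp hcase hns hns'
  have hE1sub : E1 ⊆ insert w' (insert w E1) :=
    (subset_insert _ _).trans (subset_insert _ _)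
  have hwE : w ∈ insert w' (insert w E1) := mem_insert_of_mem (mem_insert_self _ _)
  have hwE' : w' ∈ insert w' (insert w E1) := mem_insert_self _ _
  have hr1 : S.r ∈ insert w' (insert w E1) := hE1sub hr
  have hp1 : ∀ v ∈ insert w' (insert w E1), S.p v ∈ insert w' (insert w E1) := by
    intro v hv
    rcases mem_insert.1 hv with h | h
    · rw [h, hpp]
      exact hE1sub hpw
    · rcases mem_insert.1 h with h | h
      · rw [h]
        exact hE1sub hpw
      · exact hE1sub (hpE v h)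
  have hout : ∀ v, S.Spc v → (S.p v = w ∨ S.p v = w') → v ∉ insert w' (insert w E1) := by
    intro v hv hpv hvE
    rcases mem_insert.1 hvE with h | h
    · exact hns' (h ▸ hv)
    · rcases mem_insert.1 h with h | h
      · exact hns (h ▸ hv)
      · rcases hpv with h1 | h1
        · exact (hno v h).1 h1
        · exact (hno v h).2 h1
  have himg1 : (insert w' (insert w E1)).image g1 =
      insert (g1 w') (insert (g1 w) (E1.image g)) := by
    rw [image_insert, image_insert, image_congr (fun v hv => hg1 v hv)]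
  -- the two sets of children
  obtain ⟨A1, hA1⟩ : ∃ A1 : Finset V, A1 = S.C.filter (fun a => S.p a = w) := ⟨_, rfl⟩
  obtain ⟨A2, hA2⟩ : ∃ A2 : Finset V, A2 = S.C.filter (fun a => S.p a = w') := ⟨_, rfl⟩
  have hAA : A = A1 ∪ A2 := by
    rw [hA, hA1, hA2, filter_or]
  have hA1C : A1 ⊆ S.C := hA1 ▸ filter_subset _ _
  have hA2C : A2 ⊆ S.C := hA2 ▸ filter_subset _ _
  have hA1p : ∀ a ∈ A1, S.p a = w := by
    intro a ha
    rw [hA1] at ha
    exact (mem_filter.1 ha).2
  have hA2p : ∀ a ∈ A2, S.p a = w' := by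
    intro a ha
    rw [hA2] at ha
    exact (mem_filter.1 ha).2
  have hspC : ∀ a ∈ S.C, S.Spc a := fun a ha => Or.inl ha
  have hmt1 : ∀ a ∈ A1, S.Spc (S.mt a) ∧ S.p (S.mt a) = w := by
    intro a ha
    have h1 := S.mt_mem (hA1C ha) (by rw [hA1p a ha]; exact hwr)
    exact ⟨Or.inr (Or.inl h1.1), h1.2.trans (hA1p a ha)⟩
  have hmt2 : ∀ a ∈ A2, S.Spc (S.mt a) ∧ S.p (S.mt a) = w' := by
    intro a ha
    have h1 := S.mt_mem (hA2C ha) (by rw [hA2p a ha]; exact hwr')
    exact ⟨Or.inr (Or.inl h1.1), h1.2.trans (hA2p a ha)⟩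
  have hd1 : Disjoint (insert w' (insert w E1)) A1 := by
    rw [disjoint_right]
    intro v hv
    exact hout v (hspC v (hA1C hv)) (Or.inl (hA1p v hv))
  have hd2 : Disjoint (insert w' (insert w E1)) (A1.image S.mt) := by
    rw [disjoint_right]
    intro v hv
    obtain ⟨a, ha, rfl⟩ := mem_image.1 hv
    exact hout _ (hmt1 a ha).1 (Or.inl (hmt1 a ha).2)
  -- first step
  obtain ⟨g2, hg2, hst2, hloc⟩ := C_attach S hwr A1.card (insert w' (insert w E1)) A1 g1 hr1 hp1
    hwE hst1 hyZ rfl hA1C hA1p hd1 hd2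
    (fun i h1 h2 => CBatch_bud h1 (hb i h1 h2).2.2.1 (CBatch_Qi S h1 h2)
      (by rw [himg1]; exact CBatch_ins _ _ _ _) (CBatch_K _ _ _))
    (fun i h1 h2 => CBatch_bud h1 (hb i h1 h2).1 (CBatch_Zi S.D h1 h2)
      (by rw [himg1]; exact CBatch_ins _ _ _ _) (CBatch_K _ _ _))
  -- second step
  have key : ∃ g3 : V → J, (∀ v ∈ insert w' (insert w E1), g3 v = g1 v) ∧
      CSt S (insert w' (insert w E1) ∪ A ∪ A.image S.mt) g3 := by
    by_cases hc : w' = w ∨ A2 = ∅
    · have hAA1 : A = A1 := by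
        rcases hc with hc | hc
        · have h1 : A2 = A1 := by rw [hA1, hA2, hc]
          rw [hAA, h1, union_self]
        · rw [hAA, hc, union_empty]
      rw [hAA1]
      exact ⟨g2, hg2, hst2⟩
    · rw [not_or] at hc
      obtain ⟨hne, hA2ne⟩ := hc
      have hpwr : S.p w ≠ S.r := by
        rcases hcase with h | h
        · exact absurd h.1 hne
        · exact h.2
      obtain ⟨a0, ha0⟩ := nonempty_iff_ne_empty.2 hA2ne
      have hgpw : g (S.p w) ∉ S.D.Z S.D.L := by
        intro h1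
        obtain ⟨ℓ, h3, h4, h5⟩ := S.mem_C.1 (hA2C ha0)
        have h6 := S.par2 ℓ h3 h4
        rw [h5, hA2p a0 ha0, hpp] at h6
        rcases hst.pure _ hpw h1 with h2 | h2 | h2
        · exact hpwr h2
        · obtain ⟨i, h7, h8, h9⟩ := S.mem_C.1 h2
          exact h6.2 i h7 h8 h9
        · omega
      have hE2sub : insert w' (insert w E1) ⊆
          insert w' (insert w E1) ∪ A1 ∪ A1.image S.mt :=
        subset_union_left.trans subset_union_left
      have hp2 : ∀ v ∈ insert w' (insert w E1) ∪ A1 ∪ A1.image S.mt,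
          S.p v ∈ insert w' (insert w E1) ∪ A1 ∪ A1.image S.mt := by
        intro v hv
        rcases mem_union.1 hv with h | h
        · rcases mem_union.1 h with h | h
          · exact hE2sub (hp1 v h)
          · rw [hA1p v h]
            exact hE2sub hwE
        · obtain ⟨a, ha, rfl⟩ := mem_image.1 h
          rw [(hmt1 a ha).2]
          exact hE2sub hwE
      have hparE2 : ∀ v, S.Spc v → S.p v = w' →
          v ∉ insert w' (insert w E1) ∪ A1 ∪ A1.image S.mt := by
        intro v hv hpv hvE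
        rcases mem_union.1 hvE with h | h
        · rcases mem_union.1 h with h | h
          · exact hout v hv (Or.inr hpv) h
          · exact hne (hpv.symm.trans (hA1p v h))
        · obtain ⟨a, ha, rfl⟩ := mem_image.1 h
          exact hne (hpv.symm.trans (hmt1 a ha).2)
      have hd3 : Disjoint (insert w' (insert w E1) ∪ A1 ∪ A1.image S.mt) A2 := by
        rw [disjoint_right]
        intro v hv
        exact hparE2 v (hspC v (hA2C hv)) (hA2p v hv)
      have hd4 : Disjoint (insert w' (insert w E1) ∪ A1 ∪ A1.image S.mt) (A2.image S.mt) := by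
        rw [disjoint_right]
        intro v hv
        obtain ⟨a, ha, rfl⟩ := mem_image.1 hv
        exact hparE2 _ (hmt2 a ha).1 (hmt2 a ha).2
      have hgw' : g2 w' = g1 w' := hg2 w' hwE'
      have hsub : ∀ W : Finset J, W ⊆ S.D.Z S.D.L →
          (insert w' (insert w E1) ∪ A1 ∪ A1.image S.mt).image g2 ∩ tr (g2 w') W ⊆
            insert (g1 w') (insert (g1 w) (E1.image g)) ∩ tr (g1 w') W := by
        intro W hW x hx
        obtain ⟨hx1, hx2⟩ := mem_inter.1 hx
        rw [hgw'] at hx2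
        refine mem_inter.2 ⟨?_, hx2⟩
        rw [← himg1]
        obtain ⟨v, hv, rfl⟩ := mem_image.1 hx1
        rw [union_assoc] at hv
        rcases mem_union.1 hv with h | h
        · rw [hg2 v h]
          exact mem_image_of_mem _ h
        · exfalso
          have h1 : g1 w' + g2 v ∈ S.D.Z S.D.L := hW (mem_tr.1 hx2)
          rcases hloc v h with h2 | h2
          · apply hy'Z
            have h3 := S.D.add _ _ h1 _ h2
            rwa [add_assoc, S.D.dbl, add_zero] at h3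
          · apply hgpw
            have h3 := S.D.add _ _ h1 _ h2
            have h4 : g1 w' + g2 v + (g1 w + g2 v) = g (S.p w) := by
              have h5 : g1 w' + g2 v + (g1 w + g2 v) =
                  g1 w' + g1 w + (g2 v + g2 v) := by abel
              rw [h5, S.D.dbl, add_zero, hyy']
              have h6 : g1 w + g (S.p w) + g1 w = g (S.p w) + (g1 w + g1 w) := by abel
              rw [h6, S.D.dbl, add_zero]
            rwa [h4] at h3
      have hZL : ∀ i, i ≤ S.D.L → S.D.Z i ⊆ S.D.Z S.D.L := fun i hi => S.D.monotone hi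
      obtain ⟨g3, hg3, hst3, _⟩ := C_attach S hwr' A2.card
        (insert w' (insert w E1) ∪ A1 ∪ A1.image S.mt) A2 g2 (hE2sub hr1) hp2
        (hE2sub hwE') hst2 (by rw [hgw']; exact hy'Z) rfl hA2C hA2p hd3 hd4
        (fun i h1 h2 => CBatch_bud h1 (hb i h1 h2).2.2.2 (CBatch_Qi S h1 h2)
          ((card_le_card (hsub _ ((S.QZ i).trans (hZL i h2)))).trans (CBatch_ins _ _ _ _))
          (CBatch_K _ _ _))
        (fun i h1 h2 => CBatch_bud h1 (hb i h1 h2).2.1 (CBatch_Zi S.D h1 h2)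
          ((card_le_card (hsub _ (hZL i h2))).trans (CBatch_ins _ _ _ _)) (CBatch_K _ _ _))
      refine ⟨g3, fun v hv => (hg3 v (hE2sub hv)).trans (hg2 v hv), ?_⟩
      have hset : insert w' (insert w E1) ∪ A ∪ A.image S.mt =
          insert w' (insert w E1) ∪ A1 ∪ A1.image S.mt ∪ A2 ∪ A2.image S.mt := by
        rw [hAA, image_union]
        ext v
        simp only [mem_union]
        tauto
      rw [hset]
      exact hst3
  obtain ⟨g3, hg3, hst3⟩ := key
  -- third step
  have hAC : A ⊆ S.C := by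
    rw [hAA]
    exact union_subset hA1C hA2C
  have hAp : ∀ a ∈ A, S.p a = w ∨ S.p a = w' := by
    intro a ha
    rw [hA] at ha
    exact (mem_filter.1 ha).2
  have hmtA : ∀ a ∈ A, S.mt a ∈ S.M ∧ S.p (S.mt a) = S.p a := by
    intro a ha
    apply S.mt_mem (hAC ha)
    rcases hAp a ha with h | h
    · rw [h]
      exact hwr
    · rw [h]
      exact hwr'
  have hE3sub : insert w' (insert w E1) ⊆ insert w' (insert w E1) ∪ A ∪ A.image S.mt :=
    subset_union_left.trans subset_union_left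
  have hpar : ∀ a ∈ A, S.p a ∈ insert w' (insert w E1) ∪ A ∪ A.image S.mt := by
    intro a ha
    rcases hAp a ha with h | h
    · rw [h]
      exact hE3sub hwE
    · rw [h]
      exact hE3sub hwE'
  have hp3 : ∀ v ∈ insert w' (insert w E1) ∪ A ∪ A.image S.mt,
      S.p v ∈ insert w' (insert w E1) ∪ A ∪ A.image S.mt := by
    intro v hv
    rcases mem_union.1 hv with h | h
    · rcases mem_union.1 h with h | h
      · exact hE3sub (hp1 v h)
      · exact hpar v h
    · obtain ⟨a, ha, rfl⟩ := mem_image.1 h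
      rw [(hmtA a ha).2]
      exact hpar a ha
  have hAE : A ⊆ insert w' (insert w E1) ∪ A ∪ A.image S.mt :=
    subset_union_right.trans subset_union_left
  have hlev : ∀ v ∈ insert w' (insert w E1) ∪ A ∪ A.image S.mt, 1 ≤ S.lev v → S.p v ∉ A := by
    intro v hv hlv hpv
    rcases mem_union.1 hv with h | h
    · rcases mem_union.1 h with h | h
      · rcases mem_insert.1 h with h | h
        · exact hns' (Or.inr (Or.inr (h ▸ hlv)))
        · rcases mem_insert.1 h with h | h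
          · exact hns (Or.inr (Or.inr (h ▸ hlv)))
          · have h1 := hpE v h
            exact hout _ (hspC _ (hAC hpv)) (hAp _ hpv) (hE1sub h1)
      · have h1 := (S.C_spec (hAC h)).2.2
        omega
    · obtain ⟨a, ha, rfl⟩ := mem_image.1 h
      obtain ⟨_, _, _, _, _, h1, _, _⟩ := S.M_spec (hmtA a ha).1
      omega
  obtain ⟨g4, hg4, hst4⟩ := CBatch_serve S (hE3sub hr1) hp3 hst3 hAE hlev
  refine ⟨g4, fun v hv => ?_, hst4⟩
  rw [hg4 v (hE3sub (hE1sub hv)), hg3 v (hE1sub hv), hg1 v hv]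

theorem C_root (S : CS V J) {E1 : Finset V} {g : V → J} (hr : S.r ∈ E1)
    (hpE : ∀ v ∈ E1, S.p v ∈ E1) (hst : CSt S E1 g) {a : V} (ha : a ∈ S.C) (hpa : S.p a = S.r)
    (haE : a ∉ E1) :
    ∃ g2 : V → J, (∀ v ∈ E1, g2 v = g v) ∧
      CSt S (insert a E1 ∪ S.E.filter (fun v => 1 ≤ S.lev v ∧ S.p v = a)) g2 := by
  obtain ⟨ℓ, hmn, _⟩ := S.exists_mn ha
  obtain ⟨hl1, hl2⟩ : 1 ≤ ℓ ∧ ℓ ≤ S.D.L := ⟨hmn.1, hmn.2.1⟩
  have hcard : (S.D.Z (ℓ - 1)).card < (S.Q ℓ).card := by
    rw [S.Qcard ℓ hl1 hl2]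
    have h1 : 0 < (S.D.Z (ℓ - 1)).card := card_pos.2 ⟨0, S.D.zero _⟩
    omega
  obtain ⟨x, hx, hx'⟩ := exists_mem_notMem_of_card_lt_card hcard
  have hxU := hst.ann_unused hmn haE hx hx'
  have hlab := lab_add_one hr hpE hst.lab haE hpa hxU
  have hxZ : x ∈ S.D.Z S.D.L := S.D.monotone hl2 (S.QZ ℓ hx)
  have hval : ∀ v ∈ E1, Function.update g a x v = g v := fun v hv =>
    Function.update_of_ne (fun h : v = a => haE (h ▸ hv)) _ _
  have hvala : Function.update g a x a = x := Function.update_self _ _ _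
  have himg : (insert a E1).image (Function.update g a x) = insert x (E1.image g) := by
    rw [image_insert, hvala, image_congr (fun v hv => hval v hv)]
  have hlev0 := (S.C_spec ha).2.2
  have hst1 : CSt S (insert a E1) (Function.update g a x) := by
    refine ⟨hlab, ?_, ?_, ?_, ?_⟩
    · rw [himg]
      exact cap_insert_Z S.D hst.cap hxZ
    · intro v hv hv'
      rcases mem_insert.1 hv with h | h
      · rw [h]
        exact Or.inr (Or.inl ha)
      · rw [hval v h] at hv'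
        exact hst.pure v h hv'
    · intro v hv i hi
      rcases mem_insert.1 hv with h | h
      · rw [h] at hi ⊢
        have h1 := S.mn_unique hmn hi
        rw [hvala, ← h1]
        exact ⟨hx, hx'⟩
      · rw [hval v h]
        exact hst.uq v h i hi
    · intro v hv hv'
      rcases mem_insert.1 hv with h | h
      · rw [h, hlev0] at hv'
        omega
      · rw [hval v h]
        exact hst.sv v h hv'
  have hp1 : ∀ v ∈ insert a E1, S.p v ∈ insert a E1 := by
    intro v hv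
    rcases mem_insert.1 hv with h | h
    · rw [h, hpa]
      exact mem_insert_of_mem hr
    · exact mem_insert_of_mem (hpE v h)
  have hlev : ∀ v ∈ insert a E1, 1 ≤ S.lev v → S.p v ∉ ({a} : Finset V) := by
    intro v hv hlv hpv
    rw [mem_singleton] at hpv
    rcases mem_insert.1 hv with h | h
    · rw [h, hlev0] at hlv
      omega
    · exact haE (hpv ▸ hpE v h)
  obtain ⟨g2, hg2, hst2⟩ := CBatch_serve S (mem_insert_of_mem hr) hp1 hst1
    (singleton_subset_iff.2 (mem_insert_self a E1)) hlev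
  simp only [mem_singleton] at hst2
  refine ⟨g2, fun v hv => ?_, hst2⟩
  rw [hg2 v (mem_insert_of_mem hv), hval v hv]

end

end Pool.Agent.H60.LN
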