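import Mathlib
import Pool.Agent.H60.FN.Fill

/-!
# LNFillP: filling the holes of a labelling according to a permutation of the holes

Proof.  As `lab_fill` in `Pool/Agent/H60/FN/Fill.lean`.  `Y = univ \ E.image g`.  For `y ∈ Y` choose `w y ∈ E` with
`g (w y) = y + π y` (`hdiff`).  For a vertex `v`: if `w y = v` for some `y ∈ Y` then `v ∈ E` and
`Y.filter (w · = v) ⊆ Y.filter (y + π y = g v)`, so `hcap v` bounds its cardinality.  `exists_inj_fib` gives `f`
injective on `Y`, `f y ∈ L`, `p (f y) = w y`.  `E2 = E ∪ Y.image f`, `g2 = g` on `E`, `g2 (f y) = y`.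
The colours: on `E` they are `E.image g`, and at `f y`: `y + g (w y) = y + (y + π y) = π y ∈ Y`, injective in `y`.
-/

set_option autoImplicit false

open Finset

namespace Pool.Agent.H60.LN

open Pool.Agent.H57.SS Pool.Agent.H60.FN

theorem lab_fill_perm {V J : Type*} [DecidableEq V] [AddCommGroup J] [DecidableEq J] [Fintype J]
    (hJ : ∀ x : J, x + x = 0) {p : V → V} {r : V} {E L : Finset V} (hr : r ∈ E)
    (hpE : ∀ v ∈ E, p v ∈ E) (hEL : Disjoint E L) {g : V → J} (hg : Lab p r E g) (π : J → J)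
    (hπ : ∀ y, y ∉ E.image g → π y ∉ E.image g)
    (hinj : ∀ y y', y ∉ E.image g → y' ∉ E.image g → π y = π y' → y = y')
    (hdiff : ∀ y, y ∉ E.image g → ∃ v ∈ E, g v = y + π y)
    (hcap : ∀ v ∈ E, ((univ \ E.image g).filter (fun y => y + π y = g v)).card
      ≤ (L.filter (fun l => p l = v)).card) :
    ∃ E2 : Finset V, E ⊆ E2 ∧ E2 ⊆ E ∪ L ∧ E2.card = Fintype.card J ∧ PLab p r E2 J := by
  classical
  obtain ⟨I, hI⟩ : ∃ I : Finset J, I = E.image g := ⟨_, rfl⟩
  rw [← hI] at hπ hinj hdiff hcap
  obtain ⟨Y, hY⟩ : ∃ Y : Finset J, Y = univ \ I := ⟨_, rfl⟩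
  have hYm : ∀ y, y ∈ Y ↔ y ∉ I := by
    intro y
    rw [hY, mem_sdiff]
    simp only [mem_univ, true_and]
  rw [← hY] at hcap
  obtain ⟨w, hw⟩ : ∃ w : J → V, ∀ y, y ∉ I → w y ∈ E ∧ g (w y) = y + π y := by
    have hex : ∀ y : J, ∃ v : V, y ∉ I → v ∈ E ∧ g v = y + π y := by
      intro y
      by_cases hy : y ∈ I
      · exact ⟨r, fun h => absurd hy h⟩
      · obtain ⟨v, hv⟩ := hdiff y hy
        exact ⟨v, fun _ => hv⟩
    choose w hw using hex
    exact ⟨w, hw⟩
  have hfib : ∀ v, (Y.filter (fun y => w y = v)).card ≤ (L.filter (fun l => p l = v)).card := by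
    intro v
    rcases (Y.filter (fun y => w y = v)).eq_empty_or_nonempty with he | ⟨y0, hy0⟩
    · rw [he]
      simp
    · rw [mem_filter] at hy0
      have hv : v ∈ E := by
        rw [← hy0.2]
        exact (hw y0 ((hYm y0).1 hy0.1)).1
      refine (card_le_card ?_).trans (hcap v hv)
      intro y hy
      rw [mem_filter] at hy ⊢
      refine ⟨hy.1, ?_⟩
      rw [← (hw y ((hYm y).1 hy.1)).2, hy.2]
  obtain ⟨f, hf, hfinj⟩ := exists_inj_fib L Y w hfib
  have hfL : ∀ y ∈ Y, f y ∈ L := fun y hy => (hf y hy).1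
  have hfE : ∀ y ∈ Y, f y ∉ E := fun y hy h => disjoint_left.1 hEL h (hfL y hy)
  obtain ⟨F, hF⟩ : ∃ F : V → J, ∀ v, F v = if v ∈ E then g v else Function.invFunOn f Y v :=
    ⟨fun v => if v ∈ E then g v else Function.invFunOn f Y v, fun v => rfl⟩
  have hFE : ∀ v ∈ E, F v = g v := fun v hv => by rw [hF, if_pos hv]
  have hFf : ∀ y ∈ Y, F (f y) = y := by
    intro y hy
    rw [hF, if_neg (hfE y hy)]
    exact hfinj.leftInvOn_invFunOn (mem_coe.2 hy)
  have hEF : E.image F = I := by
    rw [hI]
    exact image_congr (fun v hv => hFE v hv)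
  have himg : (E ∪ Y.image f).image F = univ := by
    have e2 : (Y.image f).image F = Y := by
      ext y
      rw [mem_image]
      constructor
      · rintro ⟨v, hv, rfl⟩
        rw [mem_image] at hv
        obtain ⟨y', hy', rfl⟩ := hv
        rw [hFf y' hy']
        exact hy'
      · intro hy
        exact ⟨f y, mem_image_of_mem f hy, hFf y hy⟩
    rw [image_union, hEF, e2]
    ext y
    simp only [mem_union, mem_univ, iff_true, hYm]
    exact em _
  have hcard : (E ∪ Y.image f).card = Fintype.card J := by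
    have hd : Disjoint E (Y.image f) := by
      rw [disjoint_right]
      intro v hv
      rw [mem_image] at hv
      obtain ⟨y, hy, rfl⟩ := hv
      exact hfE y hy
    have hIc : I.card = E.card := by
      rw [hI]
      exact card_image_of_injOn hg.inj
    have hYc : Y = Iᶜ := by
      ext y
      rw [hYm, mem_compl]
    rw [card_union_of_disjoint hd, card_image_of_injOn hfinj, hYc, card_compl, hIc]
    have h3 : I.card ≤ Fintype.card J := card_le_univ _
    omega
  refine ⟨E ∪ Y.image f, subset_union_left, ?_, hcard, F, ?_, ?_, ?_⟩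
  · exact union_subset_union (Subset.refl _) (image_subset_iff.2 hfL)
  · rw [hFE r hr, hg.root]
  · rw [← card_image_iff, himg, card_univ, hcard]
  · rw [himg]
    apply Finset.eq_univ_of_forall
    intro x
    by_cases hx : x ∈ I
    · have h5 : x ∈ E.image (fun v => g v + g (p v)) := by
        rw [hg.im, ← hI]
        exact hx
      rw [mem_image] at h5
      obtain ⟨v, hv, hvx⟩ := h5
      refine mem_image.2 ⟨v, mem_union_left _ hv, ?_⟩
      rw [hFE v hv, hFE (p v) (hpE v hv)]
      exact hvx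
    · have hψ : Y.image π = Y := by
        apply eq_of_subset_of_card_le
        · intro z hz
          rw [mem_image] at hz
          obtain ⟨y, hy, rfl⟩ := hz
          exact (hYm _).2 (hπ y ((hYm y).1 hy))
        · rw [card_image_of_injOn]
          intro y hy y' hy' hyy
          exact hinj y y' ((hYm y).1 hy) ((hYm y').1 hy') hyy
      have h7 : x ∈ Y.image π := by
        rw [hψ]
        exact (hYm x).2 hx
      rw [mem_image] at h7
      obtain ⟨y, hy, hyx⟩ := h7
      have hwy := hw y ((hYm y).1 hy)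
      refine mem_image.2 ⟨f y, mem_union_right _ (mem_image_of_mem f hy), ?_⟩
      show F (f y) + F (p (f y)) = x
      rw [hFf y hy, (hf y hy).2, hFE (w y) hwy.1, hwy.2, ← hyx, ← add_assoc, hJ, zero_add]

end Pool.Agent.H60.LN
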