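import Mathlib
import Pool.Agent.H60.LN.Defs

/-!
# LNParts: a permutation from permutations of the parts

`Y` is divided into the parts `part y = Y ∩ tr y (Z (lv y))`.

Proof.  Parts which meet are equal: if `w ∈ part y ∩ part y'` then `lv w = lv y = lv y'` by `hinv`, and
`y + y' = (y + w) + (y' + w) ∈ Z (lv y)`.  For a finset `C` of the form `part y` choose such a `y` and the permutation
`Π C` given by `hpart y`; put `π y = Π (part y) y`.  On a part `C` the function `π` is `Π C` (all `y ∈ C` have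
`part y = C`), so it maps `C` to `C`, injectively; different parts are disjoint, so `π` is injective on `Y`.
Differences: `x + π x ∈ P (lv y) = P (lv x)`.
Count: let `X` be as in the last statement.  The parts `C` which meet `{y ∈ Y : lv y = ℓ}` are of the form `part y` with `lv y = ℓ`,
their number `K` satisfies `K * (Z ℓ).card <= X.card`: the cosets `tr y (Z ℓ)` for different parts are
disjoint (if they meet then `y + y' ∈ Z ℓ`, so the parts are equal), have `(Z ℓ).card` elements and are contained in `X`.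
So `K <= N` (`(Z ℓ).card > 0`), and each part contributes at most `16`.
-/

set_option autoImplicit false

open Finset

namespace Pool.Agent.H60.LN

/-- The chosen element of a set. -/
private noncomputable def partRep {J : Type*} [AddCommGroup J] (S : Finset J) : J :=
  open Classical in if h : S.Nonempty then h.choose else 0

private theorem partRep_mem {J : Type*} [AddCommGroup J] {S : Finset J} (h : S.Nonempty) :
    partRep S ∈ S := by
  unfold partRep
  rw [dif_pos h]
  exact h.choose_spec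

private theorem part_eq {J : Type*} [AddCommGroup J] [DecidableEq J] [Fintype J]
    (hdbl : ∀ x : J, x + x = 0) (Z : ℕ → Finset J)
    (hZadd : ∀ ℓ, ∀ x ∈ Z ℓ, ∀ y ∈ Z ℓ, x + y ∈ Z ℓ) (Y : Finset J) (lv : J → ℕ)
    (hinv : ∀ y ∈ Y, ∀ y' ∈ Y, y + y' ∈ Z (lv y) → lv y' = lv y) {y w : J} (hy : y ∈ Y)
    (hw : w ∈ Y ∩ tr y (Z (lv y))) :
    w ∈ Y ∧ lv w = lv y ∧ Y ∩ tr w (Z (lv w)) = Y ∩ tr y (Z (lv y)) := by
  rw [Finset.mem_inter, mem_tr] at hw
  have hlv := hinv y hy w hw.1 hw.2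
  refine ⟨hw.1, hlv, ?_⟩
  rw [hlv]
  ext z
  rw [Finset.mem_inter, Finset.mem_inter, mem_tr, mem_tr]
  refine and_congr_right fun _ => ?_
  constructor
  · intro hz
    have h4 := hZadd _ _ hw.2 _ hz
    have h5 : y + w + (w + z) = y + z := by
      have : y + w + (w + z) = (w + w) + (y + z) := by abel
      rw [this, hdbl, zero_add]
    rwa [h5] at h4
  · intro hz
    have h4 := hZadd _ _ hw.2 _ hz
    have h5 : y + w + (y + z) = w + z := by
      have : y + w + (y + z) = (y + y) + (w + z) := by abel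
      rw [this, hdbl, zero_add]
    rwa [h5] at h4

theorem perm_of_parts {J : Type*} [AddCommGroup J] [DecidableEq J] [Fintype J]
    (hdbl : ∀ x : J, x + x = 0) (Z P : ℕ → Finset J) (hZ0 : ∀ ℓ, (0 : J) ∈ Z ℓ)
    (hZadd : ∀ ℓ, ∀ x ∈ Z ℓ, ∀ y ∈ Z ℓ, x + y ∈ Z ℓ) (Y : Finset J) (lv : J → ℕ)
    (hinv : ∀ y ∈ Y, ∀ y' ∈ Y, y + y' ∈ Z (lv y) → lv y' = lv y)
    (hpart : ∀ y ∈ Y, ∃ π : J → J,
      (∀ x ∈ Y ∩ tr y (Z (lv y)), π x ∈ Y ∩ tr y (Z (lv y))) ∧
      Set.InjOn π (Y ∩ tr y (Z (lv y)) : Finset J) ∧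
      (∀ x ∈ Y ∩ tr y (Z (lv y)), x + π x ∈ P (lv y)) ∧
      ∀ e : J, ((Y ∩ tr y (Z (lv y))).filter (fun x => x + π x = e)).card ≤ 16) :
    ∃ π : J → J, (∀ y ∈ Y, π y ∈ Y) ∧ Set.InjOn π Y ∧ (∀ y ∈ Y, y + π y ∈ P (lv y)) ∧
      ∀ (ℓ : ℕ) (e : J) (X : Finset J) (N : ℕ), (∀ x ∈ X, ∀ z ∈ Z ℓ, x + z ∈ X) →
        (∀ y ∈ Y, lv y = ℓ → y ∈ X) → X.card ≤ N * (Z ℓ).card →
        (Y.filter (fun y => lv y = ℓ ∧ y + π y = e)).card ≤ 16 * N := by
  choose! Q h1 h2 h3 h4 using hpart
  obtain ⟨C, hC⟩ : ∃ C : J → Finset J, C = fun y => Y ∩ tr y (Z (lv y)) := ⟨_, rfl⟩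
  have hCy : ∀ y, C y = Y ∩ tr y (Z (lv y)) := fun y => by rw [hC]
  have hself : ∀ y ∈ Y, y ∈ C y := by
    intro y hy
    rw [hCy, Finset.mem_inter, mem_tr, hdbl]
    exact ⟨hy, hZ0 _⟩
  have hpe : ∀ y ∈ Y, ∀ w ∈ C y, w ∈ Y ∧ lv w = lv y ∧ C w = C y := by
    intro y hy w hw
    rw [hCy, hCy]
    rw [hCy] at hw
    exact part_eq hdbl Z hZadd Y lv hinv hy hw
  obtain ⟨R, hR⟩ : ∃ R : J → J, R = fun y => partRep (C y) := ⟨_, rfl⟩
  have hRe : ∀ y, R y = partRep (C y) := fun y => by rw [hR]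
  have hRm : ∀ y ∈ Y, R y ∈ C y := by
    intro y hy
    rw [hRe]
    exact partRep_mem ⟨y, hself y hy⟩
  have hRY : ∀ y ∈ Y, R y ∈ Y := fun y hy => (hpe y hy _ (hRm y hy)).1
  have hRl : ∀ y ∈ Y, lv (R y) = lv y := fun y hy => (hpe y hy _ (hRm y hy)).2.1
  have hRC : ∀ y ∈ Y, C (R y) = C y := fun y hy => (hpe y hy _ (hRm y hy)).2.2
  have hmem : ∀ y ∈ Y, y ∈ C (R y) := fun y hy => by rw [hRC y hy]; exact hself y hy
  have hRR : ∀ y ∈ Y, R (R y) = R y := fun y hy => by rw [hRe (R y), hRC y hy, ← hRe]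
  have hval : ∀ y ∈ Y, Q (R y) y ∈ C y := by
    intro y hy
    have h := h1 (R y) (hRY y hy) y (by rw [← hCy]; exact hmem y hy)
    rw [← hCy, hRC y hy] at h
    exact h
  refine ⟨fun y => Q (R y) y, ?_, ?_, ?_, ?_⟩
  · intro y hy
    exact (hpe y hy _ (hval y hy)).1
  · intro y hy y' hy' e
    rw [Finset.mem_coe] at hy hy'
    have e' : Q (R y) y = Q (R y') y' := e
    have a1 := (hpe y hy _ (hval y hy)).2.2
    have a2 := (hpe y' hy' _ (hval y' hy')).2.2
    rw [← e'] at a2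
    have a3 : C y = C y' := a1.symm.trans a2
    have a4 : R y = R y' := by rw [hRe, hRe, a3]
    rw [← a4] at e'
    refine h2 (R y) (hRY y hy) ?_ ?_ e'
    · rw [Finset.mem_coe, ← hCy]
      exact hmem y hy
    · rw [Finset.mem_coe, ← hCy, a4]
      exact hmem y' hy'
  · intro y hy
    have h := h3 (R y) (hRY y hy) y (by rw [← hCy]; exact hmem y hy)
    rw [hRl y hy] at h
    exact h
  · intro ℓ e X N hX hYX hcard
    have hZpos : 0 < (Z ℓ).card := Finset.card_pos.2 ⟨0, hZ0 ℓ⟩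
    obtain ⟨S, hS⟩ : ∃ S : Finset J, S = (Y.filter (fun y => lv y = ℓ)).image R := ⟨_, rfl⟩
    have hSm : ∀ r ∈ S, r ∈ Y ∧ lv r = ℓ ∧ R r = r := by
      intro r hr
      rw [hS, Finset.mem_image] at hr
      obtain ⟨y, hy, rfl⟩ := hr
      rw [Finset.mem_filter] at hy
      exact ⟨hRY y hy.1, (hRl y hy.1).trans hy.2, hRR y hy.1⟩
    have hSN : S.card ≤ N := by
      have hdis : ∀ r ∈ S, ∀ r' ∈ S, r ≠ r' → Disjoint (tr r (Z ℓ)) (tr r' (Z ℓ)) := by
        intro r hr r' hr' hne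
        rw [Finset.disjoint_left]
        intro w hw hw'
        apply hne
        rw [mem_tr] at hw hw'
        obtain ⟨a1, a2, a3⟩ := hSm r hr
        obtain ⟨b1, b2, b3⟩ := hSm r' hr'
        have a4 : r + r' ∈ Z ℓ := by
          have h5 := hZadd _ _ hw _ hw'
          have h6 : r + w + (r' + w) = r + r' := by
            have : r + w + (r' + w) = (w + w) + (r + r') := by abel
            rw [this, hdbl, zero_add]
          rwa [h6] at h5
        have a5 : r' ∈ C r := by
          rw [hCy, Finset.mem_inter, mem_tr, a2]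
          exact ⟨b1, a4⟩
        have a6 := (hpe r a1 r' a5).2.2
        rw [← a3, ← b3, hRe, hRe r', a6]
      have hcardtr : ∀ r : J, (tr r (Z ℓ)).card = (Z ℓ).card := by
        intro r
        have h : ∀ y : J, r + (r + y) = y := fun y => by rw [← add_assoc, hdbl, zero_add]
        apply Finset.card_bij (fun y _ => r + y)
        · intro y hy
          exact mem_tr.1 hy
        · intro a _ b _ hab
          exact add_left_cancel hab
        · intro b hb
          exact ⟨r + b, mem_tr.2 (by rw [h]; exact hb), h b⟩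
      have hsub : S.biUnion (fun r => tr r (Z ℓ)) ⊆ X := by
        intro w hw
        rw [Finset.mem_biUnion] at hw
        obtain ⟨r, hr, hw⟩ := hw
        obtain ⟨a1, a2, _⟩ := hSm r hr
        rw [mem_tr] at hw
        have h5 := hX r (hYX r a1 a2) _ hw
        rwa [← add_assoc, hdbl, zero_add] at h5
      have h5 := Finset.card_le_card hsub
      rw [Finset.card_biUnion hdis] at h5
      simp only [hcardtr, Finset.sum_const, smul_eq_mul] at h5
      exact Nat.le_of_mul_le_mul_right (h5.trans hcard) hZpos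
    have hT : Y.filter (fun y => lv y = ℓ ∧ y + Q (R y) y = e) ⊆
        S.biUnion (fun r => (Y ∩ tr r (Z (lv r))).filter (fun x => x + Q r x = e)) := by
      intro y hy
      rw [Finset.mem_filter] at hy
      obtain ⟨b1, b2, b3⟩ := hy
      rw [Finset.mem_biUnion]
      refine ⟨R y, ?_, ?_⟩
      · rw [hS, Finset.mem_image]
        exact ⟨y, Finset.mem_filter.2 ⟨b1, b2⟩, rfl⟩
      · rw [Finset.mem_filter, ← hCy]
        exact ⟨hmem y b1, b3⟩
    calc (Y.filter (fun y => lv y = ℓ ∧ y + Q (R y) y = e)).card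
        ≤ (S.biUnion (fun r => (Y ∩ tr r (Z (lv r))).filter
            (fun x => x + Q r x = e))).card := Finset.card_le_card hT
      _ ≤ ∑ r ∈ S, ((Y ∩ tr r (Z (lv r))).filter (fun x => x + Q r x = e)).card :=
          Finset.card_biUnion_le
      _ ≤ ∑ _r ∈ S, 16 := Finset.sum_le_sum fun r hr => h4 r (hSm r hr).1 e
      _ = 16 * S.card := by rw [Finset.sum_const, smul_eq_mul, mul_comm]
      _ ≤ 16 * N := Nat.mul_le_mul_left 16 hSN

end Pool.Agent.H60.LN
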