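import Mathlib

/-!
# LNPermAvoid: permutations with few repeated differences, avoiding forbidden differences

Proof.  Compare `Pool/Agent/H60/FN/Perm.lean` (the case without forbidden differences).  `N = Y.card`.
Consider `(D, π)`, `D ⊆ Y`, `π` injective on `D` with values in `Y`, `x + π x ∉ Fb` for `x ∈ D`, and every
`d` is `x + π x` for at most `16` elements `x ∈ D`.  Show by induction on `m <= N` that there is one with
`D.card = m`.  Step, `P = D.card < N`.  Call `d` full if it is the sum of exactly `16` elements of `D`; there are at most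
`P / 16` full `d`.
(1) `3 * P <= 2 * N`.  Choose `a ∈ Y \ D`.  The `b ∈ Y \ D.image π` with `a + b ∈ Fb` are at most `N / 4`, those with
`a + b` full at most `P / 16`; `N - P - N / 4 - P / 16 >= N / 24 > 0`.  So there is `b` with `a + b ∉ Fb` not full;
take `insert a D`, `update π a b`.
(2) `3 * P > 2 * N`.  Choose `a ∈ Y \ D`, `b ∈ Y \ D.image π`.  For `c ∈ D` the conditions
`a + π c ∉ Fb` (fails for at most `N / 4` elements `c`, `π` is injective), `c + b ∉ Fb` (at most `N / 4`, by `h b`),
`a + π c` not full, `c + b` not full (at most `P / 16` each), `c + π c ≠ a + b` (at most `16`): since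
`P - N / 2 - P / 8 - 16 > 7 * N / 12 - N / 2 - 16 = N / 12 - 16 >= 0` there is a good `c ∈ D`.  Take `insert a D`,
`π' = update (update π a (π c)) c b`.  `a + π c ≠ c + b` (otherwise `c + π c = a + b`), so every sum
occurs at most `16` times.
All inequalities should be multiplied out (natural numbers).
-/

set_option autoImplicit false

open Finset

namespace Pool.Agent.H60.LN

private theorem PermAvoid_kl {A : Type*} [DecidableEq A] (D : Finset A) (a : A) (f g : A → A)
    (h : ∀ x ∈ D, f x = g x) (d : A) :
    ((insert a D).filter (fun x => f x = d)).card ≤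
      (D.filter (fun x => g x = d)).card + (if f a = d then 1 else 0) := by
  have h1 : D.filter (fun x => f x = d) = D.filter (fun x => g x = d) := by
    apply Finset.filter_congr
    intro x hx
    rw [h x hx]
  rw [Finset.filter_insert]
  by_cases hd : f a = d
  · rw [if_pos hd, if_pos hd, ← h1]
    exact Finset.card_insert_le _ _
  · rw [if_neg hd, if_neg hd, ← h1]
    exact le_rfl

private theorem PermAvoid_swap {A : Type*} [AddCommGroup A] [DecidableEq A]
    (Y D : Finset A) (π : A → A) (hmap : ∀ x ∈ D, π x ∈ Y) (hinj : Set.InjOn π D)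
    (a b c : A) (haD : a ∉ D) (hbY : b ∈ Y) (hbD : b ∉ D.image π) (hc : c ∈ D) :
    ∃ π' : A → A, (∀ x ∈ insert a D, π' x ∈ Y) ∧
      Set.InjOn π' (insert a D : Finset A) ∧
      (∀ x ∈ insert a D, (x = a ∧ π' x = π c) ∨ (x = c ∧ π' x = b) ∨ (x ∈ D ∧ π' x = π x)) ∧
      ∀ d, ((insert a D).filter (fun x => x + π' x = d)).card ≤
        ((D.erase c).filter (fun x => x + π x = d)).card +
          (if c + b = d then 1 else 0) + (if a + π c = d then 1 else 0) := by
  have hac : a ≠ c := by
    rintro rfl
    exact haD hc
  have hb' : ∀ x ∈ D, π x ≠ b := by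
    intro x hx hxb
    exact hbD (Finset.mem_image.2 ⟨x, hx, hxb⟩)
  refine ⟨fun x => if x = a then π c else if x = c then b else π x, ?_, ?_, ?_, ?_⟩
  · intro x hx
    by_cases h1 : x = a
    · simp only [h1, if_true]
      exact hmap c hc
    · have hxD : x ∈ D := by
        rcases Finset.mem_insert.1 hx with h | h
        · exact absurd h h1
        · exact h
      by_cases h2 : x = c
      · simp only [if_neg h1, if_pos h2]
        exact hbY
      · simp only [if_neg h1, if_neg h2]
        exact hmap x hxD
  · intro x hx y hy hxy
    have hx' : x = a ∨ x ∈ D := Finset.mem_insert.1 (Finset.mem_coe.1 hx)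
    have hy' : y = a ∨ y ∈ D := Finset.mem_insert.1 (Finset.mem_coe.1 hy)
    have key : ∀ z, z ≠ a → z ∈ D → (if z = c then b else π z) ≠ π c := by
      intro z hza hz
      by_cases hzc : z = c
      · rw [if_pos hzc]
        exact fun h => hb' c hc h.symm
      · rw [if_neg hzc]
        intro h
        exact hzc (hinj (Finset.mem_coe.2 hz) (Finset.mem_coe.2 hc) h)
    by_cases h1 : x = a
    · by_cases h2 : y = a
      · rw [h1, h2]
      · exfalso
        have hyD : y ∈ D := by
          rcases hy' with h | h
          · exact absurd h h2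
          · exact h
        simp only [if_pos h1, if_neg h2] at hxy
        exact key y h2 hyD hxy.symm
    · have hxD : x ∈ D := by
        rcases hx' with h | h
        · exact absurd h h1
        · exact h
      by_cases h2 : y = a
      · exfalso
        simp only [if_neg h1, if_pos h2] at hxy
        exact key x h1 hxD hxy
      · have hyD : y ∈ D := by
          rcases hy' with h | h
          · exact absurd h h2
          · exact h
        simp only [if_neg h1, if_neg h2] at hxy
        by_cases h3 : x = c
        · by_cases h4 : y = c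
          · rw [h3, h4]
          · exfalso
            rw [if_pos h3, if_neg h4] at hxy
            exact hb' y hyD hxy.symm
        · by_cases h4 : y = c
          · exfalso
            rw [if_neg h3, if_pos h4] at hxy
            exact hb' x hxD hxy
          · rw [if_neg h3, if_neg h4] at hxy
            exact hinj (Finset.mem_coe.2 hxD) (Finset.mem_coe.2 hyD) hxy
  · intro x hx
    by_cases h1 : x = a
    · left
      exact ⟨h1, by simp only [h1, if_true]⟩
    · by_cases h2 : x = c
      · right
        left
        exact ⟨h2, by simp only [if_neg h1, if_pos h2]⟩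
      · right
        right
        have hxD : x ∈ D := by
          rcases Finset.mem_insert.1 hx with h | h
          · exact absurd h h1
          · exact h
        exact ⟨hxD, by simp only [if_neg h1, if_neg h2]⟩
  · intro d
    set f : A → A := fun x => x + (if x = a then π c else if x = c then b else π x) with hf
    have hD : insert c (D.erase c) = D := Finset.insert_erase hc
    have e1 := PermAvoid_kl D a f (fun x => x + (if x = c then b else π x)) (by
      intro x hx
      have : x ≠ a := by
        rintro rfl
        exact haD hx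
      simp only [hf, if_neg this]) d
    have e2 := PermAvoid_kl (D.erase c) c (fun x => x + (if x = c then b else π x))
      (fun x => x + π x) (by
        intro x hx
        have : x ≠ c := Finset.ne_of_mem_erase hx
        simp only [if_neg this]) d
    rw [hD] at e2
    have e3 : f a = a + π c := by
      simp only [hf, if_true]
    rw [e3] at e1
    simp only [if_true] at e2
    exact le_trans e1 (Nat.add_le_add_right e2 _)

private theorem PermAvoid_step {A : Type*} [AddCommGroup A] [DecidableEq A]
    (hA : ∀ x : A, x + x = 0) (Y Fb D : Finset A) (π : A → A) (hY : 256 ≤ Y.card)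
    (h : ∀ a ∈ Y, 4 * (Y.filter (fun y => a + y ∈ Fb)).card ≤ Y.card) (hD : D ⊆ Y)
    (hlt : D.card < Y.card) (hmap : ∀ x ∈ D, π x ∈ Y) (hinj : Set.InjOn π D)
    (hfb : ∀ x ∈ D, x + π x ∉ Fb)
    (hc : ∀ d, (D.filter (fun x => x + π x = d)).card ≤ 16) :
    ∃ (D' : Finset A) (π' : A → A), D' ⊆ Y ∧ D'.card = D.card + 1 ∧
      (∀ x ∈ D', π' x ∈ Y) ∧ Set.InjOn π' D' ∧ (∀ x ∈ D', x + π' x ∉ Fb) ∧
      ∀ d, (D'.filter (fun x => x + π' x = d)).card ≤ 16 := by
  obtain ⟨a, haY, haD⟩ := Finset.exists_mem_notMem_of_card_lt_card hlt
  have hsub : insert a D ⊆ Y := by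
    intro x hx
    rcases Finset.mem_insert.1 hx with h | h
    · rw [h]
      exact haY
    · exact hD h
  have hcard : (insert a D).card = D.card + 1 := Finset.card_insert_of_notMem haD
  obtain ⟨S, hS⟩ : ∃ S : Finset A, S = (D.image (fun x => x + π x)).filter
    (fun d => (D.filter (fun x => x + π x = d)).card = 16) := ⟨_, rfl⟩
  have hS16 : 16 * S.card ≤ D.card := by
    have h1 : (D.filter (fun x => x + π x ∈ S)).card =
        ∑ d ∈ S, ((D.filter (fun x => x + π x ∈ S)).filter (fun x => x + π x = d)).card := by
      apply Finset.card_eq_sum_card_fiberwise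
      intro x hx
      exact (Finset.mem_filter.1 (Finset.mem_coe.1 hx)).2
    have h2 : ∀ d ∈ S,
        ((D.filter (fun x => x + π x ∈ S)).filter (fun x => x + π x = d)).card = 16 := by
      intro d hd
      have hd1 : (D.filter (fun x => x + π x = d)).card = 16 := by
        rw [hS] at hd
        exact (Finset.mem_filter.1 hd).2
      rw [← hd1]
      congr 1
      ext x
      simp only [Finset.mem_filter]
      constructor
      · rintro ⟨⟨h1, h3⟩, h4⟩
        exact ⟨h1, h4⟩
      · rintro ⟨h1, h2⟩
        refine ⟨⟨h1, ?_⟩, h2⟩
        rw [h2]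
        exact hd
    rw [Finset.sum_congr rfl h2, Finset.sum_const, smul_eq_mul] at h1
    have h3 : (D.filter (fun x => x + π x ∈ S)).card ≤ D.card := Finset.card_filter_le _ _
    omega
  have hnotS : ∀ d, d ∉ S → (D.filter (fun x => x + π x = d)).card ≤ 15 := by
    intro d hdS
    by_contra hcon
    have h44 : (D.filter (fun x => x + π x = d)).card = 16 := by
      have := hc d
      omega
    apply hdS
    rw [hS]
    refine Finset.mem_filter.2 ⟨?_, h44⟩
    have hpos : 0 < (D.filter (fun x => x + π x = d)).card := by omega
    obtain ⟨y, hy⟩ := Finset.card_pos.1 hpos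
    have hy1 := Finset.mem_filter.1 hy
    exact Finset.mem_image.2 ⟨y, hy1.1, hy1.2⟩
  by_cases hcase : 3 * D.card ≤ 2 * Y.card
  · -- few elements so far
    obtain ⟨b, hbY, hbD, hbF, hbS⟩ : ∃ b ∈ Y, b ∉ D.image π ∧ a + b ∉ Fb ∧ a + b ∉ S := by
      by_contra hcon
      have hsub2 : Y ⊆ D.image π ∪ ((Y.filter (fun y => a + y ∈ Fb)) ∪
          (Y.filter (fun y => a + y ∈ S))) := by
        intro b hb
        by_cases h1 : b ∈ D.image π
        · exact Finset.mem_union_left _ h1
        · apply Finset.mem_union_right
          by_cases h2 : a + b ∈ Fb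
          · exact Finset.mem_union_left _ (Finset.mem_filter.2 ⟨hb, h2⟩)
          · by_cases h3 : a + b ∈ S
            · exact Finset.mem_union_right _ (Finset.mem_filter.2 ⟨hb, h3⟩)
            · exact absurd ⟨b, hb, h1, h2, h3⟩ hcon
      have h1 := Finset.card_le_card hsub2
      have h2 := Finset.card_union_le (D.image π) ((Y.filter (fun y => a + y ∈ Fb)) ∪
          (Y.filter (fun y => a + y ∈ S)))
      have h3 := Finset.card_union_le (Y.filter (fun y => a + y ∈ Fb))
          (Y.filter (fun y => a + y ∈ S))
      have h4 : (D.image π).card ≤ D.card := Finset.card_image_le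
      have h5 : (Y.filter (fun y => a + y ∈ S)).card ≤ S.card := by
        apply Finset.card_le_card_of_injOn (fun y => a + y)
        · intro y hy
          exact (Finset.mem_filter.1 (Finset.mem_coe.1 hy)).2
        · intro y _ y' _ hyy
          exact add_left_cancel hyy
      have h6 := h a haY
      omega
    have hb' : ∀ x ∈ D, π x ≠ b := by
      intro x hx hxb
      exact hbD (Finset.mem_image.2 ⟨x, hx, hxb⟩)
    refine ⟨insert a D, Function.update π a b, hsub, hcard, ?_, ?_, ?_, ?_⟩
    · intro x hx
      by_cases h1 : x = a
      · rw [h1, Function.update_self]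
        exact hbY
      · rw [Function.update_of_ne h1]
        rcases Finset.mem_insert.1 hx with h | h
        · exact absurd h h1
        · exact hmap x h
    · intro x hx y hy hxy
      have hx' : x = a ∨ x ∈ D := Finset.mem_insert.1 (Finset.mem_coe.1 hx)
      have hy' : y = a ∨ y ∈ D := Finset.mem_insert.1 (Finset.mem_coe.1 hy)
      by_cases h1 : x = a
      · by_cases h2 : y = a
        · rw [h1, h2]
        · exfalso
          have hyD : y ∈ D := by
            rcases hy' with h | h
            · exact absurd h h2
            · exact h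
          rw [h1, Function.update_self, Function.update_of_ne h2] at hxy
          exact hb' y hyD hxy.symm
      · have hxD : x ∈ D := by
          rcases hx' with h | h
          · exact absurd h h1
          · exact h
        by_cases h2 : y = a
        · exfalso
          rw [h2, Function.update_self, Function.update_of_ne h1] at hxy
          exact hb' x hxD hxy
        · have hyD : y ∈ D := by
            rcases hy' with h | h
            · exact absurd h h2
            · exact h
          rw [Function.update_of_ne h1, Function.update_of_ne h2] at hxy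
          exact hinj (Finset.mem_coe.2 hxD) (Finset.mem_coe.2 hyD) hxy
    · intro x hx
      by_cases h1 : x = a
      · rw [h1, Function.update_self]
        exact hbF
      · rw [Function.update_of_ne h1]
        rcases Finset.mem_insert.1 hx with h | h
        · exact absurd h h1
        · exact hfb x h
    · intro d
      have e1 := PermAvoid_kl D a (fun x => x + Function.update π a b x) (fun x => x + π x) (by
        intro x hx
        have : x ≠ a := by
          rintro rfl
          exact haD hx
        simp only [Function.update_of_ne this]) d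
      simp only [Function.update_self] at e1
      by_cases h1 : a + b = d
      · rw [if_pos h1] at e1
        have h2 := hnotS d (h1 ▸ hbS)
        omega
      · rw [if_neg h1] at e1
        have := hc d
        omega
  · -- many elements
    obtain ⟨b, hbY, hbD⟩ := Finset.exists_mem_notMem_of_card_lt_card
      (lt_of_le_of_lt (Finset.card_image_le (s := D) (f := π)) hlt)
    have hswapeq : ∀ c, a + π c = c + b → c + π c = a + b := by
      intro c h
      have h1 : c + π c = (a + a) + (c + π c) := by rw [hA a, zero_add]
      rw [h1]
      have h2 : (a + a) + (c + π c) = a + c + (a + π c) := by abel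
      rw [h2, h]
      have h3 : a + c + (c + b) = a + b + (c + c) := by abel
      rw [h3, hA c, add_zero]
    have hB1 : (D.filter (fun c => a + π c ∈ S)).card ≤ S.card := by
      apply Finset.card_le_card_of_injOn (fun c => a + π c)
      · intro c hc1
        exact (Finset.mem_filter.1 (Finset.mem_coe.1 hc1)).2
      · intro c hc1 c' hc2 h
        have h1 : c ∈ D := (Finset.mem_filter.1 (Finset.mem_coe.1 hc1)).1
        have h2 : c' ∈ D := (Finset.mem_filter.1 (Finset.mem_coe.1 hc2)).1
        exact hinj (Finset.mem_coe.2 h1) (Finset.mem_coe.2 h2) (add_left_cancel h)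
    have hB2 : (D.filter (fun c => c + b ∈ S)).card ≤ S.card := by
      apply Finset.card_le_card_of_injOn (fun c => c + b)
      · intro c hc1
        exact (Finset.mem_filter.1 (Finset.mem_coe.1 hc1)).2
      · intro c hc1 c' hc2 h
        exact add_right_cancel h
    have hB3 : (D.filter (fun c => a + π c ∈ Fb)).card ≤
        (Y.filter (fun y => a + y ∈ Fb)).card := by
      apply Finset.card_le_card_of_injOn π
      · intro c hc1
        have h1 := Finset.mem_filter.1 (Finset.mem_coe.1 hc1)
        exact Finset.mem_coe.2 (Finset.mem_filter.2 ⟨hmap c h1.1, h1.2⟩)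
      · intro c hc1 c' hc2 h
        have h1 : c ∈ D := (Finset.mem_filter.1 (Finset.mem_coe.1 hc1)).1
        have h2 : c' ∈ D := (Finset.mem_filter.1 (Finset.mem_coe.1 hc2)).1
        exact hinj (Finset.mem_coe.2 h1) (Finset.mem_coe.2 h2) h
    have hB4 : (D.filter (fun c => c + b ∈ Fb)).card ≤
        (Y.filter (fun y => b + y ∈ Fb)).card := by
      apply Finset.card_le_card
      intro c hc1
      have h1 := Finset.mem_filter.1 hc1
      refine Finset.mem_filter.2 ⟨hD h1.1, ?_⟩
      rw [add_comm]
      exact h1.2
    obtain ⟨c, hcD, hc1, hc2, hc3, hc4, hcne2⟩ : ∃ c ∈ D, a + π c ∉ S ∧ c + b ∉ S ∧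
        a + π c ∉ Fb ∧ c + b ∉ Fb ∧ c + π c ≠ a + b := by
      by_contra hcon
      have hsub2 : D ⊆ ((D.filter (fun c => a + π c ∈ S)) ∪ (D.filter (fun c => c + b ∈ S))) ∪
          (((D.filter (fun c => a + π c ∈ Fb)) ∪ (D.filter (fun c => c + b ∈ Fb))) ∪
            (D.filter (fun c => c + π c = a + b))) := by
        intro c hcD
        by_cases h1 : a + π c ∈ S
        · exact Finset.mem_union_left _ (Finset.mem_union_left _
            (Finset.mem_filter.2 ⟨hcD, h1⟩))
        by_cases h2 : c + b ∈ S
        · exact Finset.mem_union_left _ (Finset.mem_union_right _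
            (Finset.mem_filter.2 ⟨hcD, h2⟩))
        by_cases h3 : a + π c ∈ Fb
        · exact Finset.mem_union_right _ (Finset.mem_union_left _ (Finset.mem_union_left _
            (Finset.mem_filter.2 ⟨hcD, h3⟩)))
        by_cases h4 : c + b ∈ Fb
        · exact Finset.mem_union_right _ (Finset.mem_union_left _ (Finset.mem_union_right _
            (Finset.mem_filter.2 ⟨hcD, h4⟩)))
        by_cases h5 : c + π c = a + b
        · exact Finset.mem_union_right _ (Finset.mem_union_right _
            (Finset.mem_filter.2 ⟨hcD, h5⟩))
        exact absurd ⟨c, hcD, h1, h2, h3, h4, h5⟩ hcon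
      have h1 := Finset.card_le_card hsub2
      have h2 := Finset.card_union_le ((D.filter (fun c => a + π c ∈ S)) ∪
          (D.filter (fun c => c + b ∈ S)))
          (((D.filter (fun c => a + π c ∈ Fb)) ∪ (D.filter (fun c => c + b ∈ Fb))) ∪
            (D.filter (fun c => c + π c = a + b)))
      have h3 := Finset.card_union_le (D.filter (fun c => a + π c ∈ S))
        (D.filter (fun c => c + b ∈ S))
      have h4 := Finset.card_union_le ((D.filter (fun c => a + π c ∈ Fb)) ∪
        (D.filter (fun c => c + b ∈ Fb))) (D.filter (fun c => c + π c = a + b))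
      have h5 := Finset.card_union_le (D.filter (fun c => a + π c ∈ Fb))
        (D.filter (fun c => c + b ∈ Fb))
      have h6 := hc (a + b)
      have h7 := h a haY
      have h8 := h b hbY
      omega
    obtain ⟨π', h1, h2, h2', h3⟩ := PermAvoid_swap Y D π hmap hinj a b c haD hbY hbD hcD
    refine ⟨insert a D, π', hsub, hcard, h1, h2, ?_, ?_⟩
    · intro x hx
      rcases h2' x hx with ⟨e1, e2⟩ | ⟨e1, e2⟩ | ⟨e1, e2⟩
      · rw [e2, e1]
        exact hc3
      · rw [e2, e1]
        exact hc4
      · rw [e2]
        exact hfb x e1
    · intro d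
      have h4 := h3 d
      have hle : ((D.erase c).filter (fun x => x + π x = d)).card ≤
          (D.filter (fun x => x + π x = d)).card :=
        Finset.card_le_card (Finset.filter_subset_filter _ (Finset.erase_subset _ _))
      have hcd := hc d
      by_cases hd1 : c + b = d
      · have hd2 : a + π c ≠ d := by
          intro h
          exact hcne2 (hswapeq c (h.trans hd1.symm))
        rw [if_pos hd1, if_neg hd2] at h4
        have := hnotS d (hd1 ▸ hc2)
        omega
      · by_cases hd2 : a + π c = d
        · rw [if_neg hd1, if_pos hd2] at h4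
          have := hnotS d (hd2 ▸ hc1)
          omega
        · rw [if_neg hd1, if_neg hd2] at h4
          omega

theorem exists_perm_avoid {A : Type*} [AddCommGroup A] [DecidableEq A] (hA : ∀ x : A, x + x = 0)
    (Y Fb : Finset A) (hY : 256 ≤ Y.card)
    (h : ∀ a ∈ Y, 4 * (Y.filter (fun y => a + y ∈ Fb)).card ≤ Y.card) :
    ∃ π : A → A, (∀ x ∈ Y, π x ∈ Y) ∧ Set.InjOn π Y ∧ (∀ x ∈ Y, x + π x ∉ Fb) ∧
      ∀ d : A, (Y.filter (fun x => x + π x = d)).card ≤ 16 := by
  have main : ∀ m : ℕ, m ≤ Y.card → ∃ (D : Finset A) (π : A → A), D ⊆ Y ∧ D.card = m ∧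
      (∀ x ∈ D, π x ∈ Y) ∧ Set.InjOn π D ∧ (∀ x ∈ D, x + π x ∉ Fb) ∧
      ∀ d, (D.filter (fun x => x + π x = d)).card ≤ 16 := by
    intro m
    induction m with
    | zero =>
      intro _
      refine ⟨∅, id, Finset.empty_subset _, Finset.card_empty, ?_, ?_, ?_, ?_⟩
      · intro x hx
        exact absurd hx (Finset.notMem_empty _)
      · intro x hx
        exact absurd (Finset.mem_coe.1 hx) (Finset.notMem_empty _)
      · intro x hx
        exact absurd hx (Finset.notMem_empty _)
      · intro d
        simp
    | succ m ih =>
      intro hm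
      obtain ⟨D, π, h1, h2, h3, h4, h5, h6⟩ := ih (by omega)
      obtain ⟨D', π', k1, k2, k3, k4, k5, k6⟩ :=
        PermAvoid_step hA Y Fb D π hY h h1 (by omega) h3 h4 h5 h6
      exact ⟨D', π', k1, by omega, k3, k4, k5, k6⟩
  obtain ⟨D, π, h1, h2, h3, h4, h5, h6⟩ := main Y.card le_rfl
  have hDY : D = Y := Finset.eq_of_subset_of_card_le h1 (by omega)
  subst hDY
  exact ⟨π, h3, h4, h5, h6⟩

end Pool.Agent.H60.LN
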