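import Mathlib
import Pool.Agent.H60.LN.CLem
import Pool.Agent.H60.LN.PermAvoid
import Pool.Agent.H60.LN.FillP
import Pool.Agent.H60.LN.Parts

/-!
# CFill: filling the holes in the C-case

Compare the proof of `S_fill` in `Pool/Agent/H60/LN/SFill.lean`.
Notation: `E = S.E`, `U = E.image g`, `Y = univ \ U`, `Z = D.Z`, `L = D.L`.
(0) All of `Z ℓ \ Q ℓ` is used by the vertices of level `ℓ` (`1 <= ℓ <= L`): `g` maps `E.filter (lev v = ℓ)` injectively into `Z ℓ \ Q ℓ` (`sv`), and the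
cardinalities agree by `cnt`.
(1) `Y ∩ Z L`: `y ∈ Y`, `y ∈ Z L`.  `y ≠ 0` (`0 = g r ∈ U`, `lab.root`).  Let `ℓ` be minimal with `y ∈ Z ℓ`: `1 <= ℓ <= L` (`Z 0 = {0}`), `y ∉ Z (ℓ - 1)`, and
`y ∈ Q ℓ` by (0).  Put `lv y = ℓ - 1`; for `y ∉ Z L` put `lv y = reg y`.  `P 0 = {0}`, `P ℓ = Z ℓ \ Q ℓ` for `ℓ >= 1`.
`hinv`: let `y, y' ∈ Y`, `y + y' ∈ Z (lv y)`.  If `y ∉ Z L`: `lv y = reg y <= L`, so `y' ∉ Z L` and `reg y' = reg y` (`reg_inv`).  If `y ∈ Z L`, `lv y = ℓ - 1`: then
`y' ∈ Z L`, and `y' ∈ Z i ↔ y ∈ Z i` for all `i >= ℓ - 1`, so `lv y' = ℓ - 1`.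
`hpart`: (a) `y ∉ Z L`, `ℓ = reg y`: the part is `Y ∩ cst y`, at least `15/16 * (Z ℓ).card` elements (cap, `card_tr`).  `exists_perm_avoid` with
`Fb = Q ℓ` (`(Q ℓ).card = 2 ^ 12 * (Z (ℓ - 1)).card <= 2^-28 * (Z ℓ).card` by `Qcard`, `gap`, and `big` with `(Z 0).card = 1` if `ℓ = 1`).
For `x`, `π x` in the part, `x + π x ∈ Z ℓ`, not in `Q ℓ`.
(b) `y ∈ Z L`, `lv y = ℓ - 1 >= 1`: `tr y (Z (ℓ - 1)) ⊆ Q ℓ \ Z (ℓ - 1)` (`Z (ℓ - 1) ⊆ Q ℓ`).  At most one element of `Q ℓ \ Z (ℓ - 1)` is in `U`: if `g v` is in this set,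
`v ∈ E`, then by `pure` `v ∈ C` (`v = r`: label `0`; `1 <= lev v`: `g v ∈ Z i \ Q i`, `i = lev v`, disjoint from `Q ℓ \ Z (ℓ - 1)`), and with `IsMn i v`,
`g v ∈ Q i \ Z (i - 1)`, so `i = ℓ` and `v = cu ℓ`.  So the part has at least `(Z (ℓ - 1)).card - 1` elements; `Fb = Q (ℓ - 1)`,
`8 * (Q (ℓ - 1)).card <= (Z (ℓ - 1)).card` as before, `(Z (ℓ - 1)).card >= 2 ^ 40`.  `exists_perm_avoid`.
(c) `lv y = 0`: the part is `{y}`, `π = id`, `x + x = 0`.
(2) `perm_of_parts` gives `π`.  `lab_fill_perm` with `L = Lf`.  `hdiff`: `y + π y ∈ P (lv y) ⊆ U` by (0), `0 = g r`.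
`hcap`: let `v ∈ E`.  If no `y ∈ Y` has `y + π y = g v` clear.
 - `g v = 0`: `v = r` (injectivity).  `y + π y = 0` implies `lv y = 0` (`0 ∈ Q ℓ`).  Last statement of `perm_of_parts` with `ℓ = 0`, `X = Q 1`
   (`y ∈ Z L`, `lv y = 0`: `y ∈ Q 1`), `N = 2 ^ 12` (`(Q 1).card = 2 ^ 12 * (Z 0).card`): at most `2 ^ 16`: `hr16`.
 - `g v ≠ 0`: if `y + π y = g v`, `ℓ = lv y >= 1` (`ℓ = 0` gives `g v = 0`), `ℓ <= L`, `g v ∈ Z ℓ \ Q ℓ`.  `lev_used`: some `v' ∈ E` with `lev v' = ℓ`, `g v' = g v`; so `v' = v`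
   and `lev v = ℓ` for all such `y`.  Last statement of `perm_of_parts` with `X = univ.filter (reg x = ℓ) ∪ (if ℓ < L then Q (ℓ + 1) else ∅)`
   (invariant under `Z ℓ`: `reg_inv`, `Z ℓ ⊆ Q (ℓ + 1)`; contains all `y` with `lv y = ℓ`: if `y ∉ Z L`, `reg y = ℓ`; if `y ∈ Z L`, `y ∈ Q (ℓ + 1)` and
   `ℓ + 1 <= L`), `X.card <= (N ℓ + 2 ^ 12) * (Z ℓ).card` (`Qcard` for `ℓ + 1`).  So at most `16 * (N ℓ + 2 ^ 12)`: `hcapa`.
-/

set_option autoImplicit false

open Finset

namespace Pool.Agent.H60.LN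

open Pool.Agent.H57.SS Pool.Agent.H60.FN

private theorem CFill_prev {J : Type*} [AddCommGroup J] [DecidableEq J] [Fintype J] (D : Lv J) :
    ∀ ℓ, 1 ≤ ℓ → ℓ ≤ D.L → 2 ^ 40 * (D.Z (ℓ - 1)).card ≤ (D.Z ℓ).card := by
  intro ℓ h1 h2
  rcases Nat.eq_or_lt_of_le h1 with h | h
  · subst h
    have h3 := D.big 1 le_rfl h2
    rw [show 1 - 1 = 0 from rfl, D.Z0, card_singleton, mul_one]
    exact h3
  · have h3 := D.gap (ℓ - 1) (by omega) (by omega)
    rwa [Nat.sub_add_cancel h1] at h3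

private theorem CFill_cnt {J : Type*} [AddCommGroup J] [DecidableEq J] (C Fb : Finset J) (a : J) :
    (C.filter (fun y => a + y ∈ Fb)).card ≤ Fb.card := by
  apply Finset.card_le_card_of_injOn (fun y => a + y)
  · intro y hy
    exact (mem_filter.1 hy).2
  · intro y _ y' _ h
    exact add_left_cancel h

theorem C_fill {V J : Type*} [DecidableEq V] [AddCommGroup J] [DecidableEq J] [Fintype J]
    (S : CS V J) {Lf : Finset V} (hELf : Disjoint S.E Lf) {g : V → J} (hst : CSt S S.E g)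
    (N : ℕ → ℕ) (hN : ∀ ℓ, 1 ≤ ℓ → ℓ ≤ S.D.L →
      (univ.filter (fun x => S.D.reg x = ℓ)).card ≤ N ℓ * (S.D.Z ℓ).card)
    (hcapa : ∀ v ∈ S.E, 1 ≤ S.lev v →
      16 * (N (S.lev v) + 2 ^ 12) ≤ (Lf.filter (fun l => S.p l = v)).card)
    (hr16 : 2 ^ 16 ≤ (Lf.filter (fun l => S.p l = S.r)).card) :
    ∃ E2 : Finset V, S.E ⊆ E2 ∧ E2 ⊆ S.E ∪ Lf ∧ E2.card = Fintype.card J ∧ PLab S.p S.r E2 J := by
  classical
  have hprev := CFill_prev S.D
  have hdbl := S.D.dbl
  obtain ⟨L, hLd⟩ : ∃ L : ℕ, L = S.D.L := ⟨_, rfl⟩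
  obtain ⟨Z, hZd⟩ : ∃ Z : ℕ → Finset J, Z = S.D.Z := ⟨_, rfl⟩
  have hZmono : ∀ {i j : ℕ}, i ≤ j → Z i ⊆ Z j := by
    intro i j h
    rw [hZd]
    exact S.D.monotone h
  have hZ0 : Z 0 = {0} := by rw [hZd]; exact S.D.Z0
  have hZzero : ∀ ℓ, (0 : J) ∈ Z ℓ := by rw [hZd]; exact S.D.zero
  have hZadd : ∀ ℓ, ∀ x ∈ Z ℓ, ∀ y ∈ Z ℓ, x + y ∈ Z ℓ := by rw [hZd]; exact S.D.add
  have hQZ : ∀ ℓ, S.Q ℓ ⊆ Z ℓ := by rw [hZd]; exact S.QZ
  have hZQ : ∀ ℓ, Z ℓ ⊆ S.Q (ℓ + 1) := by rw [hZd]; exact S.ZQ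
  have hZQ' : ∀ {i ℓ : ℕ}, i < ℓ → Z i ⊆ S.Q ℓ := by
    intro i ℓ h
    rw [hZd]
    exact S.Z_Q h
  have hQcard : ∀ ℓ, 1 ≤ ℓ → ℓ ≤ L → (S.Q ℓ).card = 2 ^ 12 * (Z (ℓ - 1)).card := by
    rw [hZd, hLd]
    exact S.Qcard
  have hprev' : ∀ ℓ, 1 ≤ ℓ → ℓ ≤ L → 2 ^ 40 * (Z (ℓ - 1)).card ≤ (Z ℓ).card := by
    rw [hZd, hLd]
    exact hprev
  have hZl : ∀ ℓ, 1 ≤ ℓ → ℓ ≤ L → 2 ^ 40 ≤ (Z ℓ).card := by
    intro ℓ h1 h2
    rw [hZd]
    rw [hLd] at h2
    refine le_trans ?_ (S.D.big ℓ h1 h2)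
    exact Nat.pow_le_pow_right (by norm_num) (by omega)
  have hL1 : 1 ≤ L := by rw [hLd]; exact S.D.hL
  have hreg1 : ∀ x, 1 ≤ S.D.reg x := S.D.reg_one
  have hregL : ∀ x, S.D.reg x ≤ L := by rw [hLd]; exact S.D.reg_le
  have hr : S.r ∈ S.E := S.closed.1
  have hpE : ∀ v ∈ S.E, S.p v ∈ S.E := S.closed.2
  have hginj : ∀ v ∈ S.E, ∀ w ∈ S.E, g v = g w → v = w := by
    intro v hv w hw h
    exact hst.lab.inj (mem_coe.2 hv) (mem_coe.2 hw) h
  obtain ⟨U, hU⟩ : ∃ U : Finset J, U = S.E.image g := ⟨_, rfl⟩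
  obtain ⟨Y, hY⟩ : ∃ Y : Finset J, Y = univ \ U := ⟨_, rfl⟩
  have hYm : ∀ y, y ∈ Y ↔ y ∉ U := by
    intro y
    rw [hY, mem_sdiff]
    exact ⟨fun h => h.2, fun h => ⟨mem_univ _, h⟩⟩
  have h0U : (0 : J) ∈ U := by
    rw [hU, mem_image]
    exact ⟨S.r, hr, hst.lab.root⟩
  have hYne : ∀ y ∈ Y, y ≠ 0 := by
    rintro y hy rfl
    exact (hYm 0).1 hy h0U
  -- (0)
  have hused : ∀ ℓ, 1 ≤ ℓ → ℓ ≤ L → ∀ z, z ∈ Z ℓ → z ∉ S.Q ℓ → z ∈ U := by
    intro ℓ h1 h2 z hz hz'
    have hsub : (S.E.filter (fun v => S.lev v = ℓ)).image g ⊆ Z ℓ \ S.Q ℓ := by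
      intro x hx
      obtain ⟨v, hv, hgv⟩ := mem_image.1 hx
      rw [mem_filter] at hv
      have h3 := hst.sv v hv.1 (by rw [hv.2]; exact h1)
      rw [hv.2, hgv] at h3
      rw [mem_sdiff, hZd]
      exact h3
    have hc1 : ((S.E.filter (fun v => S.lev v = ℓ)).image g).card =
        (S.E.filter (fun v => S.lev v = ℓ)).card := by
      apply card_image_of_injOn
      intro v hv w hw h
      rw [mem_coe, mem_filter] at hv hw
      exact hginj v hv.1 w hw.1 h
    have hc2 : (Z ℓ \ S.Q ℓ).card + (S.Q ℓ).card = (Z ℓ).card := card_sdiff_add_card_eq_card (hQZ ℓ)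
    have hc3 := S.cnt ℓ h1 (by rw [← hLd]; exact h2)
    rw [← hZd] at hc3
    have heq : (S.E.filter (fun v => S.lev v = ℓ)).image g = Z ℓ \ S.Q ℓ := by
      apply eq_of_subset_of_card_le hsub
      rw [hc1]
      omega
    have h3 : z ∈ (S.E.filter (fun v => S.lev v = ℓ)).image g := by
      rw [heq, mem_sdiff]
      exact ⟨hz, hz'⟩
    obtain ⟨v, hv, hgv⟩ := mem_image.1 h3
    rw [hU]
    exact mem_image.2 ⟨v, (mem_filter.1 hv).1, hgv⟩
  -- the level function
  obtain ⟨mn, hmn⟩ : ∃ mn : J → ℕ, ∀ y, y ∈ Z L →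
      y ∈ Z (mn y) ∧ mn y ≤ L ∧ ∀ i, i < mn y → y ∉ Z i := by
    have hex : ∀ y : J, ∃ m : ℕ, y ∈ Z L → y ∈ Z m ∧ m ≤ L ∧ ∀ i, i < m → y ∉ Z i := by
      intro y
      by_cases hy : y ∈ Z L
      · have hex' : ∃ m, y ∈ Z m := ⟨L, hy⟩
        exact ⟨Nat.find hex', fun _ => ⟨Nat.find_spec hex', Nat.find_le hy,
          fun i hi => Nat.find_min hex' hi⟩⟩
      · exact ⟨0, fun h => absurd h hy⟩
    choose mn hmn using hex
    exact ⟨mn, hmn⟩
  have hmn1 : ∀ y ∈ Y, y ∈ Z L → 1 ≤ mn y := by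
    intro y hy hyL
    by_contra hcon
    have h0 : mn y = 0 := by omega
    have h1 := (hmn y hyL).1
    rw [h0, hZ0, mem_singleton] at h1
    exact hYne y hy h1
  have hmnQ : ∀ y ∈ Y, y ∈ Z L → y ∈ S.Q (mn y) := by
    intro y hy hyL
    by_contra hcon
    exact (hYm y).1 hy (hused (mn y) (hmn1 y hy hyL) (hmn y hyL).2.1 y (hmn y hyL).1 hcon)
  obtain ⟨lv, hlv⟩ : ∃ lv : J → ℕ, ∀ y, lv y = if y ∈ Z L then mn y - 1 else S.D.reg y :=
    ⟨fun y => if y ∈ Z L then mn y - 1 else S.D.reg y, fun y => rfl⟩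
  have hlv1 : ∀ y, y ∈ Z L → lv y = mn y - 1 := fun y hy => by rw [hlv, if_pos hy]
  have hlv2 : ∀ y, y ∉ Z L → lv y = S.D.reg y := fun y hy => by rw [hlv, if_neg hy]
  have hlvL : ∀ y, lv y ≤ L := by
    intro y
    by_cases hy : y ∈ Z L
    · rw [hlv1 y hy]
      have := (hmn y hy).2.1
      omega
    · rw [hlv2 y hy]
      exact hregL y
  have hcancel : ∀ y w : J, y + (y + w) = w := fun y w => by rw [← add_assoc, hdbl, zero_add]
  obtain ⟨P, hP⟩ : ∃ P : ℕ → Finset J, ∀ ℓ, P ℓ = if ℓ = 0 then {0} else Z ℓ \ S.Q ℓ :=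
    ⟨fun ℓ => if ℓ = 0 then {0} else Z ℓ \ S.Q ℓ, fun ℓ => rfl⟩
  have hP0 : P 0 = {0} := by rw [hP, if_pos rfl]
  have hP1 : ∀ ℓ, 1 ≤ ℓ → P ℓ = Z ℓ \ S.Q ℓ := fun ℓ h => by rw [hP, if_neg (by omega)]
  have hinv : ∀ y ∈ Y, ∀ y' ∈ Y, y + y' ∈ Z (lv y) → lv y' = lv y := by
    intro y hy y' hy' h
    by_cases hyL : y ∈ Z L
    · have h1 := hmn1 y hy hyL
      obtain ⟨h2, h3, h4⟩ := hmn y hyL
      rw [hlv1 y hyL] at h
      have hy'L : y' ∈ Z L := by
        rw [← hcancel y y']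
        exact hZadd _ _ hyL _ (hZmono (by omega) h)
      have h1' := hmn1 y' hy' hy'L
      obtain ⟨h2', h3', h4'⟩ := hmn y' hy'L
      rw [hlv1 y hyL, hlv1 y' hy'L]
      have h5 : mn y' ≤ mn y := by
        by_contra hcon
        apply h4' (mn y) (by omega)
        rw [← hcancel y y']
        exact hZadd _ _ h2 _ (hZmono (by omega) h)
      have h6 : mn y ≤ mn y' := by
        by_contra hcon
        apply h4 (mn y - 1) (by omega)
        have h7 := hZadd _ _ h _ (hZmono (by omega : mn y' ≤ mn y - 1) h2')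
        rw [add_assoc, hdbl, add_zero] at h7
        exact h7
      omega
    · rw [hlv2 y hyL] at h ⊢
      have hy'L : y' ∉ Z L := by
        intro hy'L
        apply hyL
        have h7 : y = (y + y') + y' := by rw [add_assoc, hdbl, add_zero]
        rw [h7]
        exact hZadd _ _ (hZmono (hregL y) h) _ hy'L
      rw [hlv2 y' hy'L]
      rw [hZd] at h
      exact S.D.reg_inv y y' h
  have hpart : ∀ y ∈ Y, ∃ π : J → J,
      (∀ x ∈ Y ∩ tr y (Z (lv y)), π x ∈ Y ∩ tr y (Z (lv y))) ∧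
      Set.InjOn π (Y ∩ tr y (Z (lv y)) : Finset J) ∧
      (∀ x ∈ Y ∩ tr y (Z (lv y)), x + π x ∈ P (lv y)) ∧
      ∀ e : J, ((Y ∩ tr y (Z (lv y))).filter (fun x => x + π x = e)).card ≤ 16 := by
    intro y hy
    obtain ⟨C, hC⟩ : ∃ C : Finset J, C = Y ∩ tr y (Z (lv y)) := ⟨_, rfl⟩
    have hCc : (Z (lv y)).card ≤ C.card + (U ∩ tr y (Z (lv y))).card := by
      have h1 := S.D.card_tr y (Z (lv y))
      rw [← h1]
      have h3 : tr y (Z (lv y)) ⊆ C ∪ (U ∩ tr y (Z (lv y))) := by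
        intro x hx
        by_cases hxU : x ∈ U
        · exact mem_union_right _ (mem_inter.2 ⟨hxU, hx⟩)
        · exact mem_union_left _ (by rw [hC, mem_inter, hYm]; exact ⟨hxU, hx⟩)
      exact (card_le_card h3).trans (card_union_le _ _)
    by_cases hl0 : lv y = 0
    · -- (c)
      rw [← hC]
      have hCy : C ⊆ {y} := by
        intro x hx
        rw [hC, mem_inter, mem_tr, hl0, hZ0, mem_singleton] at hx
        rw [mem_singleton]
        have h1 := hcancel y x
        rw [hx.2, add_zero] at h1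
        exact h1.symm
      refine ⟨id, fun x hx => hx, fun x _ x' _ h => h, ?_, ?_⟩
      · intro x _
        rw [hl0, hP0, mem_singleton]
        exact hdbl x
      · intro e
        refine (card_le_card ((filter_subset _ _).trans hCy)).trans ?_
        rw [card_singleton]
        norm_num
    · have hk1 : 1 ≤ lv y := by omega
      have hkL := hlvL y
      have hmain : 256 ≤ C.card ∧ 4 * (S.Q (lv y)).card ≤ C.card := by
        have h1 := hQcard (lv y) hk1 hkL
        have h2 := hprev' (lv y) hk1 hkL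
        have h3 := hZl (lv y) hk1 hkL
        by_cases hyL : y ∈ Z L
        · have h4 := hlv1 y hyL
          have h5 := hmn1 y hy hyL
          obtain ⟨h6, h7, h8⟩ := hmn y hyL
          have h9 := hmnQ y hy hyL
          have h10 : y ∉ Z (lv y) := h8 _ (by omega)
          have h11 : ∀ w ∈ tr y (Z (lv y)), w ∈ S.Q (mn y) ∧ w ∉ Z (lv y) := by
            intro w hw
            rw [mem_tr] at hw
            constructor
            · rw [← hcancel y w]
              exact S.Qadd _ _ h9 _ (hZQ' (by omega) hw)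
            · intro hw'
              apply h10
              have h12 := hZadd _ _ hw _ hw'
              rw [add_assoc, hdbl, add_zero] at h12
              exact h12
          have h12 : (U ∩ tr y (Z (lv y))).card ≤ 1 := by
            have h13 : U ∩ tr y (Z (lv y)) ⊆ {g (S.cu (mn y))} := by
              intro u hu
              rw [mem_inter] at hu
              obtain ⟨h14, h15⟩ := h11 u hu.2
              have hu1 := hu.1
              rw [hU, mem_image] at hu1
              obtain ⟨v, hv, rfl⟩ := hu1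
              have h16 : g v ∈ S.D.Z S.D.L := by
                rw [← hZd, ← hLd]
                exact hZmono h7 (hQZ _ h14)
              rw [mem_singleton]
              rcases hst.pure v hv h16 with h | h | h
              · exfalso
                apply h15
                rw [h, hst.lab.root]
                exact hZzero _
              · obtain ⟨i, hi, _⟩ := S.exists_mn h
                obtain ⟨h17, h18⟩ := hst.uq v hv i hi
                have hi1 := hi.1
                rw [← hZd] at h18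
                rcases lt_trichotomy i (mn y) with hl | hl | hl
                · exfalso
                  exact h15 (hZmono (by omega : i ≤ lv y) (hQZ i h17))
                · rw [← hl, hi.2.2.1]
                · exfalso
                  exact h18 (hZmono (by omega : mn y ≤ i - 1) (hQZ _ h14))
              · exfalso
                obtain ⟨h17, h18⟩ := hst.sv v hv h
                rw [← hZd] at h17
                rcases le_or_gt (mn y) (S.lev v) with hl | hl
                · exact h18 (S.Q_mono hl h14)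
                · exact h15 (hZmono (by omega : S.lev v ≤ lv y) h17)
            refine (card_le_card h13).trans ?_
            rw [card_singleton]
          omega
        · have h4 := hlv2 y hyL
          have h5 := hst.cap y (by rw [← hZd, ← hLd]; exact hyL)
          have h6 : S.D.cst y = tr y (Z (lv y)) := by rw [Lv.cst, hZd, h4]
          rw [h6, ← hU, S.D.card_tr] at h5
          omega
      obtain ⟨π, hπ1, hπ2, hπ3, hπ4⟩ := exists_perm_avoid hdbl C (S.Q (lv y)) hmain.1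
        (fun a _ => le_trans (Nat.mul_le_mul_left 4 (CFill_cnt C (S.Q (lv y)) a)) hmain.2)
      rw [← hC]
      refine ⟨π, hπ1, hπ2, ?_, hπ4⟩
      intro x hx
      have hx1 := hx
      have hx2 := hπ1 x hx
      rw [hC, mem_inter, mem_tr] at hx1 hx2
      have h3 := hZadd _ _ hx1.2 _ hx2.2
      have h4 : (y + x) + (y + π x) = x + π x := by
        have : (y + x) + (y + π x) = (y + y) + (x + π x) := by abel
        rw [this, hdbl, zero_add]
      rw [h4] at h3
      rw [hP1 _ hk1, mem_sdiff]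
      exact ⟨h3, hπ3 x hx⟩
  obtain ⟨π, hπ1, hπ2, hπ3, hπ4⟩ := perm_of_parts hdbl Z P hZzero hZadd Y lv hinv hpart
  have hπ0 : ∀ y ∈ Y, lv y = 0 → y + π y = 0 := by
    intro y hy h
    have h1 := hπ3 y hy
    rw [h, hP0, mem_singleton] at h1
    exact h1
  have hπ5 : ∀ y ∈ Y, 1 ≤ lv y → y + π y ∈ Z (lv y) ∧ y + π y ∉ S.Q (lv y) := by
    intro y hy h
    have h1 := hπ3 y hy
    rw [hP1 _ h, mem_sdiff] at h1
    exact h1
  have hlev : ∀ y ∈ Y, 1 ≤ lv y → ∀ v ∈ S.E, y + π y = g v → S.lev v = lv y := by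
    intro y hy h v hv hgv
    obtain ⟨h1, h2⟩ := hπ5 y hy h
    have h3 := hused _ h (hlvL y) _ h1 h2
    rw [hU] at h3
    rw [hZd] at h1
    obtain ⟨v', hv', h4, h5⟩ := hst.lev_used h (by rw [← hLd]; exact hlvL y) h1 h2 h3
    have h6 := hginj v' hv' v hv (h5.trans hgv)
    rw [← h6]
    exact h4
  refine lab_fill_perm hdbl hr hpE hELf hst.lab π ?_ ?_ ?_ ?_
  · intro y hy
    rw [← hU] at hy ⊢
    exact (hYm _).1 (hπ1 y ((hYm y).2 hy))
  · intro y y' hy hy' h
    rw [← hU] at hy hy'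
    exact hπ2 (mem_coe.2 ((hYm y).2 hy)) (mem_coe.2 ((hYm y').2 hy')) h
  · intro y hy
    rw [← hU] at hy
    have hy' := (hYm y).2 hy
    by_cases hl0 : lv y = 0
    · exact ⟨S.r, hr, by rw [hπ0 y hy' hl0]; exact hst.lab.root⟩
    · obtain ⟨h1, h2⟩ := hπ5 y hy' (by omega)
      have h3 := hused _ (by omega) (hlvL y) _ h1 h2
      rw [hU, mem_image] at h3
      exact h3
  · intro v hv
    rw [← hU, ← hY]
    by_cases hg0 : g v = 0
    · have hvr : v = S.r := hginj v hv S.r hr (hg0.trans hst.lab.root.symm)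
      rw [hvr]
      have h1 : Y.filter (fun y => y + π y = g S.r) ⊆
          Y.filter (fun y => lv y = 0 ∧ y + π y = 0) := by
        intro y hy
        rw [mem_filter] at hy ⊢
        have h2 : y + π y = 0 := hy.2.trans hst.lab.root
        refine ⟨hy.1, ?_, h2⟩
        by_contra hcon
        apply (hπ5 y hy.1 (by omega)).2
        rw [h2]
        exact S.Q0 _
      refine (card_le_card h1).trans (le_trans ?_ hr16)
      have h2 : 16 * 2 ^ 12 = 2 ^ 16 := by norm_num
      rw [← h2]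
      refine hπ4 0 0 (S.Q 1) (2 ^ 12) ?_ ?_ ?_
      · intro x hx z hz
        rw [hZ0, mem_singleton] at hz
        rw [hz, add_zero]
        exact hx
      · intro y hy hl
        have hyL : y ∈ Z L := by
          by_contra hcon
          have h3 := hreg1 y
          rw [← hlv2 y hcon] at h3
          omega
        have h3 := hmnQ y hy hyL
        have h4 := hmn1 y hy hyL
        have h5 := hlv1 y hyL
        have h6 : mn y = 1 := by omega
        rw [h6] at h3
        exact h3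
      · exact (hQcard 1 le_rfl hL1).le
    · rcases (Y.filter (fun y => y + π y = g v)).eq_empty_or_nonempty with he | ⟨y0, hy0⟩
      · rw [he, card_empty]
        exact Nat.zero_le _
      · have key : ∀ y ∈ Y, y + π y = g v → 1 ≤ lv y := by
          intro y hy h
          by_contra hcon
          exact hg0 (by rw [← h]; exact hπ0 y hy (by omega))
        rw [mem_filter] at hy0
        have h1 := hlev y0 hy0.1 (key y0 hy0.1 hy0.2) v hv hy0.2
        have h2 : 1 ≤ S.lev v := by rw [h1]; exact key y0 hy0.1 hy0.2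
        have h3 : S.lev v ≤ L := by rw [h1]; exact hlvL y0
        have h7 : Y.filter (fun y => y + π y = g v) ⊆
            Y.filter (fun y => lv y = S.lev v ∧ y + π y = g v) := by
          intro y hy
          rw [mem_filter] at hy ⊢
          exact ⟨hy.1, (hlev y hy.1 (key y hy.1 hy.2) v hv hy.2).symm, hy.2⟩
        refine (card_le_card h7).trans (le_trans ?_ (hcapa v hv h2))
        refine hπ4 (S.lev v) (g v) (univ.filter (fun x => S.D.reg x = S.lev v) ∪
          (if S.lev v < L then S.Q (S.lev v + 1) else ∅)) (N (S.lev v) + 2 ^ 12) ?_ ?_ ?_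
        · intro x hx z hz
          rw [mem_union] at hx ⊢
          rcases hx with hx | hx
          · left
            rw [mem_filter] at hx ⊢
            refine ⟨mem_univ _, ?_⟩
            rw [← hx.2]
            apply S.D.reg_inv
            rw [hcancel, hx.2, ← hZd]
            exact hz
          · right
            split_ifs at hx ⊢ with hlt
            · exact S.Qadd _ _ hx _ (hZQ _ hz)
            · exact absurd hx (notMem_empty _)
        · intro y hy hl
          rw [mem_union]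
          by_cases hyL : y ∈ Z L
          · right
            have h4 := hmn1 y hy hyL
            have h5 := hlv1 y hyL
            have h6 := (hmn y hyL).2.1
            have h8 : mn y = S.lev v + 1 := by omega
            rw [if_pos (by omega), ← h8]
            exact hmnQ y hy hyL
          · left
            rw [mem_filter]
            exact ⟨mem_univ _, by rw [← hlv2 y hyL]; exact hl⟩
        · have h4 := hN (S.lev v) h2 (by rw [← hLd]; exact h3)
          rw [← hZd] at h4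
          have h5 := card_union_le (univ.filter (fun x => S.D.reg x = S.lev v))
            (if S.lev v < L then S.Q (S.lev v + 1) else ∅)
          have h6 : (if S.lev v < L then S.Q (S.lev v + 1) else (∅ : Finset J)).card ≤
              2 ^ 12 * (Z (S.lev v)).card := by
            split_ifs with hlt
            · have h8 := hQcard (S.lev v + 1) (by omega) (by omega)
              rw [Nat.add_sub_cancel] at h8
              exact h8.le
            · rw [card_empty]
              exact Nat.zero_le _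
          rw [add_mul]
          omega

end Pool.Agent.H60.LN
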