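import Mathlib
import Pool.Agent.H60.FN.Exact
import Pool.Agent.H60.LN.CBatch
import Pool.Agent.H60.LN.CAdmA
import Pool.Agent.H60.LN.CAdmB

/-!
# CLabel: the labelling of the core in the C-case

Proof of `C_label_aux`.  Strong induction on `E1.card`.
(0) `E1 = {r}`: `g = 0`.  `Lab`: clear.  cap: `{0} ∩ cst x = ∅` for `x ∉ Z L` (if `x + 0 ∈ Z (reg x) ⊆ Z L` then `x ∈ Z L`).  pure: `v = r`.
uq, sv: `r ∉ C` (`C_spec`, `mn_C`), `lev r = 0` (`lev_spec`).
(1) There is `v ∈ E1`, `v ≠ r`, not special: let `w` be such a vertex of maximal depth (`Finset.exists_max_image`).  `adm_batch` gives `w'`, `E2`,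
`A`.  Induction hypothesis for `E2`, then `C_batch`.
(2) Otherwise, `E1 ≠ {r}`: let `a ∈ E1.erase r` have minimal depth.  `p a ∈ E1`, `d (p a) < d a`, so `p a = r`.  `a` is special: `a ∈ C`, because
a mate has a parent `≠ r` (`M_spec`) and `1 <= lev a` implies `p a ∈ C`, so `p a ≠ r` (`lev_par`, `C_spec`).  `adm_root`, induction hypothesis,
`C_root`.

Proof of `C_label`.  `S.E` is admissible: `S.closed`, and `spc_mem`.
-/

set_option autoImplicit false

open Finset

namespace Pool.Agent.H60.LN

open Pool.Agent.H57.SS Pool.Agent.H60.FN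

section

variable {V J : Type*} [DecidableEq V] [AddCommGroup J] [DecidableEq J] [Fintype J]

private theorem CLabel_base (S : CS V J) : CSt S {S.r} (fun _ => (0 : J)) := by
  constructor
  · constructor
    · rfl
    · intro x hx y hy _
      rw [mem_coe, mem_singleton] at hx hy
      rw [hx, hy]
    · simp
  · intro x hx
    have h1 : ({S.r} : Finset V).image (fun _ => (0 : J)) ∩ S.D.cst x = ∅ := by
      rw [Finset.eq_empty_iff_forall_notMem]
      intro y hy
      rw [mem_inter, image_singleton, mem_singleton] at hy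
      apply hx
      have h2 := hy.2
      rw [hy.1] at h2
      have h3 : x + 0 ∈ S.D.Z (S.D.reg x) := mem_tr.1 h2
      rw [add_zero] at h3
      exact S.D.monotone (S.D.reg_le x) h3
    rw [h1, card_empty, mul_zero]
    exact Nat.zero_le _
  · intro v hv _
    exact Or.inl (mem_singleton.1 hv)
  · intro v hv ℓ hℓ
    rw [mem_singleton] at hv
    exact absurd hv (S.C_spec (S.mn_C hℓ)).2.1
  · intro v hv h
    rw [mem_singleton] at hv
    exact absurd hv (S.lev_spec v h).2.2.1

theorem C_label_aux (S : CS V J) (N : ℕ) :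
    ∀ E1 : Finset V, E1.card = N → Adm S E1 → ∃ g : V → J, CSt S E1 g := by
  induction N using Nat.strong_induction_on with
  | _ N ih =>
    intro E1 hN hadm
    by_cases hF : (E1.filter (fun v => v ≠ S.r ∧ ¬ S.Spc v)).Nonempty
    · obtain ⟨w, hw, hmax⟩ := Finset.exists_max_image _ S.d hF
      rw [mem_filter] at hw
      obtain ⟨w', _, hpp, hns', hcase, E2, A, hadm2, hcard, hwE, hwE', hpw, hno, hA, hE⟩ :=
        adm_batch S hadm hw.1 hw.2.1 hw.2.2 (fun v hv hvr hvs =>
          hmax v (mem_filter.2 ⟨hv, hvr, hvs⟩))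
      obtain ⟨g, hg⟩ := ih E2.card (by omega) E2 rfl hadm2
      obtain ⟨g2, _, hg2⟩ := C_batch S hadm2.2.1 hadm2.1.root hadm2.1.parent hg hwE hwE' hpw hpp
        hcase hw.2.2 hns' hno hA
      refine ⟨g2, ?_⟩
      rw [hE]
      exact hg2
    · have hall : ∀ v ∈ E1, v = S.r ∨ S.Spc v := by
        intro v hv
        by_contra hcon
        apply hF
        refine ⟨v, mem_filter.2 ⟨hv, fun h => hcon (Or.inl h), fun h => hcon (Or.inr h)⟩⟩
      by_cases hE : (E1.erase S.r).Nonempty
      · obtain ⟨a, ha, hmin⟩ := Finset.exists_min_image _ S.d hE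
        rw [mem_erase] at ha
        have hpa : S.p a = S.r := by
          by_contra hcon
          have h1 := hmin (S.p a) (mem_erase.2 ⟨hcon, hadm.1.parent a ha.2⟩)
          have h2 := S.hd a ha.1
          omega
        have haC : a ∈ S.C := by
          rcases hall a ha.2 with h | h | h | h
          · exact absurd h ha.1
          · exact h
          · obtain ⟨b, _, hb2, _, hb4, _⟩ := S.M_spec h
            exact absurd (hb4.symm.trans hpa) hb2
          · exact absurd hpa (S.C_spec (S.lev_par h).1).2.1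
        obtain ⟨E2, hadm2, hcard, haE, hE2⟩ := adm_root S hadm haC hpa ha.2 hall
        obtain ⟨g, hg⟩ := ih E2.card (by omega) E2 rfl hadm2
        obtain ⟨g2, _, hg2⟩ := C_root S hadm2.1.root hadm2.1.parent hg haC hpa haE
        refine ⟨g2, ?_⟩
        rw [hE2]
        exact hg2
      · rw [not_nonempty_iff_eq_empty] at hE
        have h1 : E1 = {S.r} := by
          rw [← insert_erase hadm.1.root, hE]
          rfl
        exact ⟨fun _ => 0, by rw [h1]; exact CLabel_base S⟩

theorem C_label (S : CS V J) : ∃ g : V → J, CSt S S.E g :=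
  C_label_aux S _ S.E rfl ⟨S.closed, Subset.refl _, fun _ hv _ _ => S.spc_mem hv⟩

end

end Pool.Agent.H60.LN
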