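import Mathlib

/-!
# LNReg: dividing a group into cosets of nested subgroups (pure)

Proof.  `W`-invariant means: `x ∈ A`, `x + y ∈ W` imply `y ∈ A`.
Lemma (`grow`): `W` a subgroup (as a finset), `A` `W`-invariant, `N : ℕ`.  There is a `W`-invariant `B ⊆ A` with `B.card <= N * W.card` and
(`B = A` or `B.card = N * W.card`).  Induction on `N`: `N = 0`: `B = ∅`.  Step: if the `B` for `N` is `A` take it; otherwise choose `a ∈ A`,
`a ∉ B` and add the coset `{y : a + y ∈ W} ⊆ A`, disjoint from `B` by invariance, with `W.card` elements.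
Main induction, on `m` from `L` down to `1`: there are `A` and `f : J → ℕ` with
(i) `A` is `Z m`-invariant; (ii) `m <= f x <= L` for `x ∉ A`; (iii) for `x ∉ A` and `x + y ∈ Z (f x)`: `y ∉ A`, `f y = f x`; (iv) for `x ∈ Z L`: `x ∉ A`,
`f x = L`; (v) for `m <= ℓ <= L`: `(univ.filter (x ∉ A ∧ f x = ℓ)).card <= N ℓ * (Z ℓ).card`; (vi) `A = ∅` or
`A.card + ∑ ℓ ∈ Icc m L, N ℓ * (Z ℓ).card <= card J`.
Start `m = L`: `grow` with `W = Z L`, `A = univ \ Z L`, `N L - 1` gives `B1`; `A = (univ \ Z L) \ B1`, `f = L`.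
Step from `m + 1` to `m`: `A` is `Z m`-invariant as `Z m ⊆ Z (m + 1)`; `grow` with `W = Z m`, `N m` gives `B ⊆ A`; the new `A` is `A \ B`, `f = m` on `B`.
At the end, `m = 1`: by (vi) and `hsum`, `A = ∅` (if `A.card + card J <= card J` then `A.card = 0`).  `reg = f`.
-/

set_option autoImplicit false

open Finset

namespace Pool.Agent.H60.LN

private theorem Reg_coset {J : Type*} [AddCommGroup J] [DecidableEq J] [Fintype J]
    (hdbl : ∀ x : J, x + x = 0) (W : Finset J) (a : J) :
    (univ.filter (fun y => a + y ∈ W)).card = W.card := by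
  have h : ∀ y : J, a + (a + y) = y := fun y => by rw [← add_assoc, hdbl, zero_add]
  apply Finset.card_bij (fun y _ => a + y)
  · intro y hy
    exact (Finset.mem_filter.1 hy).2
  · intro x _ y _ hxy
    exact add_left_cancel hxy
  · intro b hb
    exact ⟨a + b, Finset.mem_filter.2 ⟨Finset.mem_univ _, by rw [h]; exact hb⟩, h b⟩

private theorem Reg_grow {J : Type*} [AddCommGroup J] [DecidableEq J] [Fintype J]
    (hdbl : ∀ x : J, x + x = 0) (W : Finset J) (hadd : ∀ x ∈ W, ∀ y ∈ W, x + y ∈ W)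
    (h0 : (0 : J) ∈ W) (A : Finset J) (hA : ∀ x ∈ A, ∀ y, x + y ∈ W → y ∈ A) (N : ℕ) :
    ∃ B : Finset J, B ⊆ A ∧ (∀ x ∈ B, ∀ y, x + y ∈ W → y ∈ B) ∧ B.card ≤ N * W.card ∧
      (B = A ∨ B.card = N * W.card) := by
  induction N with
  | zero => exact ⟨∅, Finset.empty_subset _, fun x hx => absurd hx (Finset.notMem_empty x), by simp, Or.inr (by simp)⟩
  | succ N ih =>
    obtain ⟨B, hBA, hB, hle, hor⟩ := ih
    by_cases hEq : B = A
    · refine ⟨B, hBA, hB, le_trans hle (Nat.mul_le_mul_right _ (Nat.le_succ N)), Or.inl hEq⟩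
    · have hcard : B.card = N * W.card := hor.resolve_left hEq
      obtain ⟨a, haA, haB⟩ : ∃ a ∈ A, a ∉ B := by
        by_contra hcon
        push Not at hcon
        exact hEq (Finset.Subset.antisymm hBA hcon)
      have hC := Reg_coset hdbl W a
      set C := univ.filter (fun y => a + y ∈ W) with hCdef
      have hCmem : ∀ y, y ∈ C ↔ a + y ∈ W := fun y => by
        rw [hCdef, Finset.mem_filter]
        exact ⟨fun h => h.2, fun h => ⟨Finset.mem_univ _, h⟩⟩
      have hdisj : Disjoint B C := by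
        rw [Finset.disjoint_left]
        intro y hyB hyC
        apply haB
        apply hB y hyB
        rw [add_comm]
        exact (hCmem y).1 hyC
      have hcu : (B ∪ C).card = (N + 1) * W.card := by
        rw [Finset.card_union_of_disjoint hdisj, hcard, hC]
        ring
      refine ⟨B ∪ C, ?_, ?_, hcu.le, Or.inr hcu⟩
      · intro y hy
        rcases Finset.mem_union.1 hy with h | h
        · exact hBA h
        · exact hA a haA y ((hCmem y).1 h)
      · intro x hx y hxy
        rcases Finset.mem_union.1 hx with h | h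
        · exact Finset.mem_union_left _ (hB x h y hxy)
        · apply Finset.mem_union_right
          rw [hCmem]
          have h1 := hadd _ ((hCmem x).1 h) _ hxy
          have h2 : a + x + (x + y) = a + y := by
            have : a + x + (x + y) = a + y + (x + x) := by abel
            rw [this, hdbl, add_zero]
          rwa [h2] at h1

private theorem Reg_main {J : Type*} [AddCommGroup J] [DecidableEq J] [Fintype J]
    (hdbl : ∀ x : J, x + x = 0) (Z : ℕ → Finset J) (hZ0 : ∀ ℓ, (0 : J) ∈ Z ℓ)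
    (hZadd : ∀ ℓ, ∀ x ∈ Z ℓ, ∀ y ∈ Z ℓ, x + y ∈ Z ℓ) (hZm : ∀ ℓ, Z ℓ ⊆ Z (ℓ + 1)) {L : ℕ}
    (N : ℕ → ℕ) (hNL : 1 ≤ N L) : ∀ k, k < L →
    ∃ (A : Finset J) (f : J → ℕ),
      (∀ x ∈ A, ∀ y, x + y ∈ Z (L - k) → y ∈ A) ∧
      (∀ x, x ∉ A → L - k ≤ f x ∧ f x ≤ L) ∧
      (∀ x, x ∉ A → ∀ y, x + y ∈ Z (f x) → y ∉ A ∧ f y = f x) ∧
      (∀ x ∈ Z L, x ∉ A ∧ f x = L) ∧
      (∀ ℓ, L - k ≤ ℓ → ℓ ≤ L → (univ.filter (fun x => x ∉ A ∧ f x = ℓ)).card ≤ N ℓ * (Z ℓ).card) ∧
      (A = ∅ ∨ A.card + ∑ ℓ ∈ Finset.Icc (L - k) L, N ℓ * (Z ℓ).card ≤ Fintype.card J) := by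
  intro k
  induction k with
  | zero =>
    intro _
    rw [Nat.sub_zero]
    have hA0 : ∀ x ∈ univ \ Z L, ∀ y, x + y ∈ Z L → y ∈ univ \ Z L := by
      intro x hx y hxy
      rw [Finset.mem_sdiff] at hx ⊢
      refine ⟨Finset.mem_univ _, fun hy => hx.2 ?_⟩
      have h1 := hZadd L _ hxy _ hy
      rwa [add_assoc, hdbl, add_zero] at h1
    obtain ⟨B, hBA, hB, hle, hor⟩ := Reg_grow hdbl (Z L) (hZadd L) (hZ0 L) (univ \ Z L) hA0 (N L - 1)
    have hinv : ∀ x ∈ (univ \ Z L) \ B, ∀ y, x + y ∈ Z L → y ∈ (univ \ Z L) \ B := by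
      intro x hx y hxy
      rw [Finset.mem_sdiff] at hx ⊢
      refine ⟨hA0 x hx.1 y hxy, fun hy => hx.2 (hB y hy x ?_)⟩
      rw [add_comm]
      exact hxy
    have hNW : (N L - 1) * (Z L).card + (Z L).card = N L * (Z L).card := by
      have : N L - 1 + 1 = N L := Nat.sub_add_cancel hNL
      calc (N L - 1) * (Z L).card + (Z L).card = (N L - 1 + 1) * (Z L).card := by ring
        _ = N L * (Z L).card := by rw [this]
    refine ⟨(univ \ Z L) \ B, fun _ => L, hinv, fun x _ => ⟨le_rfl, le_rfl⟩, ?_, ?_, ?_, ?_⟩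
    · intro x hx y hxy
      refine ⟨fun hy => hx (hinv y hy x ?_), rfl⟩
      rw [add_comm]
      exact hxy
    · intro x hx
      refine ⟨fun h => ?_, rfl⟩
      rw [Finset.mem_sdiff, Finset.mem_sdiff] at h
      exact h.1.2 hx
    · intro ℓ h1 h2
      have hℓ : ℓ = L := le_antisymm h2 h1
      subst hℓ
      have hsub : (univ.filter (fun x => x ∉ (univ \ Z ℓ) \ B ∧ (fun _ : J => ℓ) x = ℓ)) ⊆ Z ℓ ∪ B := by
        intro x hx
        have hx' := (Finset.mem_filter.1 hx).2.1
        rw [Finset.mem_union]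
        by_contra hcon
        rw [not_or] at hcon
        apply hx'
        rw [Finset.mem_sdiff, Finset.mem_sdiff]
        exact ⟨⟨Finset.mem_univ _, hcon.1⟩, hcon.2⟩
      have h3 := le_trans (Finset.card_le_card hsub) (Finset.card_union_le _ _)
      omega
    · rcases hor with h | h
      · left
        rw [h]
        exact Finset.sdiff_self _
      · right
        rw [Finset.Icc_self, Finset.sum_singleton]
        have h4 : ((univ \ Z L) \ B).card = (univ \ Z L).card - B.card := Finset.card_sdiff_of_subset hBA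
        have h5 : (univ \ Z L).card = Fintype.card J - (Z L).card := by
          rw [Finset.card_sdiff_of_subset (Finset.subset_univ _), Finset.card_univ]
        have h6 : (Z L).card ≤ Fintype.card J := by
          rw [← Finset.card_univ]
          exact Finset.card_le_card (Finset.subset_univ _)
        have h7 : B.card ≤ (univ \ Z L).card := Finset.card_le_card hBA
        omega
  | succ k ih =>
    intro hk
    obtain ⟨A, f, h1, h2, h3, h4, h5, h6⟩ := ih (by omega)
    obtain ⟨m, hm⟩ : ∃ m, m = L - (k + 1) := ⟨_, rfl⟩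
    have hm1 : L - k = m + 1 := by omega
    rw [hm1] at h1 h2 h5 h6
    rw [← hm]
    have hAm : ∀ x ∈ A, ∀ y, x + y ∈ Z m → y ∈ A := fun x hx y hxy => h1 x hx y (hZm m hxy)
    obtain ⟨B, hBA, hB, hle, hor⟩ := Reg_grow hdbl (Z m) (hZadd m) (hZ0 m) A hAm (N m)
    have hsplit : ∀ x, x ∉ A \ B → x ∉ B → x ∉ A := by
      intro x hx hxB hxA
      exact hx (Finset.mem_sdiff.2 ⟨hxA, hxB⟩)
    have hmL : m ≤ L := by omega
    refine ⟨A \ B, fun x => if x ∈ B then m else f x, ?_, ?_, ?_, ?_, ?_, ?_⟩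
    · intro x hx y hxy
      rw [Finset.mem_sdiff] at hx ⊢
      refine ⟨hAm x hx.1 y hxy, fun hy => hx.2 (hB y hy x ?_)⟩
      rw [add_comm]
      exact hxy
    · intro x hx
      show m ≤ (if x ∈ B then m else f x) ∧ (if x ∈ B then m else f x) ≤ L
      by_cases hxB : x ∈ B
      · rw [if_pos hxB]
        exact ⟨le_rfl, hmL⟩
      · rw [if_neg hxB]
        have h7 := h2 x (hsplit x hx hxB)
        omega
    · intro x hx y hxy
      have hxy' : x + y ∈ Z (if x ∈ B then m else f x) := hxy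
      show y ∉ A \ B ∧ (if y ∈ B then m else f y) = (if x ∈ B then m else f x)
      by_cases hxB : x ∈ B
      · rw [if_pos hxB] at hxy' ⊢
        have hyB := hB x hxB y hxy'
        rw [if_pos hyB]
        refine ⟨fun h => (Finset.mem_sdiff.1 h).2 hyB, rfl⟩
      · rw [if_neg hxB] at hxy' ⊢
        obtain ⟨h7, h8⟩ := h3 x (hsplit x hx hxB) y hxy'
        have hyB : y ∉ B := fun h => h7 (hBA h)
        rw [if_neg hyB]
        exact ⟨fun h => h7 (Finset.mem_sdiff.1 h).1, h8⟩
    · intro x hx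
      obtain ⟨h7, h8⟩ := h4 x hx
      have hxB : x ∉ B := fun h => h7 (hBA h)
      show x ∉ A \ B ∧ (if x ∈ B then m else f x) = L
      rw [if_neg hxB]
      exact ⟨fun h => h7 (Finset.mem_sdiff.1 h).1, h8⟩
    · intro ℓ hℓ1 hℓ2
      rcases Nat.lt_or_ge m ℓ with hlt | hge
      · refine le_trans (Finset.card_le_card ?_) (h5 ℓ hlt hℓ2)
        intro x hx
        have hx' := (Finset.mem_filter.1 hx).2
        have hxf : (if x ∈ B then m else f x) = ℓ := hx'.2
        have hxB : x ∉ B := by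
          intro h
          rw [if_pos h] at hxf
          omega
        rw [if_neg hxB] at hxf
        exact Finset.mem_filter.2 ⟨Finset.mem_univ _, hsplit x hx'.1 hxB, hxf⟩
      · have hℓm : ℓ = m := le_antisymm hge hℓ1
        rw [hℓm]
        refine le_trans (Finset.card_le_card ?_) hle
        intro x hx
        have hx' := (Finset.mem_filter.1 hx).2
        have hxf : (if x ∈ B then m else f x) = m := hx'.2
        by_contra hxB
        rw [if_neg hxB] at hxf
        have h7 := h2 x (hsplit x hx'.1 hxB)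
        omega
    · rcases h6 with h6 | h6
      · left
        rw [h6]
        exact Finset.empty_sdiff _
      · rcases hor with h | h
        · left
          rw [h]
          exact Finset.sdiff_self _
        · right
          have hI : Finset.Icc m L = insert m (Finset.Icc (m + 1) L) := by
            ext z
            rw [Finset.mem_insert, Finset.mem_Icc, Finset.mem_Icc]
            omega
          have hnot : m ∉ Finset.Icc (m + 1) L := by
            rw [Finset.mem_Icc]
            omega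
          rw [hI, Finset.sum_insert hnot]
          have h7 : (A \ B).card = A.card - B.card := Finset.card_sdiff_of_subset hBA
          have h8 : B.card ≤ A.card := Finset.card_le_card hBA
          omega

theorem exists_reg {J : Type*} [AddCommGroup J] [DecidableEq J] [Fintype J]
    (hdbl : ∀ x : J, x + x = 0) (Z : ℕ → Finset J) (hZ0 : ∀ ℓ, (0 : J) ∈ Z ℓ)
    (hZadd : ∀ ℓ, ∀ x ∈ Z ℓ, ∀ y ∈ Z ℓ, x + y ∈ Z ℓ) (hZm : ∀ ℓ, Z ℓ ⊆ Z (ℓ + 1)) {L : ℕ}
    (hL : 1 ≤ L) (N : ℕ → ℕ) (hNL : 1 ≤ N L)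
    (hsum : Fintype.card J ≤ ∑ ℓ ∈ Finset.Icc 1 L, N ℓ * (Z ℓ).card) :
    ∃ reg : J → ℕ, (∀ x, 1 ≤ reg x ∧ reg x ≤ L) ∧
      (∀ x y, x + y ∈ Z (reg x) → reg y = reg x) ∧ (∀ x ∈ Z L, reg x = L) ∧
      ∀ ℓ, 1 ≤ ℓ → ℓ ≤ L →
        (univ.filter (fun x => reg x = ℓ)).card ≤ N ℓ * (Z ℓ).card := by
  obtain ⟨A, f, _, h2, h3, h4, h5, h6⟩ := Reg_main hdbl Z hZ0 hZadd hZm N hNL (L - 1) (by omega)
  have hL1 : L - (L - 1) = 1 := by omega
  rw [hL1] at h2 h5 h6
  have hA : A = ∅ := by
    rcases h6 with h | h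
    · exact h
    · apply Finset.card_eq_zero.1
      omega
  subst hA
  refine ⟨f, fun x => h2 x (Finset.notMem_empty x), fun x y hxy => (h3 x (Finset.notMem_empty x) y hxy).2,
    fun x hx => (h4 x hx).2, fun ℓ hℓ1 hℓ2 => le_trans (Finset.card_le_card ?_) (h5 ℓ hℓ1 hℓ2)⟩
  intro x hx
  exact Finset.mem_filter.2 ⟨Finset.mem_univ _, Finset.notMem_empty x, (Finset.mem_filter.1 hx).2⟩

end Pool.Agent.H60.LN
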