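import Mathlib
import Pool.Agent.H57.SS.Tree
import Pool.Agent.H60.LN.Defs
import Pool.Agent.H60.LN.Reg

/-!
# LNSys: the concrete system of levels in `Fin k → ZMod 2`

Proofs.  `Zc k m` is the set of the vectors vanishing on the coordinates `>= m`.
* `zc_card`: bijection with `Fin m → ZMod 2` (restriction to the coordinates `< m`, extension by zero).
* `exists_corr_zc`: from `exists_corr_free` for `m` by extension by zero: `R0` = image of `R`; for `α ∈ Zc k m`, `α ≠ 0`, the number is the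
  one for the restriction of `α`, which is not zero; for `α ∉ Zc k m` the filter is empty (`x`, `x + α ∈ Zc k m` imply
  `α ∈ Zc k m`).
* `exists_lv`: `Z ℓ = Zc k (j (min ℓ L))`; for `ℓ <= L` this is `Zc k (j ℓ)`, with `2 ^ j ℓ` elements (`j` is monotone on `0..L`, `j ℓ <= j L <= k`).
  `40 * ℓ <= j ℓ` for `ℓ <= L` by induction.  `reg` from `exists_reg` (`card (Fin k → ZMod 2) = 2 ^ k`).  `dbl`: `add_self_fin k`
  (`Pool.Agent.H57.SS`).
-/

set_option autoImplicit false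

open Finset

namespace Pool.Agent.H60.LN

open Pool.Agent.H57.SS

/-- The vectors vanishing on the coordinates `>= m`. -/
def Zc (k m : ℕ) : Finset (Fin k → ZMod 2) :=
  univ.filter (fun x => ∀ i : Fin k, m ≤ i.val → x i = 0)

theorem mem_Zc {k m : ℕ} {x : Fin k → ZMod 2} :
    x ∈ Zc k m ↔ ∀ i : Fin k, m ≤ i.val → x i = 0 := by
  simp [Zc]

theorem zc_zero (k m : ℕ) : (0 : Fin k → ZMod 2) ∈ Zc k m := by
  rw [mem_Zc]
  intro i _
  rfl

theorem zc_add {k m : ℕ} (x : Fin k → ZMod 2) (hx : x ∈ Zc k m) (y : Fin k → ZMod 2)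
    (hy : y ∈ Zc k m) : x + y ∈ Zc k m := by
  rw [mem_Zc] at hx hy ⊢
  intro i hi
  rw [Pi.add_apply, hx i hi, hy i hi, add_zero]

theorem zc_mono {k m m' : ℕ} (h : m ≤ m') : Zc k m ⊆ Zc k m' := by
  intro x hx
  rw [mem_Zc] at hx ⊢
  intro i hi
  exact hx i (h.trans hi)

theorem zc_nought (k : ℕ) : Zc k 0 = {0} := by
  ext x
  rw [mem_Zc, Finset.mem_singleton]
  constructor
  · intro h
    funext i
    exact h i (Nat.zero_le _)
  · rintro rfl i _
    rfl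

theorem zc_card {k m : ℕ} (h : m ≤ k) : (Zc k m).card = 2 ^ m := by
  have h1 : (Finset.univ : Finset (Fin m → ZMod 2)).card = 2 ^ m := by
    rw [Finset.card_univ, Fintype.card_fun, ZMod.card, Fintype.card_fin]
  rw [← h1]
  symm
  refine Finset.card_nbij' (fun y i => if h : i.val < m then y ⟨i.val, h⟩ else 0)
    (fun x i => x (Fin.castLE h i)) ?_ ?_ ?_ ?_
  · intro y _
    refine mem_Zc.2 ?_
    intro i hi
    show (if h : i.val < m then y ⟨i.val, h⟩ else 0) = 0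
    rw [dif_neg (not_lt.2 hi)]
  · intro x _
    exact Finset.mem_univ _
  · intro y _
    funext i
    show (if h' : (Fin.castLE h i).val < m then y ⟨(Fin.castLE h i).val, h'⟩ else 0) = y i
    rw [dif_pos (show (Fin.castLE h i).val < m from i.2)]
    rfl
  · intro x hx
    have hx' := mem_Zc.1 hx
    funext i
    show (if h' : i.val < m then x (Fin.castLE h ⟨i.val, h'⟩) else 0) = x i
    by_cases hi : i.val < m
    · rw [dif_pos hi]
      rfl
    · rw [dif_neg hi, hx' i (not_lt.1 hi)]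

theorem exists_lv {k L : ℕ} (hL : 1 ≤ L) (j : ℕ → ℕ) (hj0 : j 0 = 0)
    (hgap : ∀ ℓ, ℓ < L → j ℓ + 40 ≤ j (ℓ + 1)) (hjk : j L ≤ k) (N : ℕ → ℕ) (hNL : 1 ≤ N L)
    (hsum : 2 ^ k ≤ ∑ ℓ ∈ Finset.Icc 1 L, N ℓ * 2 ^ j ℓ) :
    ∃ D : Lv (Fin k → ZMod 2), D.L = L ∧ (∀ ℓ, D.Z ℓ = Zc k (j (min ℓ L))) ∧
      ∀ ℓ, 1 ≤ ℓ → ℓ ≤ L →
        (univ.filter (fun x => D.reg x = ℓ)).card ≤ N ℓ * (D.Z ℓ).card := by
  have hmin1 : ∀ ℓ, ℓ ≤ L → min ℓ L = ℓ := fun ℓ h => min_eq_left h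
  have hmono : ∀ d ℓ, ℓ + d ≤ L → j ℓ ≤ j (ℓ + d) := by
    intro d
    induction d with
    | zero => intro ℓ _; exact le_rfl
    | succ d ih =>
      intro ℓ hd
      have h1 := ih ℓ (by omega)
      have h2 := hgap (ℓ + d) (by omega)
      have h3 : ℓ + (d + 1) = ℓ + d + 1 := rfl
      rw [h3]
      omega
  have hjle : ∀ ℓ, ℓ ≤ L → j ℓ ≤ k := by
    intro ℓ hℓ
    have h1 := hmono (L - ℓ) ℓ (by omega)
    rw [show ℓ + (L - ℓ) = L from by omega] at h1
    exact h1.trans hjk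
  have hbig : ∀ ℓ, ℓ ≤ L → 40 * ℓ ≤ j ℓ := by
    intro ℓ
    induction ℓ with
    | zero => intro _; omega
    | succ ℓ ih =>
      intro hℓ
      have h1 := ih (by omega)
      have h2 := hgap ℓ (by omega)
      omega
  have hcard : ∀ ℓ, ℓ ≤ L → (Zc k (j (min ℓ L))).card = 2 ^ j ℓ := by
    intro ℓ hℓ
    rw [hmin1 ℓ hℓ, zc_card (hjle ℓ hℓ)]
  have hdbl : ∀ x : Fin k → ZMod 2, x + x = 0 := add_self_fin k
  have hZm : ∀ ℓ, Zc k (j (min ℓ L)) ⊆ Zc k (j (min (ℓ + 1) L)) := by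
    intro ℓ
    by_cases hℓ : ℓ < L
    · rw [hmin1 ℓ hℓ.le, hmin1 (ℓ + 1) hℓ]
      have h2 := hgap ℓ hℓ
      exact zc_mono (by omega)
    · rw [min_eq_right (not_lt.1 hℓ), min_eq_right ((not_lt.1 hℓ).trans (Nat.le_succ ℓ))]
  obtain ⟨reg, hr1, hr2, hr3, hr4⟩ := exists_reg hdbl (fun ℓ => Zc k (j (min ℓ L)))
    (fun ℓ => zc_zero k _) (fun ℓ x hx y hy => zc_add x hx y hy) hZm hL N hNL (by
      rw [Fintype.card_fun, ZMod.card, Fintype.card_fin]
      refine hsum.trans (le_of_eq ?_)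
      refine Finset.sum_congr rfl fun ℓ hℓ => ?_
      rw [hcard ℓ (Finset.mem_Icc.1 hℓ).2])
  refine ⟨{ L := L, Z := fun ℓ => Zc k (j (min ℓ L)), reg := reg, dbl := hdbl, hL := hL,
            zero := fun ℓ => zc_zero k _, add := fun ℓ x hx y hy => zc_add x hx y hy,
            mono := hZm, Z0 := ?_, big := ?_, gap := ?_, reg_one := fun x => (hr1 x).1,
            reg_le := fun x => (hr1 x).2, reg_inv := hr2, reg_L := hr3 }, rfl, fun _ => rfl, hr4⟩
  · show Zc k (j (min 0 L)) = {0}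
    rw [hmin1 0 (Nat.zero_le _), hj0, zc_nought]
  · intro ℓ _ hℓ
    rw [hcard ℓ hℓ]
    exact Nat.pow_le_pow_right (by norm_num) (hbig ℓ hℓ)
  · intro ℓ _ hℓ
    rw [hcard ℓ hℓ.le, hcard (ℓ + 1) hℓ, ← pow_add]
    have h2 := hgap ℓ hℓ
    exact Nat.pow_le_pow_right (by norm_num) (by omega)

end Pool.Agent.H60.LN
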