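import Mathlib
import Pool.Agent.H67.CT.LR
import Pool.Agent.H60.LN.Sys
import Pool.Agent.H60.LN.CLabel
import Pool.Agent.H60.LN.CFill

/-!
# LNCCore: the theorem of the C-case for concrete data

Proof.  `exists_lv` gives `D` (`D.L = L`, `D.Z ℓ = Zc k (j ℓ)` for `ℓ <= L`, `(D.Z ℓ).card = 2 ^ j ℓ`, `j` is monotone on `0..L`, `40 <= j L`).
`Q ℓ = Zc k (j (ℓ - 1) + 12)` for `1 <= ℓ <= L`, and `Q ℓ = D.Z ℓ` for all other `ℓ`.  Then `Q ℓ ⊆ Z ℓ ⊆ Q (ℓ + 1)` (for `ℓ >= L`, `Q (ℓ + 1) = Z (ℓ + 1) = Z L`), and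
`(Q ℓ).card = 2 ^ 12 * (Z (ℓ - 1)).card` for `1 <= ℓ <= L`.
The structure `CS`:
* `cu_spec`: `lev (cu ℓ) = 0`: otherwise `p (cu ℓ) = cu i` with `i = lev (cu ℓ)`, `1 <= i <= L`, so `d (cu ℓ) = d (cu i) + 1`, contradicting
  `d % 4 = c` for both.
* `mt_spec`: let `m = mt (cu ℓ)`, `p m = p (cu ℓ) ≠ r`; `m ≠ r` (as `p r = r`), so `d m = d (p (cu ℓ)) + 1 = d (cu ℓ)`, `d m % 4 = c`; `lev m = 0`: otherwise
  `p m = cu i`, `d m = d (cu i) + 1`, contradiction.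
* `cnt`: `hcnt` (`12 + j (ℓ - 1) = j (ℓ - 1) + 12`).  `ev`: `hcnt`, both powers of two are even (`j ℓ >= 40`).
* `par1`: `x = p (cu ℓ)`.  If `x = r`: `lev r = 0` (`hlev`), `cu i ≠ r`, `mt (cu i) ≠ r` if `p (cu i) ≠ r`.  If `x ≠ r`: `d x + 1 = d (cu ℓ)`, so `d x % 4 ≠ c`,
  so `x` is not `cu i`, not `mt (cu i)` (as above `d (mt (cu i)) % 4 = c`); and `lev x = 0`: otherwise `p x = cu i`, `d (cu ℓ) = d (cu i) + 2`.
* `par2`: `y = p (p (cu ℓ))`.  If `y = r` clear.  Otherwise `p (cu ℓ) ≠ r`, `d y + 2 = d (cu ℓ)`: `y ≠ cu i`; `lev y = 0`: otherwise `p y = cu i`,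
  `d (cu ℓ) = d (cu i) + 3`.
`C_label`, `C_fill` with `Lf = univ \ E`, and `plab_lr` as in `Pool/Agent/H60/LN/SCore.lean`.
-/

set_option autoImplicit false

open Finset

namespace Pool.Agent.H60.LN

open Pool.Agent.H57.SS Pool.Agent.H67.CT Pool.Agent.H60.FN

theorem C_core {V : Type*} [Fintype V] [DecidableEq V] {p : V → V} {r : V} (hpr : p r = r)
    {d : V → ℕ} (hd : ∀ v, v ≠ r → d v = d (p v) + 1) {n k : ℕ}
    (hcV : Fintype.card V = 2 ^ n) (hU : Closed p r (univ : Finset V)) {E : Finset V}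
    (hE : Closed p r E) (hpE : ∀ v, p v ∈ E) {L : ℕ} (hL : 1 ≤ L) (j : ℕ → ℕ) (hj0 : j 0 = 0)
    (hgap : ∀ ℓ, ℓ < L → j ℓ + 40 ≤ j (ℓ + 1)) (hjk : j L ≤ k) (N : ℕ → ℕ) (hNL : 1 ≤ N L)
    (hsum : 2 ^ k ≤ ∑ ℓ ∈ Finset.Icc 1 L, N ℓ * 2 ^ j ℓ) (lev : V → ℕ) (cu : ℕ → V) (mt : V → V)
    {c : ℕ} (hcu : ∀ ℓ, 1 ≤ ℓ → ℓ ≤ L → cu ℓ ∈ E ∧ cu ℓ ≠ r ∧ d (cu ℓ) % 4 = c)
    (hlev : ∀ v, 1 ≤ lev v → lev v ≤ L ∧ v ∈ E ∧ v ≠ r ∧ p v = cu (lev v))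
    (hmt : ∀ ℓ, 1 ≤ ℓ → ℓ ≤ L → p (cu ℓ) ≠ r → mt (cu ℓ) ∈ E ∧ p (mt (cu ℓ)) = p (cu ℓ) ∧
      ∀ i, 1 ≤ i → i ≤ L → cu i ≠ mt (cu ℓ))
    (hmtinj : ∀ ℓ i, 1 ≤ ℓ → ℓ ≤ L → 1 ≤ i → i ≤ L → p (cu ℓ) ≠ r → p (cu i) ≠ r →
      mt (cu ℓ) = mt (cu i) → cu ℓ = cu i)
    (hcnt : ∀ ℓ, 1 ≤ ℓ → ℓ ≤ L →
      (E.filter (fun v => lev v = ℓ)).card + 2 ^ (12 + j (ℓ - 1)) = 2 ^ j ℓ)
    (hsize : 2 ^ 30 * E.card + 2 * 2 ^ j L < 2 ^ k)
    (hcapa : ∀ v, 1 ≤ lev v →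
      16 * (N (lev v) + 2 ^ 12) ≤ ((univ \ E).filter (fun l => p l = v)).card)
    (hr16 : 2 ^ 16 ≤ ((univ \ E).filter (fun l => p l = r)).card) :
    PLab p r univ (Fin n → ZMod 2) := by
  have hmono : ∀ a b, a ≤ b → b ≤ L → j a ≤ j b := by
    intro a b hab
    induction hab with
    | refl => intro _; exact le_rfl
    | @step b _ ih =>
      intro hb
      have h1 := ih (by omega)
      have h2 := hgap b (by omega)
      exact h1.trans (le_trans (Nat.le_add_right _ _) h2)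
  have h40 : 40 ≤ j L := by
    have h1 := hgap 0 (by omega)
    have h2 := hmono 1 L hL le_rfl
    rw [zero_add] at h1
    omega
  obtain ⟨D, hDL, hDZ, hDN⟩ := exists_lv hL j hj0 hgap hjk N hNL hsum
  have hZc : ∀ ℓ, ℓ ≤ L → D.Z ℓ = Zc k (j ℓ) := by
    intro ℓ hℓ
    rw [hDZ, min_eq_left hℓ]
  have hcard : ∀ ℓ, ℓ ≤ L → (D.Z ℓ).card = 2 ^ j ℓ := by
    intro ℓ hℓ
    rw [hZc ℓ hℓ]
    exact zc_card ((hmono ℓ L hℓ le_rfl).trans hjk)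
  have hcJ : Fintype.card (Fin k → ZMod 2) = 2 ^ k := by simp
  have hstep : ∀ ℓ, 1 ≤ ℓ → ℓ ≤ L → j (ℓ - 1) + 40 ≤ j ℓ := by
    intro ℓ h1 h2
    have h3 := hgap (ℓ - 1) (by omega)
    rwa [Nat.sub_add_cancel h1] at h3
  have hjℓk : ∀ ℓ, ℓ ≤ L → j ℓ ≤ k := fun ℓ h => (hmono ℓ L h le_rfl).trans hjk
  obtain ⟨Q, hQd⟩ : ∃ Q : ℕ → Finset (Fin k → ZMod 2), ∀ ℓ, Q ℓ =
      if 1 ≤ ℓ ∧ ℓ ≤ L then Zc k (j (ℓ - 1) + 12) else D.Z ℓ := ⟨_, fun _ => rfl⟩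
  have hQ1 : ∀ ℓ, 1 ≤ ℓ → ℓ ≤ L → Q ℓ = Zc k (j (ℓ - 1) + 12) := by
    intro ℓ h1 h2
    rw [hQd, if_pos ⟨h1, h2⟩]
  have hQ2 : ∀ ℓ, ¬ (1 ≤ ℓ ∧ ℓ ≤ L) → Q ℓ = D.Z ℓ := by
    intro ℓ h
    rw [hQd, if_neg h]
  have hQcard : ∀ ℓ, 1 ≤ ℓ → ℓ ≤ L → (Q ℓ).card = 2 ^ (12 + j (ℓ - 1)) := by
    intro ℓ h1 h2
    have h3 := hstep ℓ h1 h2
    have h4 := hjℓk ℓ h2
    rw [hQ1 ℓ h1 h2, zc_card (by omega), Nat.add_comm]
  have hc4 : c < 4 := by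
    have h1 := (hcu 1 le_rfl hL).2.2
    omega
  have hlevd : ∀ v, 1 ≤ lev v → d v % 4 = (c + 1) % 4 := by
    intro v hv
    obtain ⟨h1, _, h3, h4⟩ := hlev v hv
    have h5 := hd v h3
    have h6 := (hcu (lev v) hv h1).2.2
    rw [h4] at h5
    omega
  have hlev0 : ∀ v, d v % 4 ≠ (c + 1) % 4 → lev v = 0 := by
    intro v hv
    by_contra hcon
    exact hv (hlevd v (by omega))
  have hlevr : lev r = 0 := by
    by_contra hcon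
    exact (hlev r (by omega)).2.2.1 rfl
  have hmtd : ∀ i, 1 ≤ i → i ≤ L → p (cu i) ≠ r → mt (cu i) ≠ r ∧ d (mt (cu i)) % 4 = c := by
    intro i h1 h2 h3
    obtain ⟨_, h5, _⟩ := hmt i h1 h2 h3
    have hmr : mt (cu i) ≠ r := by
      intro h
      rw [h, hpr] at h5
      exact h3 h5.symm
    have h6 := hd _ hmr
    have h7 := hd _ (hcu i h1 h2).2.1
    have h8 := (hcu i h1 h2).2.2
    rw [h5] at h6
    exact ⟨hmr, by omega⟩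
  obtain ⟨S, hSD, hSp, hSr, hSE, hSlev⟩ : ∃ S : CS V (Fin k → ZMod 2), S.D = D ∧ S.p = p ∧
      S.r = r ∧ S.E = E ∧ S.lev = lev := by
    refine ⟨{ D := D, p := p, r := r, d := d, E := E, Q := Q, cu := cu, mt := mt, lev := lev,
              hpr := hpr, hd := hd, closed := hE, size := ?_, Q0 := ?_, Qadd := ?_, QZ := ?_,
              ZQ := ?_, Qcard := ?_, cu_spec := ?_, mt_spec := ?_, mt_inj := ?_, lev_spec := ?_,
              cnt := ?_, ev := ?_, par1 := ?_, par2 := ?_ }, rfl, rfl, rfl, rfl, rfl⟩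
    · rw [hDL, hcard L le_rfl, hcJ]
      exact hsize
    · intro ℓ
      rw [hQd]
      split_ifs
      · exact zc_zero _ _
      · exact D.zero _
    · intro ℓ x hx y hy
      rw [hQd] at hx hy ⊢
      split_ifs at hx hy ⊢
      · exact zc_add x hx y hy
      · exact D.add _ x hx y hy
    · intro ℓ
      by_cases h : 1 ≤ ℓ ∧ ℓ ≤ L
      · rw [hQ1 ℓ h.1 h.2, hZc ℓ h.2]
        exact zc_mono (by have := hstep ℓ h.1 h.2; omega)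
      · rw [hQ2 ℓ h]
    · intro ℓ
      by_cases h : ℓ + 1 ≤ L
      · rw [hQ1 (ℓ + 1) (by omega) h, hZc ℓ (by omega)]
        exact zc_mono (by rw [Nat.add_sub_cancel]; omega)
      · rw [hQ2 (ℓ + 1) (fun h2 => h h2.2)]
        exact D.mono ℓ
    · intro ℓ h1 h2
      rw [hDL] at h2
      rw [hQcard ℓ h1 h2, hcard (ℓ - 1) (by omega), pow_add]
    · intro ℓ h1 h2
      rw [hDL] at h2
      obtain ⟨h3, h4, h5⟩ := hcu ℓ h1 h2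
      exact ⟨h3, h4, hlev0 _ (by omega)⟩
    · intro ℓ h1 h2 h3
      rw [hDL] at h2 ⊢
      obtain ⟨h4, h5, h6⟩ := hmt ℓ h1 h2 h3
      have h7 := (hmtd ℓ h1 h2 h3).2
      exact ⟨h4, h5, hlev0 _ (by omega), h6⟩
    · intro ℓ i h1 h2 h3 h4
      rw [hDL] at h2 h4
      exact hmtinj ℓ i h1 h2 h3 h4
    · intro v hv
      rw [hDL]
      exact hlev v hv
    · intro ℓ h1 h2
      rw [hDL] at h2
      rw [hQcard ℓ h1 h2, hcard ℓ h2]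
      exact hcnt ℓ h1 h2
    · intro ℓ h1 h2
      rw [hDL] at h2
      have h3 := hcnt ℓ h1 h2
      have h4 := hstep ℓ h1 h2
      have h5 : Even (2 ^ j ℓ) := (Nat.even_pow.2 ⟨even_two, by omega⟩)
      have h6 : Even (2 ^ (12 + j (ℓ - 1))) := (Nat.even_pow.2 ⟨even_two, by omega⟩)
      rw [← h3] at h5
      exact (Nat.even_add.1 h5).2 h6
    · intro ℓ h1 h2
      rw [hDL] at h2 ⊢
      obtain ⟨_, h4, h5⟩ := hcu ℓ h1 h2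
      have h6 := hd _ h4
      refine ⟨hlev0 _ (by omega), fun i hi1 hi2 => ⟨?_, ?_⟩⟩
      · intro h7
        have h8 := (hcu i hi1 hi2).2.2
        rw [h7] at h8
        omega
      · intro h9 h7
        have h8 := (hmtd i hi1 hi2 h9).2
        rw [h7] at h8
        omega
    · intro ℓ h1 h2
      rw [hDL] at h2 ⊢
      obtain ⟨_, h4, h5⟩ := hcu ℓ h1 h2
      have h6 := hd _ h4
      by_cases hx : p (cu ℓ) = r
      · rw [hx, hpr]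
        exact ⟨hlevr, fun i hi1 hi2 => (hcu i hi1 hi2).2.1⟩
      · have h9 := hd _ hx
        refine ⟨hlev0 _ (by omega), fun i hi1 hi2 => ?_⟩
        intro h7
        have h8 := (hcu i hi1 hi2).2.2
        rw [h7] at h8
        omega
  subst hSD hSp hSr hSE hSlev
  obtain ⟨g, hst⟩ := C_label S
  obtain ⟨E2, hE2, -, hcE2, hlab⟩ := C_fill S (Lf := univ \ S.E) disjoint_sdiff hst N
    (fun ℓ h1 h2 => hDN ℓ h1 (hDL ▸ h2)) (fun v _ hv => hcapa v hv) hr16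
  rw [hcJ] at hcE2
  exact plab_lr (hE2 hE.root) hU (subset_univ _) (by omega) hcE2 (by rw [card_univ, hcV])
    (fun v _ => hE2 (hpE v)) hlab

end Pool.Agent.H60.LN
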