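import Mathlib

/-!
# LNEnum: increasing enumeration of a finite set of natural numbers (pure)

Proof.  `L = Λ.card`, `e ℓ = Λ.orderEmbOfFin rfl ⟨ℓ - 1, _⟩` for `1 <= ℓ <= L` (and `0` otherwise).  Or induction on the cardinality, removing
the maximum.
-/

set_option autoImplicit false

open Finset

namespace Pool.Agent.H60.LN

theorem exists_enum_aux (Λ : Finset ℕ) :
    ∃ (L : ℕ) (e : ℕ → ℕ), (∀ ℓ, 1 ≤ ℓ → ℓ ≤ L → e ℓ ∈ Λ) ∧
      (∀ ℓ, 1 ≤ ℓ → ℓ < L → e ℓ < e (ℓ + 1)) ∧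
      ∀ f : ℕ → ℕ, ∑ ℓ ∈ Finset.Icc 1 L, f (e ℓ) = ∑ μ ∈ Λ, f μ := by
  induction Λ using Finset.induction_on_max with
  | empty =>
    refine ⟨0, fun _ => 0, ?_, ?_, ?_⟩
    · intro ℓ h1 h2
      omega
    · intro ℓ h1 h2
      omega
    · intro f
      simp
  | insert a s hlt ih =>
    obtain ⟨L, e, h1, h2, h3⟩ := ih
    have ha : a ∉ s := fun hm => lt_irrefl a (hlt a hm)
    refine ⟨L + 1, fun ℓ => if ℓ = L + 1 then a else e ℓ, ?_, ?_, ?_⟩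
    · intro ℓ hℓ1 hℓ2
      by_cases hℓ : ℓ = L + 1
      · simp [hℓ]
      · simp only [hℓ, if_false]
        exact Finset.mem_insert_of_mem (h1 ℓ hℓ1 (by omega))
    · intro ℓ hℓ1 hℓ2
      have hne : ℓ ≠ L + 1 := by omega
      simp only [hne, if_false]
      by_cases hℓ : ℓ = L
      · have : ℓ + 1 = L + 1 := by omega
        rw [if_pos this]
        exact hlt _ (h1 ℓ hℓ1 (by omega))
      · have : ℓ + 1 ≠ L + 1 := by omega
        rw [if_neg this]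
        exact h2 ℓ hℓ1 (by omega)
    · intro f
      rw [Finset.sum_Icc_succ_top (by omega), Finset.sum_insert ha, ← h3 f, add_comm]
      have h4 : ∀ ℓ ∈ Finset.Icc 1 L, f (if ℓ = L + 1 then a else e ℓ) = f (e ℓ) := by
        intro ℓ hℓ
        have hℓ2 := (Finset.mem_Icc.mp hℓ).2
        have hne : ℓ ≠ L + 1 := by omega
        rw [if_neg hne]
      rw [Finset.sum_congr rfl h4]
      simp only [if_true]

theorem exists_enum (Λ : Finset ℕ) (h : Λ.Nonempty) :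
    ∃ (L : ℕ) (e : ℕ → ℕ), 1 ≤ L ∧ (∀ ℓ, 1 ≤ ℓ → ℓ ≤ L → e ℓ ∈ Λ) ∧
      (∀ ℓ, 1 ≤ ℓ → ℓ < L → e ℓ < e (ℓ + 1)) ∧
      ∀ f : ℕ → ℕ, ∑ ℓ ∈ Finset.Icc 1 L, f (e ℓ) = ∑ μ ∈ Λ, f μ := by
  obtain ⟨L, e, h1, h2, h3⟩ := exists_enum_aux Λ
  refine ⟨L, e, ?_, h1, h2, h3⟩
  by_contra hL
  have hL0 : L = 0 := by omega
  have h4 := h3 (fun _ => 1)
  rw [hL0] at h4
  simp at h4
  exact h.ne_empty (Finset.card_eq_zero.mp h4.symm)

end Pool.Agent.H60.LN
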