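import Mathlib
import Pool.Agent.H60.LN.CCore
import Pool.Agent.H60.LN.Enum

/-!
# LNCCase: many scales with concentrated vertices

Proof.  Compare `Pool/Agent/H60/LN/SCase.lean`.  `Λ ≠ ∅` (`a >= 1`).  `exists_enum`: `L`, `e`; `e ℓ + 40 <= e (ℓ + 1)`.  `k` minimal with
`2 ^ 32 * a <= 2 ^ k`, so `2 ^ k < 2 ^ 33 * a`.  `j ℓ = if ℓ = 0 then 0 else e ℓ - 34`, `N ℓ = 2 ^ (i (e ℓ) - 5)`, `cu ℓ = u (e ℓ)`,
`Vs ℓ = X.filter (2 ^ i (e ℓ) <= w v)` for `1 <= ℓ <= L`, `Vs 0 = ∅`.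
Nested: for `1 <= ℓ < m <= L`, `(Vs ℓ).card < 2 ^ (e ℓ + 1) <= 2 ^ e m <= (Vs m).card`; both are given by a threshold for `w`, so `Vs ℓ ⊆ Vs m`.
`Ch ℓ = X.filter (2 ^ i (e ℓ) <= w v ∧ p v = cu ℓ)` has more than `2 ^ (e ℓ - 32)` elements (`hu`), and `(Vs (ℓ - 1)).card <= 2 ^ (e ℓ - 39)`, so
`(Ch ℓ \ Vs (ℓ - 1)).card >= 2 ^ (e ℓ - 34)`.  Choose `G ℓ ⊆ Ch ℓ \ Vs (ℓ - 1)` with `2 ^ j ℓ - 2 ^ (12 + j (ℓ - 1))` elements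
(`12 + j (ℓ - 1) <= j ℓ`).  The `G ℓ` are pairwise disjoint: `G ℓ ⊆ Vs ℓ ⊆ Vs (m - 1)` for `ℓ < m`.  `lev v = ℓ` if `v ∈ G ℓ`, `1 <= ℓ <= L`, and `0` if there
is no such `ℓ`.
`C_core` with depth class `(c + 3) % 4`:
* `cu ℓ`: `Ch ℓ` is not empty; for `v ∈ Ch ℓ`, `p v = cu ℓ ∈ E`, `v ≠ r`, `d v = d (cu ℓ) + 1`, `d v % 4 = c`.  `cu ℓ ≠ r`, `P (cu ℓ)` by `hu`.
* mates: `mt (cu ℓ) ≠ cu i` because `P (cu i)` but not `P (mt (cu ℓ))`.  Injective since `mt (mt a) = a`.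
* gap: `j 0 + 40 = 40 <= e 1 - 34` since `e 1 >= 80`.  `2 ^ j L <= 2 ^ e L <= X.card <= a <= 2 ^ k`.
* sum: `2 ^ 39 * (N ℓ * 2 ^ j ℓ) = 2 ^ (i (e ℓ) + e ℓ)`, so `2 ^ 39 * ∑ = ∑ μ ∈ Λ, 2 ^ (i μ + μ) >= 2 ^ 72 * a > 2 ^ 39 * 2 ^ k`.
* count: `E.filter (lev v = ℓ) = G ℓ` (`X ⊆ E`).
* size: `2 ^ 30 * E.card <= 2 ^ 31 * a`, `2 * 2 ^ j L <= 2 ^ e L <= a`.
* capacity: `lev v = ℓ`: `2 ^ i (e ℓ) <= w v <= m v + 1`, `16 * (2 ^ (i (e ℓ) - 5) + 2 ^ 12) = 2 ^ (i (e ℓ) - 1) + 2 ^ 16 <= 2 ^ i (e ℓ) - 1` (`i >= 20`).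
* root: for some `v ∈ X`, `2 ^ 20 <= w v <= w r <= m r + 1`.
-/

set_option autoImplicit false

open Finset

namespace Pool.Agent.H60.LN

open Pool.Agent.H57.SS Pool.Agent.H60.FN

theorem C_case {V : Type*} [Fintype V] [DecidableEq V] {p : V → V} {r : V} (hpr : p r = r)
    {d : V → ℕ} (hd : ∀ v, v ≠ r → d v = d (p v) + 1) {n : ℕ} (hcV : Fintype.card V = 2 ^ n)
    (hU : Closed p r (univ : Finset V)) {E : Finset V} (hE : Closed p r E) (hpE : ∀ v, p v ∈ E)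
    {X : Finset V} (hXE : X ⊆ E) (hXr : ∀ v ∈ X, v ≠ r) {c : ℕ} (hXd : ∀ v ∈ X, d v % 4 = c)
    {a : ℕ} (ha : 1 ≤ a) (hEa : E.card ≤ 2 * a) (hXa : X.card ≤ a) (w : V → ℕ)
    (hw : ∀ v ∈ insert r X, w v ≤ ((univ \ E).filter (fun l => p l = v)).card + 1)
    (hwr : ∀ v ∈ X, w v ≤ w r) {Λ : Finset ℕ} {i : ℕ → ℕ}
    (hΛ : ∀ μ ∈ Λ, 80 ≤ μ ∧ 20 ≤ i μ ∧ 2 ^ μ ≤ (X.filter (fun v => 2 ^ i μ ≤ w v)).card ∧
      (X.filter (fun v => 2 ^ i μ ≤ w v)).card < 2 ^ (μ + 1))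
    (hgapΛ : ∀ μ ∈ Λ, ∀ ν ∈ Λ, μ < ν → μ + 40 ≤ ν) (P : V → Prop) (mt : V → V)
    (hmt : ∀ x ∈ E, p x ≠ r → mt x ∈ E ∧ p (mt x) = p x ∧ mt (mt x) = x ∧ (P (mt x) ↔ ¬ P x))
    (u : ℕ → V)
    (hu : ∀ μ ∈ Λ, u μ ≠ r ∧ P (u μ) ∧
      2 ^ μ < 2 ^ 32 * (X.filter (fun v => 2 ^ i μ ≤ w v ∧ p v = u μ)).card)
    (hsum : 2 ^ 72 * a ≤ ∑ μ ∈ Λ, 2 ^ (i μ + μ)) :
    PLab p r univ (Fin n → ZMod 2) := by
  classical
  have hΛne : Λ.Nonempty := by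
    rw [Finset.nonempty_iff_ne_empty]
    rintro rfl
    rw [Finset.sum_empty] at hsum
    have : 0 < 2 ^ 72 * a := by positivity
    omega
  obtain ⟨L, e, hL, heΛ, helt, hesum⟩ := exists_enum Λ hΛne
  have hgap1 : ∀ ℓ, 1 ≤ ℓ → ℓ < L → e ℓ + 40 ≤ e (ℓ + 1) := fun ℓ h1 h2 =>
    hgapΛ _ (heΛ ℓ h1 h2.le) _ (heΛ (ℓ + 1) (by omega) h2) (helt ℓ h1 h2)
  have hgap2 : ∀ m ℓ, 1 ≤ ℓ → ℓ < m → m ≤ L → e ℓ + 40 ≤ e m := by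
    intro m
    induction m with
    | zero =>
      intro ℓ h1 h2
      omega
    | succ m ih =>
      intro ℓ h1 h2 h3
      rcases Nat.lt_or_ge ℓ m with h | h
      · have h4 := ih ℓ h1 h (by omega)
        have h5 := hgap1 m (by omega) (by omega)
        omega
      · have hm : ℓ = m := by omega
        subst hm
        exact hgap1 ℓ h1 (by omega)
  obtain ⟨k, hk1, hk2⟩ : ∃ k, 2 ^ 32 * a ≤ 2 ^ k ∧ 2 ^ k < 2 ^ 33 * a := by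
    have hk0 : ∃ k, 2 ^ 32 * a ≤ 2 ^ k := ⟨2 ^ 32 * a, (Nat.lt_two_pow_self).le⟩
    refine ⟨Nat.find hk0, Nat.find_spec hk0, ?_⟩
    have hk1 := Nat.find_spec hk0
    have hkpos : 0 < Nat.find hk0 := by
      rw [Nat.pos_iff_ne_zero]
      intro h
      rw [h] at hk1
      have h2 : 2 ^ 32 * 1 ≤ 2 ^ 32 * a := Nat.mul_le_mul_left _ ha
      norm_num at hk1 h2
      omega
    have h := Nat.find_min hk0 (m := Nat.find hk0 - 1) (by omega)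
    rw [not_le] at h
    have h2 : 2 ^ Nat.find hk0 = 2 * 2 ^ (Nat.find hk0 - 1) := by
      rw [← pow_succ']
      congr 1
      omega
    rw [h2]
    omega
  -- the thresholds
  have hnest : ∀ ℓ m, 1 ≤ ℓ → ℓ ≤ m → m ≤ L →
      X.filter (fun v => 2 ^ i (e ℓ) ≤ w v) ⊆ X.filter (fun v => 2 ^ i (e m) ≤ w v) := by
    intro ℓ m h1 h2 h3
    rcases Nat.eq_or_lt_of_le h2 with h | h
    · rw [h]
    · rcases le_or_gt (2 ^ i (e m)) (2 ^ i (e ℓ)) with h4 | h4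
      · intro v hv
        rw [Finset.mem_filter] at hv ⊢
        exact ⟨hv.1, h4.trans hv.2⟩
      · exfalso
        have h5 : (X.filter (fun v => 2 ^ i (e m) ≤ w v)).card ≤
            (X.filter (fun v => 2 ^ i (e ℓ) ≤ w v)).card := by
          apply Finset.card_le_card
          intro v hv
          rw [Finset.mem_filter] at hv ⊢
          exact ⟨hv.1, h4.le.trans hv.2⟩
        have h6 := (hΛ _ (heΛ m (by omega) h3)).2.2.1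
        have h7 := (hΛ _ (heΛ ℓ h1 (by omega))).2.2.2
        have h8 : 2 ^ (e ℓ + 1) ≤ 2 ^ e m :=
          Nat.pow_le_pow_right (by norm_num) (by have := hgap2 m ℓ h1 h h3; omega)
        omega
  have he80 : ∀ ℓ, 1 ≤ ℓ → ℓ ≤ L → 80 ≤ e ℓ := fun ℓ h1 h2 => (hΛ _ (heΛ ℓ h1 h2)).1
  have hi20 : ∀ ℓ, 1 ≤ ℓ → ℓ ≤ L → 20 ≤ i (e ℓ) := fun ℓ h1 h2 => (hΛ _ (heΛ ℓ h1 h2)).2.1
  obtain ⟨Vs, hVs⟩ : ∃ Vs : ℕ → Finset V, ∀ ℓ, Vs ℓ =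
      if ℓ = 0 then ∅ else X.filter (fun v => 2 ^ i (e ℓ) ≤ w v) := ⟨_, fun _ => rfl⟩
  obtain ⟨Ch, hCh⟩ : ∃ Ch : ℕ → Finset V, ∀ ℓ, Ch ℓ =
      X.filter (fun v => 2 ^ i (e ℓ) ≤ w v ∧ p v = u (e ℓ)) := ⟨_, fun _ => rfl⟩
  obtain ⟨j, hj⟩ : ∃ j : ℕ → ℕ, ∀ ℓ, j ℓ = if ℓ = 0 then 0 else e ℓ - 34 := ⟨_, fun _ => rfl⟩
  have hj0 : j 0 = 0 := by rw [hj, if_pos rfl]
  have hj1 : ∀ ℓ, 1 ≤ ℓ → j ℓ = e ℓ - 34 := fun ℓ h => by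
    rw [hj, if_neg (by omega)]
  have hcard : ∀ ℓ, 1 ≤ ℓ → ℓ ≤ L → 2 ^ j ℓ ≤ (Ch ℓ \ Vs (ℓ - 1)).card := by
    intro ℓ h1 h2
    have h3 : 2 ^ (e ℓ - 32) < (Ch ℓ).card := by
      have h4 := (hu _ (heΛ ℓ h1 h2)).2.2
      have h5 : 2 ^ e ℓ = 2 ^ 32 * 2 ^ (e ℓ - 32) := by
        rw [← pow_add]
        congr 1
        have := he80 ℓ h1 h2
        omega
      rw [h5] at h4
      rw [hCh]
      exact Nat.lt_of_mul_lt_mul_left h4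
    have h4 : (Vs (ℓ - 1)).card ≤ 2 ^ (e ℓ - 39) := by
      rw [hVs]
      split_ifs with h5
      · simp
      · have h6 := (hΛ _ (heΛ (ℓ - 1) (by omega) (by omega))).2.2.2
        have h7 : 2 ^ (e (ℓ - 1) + 1) ≤ 2 ^ (e ℓ - 39) :=
          Nat.pow_le_pow_right (by norm_num)
            (by have := hgap2 ℓ (ℓ - 1) (by omega) (by omega) h2; omega)
        omega
    have h5 : (Ch ℓ).card ≤ (Ch ℓ \ Vs (ℓ - 1)).card + (Vs (ℓ - 1)).card := by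
      have := Finset.le_card_sdiff (Vs (ℓ - 1)) (Ch ℓ)
      omega
    have h6 : 2 ^ (e ℓ - 32) = 2 ^ 7 * 2 ^ (e ℓ - 39) := by
      rw [← pow_add]
      congr 1
      have := he80 ℓ h1 h2
      omega
    have h7 : 2 ^ j ℓ = 2 ^ 5 * 2 ^ (e ℓ - 39) := by
      rw [← pow_add, hj1 ℓ h1]
      congr 1
      have := he80 ℓ h1 h2
      omega
    omega
  have hG : ∀ ℓ, ∃ t : Finset V, 1 ≤ ℓ → ℓ ≤ L →
      t ⊆ Ch ℓ \ Vs (ℓ - 1) ∧ t.card = 2 ^ j ℓ - 2 ^ (12 + j (ℓ - 1)) := by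
    intro ℓ
    by_cases h : 1 ≤ ℓ ∧ ℓ ≤ L
    · obtain ⟨t, ht1, ht2⟩ := Finset.exists_subset_card_eq
        (show 2 ^ j ℓ - 2 ^ (12 + j (ℓ - 1)) ≤ (Ch ℓ \ Vs (ℓ - 1)).card from
          (Nat.sub_le _ _).trans (hcard ℓ h.1 h.2))
      exact ⟨t, fun _ _ => ⟨ht1, ht2⟩⟩
    · exact ⟨∅, fun h1 h2 => absurd ⟨h1, h2⟩ h⟩
  choose G hG using hG
  have hGX : ∀ ℓ, 1 ≤ ℓ → ℓ ≤ L → ∀ v ∈ G ℓ, v ∈ X ∧ 2 ^ i (e ℓ) ≤ w v ∧ p v = u (e ℓ) ∧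
      v ∉ Vs (ℓ - 1) := by
    intro ℓ h1 h2 v hv
    have h3 := (hG ℓ h1 h2).1 hv
    rw [Finset.mem_sdiff, hCh, Finset.mem_filter] at h3
    exact ⟨h3.1.1, h3.1.2.1, h3.1.2.2, h3.2⟩
  have hGdis : ∀ ℓ m, 1 ≤ ℓ → ℓ < m → m ≤ L → ∀ v, v ∈ G ℓ → v ∈ G m → False := by
    intro ℓ m h1 h2 h3 v hv1 hv2
    obtain ⟨h4, h5, -, -⟩ := hGX ℓ h1 (by omega) v hv1
    obtain ⟨-, -, -, h6⟩ := hGX m (by omega) h3 v hv2
    apply h6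
    rw [hVs, if_neg (by omega)]
    exact hnest ℓ (m - 1) h1 (by omega) (by omega) (Finset.mem_filter.2 ⟨h4, h5⟩)
  obtain ⟨lev, hlev1, hlev2⟩ : ∃ lev : V → ℕ, (∀ v, 1 ≤ lev v → lev v ≤ L ∧ v ∈ G (lev v)) ∧
      (∀ v ℓ, 1 ≤ ℓ → ℓ ≤ L → v ∈ G ℓ → lev v = ℓ) := by
    have hex : ∀ v, ∃ ℓ, (1 ≤ ℓ → ℓ ≤ L ∧ v ∈ G ℓ) ∧
        (∀ m, 1 ≤ m → m ≤ L → v ∈ G m → ℓ = m) := by
      intro v
      by_cases h : ∃ ℓ, 1 ≤ ℓ ∧ ℓ ≤ L ∧ v ∈ G ℓ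
      · obtain ⟨ℓ, h1, h2, h3⟩ := h
        refine ⟨ℓ, fun _ => ⟨h2, h3⟩, ?_⟩
        intro m h4 h5 h6
        rcases lt_trichotomy ℓ m with h7 | h7 | h7
        · exact (hGdis ℓ m h1 h7 h5 v h3 h6).elim
        · exact h7
        · exact (hGdis m ℓ h4 h7 h2 v h6 h3).elim
      · refine ⟨0, fun h1 => absurd h1 (by norm_num), ?_⟩
        intro m h4 h5 h6
        exact (h ⟨m, h4, h5, h6⟩).elim
    choose lev h using hex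
    exact ⟨lev, fun v => (h v).1, fun v ℓ => (h v).2 ℓ⟩
  -- a point of `Ch ℓ`
  have hpt : ∀ ℓ, 1 ≤ ℓ → ℓ ≤ L → ∃ v ∈ X, 2 ^ i (e ℓ) ≤ w v ∧ p v = u (e ℓ) := by
    intro ℓ h1 h2
    have h3 := (hu _ (heΛ ℓ h1 h2)).2.2
    have h4 : 0 < (X.filter (fun v => 2 ^ i (e ℓ) ≤ w v ∧ p v = u (e ℓ))).card := by
      rw [Nat.pos_iff_ne_zero]
      intro h5
      rw [h5, mul_zero] at h3
      exact Nat.not_lt_zero _ h3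
    obtain ⟨v, hv⟩ := Finset.card_pos.1 h4
    rw [Finset.mem_filter] at hv
    exact ⟨v, hv.1, hv.2.1, hv.2.2⟩
  have hcuE : ∀ ℓ, 1 ≤ ℓ → ℓ ≤ L → u (e ℓ) ∈ E ∧ u (e ℓ) ≠ r ∧ d (u (e ℓ)) % 4 = (c + 3) % 4 := by
    intro ℓ h1 h2
    obtain ⟨v, hv1, -, hv3⟩ := hpt ℓ h1 h2
    refine ⟨?_, (hu _ (heΛ ℓ h1 h2)).1, ?_⟩
    · rw [← hv3]
      exact hpE v
    · have h3 := hd v (hXr v hv1)
      have h4 := hXd v hv1
      rw [hv3] at h3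
      omega
  have h2L : 2 ^ e L ≤ a := by
    have h1 := (hΛ _ (heΛ L hL le_rfl)).2.2.1
    have h2 : (X.filter (fun v => 2 ^ i (e L) ≤ w v)).card ≤ X.card :=
      Finset.card_le_card (Finset.filter_subset _ _)
    omega
  have h2jL : 2 * 2 ^ j L ≤ a := by
    have h1 : 2 ^ e L = 2 ^ 34 * 2 ^ j L := by
      rw [← pow_add, hj1 L hL]
      congr 1
      have := he80 L hL le_rfl
      omega
    omega
  refine C_core hpr hd hcV hU hE hpE hL j hj0 ?_ ?_ (fun ℓ => 2 ^ (i (e ℓ) - 5)) ?_ ?_ lev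
    (fun ℓ => u (e ℓ)) mt (c := (c + 3) % 4) hcuE ?_ ?_ ?_ ?_ ?_ ?_ ?_ (k := k)
  · -- gap
    intro ℓ hℓ
    rcases Nat.eq_zero_or_pos ℓ with h | h
    · subst h
      rw [hj0, hj1 (0 + 1) (by norm_num)]
      have := he80 (0 + 1) (by norm_num) (by omega)
      omega
    · rw [hj1 ℓ h, hj1 (ℓ + 1) (by omega)]
      have h3 := hgap1 ℓ h hℓ
      have h4 := he80 ℓ h hℓ.le
      omega
  · -- `j L <= k`
    rw [← Nat.pow_le_pow_iff_right (show 1 < 2 by norm_num)]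
    omega
  · exact Nat.one_le_two_pow
  · -- sum
    have h1 : 2 ^ 39 * ∑ ℓ ∈ Finset.Icc 1 L, 2 ^ (i (e ℓ) - 5) * 2 ^ j ℓ =
        ∑ μ ∈ Λ, 2 ^ (i μ + μ) := by
      rw [← hesum (fun μ => 2 ^ (i μ + μ)), Finset.mul_sum]
      apply Finset.sum_congr rfl
      intro ℓ hℓ
      rw [Finset.mem_Icc] at hℓ
      rw [← pow_add, ← pow_add, hj1 ℓ hℓ.1]
      congr 1
      have h3 := he80 ℓ hℓ.1 hℓ.2
      have h4 := hi20 ℓ hℓ.1 hℓ.2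
      omega
    rw [← h1] at hsum
    have h2 : 2 ^ 39 * 2 ^ k ≤ 2 ^ 39 * ∑ ℓ ∈ Finset.Icc 1 L, 2 ^ (i (e ℓ) - 5) * 2 ^ j ℓ := by
      refine le_trans ?_ hsum
      have h3 : 2 ^ 39 * 2 ^ k ≤ 2 ^ 39 * (2 ^ 33 * a) := Nat.mul_le_mul_left _ hk2.le
      refine h3.trans (le_of_eq ?_)
      rw [← mul_assoc, ← pow_add]
    exact Nat.le_of_mul_le_mul_left h2 (by positivity)
  · -- levels
    intro v hv
    obtain ⟨h1, h2⟩ := hlev1 v hv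
    obtain ⟨h3, -, h5, -⟩ := hGX _ hv h1 v h2
    exact ⟨h1, hXE h3, hXr v h3, h5⟩
  · -- mates
    intro ℓ h1 h2 h3
    obtain ⟨h4, h5, h6, h7⟩ := hmt _ (hcuE ℓ h1 h2).1 h3
    refine ⟨h4, h5, ?_⟩
    intro m h8 h9 h10
    have h11 := (hu _ (heΛ m h8 h9)).2.1
    have h12 := (hu _ (heΛ ℓ h1 h2)).2.1
    have h13 : P (mt (u (e ℓ))) := by
      have h14 : u (e m) = mt (u (e ℓ)) := h10
      rw [← h14]
      exact h11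
    exact (h7.1 h13) h12
  · -- injective
    intro ℓ m h1 h2 h3 h4 h5 h6 h7
    have h8 := (hmt _ (hcuE ℓ h1 h2).1 h5).2.2.1
    have h9 := (hmt _ (hcuE m h3 h4).1 h6).2.2.1
    have h10 : mt (u (e ℓ)) = mt (u (e m)) := h7
    show u (e ℓ) = u (e m)
    rw [← h8, h10, h9]
  · -- count
    intro ℓ h1 h2
    have h3 : E.filter (fun v => lev v = ℓ) = G ℓ := by
      ext v
      rw [Finset.mem_filter]
      constructor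
      · rintro ⟨-, h4⟩
        have h5 := (hlev1 v (by omega)).2
        rwa [h4] at h5
      · intro h4
        exact ⟨hXE (hGX ℓ h1 h2 v h4).1, hlev2 v ℓ h1 h2 h4⟩
    rw [h3, (hG ℓ h1 h2).2]
    apply Nat.sub_add_cancel
    apply Nat.pow_le_pow_right (by norm_num)
    rw [hj1 ℓ h1]
    rcases Nat.eq_zero_or_pos (ℓ - 1) with h | h
    · rw [h, hj0]
      have := he80 ℓ h1 h2
      omega
    · rw [hj1 _ h]
      have h4 := hgap2 ℓ (ℓ - 1) h (by omega) h2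
      have h5 := he80 (ℓ - 1) h (by omega)
      omega
  · -- size
    clear hsum hesum
    have h1 : 2 ^ 30 * E.card ≤ 2 ^ 30 * (2 * a) := Nat.mul_le_mul_left _ hEa
    have h2 : 2 ^ 30 * (2 * a) + a < 2 ^ 32 * a := by
      norm_num
      omega
    have h3 := Nat.add_le_add h1 h2jL
    have h4 := lt_of_lt_of_le h2 hk1
    clear hk2 hk1 h1 h2
    exact lt_of_le_of_lt h3 h4
  · -- capacity
    intro v hv
    obtain ⟨h1, h2⟩ := hlev1 v hv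
    obtain ⟨h3, h4, -, -⟩ := hGX _ hv h1 v h2
    have h5 := hw v (Finset.mem_insert_of_mem h3)
    have h6 := hi20 _ hv h1
    have h7 : 2 ^ i (e (lev v)) = 2 ^ 5 * 2 ^ (i (e (lev v)) - 5) := by
      rw [← pow_add]
      congr 1
      omega
    have h8 : 2 ^ 15 ≤ 2 ^ (i (e (lev v)) - 5) := Nat.pow_le_pow_right (by norm_num) (by omega)
    show 16 * (2 ^ (i (e (lev v)) - 5) + 2 ^ 12) ≤ _
    rw [h7] at h4
    generalize 2 ^ (i (e (lev v)) - 5) = A at *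
    have h9 := h4.trans h5
    norm_num at h8 h9 ⊢
    linarith
  · -- root
    obtain ⟨v, hv1, hv2, -⟩ := hpt 1 le_rfl hL
    have h1 := hwr v hv1
    have h2 := hw r (Finset.mem_insert_self _ _)
    have h3 := hi20 1 le_rfl hL
    have h4 : 2 ^ 20 ≤ 2 ^ i (e 1) := Nat.pow_le_pow_right (by norm_num) h3
    omega

end Pool.Agent.H60.LN
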