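import Mathlib

/-!
# LNCorr: sets with small autocorrelation (inner product over the field with 16 elements)

Proof.  Let `K = GaloisField 2 4` (or any field with `16` elements and characteristic two), `j = 8 * h + e`, `e < 8`, `h >= 3`.
`A = (Fin h → K) × (Fin h → K) × (Fin e → ZMod 2)` is an additive group of exponent two with `2 ^ j` elements, so it
is isomorphic to `Fin j → ZMod 2` (`Pool.Agent.H57.SS.exists_addEquiv`; you may import
`Pool.Agent.H57.SS.Tree`).  It is enough to find the set in `A`: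
`R = {(a, b, 0) : a ⬝ b = 1}`, `a ⬝ b = ∑ i, a i * b i`.
Counting: for `a ≠ 0` the map `b ↦ a ⬝ b` is a surjective homomorphism onto `K`, all its fibres have
`16 ^ (h - 1)` elements; for `a`, `a'` linearly independent over `K` the map `b ↦ (a ⬝ b, a' ⬝ b)` is onto `K × K`,
its fibres have `16 ^ (h - 2)` elements.
`R.card = (16 ^ h - 1) * 16 ^ (h - 1)`: between `2 ^ (8 * h - 5)` and `2 ^ (8 * h - 4)`, so `2 ^ j <= 2 ^ 12 * R.card` and
`2 ^ 4 * R.card <= 2 ^ j`.
Let `α = (α1, α2, α3) ≠ 0`, `M` the number of the `x ∈ R` with `x + α ∈ R`.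
* `α3 ≠ 0`: `M = 0`.
* `α3 = 0`, `α1 = 0`, `α2 ≠ 0`: `a ⬝ b = 1` and `a ⬝ (b + α2) = 1` force `a ⬝ α2 = 0`: at most `16 ^ (h - 1)` vectors `a`, each
  with at most `16 ^ (h - 1)` vectors `b`: `M <= 16 ^ (2 * h - 2)`.
* `α3 = 0`, `α1 ≠ 0`: for `a` not in the line `K α1` (so `a`, `a + α1` are independent) the two equations
  `a ⬝ b = 1`, `(a + α1) ⬝ b = 1 + (a + α1) ⬝ α2` have `16 ^ (h - 2)` solutions; for `a` in the line at most
  `16 ^ (h - 1)`.  `M <= 16 ^ h * 16 ^ (h - 2) + 16 * 16 ^ (h - 1)`.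
In all cases `8 * M <= (16 ^ h - 1) * 16 ^ (h - 1)` because `h >= 3`.
-/

set_option autoImplicit false

open Finset

namespace Pool.Agent.H60.LN

theorem lnc_addEquiv (J : Type*) [AddCommGroup J] [Fintype J] (hJ : ∀ x : J, x + x = 0)
    (n : ℕ) (hc : Fintype.card J = 2 ^ n) : Nonempty (J ≃+ (Fin n → ZMod 2)) := by
  let _ : Module (ZMod 2) J := AddCommGroup.zmodModule (n := 2) (fun x => by rw [two_smul, hJ])
  have h1 : Fintype.card J = Fintype.card (ZMod 2) ^ Module.finrank (ZMod 2) J :=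
    Module.card_eq_pow_finrank
  rw [ZMod.card, hc] at h1
  have h2 : Module.finrank (ZMod 2) J = n := (Nat.pow_right_injective le_rfl h1).symm
  have h3 : Module.finrank (ZMod 2) J = Module.finrank (ZMod 2) (Fin n → ZMod 2) := by
    rw [h2, Module.finrank_fin_fun]
  exact ⟨(LinearEquiv.ofFinrankEq J (Fin n → ZMod 2) h3).toAddEquiv⟩

theorem lnc_fib {G H : Type*} [AddCommGroup G] [AddCommGroup H] [Fintype G] [Fintype H]
    [DecidableEq H] (f : G →+ H) (hf : Function.Surjective f) (y : H) :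
    Fintype.card H * (univ.filter (fun g => f g = y)).card = Fintype.card G := by
  have h1 : ∀ z : H, (univ.filter (fun g => f g = z)).card = (univ.filter (fun g => f g = y)).card :=
    fun z => AddMonoidHom.card_fiber_eq_of_mem_range f (hf z) (hf y)
  have h2 := Finset.card_eq_sum_card_fiberwise (f := f) (s := univ) (t := univ) (fun _ _ => by simp)
  rw [Finset.card_univ] at h2
  rw [h2, Finset.sum_congr rfl (fun z _ => h1 z), Finset.sum_const, Finset.card_univ, smul_eq_mul]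

section field

variable {K : Type} [Field K] [Fintype K] [DecidableEq K] {h : ℕ}

theorem lnc_one (hK : Fintype.card K = 16) (a : Fin h → K) (ha : a ≠ 0) (c : K) :
    16 * (univ.filter (fun b : Fin h → K => a ⬝ᵥ b = c)).card = 16 ^ h := by
  obtain ⟨i, hi⟩ := Function.ne_iff.mp ha
  have hi' : a i ≠ 0 := hi
  let f : (Fin h → K) →+ K :=
    { toFun := fun b => a ⬝ᵥ b
      map_zero' := dotProduct_zero a
      map_add' := fun x y => dotProduct_add a x y }
  have hf : Function.Surjective f := by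
    intro c
    refine ⟨Pi.single i (c / a i), ?_⟩
    show a ⬝ᵥ Pi.single i (c / a i) = c
    rw [dotProduct_single, mul_div_cancel₀ _ hi']
  have h1 := lnc_fib f hf c
  rw [hK, Fintype.card_fun, hK, Fintype.card_fin] at h1
  exact h1

theorem lnc_two (hK : Fintype.card K = 16) (a a' : Fin h → K) (i k : Fin h)
    (hD : a i * a' k - a' i * a k ≠ 0) (c c' : K) :
    256 * (univ.filter (fun b : Fin h → K => a ⬝ᵥ b = c ∧ a' ⬝ᵥ b = c')).card = 16 ^ h := by
  let f : (Fin h → K) →+ K × K :=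
    { toFun := fun b => (a ⬝ᵥ b, a' ⬝ᵥ b)
      map_zero' := by simp
      map_add' := fun x y => by simp [dotProduct_add] }
  have hf : Function.Surjective f := by
    rintro ⟨c, c'⟩
    refine ⟨Pi.single i ((c * a' k - c' * a k) / (a i * a' k - a' i * a k)) +
      Pi.single k ((a i * c' - a' i * c) / (a i * a' k - a' i * a k)), ?_⟩
    show (a ⬝ᵥ _, a' ⬝ᵥ _) = (c, c')
    rw [dotProduct_add, dotProduct_add, dotProduct_single, dotProduct_single, dotProduct_single,
      dotProduct_single]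
    refine Prod.ext ?_ ?_
    · show a i * ((c * a' k - c' * a k) / (a i * a' k - a' i * a k)) +
        a k * ((a i * c' - a' i * c) / (a i * a' k - a' i * a k)) = c
      rw [mul_div_assoc', mul_div_assoc', ← add_div, div_eq_iff hD]
      ring
    · show a' i * ((c * a' k - c' * a k) / (a i * a' k - a' i * a k)) +
        a' k * ((a i * c' - a' i * c) / (a i * a' k - a' i * a k)) = c'
      rw [mul_div_assoc', mul_div_assoc', ← add_div, div_eq_iff hD]
      ring
  have h1 := lnc_fib f hf (c, c')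
  rw [Fintype.card_prod, hK, Fintype.card_fun, hK, Fintype.card_fin] at h1
  have h2 : (univ.filter (fun b : Fin h → K => a ⬝ᵥ b = c ∧ a' ⬝ᵥ b = c')) =
      univ.filter (fun b => f b = (c, c')) := by
    refine Finset.filter_congr (fun b _ => ?_)
    show _ ↔ (a ⬝ᵥ b, a' ⬝ᵥ b) = (c, c')
    rw [Prod.mk.injEq]
  rw [h2]
  exact h1

omit [Field K] [DecidableEq K] in
theorem lnc_pair (P : (Fin h → K) → (Fin h → K) → Prop) [∀ a b, Decidable (P a b)] :
    (univ.filter (fun p : (Fin h → K) × (Fin h → K) => P p.1 p.2)).card =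
      ∑ a : Fin h → K, (univ.filter (fun b => P a b)).card := by
  rw [Finset.card_filter, Fintype.sum_prod_type]
  refine Finset.sum_congr rfl (fun a _ => ?_)
  rw [Finset.card_filter]

theorem lnc_cardR (hK : Fintype.card K = 16) :
    16 * (univ.filter (fun p : (Fin h → K) × (Fin h → K) => p.1 ⬝ᵥ p.2 = 1)).card =
      (16 ^ h - 1) * 16 ^ h := by
  have hp : (univ.filter (fun p : (Fin h → K) × (Fin h → K) => p.1 ⬝ᵥ p.2 = 1)).card =
      ∑ a : Fin h → K, (univ.filter (fun b : Fin h → K => a ⬝ᵥ b = 1)).card :=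
    lnc_pair (fun a b => a ⬝ᵥ b = 1)
  rw [hp, Finset.mul_sum]
  have h1 : ∀ a ∈ (univ : Finset (Fin h → K)),
      16 * (univ.filter (fun b : Fin h → K => a ⬝ᵥ b = 1)).card = if a = 0 then 0 else 16 ^ h := by
    intro a _
    split_ifs with ha
    · subst ha
      have : (univ.filter (fun b : Fin h → K => (0 : Fin h → K) ⬝ᵥ b = 1)) = ∅ := by
        refine Finset.filter_eq_empty_iff.mpr (fun b _ => ?_)
        rw [zero_dotProduct]
        exact zero_ne_one
      rw [this, Finset.card_empty]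
    · exact lnc_one hK a ha 1
  rw [Finset.sum_congr rfl h1]
  have h2 : ∀ a ∈ (univ : Finset (Fin h → K)), (if a = 0 then 0 else 16 ^ h) = if ¬ a = 0 then 16 ^ h else 0 := by
    intro a _
    by_cases ha : a = 0 <;> simp [ha]
  rw [Finset.sum_congr rfl h2, ← Finset.sum_filter, Finset.sum_const, smul_eq_mul]
  congr 1
  rw [Finset.filter_not, Finset.filter_eq' univ (0 : Fin h → K), if_pos (Finset.mem_univ _), ← Finset.compl_eq_univ_sdiff,
    Finset.card_compl, Finset.card_singleton, Fintype.card_fun, hK, Fintype.card_fin]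

/-- autocorrelation, first case -/
theorem lnc_case1 (hK : Fintype.card K = 16) (β : Fin h → K) (hβ : β ≠ 0) :
    256 * (univ.filter (fun p : (Fin h → K) × (Fin h → K) => p.1 ⬝ᵥ p.2 = 1 ∧
      p.1 ⬝ᵥ (p.2 + β) = 1)).card ≤ 16 ^ h * 16 ^ h := by
  have hp : (univ.filter (fun p : (Fin h → K) × (Fin h → K) => p.1 ⬝ᵥ p.2 = 1 ∧ p.1 ⬝ᵥ (p.2 + β) = 1)).card =
      ∑ a : Fin h → K, (univ.filter (fun b : Fin h → K => a ⬝ᵥ b = 1 ∧ a ⬝ᵥ (b + β) = 1)).card :=
    lnc_pair (fun a b => a ⬝ᵥ b = 1 ∧ a ⬝ᵥ (b + β) = 1)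
  rw [hp]
  have h1 : ∀ a ∈ (univ : Finset (Fin h → K)),
      16 * (univ.filter (fun b : Fin h → K => a ⬝ᵥ b = 1 ∧ a ⬝ᵥ (b + β) = 1)).card ≤
        if β ⬝ᵥ a = 0 then 16 ^ h else 0 := by
    intro a _
    by_cases ha0 : a = 0
    · have : (univ.filter (fun b : Fin h → K => a ⬝ᵥ b = 1 ∧ a ⬝ᵥ (b + β) = 1)) = ∅ := by
        refine Finset.filter_eq_empty_iff.mpr (fun b _ hb => ?_)
        rw [ha0, zero_dotProduct] at hb
        exact zero_ne_one hb.1
      rw [this, Finset.card_empty]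
      exact Nat.zero_le _
    · split_ifs with hab
      · rw [← lnc_one hK a ha0 1]
        refine Nat.mul_le_mul_left _ (Finset.card_le_card ?_)
        intro b hb
        rw [Finset.mem_filter] at hb ⊢
        exact ⟨hb.1, hb.2.1⟩
      · have : (univ.filter (fun b : Fin h → K => a ⬝ᵥ b = 1 ∧ a ⬝ᵥ (b + β) = 1)) = ∅ := by
          refine Finset.filter_eq_empty_iff.mpr (fun b _ hb => ?_)
          rw [dotProduct_add, hb.1] at hb
          apply hab
          rw [dotProduct_comm]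
          simpa using hb.2
        rw [this, Finset.card_empty]
  have h2 := Finset.sum_le_sum h1
  rw [← Finset.mul_sum, ← Finset.sum_filter, Finset.sum_const, smul_eq_mul] at h2
  have h3 := lnc_one hK β hβ 0
  calc 256 * ∑ a : Fin h → K, (univ.filter (fun b : Fin h → K => a ⬝ᵥ b = 1 ∧ a ⬝ᵥ (b + β) = 1)).card
      = 16 * (16 * ∑ a : Fin h → K, (univ.filter (fun b : Fin h → K => a ⬝ᵥ b = 1 ∧ a ⬝ᵥ (b + β) = 1)).card) := by ring
    _ ≤ 16 * ((univ.filter (fun a : Fin h → K => β ⬝ᵥ a = 0)).card * 16 ^ h) := Nat.mul_le_mul_left _ h2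
    _ = (16 * (univ.filter (fun a : Fin h → K => β ⬝ᵥ a = 0)).card) * 16 ^ h := by ring
    _ = 16 ^ h * 16 ^ h := by rw [h3]

/-- autocorrelation, second case -/
theorem lnc_case2 (hK : Fintype.card K = 16) (α β : Fin h → K) (hα : α ≠ 0) :
    256 * (univ.filter (fun p : (Fin h → K) × (Fin h → K) => p.1 ⬝ᵥ p.2 = 1 ∧
      (p.1 + α) ⬝ᵥ (p.2 + β) = 1)).card ≤ 16 ^ h * 16 ^ h + 256 * 16 ^ h := by
  have hp : (univ.filter (fun p : (Fin h → K) × (Fin h → K) => p.1 ⬝ᵥ p.2 = 1 ∧ (p.1 + α) ⬝ᵥ (p.2 + β) = 1)).card =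
      ∑ a : Fin h → K, (univ.filter (fun b : Fin h → K => a ⬝ᵥ b = 1 ∧ (a + α) ⬝ᵥ (b + β) = 1)).card :=
    lnc_pair (fun a b => a ⬝ᵥ b = 1 ∧ (a + α) ⬝ᵥ (b + β) = 1)
  rw [hp, Finset.mul_sum]
  have h1 : ∀ a ∈ (univ : Finset (Fin h → K)),
      256 * (univ.filter (fun b : Fin h → K => a ⬝ᵥ b = 1 ∧ (a + α) ⬝ᵥ (b + β) = 1)).card ≤
        16 ^ h + if a ∈ univ.image (fun s : K => s • α) then 16 * 16 ^ h else 0 := by
    intro a _
    by_cases hl : ∃ i k, a i * (a + α) k - (a + α) i * a k ≠ 0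
    · obtain ⟨i, k, hD⟩ := hl
      have h3 := lnc_two hK a (a + α) i k hD 1 (1 - (a + α) ⬝ᵥ β)
      have h4 : (univ.filter (fun b : Fin h → K => a ⬝ᵥ b = 1 ∧ (a + α) ⬝ᵥ (b + β) = 1)) =
          (univ.filter (fun b : Fin h → K => a ⬝ᵥ b = 1 ∧ (a + α) ⬝ᵥ b = 1 - (a + α) ⬝ᵥ β)) := by
        refine Finset.filter_congr (fun b _ => ?_)
        rw [dotProduct_add, eq_sub_iff_add_eq]
      rw [h4, h3]
      exact Nat.le_add_right _ _
    · push Not at hl
      have h5 : a ∈ univ.image (fun s : K => s • α) := by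
        obtain ⟨i, hi⟩ := Function.ne_iff.mp hα
        have hi' : α i ≠ 0 := hi
        refine Finset.mem_image.mpr ⟨a i / α i, Finset.mem_univ _, ?_⟩
        funext k
        have h6 := hl i k
        simp only [Pi.add_apply] at h6
        show a i / α i * α k = a k
        rw [div_mul_eq_mul_div, div_eq_iff hi']
        linear_combination h6
      rw [if_pos h5]
      by_cases ha0 : a = 0
      · have : (univ.filter (fun b : Fin h → K => a ⬝ᵥ b = 1 ∧ (a + α) ⬝ᵥ (b + β) = 1)) = ∅ := by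
          refine Finset.filter_eq_empty_iff.mpr (fun b _ hb => ?_)
          rw [ha0, zero_dotProduct] at hb
          exact zero_ne_one hb.1
        rw [this, Finset.card_empty]
        exact Nat.zero_le _
      · have h7 : 16 * (univ.filter (fun b : Fin h → K => a ⬝ᵥ b = 1 ∧ (a + α) ⬝ᵥ (b + β) = 1)).card ≤ 16 ^ h := by
          rw [← lnc_one hK a ha0 1]
          refine Nat.mul_le_mul_left _ (Finset.card_le_card ?_)
          intro b hb
          rw [Finset.mem_filter] at hb ⊢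
          exact ⟨hb.1, hb.2.1⟩
        omega
  refine (Finset.sum_le_sum h1).trans ?_
  rw [Finset.sum_add_distrib, Finset.sum_const, ← Finset.sum_filter, Finset.sum_const, smul_eq_mul, smul_eq_mul,
    Finset.card_univ, Fintype.card_fun, hK, Fintype.card_fin]
  refine Nat.add_le_add_left ?_ _
  have h8 : (univ.filter (fun a : Fin h → K => a ∈ univ.image (fun s : K => s • α))).card ≤ 16 := by
    refine (Finset.card_le_card (t := univ.image (fun s : K => s • α)) ?_).trans ?_
    · intro a ha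
      exact (Finset.mem_filter.mp ha).2
    · refine Finset.card_image_le.trans ?_
      rw [Finset.card_univ, hK]
  calc (univ.filter (fun a : Fin h → K => a ∈ univ.image (fun s : K => s • α))).card * (16 * 16 ^ h)
      ≤ 16 * (16 * 16 ^ h) := Nat.mul_le_mul_right _ h8
    _ = 256 * 16 ^ h := by ring

end field

theorem lnc_num (N c m E : ℕ) (hN : 2 ≤ N) (hE1 : 1 ≤ E) (hE : E ≤ 128)
    (hc : 16 * c = (256 * N - 1) * (256 * N)) (hm : 256 * m ≤ 256 * N * (256 * N) + 256 * (256 * N)) :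
    256 * N * (256 * N) * E ≤ 2 ^ 12 * c ∧ 2 ^ 4 * c ≤ 256 * N * (256 * N) * E ∧ 8 * m ≤ c := by
  obtain ⟨K, hK⟩ : ∃ K, 256 * N = K + 1 := ⟨256 * N - 1, by omega⟩
  rw [hK] at hc hm ⊢
  simp only [Nat.add_sub_cancel] at hc
  have hK2 : 511 ≤ K := by omega
  refine ⟨?_, ?_, ?_⟩
  · have : 2 ^ 12 * c = 256 * (16 * c) := by ring
    rw [this, hc]
    nlinarith [Nat.mul_le_mul_left ((K + 1) * (K + 1)) hE]
  · have : 2 ^ 4 * c = 16 * c := by ring
    rw [this, hc]
    nlinarith [Nat.mul_le_mul_left ((K + 1) * (K + 1)) hE1]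
  · nlinarith

theorem lnc_main (h e : ℕ) (hh : 3 ≤ h) (he : e < 8) :
    ∃ R : Finset (Fin (8 * h + e) → ZMod 2), 2 ^ (8 * h + e) ≤ 2 ^ 12 * R.card ∧ 2 ^ 4 * R.card ≤ 2 ^ (8 * h + e) ∧
      ∀ α : Fin (8 * h + e) → ZMod 2, α ≠ 0 → 8 * (R.filter (fun x => x + α ∈ R)).card ≤ R.card := by
  classical
  have : Fact (Nat.Prime 2) := ⟨Nat.prime_two⟩
  let K := GaloisField 2 4
  let _ : Fintype K := Fintype.ofFinite K
  have hK : Fintype.card K = 16 := by
    rw [← Nat.card_eq_fintype_card, GaloisField.card 2 4 (by norm_num)]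
    norm_num
  have hK2 : ∀ x : K, x + x = 0 := fun x => CharTwo.add_self_eq_zero x
  have h2 : ∀ x : (Fin h → K) × (Fin h → K) × (Fin e → ZMod 2), x + x = 0 := by
    intro x
    refine Prod.ext (funext fun i => hK2 _) (Prod.ext (funext fun i => hK2 _) (funext fun i => ?_))
    exact CharTwo.add_self_eq_zero (x.2.2 i)
  have h3 : Fintype.card ((Fin h → K) × (Fin h → K) × (Fin e → ZMod 2)) = 2 ^ (8 * h + e) := by
    rw [Fintype.card_prod, Fintype.card_prod, Fintype.card_fun, hK, Fintype.card_fun, Fintype.card_fin, Fintype.card_fin, ZMod.card]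
    have h16 : (16 : ℕ) ^ h = 2 ^ (4 * h) := by
      rw [pow_mul]
      norm_num
    rw [h16, ← pow_add, ← pow_add]
    congr 1
    omega
  obtain ⟨φ⟩ := lnc_addEquiv _ h2 _ h3
  obtain ⟨N, hN, hN2⟩ : ∃ N, 16 ^ h = 256 * N ∧ 2 ≤ N := by
    refine ⟨16 ^ (h - 2), ?_, ?_⟩
    · have : h = (h - 2) + 2 := by omega
      conv_lhs => rw [this, pow_add]
      ring
    · calc 2 ≤ 16 ^ 1 := by norm_num
        _ ≤ 16 ^ (h - 2) := Nat.pow_le_pow_right (by norm_num) (by omega)
  let R0 : Finset ((Fin h → K) × (Fin h → K) × (Fin e → ZMod 2)) :=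
    univ.filter (fun p => p.1 ⬝ᵥ p.2.1 = 1 ∧ p.2.2 = 0)
  have hR0 : ∀ (P : (Fin h → K) × (Fin h → K) → Prop), (univ.filter (fun p : (Fin h → K) × (Fin h → K) × (Fin e → ZMod 2) =>
      P (p.1, p.2.1) ∧ p.2.2 = 0)).card = (univ.filter P).card := by
    intro P
    refine Finset.card_bij (fun p _ => (p.1, p.2.1)) ?_ ?_ ?_
    · intro p hp
      exact Finset.mem_filter.mpr ⟨Finset.mem_univ _, (Finset.mem_filter.mp hp).2.1⟩
    · intro p hp q hq hpq
      have hp' := (Finset.mem_filter.mp hp).2.2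
      have hq' := (Finset.mem_filter.mp hq).2.2
      have h1 := congrArg Prod.fst hpq
      have h2 := congrArg Prod.snd hpq
      exact Prod.ext h1 (Prod.ext h2 (hp'.trans hq'.symm))
    · rintro ⟨a, b⟩ hab
      exact ⟨(a, b, 0), Finset.mem_filter.mpr ⟨Finset.mem_univ _, (Finset.mem_filter.mp hab).2, rfl⟩, rfl⟩
  have hcR : 16 * R0.card = (256 * N - 1) * (256 * N) := by
    have h4 := hR0 (fun q => q.1 ⬝ᵥ q.2 = 1)
    have h5 := lnc_cardR (K := K) (h := h) hK
    rw [hN] at h5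
    rw [← h5]
    congr 1
  have hauto : ∀ α : (Fin h → K) × (Fin h → K) × (Fin e → ZMod 2), α ≠ 0 →
      256 * (R0.filter (fun x => x + α ∈ R0)).card ≤ 256 * N * (256 * N) + 256 * (256 * N) := by
    rintro ⟨α, β, γ⟩ hne
    by_cases hγ : γ = 0
    · subst hγ
      have h6 : (R0.filter (fun x => x + (α, β, 0) ∈ R0)) = univ.filter (fun p : (Fin h → K) × (Fin h → K) × (Fin e → ZMod 2) =>
          (p.1 ⬝ᵥ p.2.1 = 1 ∧ (p.1 + α) ⬝ᵥ (p.2.1 + β) = 1) ∧ p.2.2 = 0) := by
        ext p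
        simp only [R0, Finset.mem_filter, Finset.mem_univ, true_and, Prod.fst_add, Prod.snd_add, add_zero]
        tauto
      have h7 := hR0 (fun q => q.1 ⬝ᵥ q.2 = 1 ∧ (q.1 + α) ⬝ᵥ (q.2 + β) = 1)
      rw [h6]
      simp only at h7
      rw [h7]
      by_cases hα : α = 0
      · have hβ : β ≠ 0 := by
          intro hβ
          exact hne (by rw [hα, hβ]; rfl)
        have h8 := lnc_case1 (K := K) hK β hβ
        rw [hN] at h8
        subst hα
        simp only [add_zero]
        exact h8.trans (Nat.le_add_right _ _)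
      · have h8 := lnc_case2 (K := K) hK α β hα
        rw [hN] at h8
        convert h8
    · have h9 : (R0.filter (fun x => x + (α, β, γ) ∈ R0)) = ∅ := by
        refine Finset.filter_eq_empty_iff.mpr (fun x hx hx2 => hγ ?_)
        have h10 := (Finset.mem_filter.mp hx).2.2
        have h11 := (Finset.mem_filter.mp hx2).2.2
        rw [Prod.snd_add, Prod.snd_add, h10, zero_add] at h11
        exact h11
      rw [h9, Finset.card_empty]
      exact Nat.zero_le _
  have hE : 2 ^ e ≤ 128 := by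
    calc 2 ^ e ≤ 2 ^ 7 := Nat.pow_le_pow_right (by norm_num) (by omega)
      _ = 128 := by norm_num
  have hE1 : 1 ≤ 2 ^ e := Nat.one_le_two_pow
  have hj : 2 ^ (8 * h + e) = 256 * N * (256 * N) * 2 ^ e := by
    rw [← hN, pow_add]
    have h16 : (16 : ℕ) ^ h = 2 ^ (4 * h) := by
      rw [pow_mul]
      norm_num
    rw [h16]
    congr 1
    rw [← pow_add]
    congr 1
    omega
  have hnum : ∀ m : ℕ, 256 * m ≤ 256 * N * (256 * N) + 256 * (256 * N) → _ := fun m hm =>
    lnc_num N R0.card m (2 ^ e) hN2 hE1 hE hcR hm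
  refine ⟨R0.map φ.toEquiv.toEmbedding, ?_, ?_, ?_⟩
  · rw [Finset.card_map, hj]
    exact (hnum 0 (Nat.zero_le _)).1
  · rw [Finset.card_map, hj]
    exact (hnum 0 (Nat.zero_le _)).2.1
  · intro α hα
    have h12 : ((R0.map φ.toEquiv.toEmbedding).filter (fun x => x + α ∈ R0.map φ.toEquiv.toEmbedding)) =
        (R0.filter (fun x => x + φ.symm α ∈ R0)).map φ.toEquiv.toEmbedding := by
      have hmem : ∀ y, y ∈ R0.map φ.toEquiv.toEmbedding ↔ φ.symm y ∈ R0 := by
        intro y
        constructor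
        · intro hy
          obtain ⟨x, hx, rfl⟩ := Finset.mem_map.mp hy
          show φ.symm (φ x) ∈ R0
          rw [φ.symm_apply_apply]
          exact hx
        · intro hy
          exact Finset.mem_map.mpr ⟨φ.symm y, hy, φ.apply_symm_apply y⟩
      ext y
      rw [Finset.mem_filter, hmem, hmem, Finset.mem_map]
      constructor
      · rintro ⟨h1, h2⟩
        refine ⟨φ.symm y, Finset.mem_filter.mpr ⟨h1, ?_⟩, φ.apply_symm_apply y⟩
        rw [map_add] at h2
        exact h2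
      · rintro ⟨x, hx, rfl⟩
        have h13 := Finset.mem_filter.mp hx
        have h14 : φ.symm (φ.toEquiv.toEmbedding x) = x := φ.symm_apply_apply x
        rw [map_add, h14]
        exact h13
    rw [h12, Finset.card_map, Finset.card_map]
    refine (hnum _ (hauto _ ?_)).2.2
    intro h0
    apply hα
    rw [← φ.apply_symm_apply α, h0, map_zero]

theorem exists_corr_free (j : ℕ) (hj : 24 ≤ j) :
    ∃ R : Finset (Fin j → ZMod 2), 2 ^ j ≤ 2 ^ 12 * R.card ∧ 2 ^ 4 * R.card ≤ 2 ^ j ∧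
      ∀ α : Fin j → ZMod 2, α ≠ 0 → 8 * (R.filter (fun x => x + α ∈ R)).card ≤ R.card := by
  obtain ⟨h, e, he, rfl⟩ : ∃ h e, e < 8 ∧ j = 8 * h + e := ⟨j / 8, j % 8, Nat.mod_lt _ (by norm_num), by omega⟩
  exact lnc_main h e (by omega) he

end Pool.Agent.H60.LN
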