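import Mathlib
import Pool.Agent.H60.LN.Sys
import Pool.Agent.H60.LN.Corr

/-!
# LNCorrZ: the set with small autocorrelation inside `Zc k m`

Proof.  `exists_corr_free m` gives `R ⊆ (Fin m → ZMod 2)`.  Extension by zero
`ext y i = if h : i.val < m then y ⟨i.val, h⟩ else 0` is an injective homomorphism into `Fin k → ZMod 2` with range `Zc k m`
(`m <= k`).  `R0 = R.image ext`.  For `α ∈ Zc k m`, `α ≠ 0`, `α = ext β`, `β ≠ 0`: the filter is the image of `R.filter (x + β ∈ R)`.
For `α ∉ Zc k m` the filter is empty: `x, x + α ∈ Zc k m` imply `α = x + (x + α) ∈ Zc k m`.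
-/

set_option autoImplicit false

open Finset

namespace Pool.Agent.H60.LN

theorem exists_corr_zc {k m : ℕ} (hm : 24 ≤ m) (hmk : m ≤ k) :
    ∃ R0 : Finset (Fin k → ZMod 2), R0 ⊆ Zc k m ∧ 2 ^ m ≤ 2 ^ 12 * R0.card ∧
      2 ^ 4 * R0.card ≤ 2 ^ m ∧
      ∀ α : Fin k → ZMod 2, α ≠ 0 → 8 * (R0.filter (fun x => x + α ∈ R0)).card ≤ R0.card := by
  obtain ⟨R, h1, h2, h3⟩ := exists_corr_free m hm
  obtain ⟨e, hext⟩ : ∃ e : (Fin m → ZMod 2) → (Fin k → ZMod 2),
      ∀ y i, e y i = if h : i.val < m then y ⟨i.val, h⟩ else 0 :=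
    ⟨fun y i => if h : i.val < m then y ⟨i.val, h⟩ else 0, fun _ _ => rfl⟩
  have hinj : Function.Injective e := by
    intro y y' hyy
    funext i
    have h := congrFun hyy ⟨i.val, lt_of_lt_of_le i.isLt hmk⟩
    rw [hext, hext, dif_pos i.isLt, dif_pos i.isLt] at h
    exact h
  have hadd : ∀ y y', e (y + y') = e y + e y' := by
    intro y y'
    funext i
    rw [Pi.add_apply, hext, hext, hext]
    split_ifs
    · rfl
    · rw [add_zero]
  have hmem : ∀ y, e y ∈ Zc k m := by
    intro y
    rw [mem_Zc]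
    intro i hi
    rw [hext, dif_neg (not_lt.2 hi)]
  have hsur : ∀ x ∈ Zc k m, ∃ y, e y = x := by
    intro x hx
    rw [mem_Zc] at hx
    refine ⟨fun i => x ⟨i.val, lt_of_lt_of_le i.isLt hmk⟩, ?_⟩
    funext i
    rw [hext]
    split_ifs with h
    · rfl
    · exact (hx i (not_lt.1 h)).symm
  have himg : ∀ x ∈ R.image e, x ∈ Zc k m := by
    intro x hx
    obtain ⟨y, _, rfl⟩ := Finset.mem_image.1 hx
    exact hmem y
  refine ⟨R.image e, himg, ?_, ?_, ?_⟩
  · rw [Finset.card_image_of_injective _ hinj]
    exact h1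
  · rw [Finset.card_image_of_injective _ hinj]
    exact h2
  · intro α hα
    rw [Finset.card_image_of_injective _ hinj]
    by_cases hz : α ∈ Zc k m
    · obtain ⟨β, rfl⟩ := hsur α hz
      have hβ : β ≠ 0 := by
        rintro rfl
        apply hα
        funext i
        rw [hext]
        split_ifs <;> rfl
      have hf : (R.image e).filter (fun x => x + e β ∈ R.image e) = (R.filter (fun x => x + β ∈ R)).image e := by
        ext x
        simp only [Finset.mem_filter, Finset.mem_image]
        constructor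
        · rintro ⟨⟨y, hy, rfl⟩, z, hz', hzy⟩
          refine ⟨y, ⟨hy, ?_⟩, rfl⟩
          rw [← hadd] at hzy
          rw [← hinj hzy]
          exact hz'
        · rintro ⟨y, ⟨hy, hyb⟩, rfl⟩
          exact ⟨⟨y, hy, rfl⟩, y + β, hyb, hadd y β⟩
      rw [hf, Finset.card_image_of_injective _ hinj]
      exact h3 β hβ
    · have hf : (R.image e).filter (fun x => x + α ∈ R.image e) = ∅ := by
        rw [Finset.filter_eq_empty_iff]
        intro x hx hxa
        apply hz
        have h4 := zc_add x (himg x hx) (x + α) (himg _ hxa)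
        have h5 : x + (x + α) = α := by
          rw [← add_assoc]
          have h6 : x + x = 0 := by
            funext i
            exact CharTwo.add_self_eq_zero (x i)
          rw [h6, zero_add]
        rw [h5] at h4
        exact h4
      rw [hf, Finset.card_empty, Nat.mul_zero]
      exact Nat.zero_le _

end Pool.Agent.H60.LN
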