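import Mathlib
import Pool.Agent.H60.FN.Add
import Pool.Agent.H60.LN.Blk
import Pool.Agent.H60.LN.Cap

/-!
# LNJunk: greedy extension of a labelling, respecting the caps and avoiding `Z L`

Proof.  As `lab_extend` in `Pool/Agent/H60/FN/Ext.lean` (induction on `(E \ E').card`, a vertex of `E \ E'` of
minimal depth, one child of the root or a pair of siblings), with the condition on the new labels
`x` (and `x + y`, `y = g (p v)`): not in `E''.image g` and not in `blk (E''.image g)`.
With `u = (E''.image g).card <= E''.card < E.card`, by `blk_card` the excluded `x` are at most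
`2 * (u + 32 * u + (Z L).card) < 80 * E.card + 2 * (Z L).card <= card J`.  The cap is kept by `cap_insert`,
`cap_insert2`; labels outside `blk` are not in `Z L`.
-/

set_option autoImplicit false

open Finset

namespace Pool.Agent.H60.LN

open Pool.Agent.H57.SS Pool.Agent.H60.FN

private theorem LNJunk_closed_one {V : Type*} [DecidableEq V] {p : V → V} {r : V} {E : Finset V}
    (h : Closed p r E) {v : V} (hpv : p v = r) : Closed p r (insert v E) := by
  refine ⟨mem_insert_of_mem h.root, ?_, ?_⟩
  · intro u hu
    rcases mem_insert.1 hu with rfl | hu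
    · rw [hpv]
      exact mem_insert_of_mem h.root
    · exact mem_insert_of_mem (h.parent u hu)
  · intro w hw
    rw [filter_insert, if_neg (by rw [hpv]; exact fun h => hw h.symm)]
    exact h.even w hw

private theorem LNJunk_closed_two {V : Type*} [DecidableEq V] {p : V → V} {r : V} {E : Finset V}
    (h : Closed p r E) {v v' : V} (hv : v ∉ E) (hv' : v' ∉ E) (hne : v ≠ v') (hpvE : p v ∈ E)
    (hpp : p v' = p v) : Closed p r (insert v' (insert v E)) := by
  refine ⟨mem_insert_of_mem (mem_insert_of_mem h.root), ?_, ?_⟩
  · intro u hu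
    rcases mem_insert.1 hu with rfl | hu
    · rw [hpp]
      exact mem_insert_of_mem (mem_insert_of_mem hpvE)
    · rcases mem_insert.1 hu with rfl | hu
      · exact mem_insert_of_mem (mem_insert_of_mem hpvE)
      · exact mem_insert_of_mem (mem_insert_of_mem (h.parent u hu))
  · intro w hw
    by_cases hwv : p v = w
    · rw [filter_insert, if_pos (by rw [hpp]; exact hwv), filter_insert, if_pos hwv,
        card_insert_of_notMem, card_insert_of_notMem]
      · have := h.even w hw
        rw [add_assoc]
        exact this.add (by decide)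
      · intro h1
        exact hv (mem_filter.1 h1).1
      · intro h1
        rcases mem_insert.1 h1 with h2 | h2
        · exact hne h2.symm
        · exact hv' (mem_filter.1 h2).1
    · rw [filter_insert, if_neg (by rw [hpp]; exact hwv), filter_insert, if_neg hwv]
      exact h.even w hw

private theorem LNJunk_sibling {V : Type*} [DecidableEq V] {p : V → V} {r : V} {E E' : Finset V}
    (hE : Closed p r E) (hE' : Closed p r E') (hsub : E' ⊆ E) {v : V} (hv : v ∈ E) (hvE : v ∉ E')
    (hpv : p v ≠ r) : ∃ v' ∈ E, v' ∉ E' ∧ v' ≠ v ∧ p v' = p v := by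
  have h1 : ((E \ E').filter (fun u => p u = p v)) =
      E.filter (fun u => p u = p v) \ E'.filter (fun u => p u = p v) := by
    ext u
    simp only [mem_filter, mem_sdiff]
    tauto
  have h2 : (E'.filter (fun u => p u = p v)) ⊆ E.filter (fun u => p u = p v) :=
    filter_subset_filter _ hsub
  have h3 : Even ((E \ E').filter (fun u => p u = p v)).card := by
    rw [h1, card_sdiff_of_subset h2]
    have h4 := card_le_card h2
    exact (Nat.even_sub h4).2 (iff_of_true (hE.even _ hpv) (hE'.even _ hpv))
  have h5 : v ∈ (E \ E').filter (fun u => p u = p v) :=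
    mem_filter.2 ⟨mem_sdiff.2 ⟨hv, hvE⟩, rfl⟩
  have h6 : 1 < ((E \ E').filter (fun u => p u = p v)).card := by
    have h7 : 0 < ((E \ E').filter (fun u => p u = p v)).card := card_pos.2 ⟨v, h5⟩
    obtain ⟨k, hk⟩ := h3
    omega
  obtain ⟨v', h8, h9⟩ := exists_mem_ne h6 v
  obtain ⟨h10, h11⟩ := mem_filter.1 h8
  obtain ⟨h12, h13⟩ := mem_sdiff.1 h10
  exact ⟨v', h12, h13, h9, h11⟩

private theorem LNJunk_Z {J : Type*} [AddCommGroup J] [DecidableEq J] [Fintype J] (D : Lv J)
    {U : Finset J} {x : J} (h : x ∉ D.blk U) : x ∉ D.Z D.L := by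
  intro hx
  exact h (mem_filter.2 ⟨mem_univ _, Or.inl hx⟩)

private theorem LNJunk_aux {V J : Type*} [DecidableEq V] [AddCommGroup J] [DecidableEq J]
    [Fintype J] (D : Lv J) {p : V → V} {r : V} {d : V → ℕ}
    (hd : ∀ v, v ≠ r → d v = d (p v) + 1) {E : Finset V} (hE : Closed p r E)
    (hcard : 80 * E.card + 2 * (D.Z D.L).card ≤ Fintype.card J) :
    ∀ (n : ℕ) (E' : Finset V) (g : V → J), (E \ E').card = n → Closed p r E' → E' ⊆ E →
      Lab p r E' g → D.CapOK (E'.image g) →
      ∃ g2 : V → J, (∀ v ∈ E', g2 v = g v) ∧ Lab p r E g2 ∧ D.CapOK (E.image g2) ∧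
        ∀ v ∈ E, v ∉ E' → g2 v ∉ D.Z D.L := by
  intro n
  induction n using Nat.strong_induction_on with
  | _ n ih =>
    intro E' g hn hE' hsub hg hcap
    by_cases hEE : E ⊆ E'
    · have h1 : E' = E := Subset.antisymm hsub hEE
      subst h1
      exact ⟨g, fun _ _ => rfl, hg, hcap, fun v hv hv' => absurd hv hv'⟩
    have hne : (E \ E').Nonempty := by
      rw [sdiff_nonempty]
      exact hEE
    obtain ⟨v, hvm, hmin⟩ := exists_min_image (E \ E') d hne
    obtain ⟨hvE, hvE'⟩ := mem_sdiff.1 hvm
    have hvr : v ≠ r := fun h => hvE' (h ▸ hE'.root)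
    have hpvE : p v ∈ E' := by
      by_contra h1
      have h2 := hmin (p v) (mem_sdiff.2 ⟨hE.parent v hvE, h1⟩)
      have h3 := hd v hvr
      omega
    have hlt : E'.card < E.card := card_lt_card ⟨hsub, hEE⟩
    obtain ⟨U, hU⟩ : ∃ U : Finset J, U = E'.image g := ⟨_, rfl⟩
    have hUc : U.card ≤ E'.card := by
      rw [hU]
      exact card_image_le
    have hblk := blk_card D U
    have himg : (U ∪ D.blk U).card ≤ U.card + (32 * U.card + (D.Z D.L).card) :=
      (card_union_le _ _).trans (Nat.add_le_add_left hblk _)
    have hB : 2 * (U ∪ D.blk U).card < (univ : Finset J).card := by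
      rw [card_univ]
      omega
    by_cases hpv : p v = r
    · obtain ⟨x, _, hx⟩ := exists_mem_notMem_of_card_lt_card
        (show (U ∪ D.blk U).card < (univ : Finset J).card by omega)
      rw [mem_union, not_or] at hx
      have hxU : x ∉ E'.image g := by
        rw [← hU]
        exact hx.1
      have hlab := lab_add_one hE'.root hE'.parent hg hvE' hpv hxU
      have hcl := LNJunk_closed_one hE' hpv
      have hsub2 : insert v E' ⊆ E := insert_subset hvE hsub
      have hcd : (E \ insert v E').card < n := by
        rw [← hn]
        apply card_lt_card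
        refine ⟨sdiff_subset_sdiff (Subset.refl _) (subset_insert _ _), fun h1 => ?_⟩
        exact (mem_sdiff.1 (h1 hvm)).2 (mem_insert_self _ _)
      have himg2 : (insert v E').image (Function.update g v x) = insert x U := by
        rw [image_insert, Function.update_self, hU]
        congr 1
        exact image_congr (fun u hu =>
          Function.update_of_ne (fun h : u = v => hvE' (h ▸ hu)) _ _)
      have hcap2 : D.CapOK ((insert v E').image (Function.update g v x)) := by
        rw [himg2]
        exact cap_insert D (hU ▸ hcap) hx.2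
      obtain ⟨g2, h1, h2, h3, h4⟩ := ih _ hcd (insert v E') _ rfl hcl hsub2 hlab hcap2
      refine ⟨g2, ?_, h2, h3, ?_⟩
      · intro u hu
        rw [h1 u (mem_insert_of_mem hu), Function.update_of_ne (show u ≠ v from fun h => hvE' (h ▸ hu))]
      · intro u hu hu'
        by_cases huv : u = v
        · subst huv
          rw [h1 u (mem_insert_self _ _), Function.update_self]
          exact LNJunk_Z D hx.2
        · exact h4 u hu (fun h => (mem_insert.1 h).elim huv hu')
    · obtain ⟨v', hv'E, hv'E', hv'v, hpp⟩ := LNJunk_sibling hE hE' hsub hvE hvE' hpv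
      have hcB : ((U ∪ D.blk U) ∪ (U ∪ D.blk U).image (fun z => z + g (p v))).card <
          (univ : Finset J).card := by
        have h1 := card_union_le (U ∪ D.blk U)
          ((U ∪ D.blk U).image (fun z => z + g (p v)))
        have h2 : ((U ∪ D.blk U).image (fun z => z + g (p v))).card ≤
            (U ∪ D.blk U).card := card_image_le
        omega
      obtain ⟨x, _, hx⟩ := exists_mem_notMem_of_card_lt_card hcB
      rw [mem_union, not_or] at hx
      obtain ⟨hx1, hx2⟩ := hx
      have hx3 : x + g (p v) ∉ U ∪ D.blk U := by
        intro h1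
        apply hx2
        refine mem_image.2 ⟨_, h1, ?_⟩
        rw [add_assoc, D.dbl, add_zero]
      rw [mem_union, not_or] at hx1 hx3
      have hxU : x ∉ E'.image g := by
        rw [← hU]
        exact hx1.1
      have hxU' : x + g (p v) ∉ E'.image g := by
        rw [← hU]
        exact hx3.1
      have hlab := lab_add_two D.dbl hE'.root hE'.parent hg hvE' hv'E' (Ne.symm hv'v) hpvE hpv hpp
        hxU hxU'
      have hcl := LNJunk_closed_two hE' hvE' hv'E' (Ne.symm hv'v) hpvE hpp
      have hsub2 : insert v' (insert v E') ⊆ E := insert_subset hv'E (insert_subset hvE hsub)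
      have hcd : (E \ insert v' (insert v E')).card < n := by
        rw [← hn]
        apply card_lt_card
        refine ⟨sdiff_subset_sdiff (Subset.refl _)
          ((subset_insert _ _).trans (subset_insert _ _)), fun h1 => ?_⟩
        exact (mem_sdiff.1 (h1 hvm)).2 (mem_insert_of_mem (mem_insert_self _ _))
      have hval : ∀ u ∈ E', Function.update (Function.update g v x) v' (x + g (p v)) u = g u := by
        intro u hu
        rw [Function.update_of_ne (show u ≠ v' from fun h => hv'E' (h ▸ hu)),
          Function.update_of_ne (show u ≠ v from fun h => hvE' (h ▸ hu))]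
      have hvalv : Function.update (Function.update g v x) v' (x + g (p v)) v = x := by
        rw [Function.update_of_ne (Ne.symm hv'v), Function.update_self]
      have hvalv' : Function.update (Function.update g v x) v' (x + g (p v)) v' = x + g (p v) := by
        rw [Function.update_self]
      have himg2 : (insert v' (insert v E')).image
          (Function.update (Function.update g v x) v' (x + g (p v))) =
          insert (x + g (p v)) (insert x U) := by
        rw [image_insert, image_insert, hvalv, hvalv', hU]
        congr 2
        exact image_congr (fun u hu => hval u hu)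
      have hcap2 : D.CapOK ((insert v' (insert v E')).image
          (Function.update (Function.update g v x) v' (x + g (p v)))) := by
        rw [himg2]
        exact cap_insert2 D (hU ▸ hcap) hx1.2 hx3.2
      obtain ⟨g2, h1, h2, h3, h4⟩ := ih _ hcd (insert v' (insert v E')) _ rfl hcl hsub2 hlab hcap2
      refine ⟨g2, ?_, h2, h3, ?_⟩
      · intro u hu
        rw [h1 u (mem_insert_of_mem (mem_insert_of_mem hu)), hval u hu]
      · intro u hu hu'
        by_cases huv : u = v
        · rw [huv, h1 v (mem_insert_of_mem (mem_insert_self _ _)), hvalv]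
          exact LNJunk_Z D hx1.2
        · by_cases huv' : u = v'
          · rw [huv', h1 v' (mem_insert_self _ _), hvalv']
            exact LNJunk_Z D hx3.2
          · refine h4 u hu (fun h => ?_)
            rcases mem_insert.1 h with h5 | h5
            · exact huv' h5
            · rcases mem_insert.1 h5 with h6 | h6
              · exact huv h6
              · exact hu' h6

theorem junk_extend {V J : Type*} [DecidableEq V] [AddCommGroup J] [DecidableEq J] [Fintype J]
    (D : Lv J) {p : V → V} {r : V} {d : V → ℕ} (hd : ∀ v, v ≠ r → d v = d (p v) + 1)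
    {E E' : Finset V} (hE : Closed p r E) (hE' : Closed p r E') (hsub : E' ⊆ E) {g : V → J}
    (hg : Lab p r E' g) (hcap : D.CapOK (E'.image g))
    (hcard : 80 * E.card + 2 * (D.Z D.L).card ≤ Fintype.card J) :
    ∃ g2 : V → J, (∀ v ∈ E', g2 v = g v) ∧ Lab p r E g2 ∧ D.CapOK (E.image g2) ∧
      ∀ v ∈ E, v ∉ E' → g2 v ∉ D.Z D.L := by
  exact LNJunk_aux D hd hE hcard _ E' g rfl hE' hsub hg hcap

end Pool.Agent.H60.LN
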