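import Mathlib

/-!
# LNLayer: choice of the scales (pure)

Proof.  `s i = (X.filter (2 ^ i <= w v)).card`, non-increasing in `i`, `s i <= a`, and `2 ^ i * s i <= 4608 * a` by `hK`.
`s i = 0` for large `i` (for `2 ^ i > 4608 * a`).  Let `I` be a bound: `s i = 0` for `i >= I`.
(1) `∑ x ∈ X, w x <= ∑ i < I, 2 ^ i * s i`: for `x ∈ X`, `w x <= ∑ i < I, if 2 ^ i <= w x then 2 ^ i else 0` (if `2 ^ m <= w x < 2 ^ (m + 1)`, the right side is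
`2 ^ (m + 1) - 1`, and `m < I` since `s m ≠ 0`; `w x = 0` is clear).  Exchange the sums.
(2) `μ i = Nat.log 2 (s i)` for `s i ≠ 0`: `2 ^ μ i <= s i < 2 ^ (μ i + 1)`.  `M = {μ i : i < I, s i ≠ 0}` (a finset), and for `μ ∈ M` let `i μ` be the largest `i < I`
with `s i ≠ 0`, `μ i = μ`.  For `μ ∈ M`: `∑ (i < I, s i ≠ 0, μ i = μ) 2 ^ i * s i <= 2 ^ (μ + 1) * ∑ (i <= i μ) 2 ^ i <= 4 * 2 ^ (i μ + μ)`.
So `3 * 2 ^ 80 * a <= 4 * ∑ μ ∈ M, ω μ`, `ω μ = 2 ^ (i μ + μ)`.  Also `ω μ <= 2 ^ (i μ) * s (i μ) <= 4608 * a`, `2 ^ μ <= a`.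
(3) For some `ρ < 40` the class `Mρ = M.filter (μ % 40 = ρ)` has `40 * ∑ μ ∈ Mρ, ω μ >= ∑ μ ∈ M, ω μ`.
(4) `Λ = Mρ.filter (80 <= μ ∧ 20 <= i μ)`.  The `μ ∈ Mρ` with `μ < 80` are at most two: their sum is at most `2 * 4608 * a`.  Those with `i μ < 20`:
`ω μ <= 2 ^ 19 * 2 ^ μ`, and `∑ 2 ^ μ <= 2 * a` over distinct `μ` with `2 ^ μ <= a` (distinct powers of two, `∑ <= 2 ^ (max + 1) <= 2 * a`):
at most `2 ^ 20 * a`.
So `∑ μ ∈ Λ, ω μ >= 3 * 2 ^ 78 * a / 40 - 9216 * a - 2 ^ 20 * a >= 2 ^ 74 * a` (as `3 * 2 ^ 78 = 48 * 2 ^ 74 > 40 * (2 ^ 74 + 2 ^ 21 + 9216)`).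
Gaps: distinct elements of one class modulo `40` differ by at least `40`.
-/

set_option autoImplicit false

open Finset

namespace Pool.Agent.H60.LN

private theorem LNLayer_geo (I : ℕ) : ∑ i ∈ range I, 2 ^ i + 1 = 2 ^ I := by
  induction I with
  | zero => simp
  | succ I ih =>
    rw [sum_range_succ, pow_succ]
    omega

private theorem LNLayer_bits (n I : ℕ) (h : n < 2 ^ I) :
    n ≤ ∑ i ∈ range I, if 2 ^ i ≤ n then 2 ^ i else 0 := by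
  induction I with
  | zero =>
    rw [pow_zero] at h
    omega
  | succ I ih =>
    by_cases hI : 2 ^ I ≤ n
    · have h1 : ∑ i ∈ range (I + 1), (if 2 ^ i ≤ n then 2 ^ i else 0) =
          ∑ i ∈ range (I + 1), 2 ^ i := by
        apply sum_congr rfl
        intro i hi
        rw [mem_range] at hi
        rw [if_pos]
        exact le_trans (Nat.pow_le_pow_right (by norm_num) (by omega)) hI
      rw [h1]
      have h2 := LNLayer_geo (I + 1)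
      omega
    · rw [sum_range_succ]
      have := ih (not_le.1 hI)
      omega

private theorem LNLayer_pow_le (A : Finset ℕ) (a : ℕ) (ha : 1 ≤ a) (h : ∀ μ ∈ A, 2 ^ μ ≤ a) :
    ∑ μ ∈ A, 2 ^ μ ≤ 2 * a := by
  have h1 : A ⊆ range (Nat.log 2 a + 1) := by
    intro μ hμ
    rw [mem_range]
    have := Nat.le_log_of_pow_le (by norm_num : 1 < 2) (h μ hμ)
    omega
  have h2 : ∑ μ ∈ A, 2 ^ μ ≤ ∑ μ ∈ range (Nat.log 2 a + 1), 2 ^ μ :=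
    sum_le_sum_of_subset h1
  have h3 := LNLayer_geo (Nat.log 2 a + 1)
  have h4 : 2 ^ Nat.log 2 a ≤ a := Nat.pow_log_le_self 2 (by omega)
  rw [pow_succ] at h3
  omega

/-- The members of one class: the inner sum. -/
private theorem LNLayer_inner (s : ℕ → ℕ) (A : Finset ℕ) (μ m : ℕ)
    (hs : ∀ i ∈ A, s i ≤ 2 ^ (μ + 1)) (hm : ∀ i ∈ A, i ≤ m) :
    ∑ i ∈ A, 2 ^ i * s i ≤ 4 * 2 ^ (m + μ) := by
  have h1 : ∑ i ∈ A, 2 ^ i * s i ≤ ∑ i ∈ A, 2 ^ i * 2 ^ (μ + 1) :=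
    sum_le_sum fun i hi => Nat.mul_le_mul_left _ (hs i hi)
  have h2 : ∑ i ∈ A, 2 ^ i ≤ ∑ i ∈ range (m + 1), 2 ^ i := by
    apply sum_le_sum_of_subset
    intro i hi
    rw [mem_range]
    have := hm i hi
    omega
  have h3 := LNLayer_geo (m + 1)
  have h4 : ∑ i ∈ A, 2 ^ i ≤ 2 ^ (m + 1) := by omega
  rw [← sum_mul] at h1
  refine h1.trans ((Nat.mul_le_mul_right _ h4).trans (le_of_eq ?_))
  rw [pow_succ, pow_succ, pow_add]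
  ring

private theorem LNLayer_core (s : ℕ → ℕ) (a I : ℕ) (ha : 1 ≤ a) (hsa : ∀ i, s i ≤ a)
    (hK : ∀ i, 2 ^ i * s i ≤ 4608 * a) (hB : 3 * 2 ^ 80 * a ≤ ∑ i ∈ range I, 2 ^ i * s i) :
    ∃ (Λ : Finset ℕ) (i : ℕ → ℕ),
      (∀ μ ∈ Λ, 80 ≤ μ ∧ 20 ≤ i μ ∧ 2 ^ μ ≤ s (i μ) ∧ s (i μ) < 2 ^ (μ + 1)) ∧
      (∀ μ ∈ Λ, ∀ ν ∈ Λ, μ < ν → μ + 40 ≤ ν) ∧
      2 ^ 74 * a ≤ ∑ μ ∈ Λ, 2 ^ (i μ + μ) := by
  classical
  obtain ⟨A, hA⟩ : ∃ A : Finset ℕ, A = (range I).filter (fun i => s i ≠ 0) := ⟨_, rfl⟩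
  obtain ⟨f, hf⟩ : ∃ f : ℕ → ℕ, ∀ i, f i = Nat.log 2 (s i) := ⟨_, fun _ => rfl⟩
  have hfl : ∀ i ∈ A, 2 ^ f i ≤ s i := by
    intro i hi
    rw [hA, mem_filter] at hi
    rw [hf]
    exact Nat.pow_log_le_self 2 hi.2
  have hfu : ∀ i, s i < 2 ^ (f i + 1) := by
    intro i
    rw [hf]
    exact Nat.lt_pow_succ_log_self (by norm_num) _
  obtain ⟨m, hm⟩ : ∃ m : ℕ → ℕ, ∀ μ, m μ = (A.filter (fun i => f i = μ)).sup id :=
    ⟨_, fun _ => rfl⟩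
  have hmle : ∀ μ, ∀ i ∈ A.filter (fun i => f i = μ), i ≤ m μ := by
    intro μ i hi
    rw [hm]
    exact le_sup (f := id) hi
  have hmm : ∀ μ ∈ A.image f, m μ ∈ A ∧ f (m μ) = μ := by
    intro μ hμ
    obtain ⟨i, hi, hiμ⟩ := mem_image.1 hμ
    have hne : (A.filter (fun i => f i = μ)).Nonempty := ⟨i, mem_filter.2 ⟨hi, hiμ⟩⟩
    obtain ⟨j, hj, hjs⟩ := exists_mem_eq_sup _ hne id
    rw [hm, hjs]
    exact mem_filter.1 hj
  obtain ⟨M, hM⟩ : ∃ M : Finset ℕ, M = A.image f := ⟨_, rfl⟩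
  rw [← hM] at hmm
  -- total weight
  have htot : ∑ i ∈ range I, 2 ^ i * s i ≤ 4 * ∑ μ ∈ M, 2 ^ (m μ + μ) := by
    have e1 : ∑ i ∈ range I, 2 ^ i * s i = ∑ i ∈ A, 2 ^ i * s i := by
      rw [hA, sum_filter]
      apply sum_congr rfl
      intro i _
      by_cases h : s i = 0
      · rw [if_neg (not_not.2 h), h, mul_zero]
      · rw [if_pos h]
    have e2 : ∑ i ∈ A, 2 ^ i * s i = ∑ μ ∈ M, ∑ i ∈ A.filter (fun i => f i = μ), 2 ^ i * s i :=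
      (sum_fiberwise_of_maps_to (fun i hi => by rw [hM]; exact mem_image_of_mem f hi) _).symm
    rw [e1, e2, mul_sum]
    apply sum_le_sum
    intro μ _
    apply LNLayer_inner s _ μ (m μ)
    · intro i hi
      have h1 := hfu i
      rw [(mem_filter.1 hi).2] at h1
      exact h1.le
    · exact hmle μ
  have hω : ∀ μ ∈ M, 2 ^ (m μ + μ) ≤ 4608 * a := by
    intro μ hμ
    obtain ⟨h1, h2⟩ := hmm μ hμ
    have h3 := hfl _ h1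
    rw [h2] at h3
    rw [pow_add]
    exact (Nat.mul_le_mul_left _ h3).trans (hK _)
  have hμa : ∀ μ ∈ M, 2 ^ μ ≤ a := by
    intro μ hμ
    obtain ⟨h1, h2⟩ := hmm μ hμ
    have h3 := hfl _ h1
    rw [h2] at h3
    exact h3.trans (hsa _)
  -- one residue class
  obtain ⟨ρ, hρ⟩ : ∃ ρ ∈ range 40, ∑ μ ∈ M, 2 ^ (m μ + μ) ≤
      40 * ∑ μ ∈ M.filter (fun μ => μ % 40 = ρ), 2 ^ (m μ + μ) := by
    by_contra hcon
    push Not at hcon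
    have e1 : ∑ ρ ∈ range 40, 40 * ∑ μ ∈ M.filter (fun μ => μ % 40 = ρ), 2 ^ (m μ + μ) <
        ∑ ρ ∈ range 40, ∑ μ ∈ M, 2 ^ (m μ + μ) :=
      sum_lt_sum_of_nonempty ⟨0, by simp⟩ hcon
    have e2 : ∑ ρ ∈ range 40, ∑ μ ∈ M.filter (fun μ => μ % 40 = ρ), 2 ^ (m μ + μ) =
        ∑ μ ∈ M, 2 ^ (m μ + μ) :=
      sum_fiberwise_of_maps_to (fun μ _ => mem_range.2 (Nat.mod_lt _ (by norm_num))) _
    rw [← mul_sum, e2, sum_const, card_range, smul_eq_mul] at e1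
    exact lt_irrefl _ e1
  obtain ⟨B, hBd⟩ : ∃ B : Finset ℕ, B = M.filter (fun μ => μ % 40 = ρ) := ⟨_, rfl⟩
  rw [← hBd] at hρ
  have hBM : ∀ μ ∈ B, μ ∈ M ∧ μ % 40 = ρ := by
    intro μ hμ
    rw [hBd] at hμ
    exact mem_filter.1 hμ
  obtain ⟨Λ, hΛ⟩ : ∃ Λ : Finset ℕ, Λ = B.filter (fun μ => 80 ≤ μ ∧ 20 ≤ m μ) := ⟨_, rfl⟩
  have hsmall : ∑ μ ∈ B.filter (fun μ => μ < 80), 2 ^ (m μ + μ) ≤ 9216 * a := by
    have e1 : (B.filter (fun μ => μ < 80)).card ≤ 2 := by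
      have e2 : B.filter (fun μ => μ < 80) ⊆ {ρ, ρ + 40} := by
        intro μ hμ
        obtain ⟨h1, h2⟩ := mem_filter.1 hμ
        have h3 := (hBM μ h1).2
        rw [mem_insert, mem_singleton]
        omega
      exact (card_le_card e2).trans card_le_two
    have e3 : ∑ μ ∈ B.filter (fun μ => μ < 80), 2 ^ (m μ + μ) ≤
        (B.filter (fun μ => μ < 80)).card • (4608 * a) :=
      sum_le_card_nsmul _ _ _ fun μ hμ => hω μ (hBM μ (mem_filter.1 hμ).1).1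
    rw [smul_eq_mul] at e3
    refine e3.trans ((Nat.mul_le_mul_right _ e1).trans ?_)
    omega
  have hlow : ∑ μ ∈ B.filter (fun μ => m μ < 20), 2 ^ (m μ + μ) ≤ 2 ^ 20 * a := by
    have e1 : ∑ μ ∈ B.filter (fun μ => m μ < 20), 2 ^ (m μ + μ) ≤
        ∑ μ ∈ B.filter (fun μ => m μ < 20), 2 ^ 19 * 2 ^ μ := by
      apply sum_le_sum
      intro μ hμ
      rw [pow_add]
      apply Nat.mul_le_mul_right
      have := (mem_filter.1 hμ).2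
      exact Nat.pow_le_pow_right (by norm_num) (by omega)
    have e2 : ∑ μ ∈ B.filter (fun μ => m μ < 20), 2 ^ μ ≤ 2 * a :=
      LNLayer_pow_le _ a ha fun μ hμ => hμa μ (hBM μ (mem_filter.1 hμ).1).1
    rw [← mul_sum] at e1
    refine e1.trans ((Nat.mul_le_mul_left _ e2).trans (le_of_eq ?_))
    ring
  have hsplit : ∑ μ ∈ B, 2 ^ (m μ + μ) ≤ ∑ μ ∈ Λ, 2 ^ (m μ + μ) +
      (∑ μ ∈ B.filter (fun μ => μ < 80), 2 ^ (m μ + μ) +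
        ∑ μ ∈ B.filter (fun μ => m μ < 20), 2 ^ (m μ + μ)) := by
    have e1 : B ⊆ Λ ∪ (B.filter (fun μ => μ < 80) ∪ B.filter (fun μ => m μ < 20)) := by
      intro μ hμ
      rw [hΛ, mem_union, mem_union, mem_filter, mem_filter, mem_filter]
      by_cases h1 : μ < 80
      · exact Or.inr (Or.inl ⟨hμ, h1⟩)
      · by_cases h2 : m μ < 20
        · exact Or.inr (Or.inr ⟨hμ, h2⟩)
        · exact Or.inl ⟨hμ, not_lt.1 h1, not_lt.1 h2⟩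
    have e2 : ∀ P Q : Finset ℕ, ∑ μ ∈ P ∪ Q, 2 ^ (m μ + μ) ≤
        ∑ μ ∈ P, 2 ^ (m μ + μ) + ∑ μ ∈ Q, 2 ^ (m μ + μ) := by
      intro P Q
      have := sum_union_inter (s₁ := P) (s₂ := Q) (f := fun μ => 2 ^ (m μ + μ))
      omega
    refine (sum_le_sum_of_subset e1).trans ((e2 _ _).trans ?_)
    exact Nat.add_le_add_left (e2 _ _) _
  refine ⟨Λ, m, ?_, ?_, ?_⟩
  · intro μ hμ
    rw [hΛ, mem_filter] at hμ
    obtain ⟨h1, h2⟩ := hmm μ (hBM μ hμ.1).1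
    have h3 := hfl _ h1
    have h4 := hfu (m μ)
    rw [h2] at h3 h4
    exact ⟨hμ.2.1, hμ.2.2, h3, h4⟩
  · intro μ hμ ν hν hlt
    rw [hΛ, mem_filter] at hμ hν
    have h1 := (hBM μ hμ.1).2
    have h2 := (hBM ν hν.1).2
    omega
  · have h1 := hρ.2
    have h2 := hB.trans htot
    norm_num at h2 hlow ⊢
    omega

theorem exists_scales {V : Type*} [DecidableEq V] (X : Finset V) (w : V → ℕ) (a : ℕ)
    (ha : 1 ≤ a) (hXa : X.card ≤ a)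
    (hK : ∀ t, t * (X.filter (fun v => t ≤ w v)).card ≤ 4608 * a)
    (hB : 3 * 2 ^ 80 * a ≤ ∑ x ∈ X, w x) :
    ∃ (Λ : Finset ℕ) (i : ℕ → ℕ),
      (∀ μ ∈ Λ, 80 ≤ μ ∧ 20 ≤ i μ ∧ 2 ^ μ ≤ (X.filter (fun v => 2 ^ i μ ≤ w v)).card ∧
        (X.filter (fun v => 2 ^ i μ ≤ w v)).card < 2 ^ (μ + 1)) ∧
      (∀ μ ∈ Λ, ∀ ν ∈ Λ, μ < ν → μ + 40 ≤ ν) ∧
      2 ^ 74 * a ≤ ∑ μ ∈ Λ, 2 ^ (i μ + μ) := by
  obtain ⟨s, hs⟩ : ∃ s : ℕ → ℕ, ∀ i, s i = (X.filter (fun v => 2 ^ i ≤ w v)).card :=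
    ⟨_, fun _ => rfl⟩
  obtain ⟨I, hI⟩ : ∃ I : ℕ, I = ∑ x ∈ X, w x := ⟨_, rfl⟩
  have hlt : ∀ x ∈ X, w x < 2 ^ I := by
    intro x hx
    have h1 : w x ≤ I := by
      rw [hI]
      exact single_le_sum (fun _ _ => Nat.zero_le _) hx
    exact lt_of_le_of_lt h1 Nat.lt_two_pow_self
  have h1 : ∑ x ∈ X, w x ≤ ∑ i ∈ range I, 2 ^ i * s i := by
    have e1 : ∑ x ∈ X, w x ≤ ∑ x ∈ X, ∑ i ∈ range I, (if 2 ^ i ≤ w x then 2 ^ i else 0) :=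
      sum_le_sum fun x hx => LNLayer_bits _ _ (hlt x hx)
    rw [sum_comm] at e1
    refine e1.trans (le_of_eq ?_)
    apply sum_congr rfl
    intro i _
    rw [← sum_filter, sum_const, smul_eq_mul, hs, mul_comm]
  obtain ⟨Λ, i, h2, h3, h4⟩ := LNLayer_core s a I ha
    (fun i => by rw [hs]; exact (card_le_card (filter_subset _ _)).trans hXa)
    (fun i => by rw [hs]; exact hK (2 ^ i)) (hB.trans h1)
  refine ⟨Λ, i, ?_, h3, h4⟩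
  intro μ hμ
  have h5 := h2 μ hμ
  rw [hs] at h5
  exact h5

end Pool.Agent.H60.LN
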