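import Mathlib

/-!
# LNMates: pairing the siblings (pure)

Proof.  Strong induction on the cardinality of `X = E.filter (p a ≠ r)`, for all `E`.  If `X = ∅` take `mt = id`, `H = ∅`.  Otherwise let `a ∈ X`;
the fibre `E.filter (p v = p a)` is even and contains `a`, so it contains some `b ≠ a`.  `E' = (E.erase a).erase b`: the fibre over `p a`
loses two elements, the others do not change.  Let `mt'`, `H'` be given by the induction hypothesis for `E'`;
`mt = update (update mt' a b) b a`, `H = insert a (H'.erase b)`.  For `x ∈ E'` with `p x ≠ r`: `mt' x ∈ E'`, so `x` and `mt' x` are different from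
`a`, `b`, and membership in `H` and `H'` is the same for them.
-/

set_option autoImplicit false

open Finset

namespace Pool.Agent.H60.LN

private theorem LNMates_aux {V : Type*} [DecidableEq V] (p : V → V) (r : V) :
    ∀ (n : ℕ) (E : Finset V), (E.filter (fun v => p v ≠ r)).card = n →
    (∀ w, w ≠ r → Even (E.filter (fun v => p v = w)).card) →
    ∃ (mt : V → V) (H : Finset V), ∀ a ∈ E, p a ≠ r →
      mt a ∈ E ∧ p (mt a) = p a ∧ mt (mt a) = a ∧ (mt a ∈ H ↔ a ∉ H) := by
  intro n
  induction n using Nat.strong_induction_on with
  | _ n ih =>
    intro E hn hev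
    by_cases hX : (E.filter (fun v => p v ≠ r)) = ∅
    · refine ⟨id, ∅, ?_⟩
      intro a ha hpa
      have h1 : a ∈ E.filter (fun v => p v ≠ r) := Finset.mem_filter.2 ⟨ha, hpa⟩
      rw [hX] at h1
      exact absurd h1 (Finset.notMem_empty a)
    · obtain ⟨a, haX⟩ := Finset.nonempty_iff_ne_empty.2 hX
      obtain ⟨ha, hpa⟩ := Finset.mem_filter.1 haX
      have h1 := hev (p a) hpa
      have h2 : a ∈ E.filter (fun v => p v = p a) := Finset.mem_filter.2 ⟨ha, rfl⟩
      have h3 : ∃ b ∈ E.filter (fun v => p v = p a), b ≠ a := by
        by_contra hcon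
        push Not at hcon
        have h4 : E.filter (fun v => p v = p a) = {a} := by
          apply Finset.eq_singleton_iff_unique_mem.2
          exact ⟨h2, hcon⟩
        rw [h4, Finset.card_singleton] at h1
        exact absurd h1 (by decide)
      obtain ⟨b, hbF, hba⟩ := h3
      obtain ⟨hb, hpb⟩ := Finset.mem_filter.1 hbF
      have hbE : b ∈ E.erase a := Finset.mem_erase.2 ⟨hba, hb⟩
      have hE' : ∀ x, x ∈ (E.erase a).erase b ↔ x ≠ b ∧ x ≠ a ∧ x ∈ E := by
        intro x
        rw [Finset.mem_erase, Finset.mem_erase]
      have h5 : (((E.erase a).erase b).filter (fun v => p v ≠ r)).card < n := by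
        rw [← hn]
        apply Finset.card_lt_card
        rw [Finset.ssubset_iff_of_subset]
        · refine ⟨a, haX, ?_⟩
          intro hc
          exact ((hE' a).1 (Finset.mem_filter.1 hc).1).2.1 rfl
        · intro x hx
          obtain ⟨hx1, hx2⟩ := Finset.mem_filter.1 hx
          exact Finset.mem_filter.2 ⟨((hE' x).1 hx1).2.2, hx2⟩
      have h6 : ∀ w, w ≠ r → Even (((E.erase a).erase b).filter (fun v => p v = w)).card := by
        intro w hw
        by_cases hwa : w = p a
        · subst hwa
          have h7 : ((E.erase a).erase b).filter (fun v => p v = p a) =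
              ((E.filter (fun v => p v = p a)).erase a).erase b := by
            ext x
            simp only [Finset.mem_filter, Finset.mem_erase]
            tauto
          have h8 : b ∈ (E.filter (fun v => p v = p a)).erase a := Finset.mem_erase.2 ⟨hba, hbF⟩
          rw [h7, Finset.card_erase_of_mem h8, Finset.card_erase_of_mem h2]
          have h9 : 2 ≤ (E.filter (fun v => p v = p a)).card := by
            have h10 := Finset.card_erase_of_mem h2
            have h11 : 1 ≤ ((E.filter (fun v => p v = p a)).erase a).card := Finset.card_pos.2 ⟨b, h8⟩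
            omega
          obtain ⟨m, hm⟩ := h1
          exact ⟨m - 1, by omega⟩
        · have h7 : ((E.erase a).erase b).filter (fun v => p v = w) = E.filter (fun v => p v = w) := by
            ext x
            simp only [Finset.mem_filter, Finset.mem_erase]
            constructor
            · rintro ⟨⟨_, _, h⟩, h'⟩
              exact ⟨h, h'⟩
            · rintro ⟨h, h'⟩
              refine ⟨⟨?_, ?_, h⟩, h'⟩
              · rintro rfl
                exact hwa (h'.symm.trans hpb)
              · rintro rfl
                exact hwa h'.symm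
          rw [h7]
          exact hev w hw
      obtain ⟨mt, H, hmt⟩ := ih _ h5 ((E.erase a).erase b) rfl h6
      refine ⟨Function.update (Function.update mt a b) b a, insert a (H.erase b), ?_⟩
      have hmb : Function.update (Function.update mt a b) b a b = a := Function.update_self _ _ _
      have hma : Function.update (Function.update mt a b) b a a = b := by
        rw [Function.update_of_ne hba.symm, Function.update_self]
      have hmx : ∀ x, x ≠ a → x ≠ b → Function.update (Function.update mt a b) b a x = mt x := by
        intro x hxa hxb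
        rw [Function.update_of_ne hxb, Function.update_of_ne hxa]
      have hHa : a ∈ insert a (H.erase b) := Finset.mem_insert_self _ _
      have hHb : b ∉ insert a (H.erase b) := by
        rw [Finset.mem_insert, Finset.mem_erase]
        rintro (h | h)
        · exact hba h
        · exact h.1 rfl
      have hHx : ∀ x, x ≠ a → x ≠ b → (x ∈ insert a (H.erase b) ↔ x ∈ H) := by
        intro x hxa hxb
        rw [Finset.mem_insert, Finset.mem_erase]
        tauto
      intro x hx hpx
      by_cases hxa : x = a
      · subst hxa
        rw [hma, hmb]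
        exact ⟨hb, hpb, rfl, by tauto⟩
      · by_cases hxb : x = b
        · subst hxb
          rw [hmb, hma]
          exact ⟨ha, hpb.symm, rfl, by tauto⟩
        · rw [hmx x hxa hxb]
          obtain ⟨h7, h8, h9, h10⟩ := hmt x ((hE' x).2 ⟨hxb, hxa, hx⟩) hpx
          obtain ⟨h11, h12, h13⟩ := (hE' _).1 h7
          rw [hmx _ h12 h11, hHx _ h12 h11, hHx _ hxa hxb]
          exact ⟨h13, h8, h9, h10⟩

theorem exists_mates {V : Type*} [DecidableEq V] (p : V → V) (r : V) (E : Finset V)
    (hev : ∀ w, w ≠ r → Even (E.filter (fun v => p v = w)).card) :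
    ∃ (mt : V → V) (H : Finset V), ∀ a ∈ E, p a ≠ r →
      mt a ∈ E ∧ p (mt a) = p a ∧ mt (mt a) = a ∧ (mt a ∈ H ↔ a ∉ H) :=
  LNMates_aux p r _ E rfl hev

end Pool.Agent.H60.LN
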