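import Mathlib
import Pool.Agent.H60.LN.Defs

/-!
# S-case: definitions

`lev v` is the level of the vertex `v` (`0`: none); the labels in `T ℓ` are reserved for the vertices
of level `ℓ`.
-/

set_option autoImplicit false

open Finset

namespace Pool.Agent.H60.LN

open Pool.Agent.H57.SS Pool.Agent.H60.FN

variable {V J : Type*} [DecidableEq V] [AddCommGroup J] [DecidableEq J] [Fintype J]

/-- The state of the labelling process in the S-case. -/
structure SSt (D : Lv J) (p : V → V) (r : V) (lev : V → ℕ) (T : ℕ → Finset J) (E : Finset V)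
    (g : V → J) : Prop where
  lab : Lab p r E g
  pure : ∀ v ∈ E, g v ∈ D.Z D.L → v = r ∨ (1 ≤ lev v ∧ g v ∈ T (lev v))
  cap : D.CapOK (E.image g)

/-- Level `ℓ` is either nearly complete, or it got its share of the vertices. -/
def Prog (D : Lv J) (lev : V → ℕ) (T : ℕ → Finset J) (ℓ : ℕ) (E : Finset V) (g : V → J) : Prop :=
  2 ^ 20 * (T ℓ \ E.image g).card < (D.Z ℓ).card ∨
    (E.filter (fun v => lev v = ℓ)).card ≤ 2 * (T ℓ ∩ E.image g).card
      + (E.filter (fun v => 1 ≤ lev v ∧ lev v < ℓ)).card

end Pool.Agent.H60.LN
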