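import Mathlib
import Pool.Agent.H60.LN.SDefs
import Pool.Agent.H60.LN.PermAvoid
import Pool.Agent.H60.LN.FillP
import Pool.Agent.H60.LN.Parts
import Pool.Agent.H60.LN.Blk

/-!
# LNSFill: filling the holes in the S-case

Notation: `U = E.image g`, `Y = univ \ U`, `Z = D.Z`, `L = D.L`, `lv = D.reg`, `P ℓ = T ℓ ∩ U` for `1 <= ℓ <= L`.
`D.cst y = tr y (Z (reg y))`.
(1) Parts outside `Z L`: `y ∈ Y`, `y ∉ Z L`, `ℓ = reg y`, `C = Y ∩ cst y`.  `C.card >= 15/16 * (Z ℓ).card` by cap (`card_tr`).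
`Fb = Z ℓ \ P ℓ ⊆ Z (ℓ - 1) ∪ (T ℓ \ U) ∪ R0`, with `R0` only for `ℓ = L`: `Fb.card <= (2^-40 + 2^-20 + 2^-4) * (Z ℓ).card` (for `ℓ = 1`:
`(Z 0).card = 1`, `big`).  So `4 * Fb.card <= C.card`, `256 <= C.card`: `exists_perm_avoid` (`y ↦ a + y` is injective).
For `x, π x ∈ C` we have `x + π x ∈ Z ℓ`, and it is not in `Fb`, so in `P ℓ`.
(2) The part `C = Z L \ U` (`reg = L` there by `reg_L`; `cst y = Z L` for `y ∈ Z L`).  Let `R1 = R0 \ Z (L - 1)`.
`R1 ⊆ C`: an element of `U ∩ Z L` is `g r = 0` or in `T ℓ`, `1 <= ℓ <= L`, by `pure`, and `T L` is disjoint from `R0`, the others are in `Z (L - 1)`.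
`C \ R1 ⊆ ⋃ ℓ, (T ℓ \ U)` because `Z L \ {0}` is the union of the `Z ℓ \ Z (ℓ - 1)`: `(C \ R1).card <= 2^-20 * ∑ (Z ℓ).card <= 2^-19 * (Z L).card`.
`Fb = Z L \ P L ⊆ Z (L - 1) ∪ (T L \ U) ∪ R1`.  For `a ∈ C` (so `a ≠ 0`, since `0 = g r ∈ U`): the `y ∈ C` with `a + y ∈ Fb` are at most
`(C \ R1).card + (R0.filter (· + a ∈ R0)).card + (Z (L - 1)).card + (T L \ U).card <= (2^-19 + 2^-40 + 2^-20) * (Z L).card + R0.card / 8`
`<= R0.card / 4 - 1`, using `(Z L).card <= 2 ^ 12 * R0.card`; and `C.card >= R1.card >= R0.card - 2^-40 * (Z L).card`.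
So `4 * (...) <= C.card`; `C.card >= 256`.  `exists_perm_avoid`.
`perm_of_parts` with `Z`, `P`, `lv` (`hinv`: `reg_inv`) gives `π`.
(3) `lab_fill_perm`.  `hdiff`: `y + π y ∈ P (lv y) ⊆ U`.  `hcap`: let `v ∈ E`.  If there is `y ∈ Y` with `y + π y = g v`, then `g v ∈ T (reg y)`, in
particular `g v ∈ Z L`, `g v ≠ 0` (as `0 ∈ Z (ℓ - 1)`), so `v ≠ r` and by `pure` `g v ∈ T (lev v)`, `1 <= lev v <= L`.  The `T ℓ` are pairwise
disjoint, so `reg y = lev v` for all such `y`.  The last statement of `perm_of_parts` with `ℓ = lev v`, `X = univ.filter (reg · = ℓ)` (invariant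
by `reg_inv`), `N = N ℓ` bounds the number by `16 * N (lev v)`.
-/

set_option autoImplicit false

open Finset

namespace Pool.Agent.H60.LN

open Pool.Agent.H57.SS Pool.Agent.H60.FN

private theorem LNSFill_cnt {J : Type*} [AddCommGroup J] [DecidableEq J] (C Fb : Finset J) (a : J) :
    (C.filter (fun y => a + y ∈ Fb)).card ≤ Fb.card := by
  apply Finset.card_le_card_of_injOn (fun y => a + y)
  · intro y hy
    exact (mem_filter.1 hy).2
  · intro y _ y' _ h
    exact add_left_cancel h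

private theorem LNSFill_prev {J : Type*} [AddCommGroup J] [DecidableEq J] [Fintype J] (D : Lv J) :
    ∀ ℓ, 1 ≤ ℓ → ℓ ≤ D.L → 2 ^ 40 * (D.Z (ℓ - 1)).card ≤ (D.Z ℓ).card := by
  intro ℓ h1 h2
  rcases Nat.eq_or_lt_of_le h1 with h | h
  · subst h
    have h3 := D.big 1 le_rfl h2
    rw [show 1 - 1 = 0 from rfl, D.Z0, card_singleton, mul_one]
    exact h3
  · have h3 := D.gap (ℓ - 1) (by omega) (by omega)
    rwa [Nat.sub_add_cancel h1] at h3

private theorem LNSFill_sum {J : Type*} [AddCommGroup J] [DecidableEq J] [Fintype J] (D : Lv J) :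
    ∀ k, k ≤ D.L → ∑ ℓ ∈ Icc 1 k, (D.Z ℓ).card ≤ 2 * (D.Z k).card := by
  intro k
  induction k with
  | zero =>
    intro _
    simp
  | succ k ih =>
    intro hk
    have h1 := ih (by omega)
    have h2 := LNSFill_prev D (k + 1) (by omega) hk
    rw [Nat.add_sub_cancel] at h2
    rw [Finset.sum_Icc_succ_top (by omega)]
    have h3 : 2 * (D.Z k).card ≤ 2 ^ 40 * (D.Z k).card := Nat.mul_le_mul_right _ (by norm_num)
    omega

private theorem LNSFill_level {J : Type*} [AddCommGroup J] [DecidableEq J] [Fintype J] (D : Lv J)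
    (z : J) (hz : z ∈ D.Z D.L) (h0 : z ≠ 0) :
    ∃ ℓ, 1 ≤ ℓ ∧ ℓ ≤ D.L ∧ z ∈ D.Z ℓ ∧ z ∉ D.Z (ℓ - 1) := by
  have hex : ∃ ℓ, z ∈ D.Z ℓ := ⟨D.L, hz⟩
  have h1 := Nat.find_spec hex
  have h2 : Nat.find hex ≤ D.L := Nat.find_le hz
  have h3 : 1 ≤ Nat.find hex := by
    by_contra hc
    have h4 : Nat.find hex = 0 := by omega
    rw [h4, D.Z0, mem_singleton] at h1
    exact h0 h1
  exact ⟨Nat.find hex, h3, h2, h1, Nat.find_min hex (by omega)⟩

theorem S_fill {V J : Type*} [DecidableEq V] [AddCommGroup J] [DecidableEq J] [Fintype J]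
    (D : Lv J) {p : V → V} {r : V} {lev : V → ℕ} {T : ℕ → Finset J} (hlevL : ∀ v, lev v ≤ D.L)
    {R0 : Finset J} (hR1 : ∀ α : J, α ≠ 0 → 8 * (R0.filter (fun x => x + α ∈ R0)).card ≤ R0.card)
    (hR2 : (D.Z D.L).card ≤ 2 ^ 12 * R0.card) (hR3 : 2 ^ 4 * R0.card ≤ (D.Z D.L).card)
    (hR4 : R0 ⊆ D.Z D.L)
    (hT : ∀ ℓ, 1 ≤ ℓ → ℓ < D.L → T ℓ = D.Z ℓ \ D.Z (ℓ - 1))
    (hTL : T D.L = (D.Z D.L \ D.Z (D.L - 1)) \ R0)
    {E Lf : Finset V} (hr : r ∈ E) (hpE : ∀ v ∈ E, p v ∈ E) (hELf : Disjoint E Lf) {g : V → J}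
    (hst : SSt D p r lev T E g)
    (hmiss : ∀ ℓ, 1 ≤ ℓ → ℓ ≤ D.L → 2 ^ 20 * (T ℓ \ E.image g).card < (D.Z ℓ).card)
    (N : ℕ → ℕ) (hN : ∀ ℓ, 1 ≤ ℓ → ℓ ≤ D.L →
      (univ.filter (fun x => D.reg x = ℓ)).card ≤ N ℓ * (D.Z ℓ).card)
    (hcapa : ∀ v ∈ E, 1 ≤ lev v → 16 * N (lev v) ≤ (Lf.filter (fun l => p l = v)).card) :
    ∃ E2 : Finset V, E ⊆ E2 ∧ E2 ⊆ E ∪ Lf ∧ E2.card = Fintype.card J ∧ PLab p r E2 J := by
  have hprev := LNSFill_prev D
  have hL1 := D.hL
  have hTs : ∀ ℓ, 1 ≤ ℓ → ℓ ≤ D.L → ∀ z ∈ T ℓ, z ∈ D.Z ℓ ∧ z ∉ D.Z (ℓ - 1) := by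
    intro ℓ h1 h2 z hz
    rcases Nat.lt_or_eq_of_le h2 with h | h
    · rw [hT ℓ h1 h, mem_sdiff] at hz
      exact hz
    · subst h
      rw [hTL, mem_sdiff, mem_sdiff] at hz
      exact hz.1
  have hTd : ∀ ℓ, 1 ≤ ℓ → ℓ ≤ D.L → ∀ z ∈ D.Z ℓ, z ∉ D.Z (ℓ - 1) →
      z ∈ T ℓ ∨ (ℓ = D.L ∧ z ∈ R0) := by
    intro ℓ h1 h2 z hz hz'
    rcases Nat.lt_or_eq_of_le h2 with h | h
    · left
      rw [hT ℓ h1 h, mem_sdiff]
      exact ⟨hz, hz'⟩
    · by_cases hR : z ∈ R0
      · exact Or.inr ⟨h, hR⟩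
      · left
        subst h
        rw [hTL, mem_sdiff, mem_sdiff]
        exact ⟨⟨hz, hz'⟩, hR⟩
  have hTdis : ∀ i j, 1 ≤ i → i ≤ D.L → 1 ≤ j → j ≤ D.L → ∀ z, z ∈ T i → z ∈ T j → i = j := by
    have key : ∀ i j, 1 ≤ i → i ≤ D.L → 1 ≤ j → j ≤ D.L → ∀ z, z ∈ T i → z ∈ T j → ¬ i < j := by
      intro i j hi hi' hj hj' z hz hz' hlt
      exact (hTs j hj hj' z hz').2 (D.monotone (by omega : i ≤ j - 1) (hTs i hi hi' z hz).1)
    intro i j hi hi' hj hj' z hz hz'
    have h1 := key i j hi hi' hj hj' z hz hz'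
    have h2 := key j i hj hj' hi hi' z hz' hz
    omega
  obtain ⟨U, hU⟩ : ∃ U : Finset J, U = E.image g := ⟨_, rfl⟩
  obtain ⟨Y, hY⟩ : ∃ Y : Finset J, Y = univ \ U := ⟨_, rfl⟩
  have hYm : ∀ y, y ∈ Y ↔ y ∉ U := by
    intro y
    rw [hY, mem_sdiff]
    exact ⟨fun h => h.2, fun h => ⟨mem_univ _, h⟩⟩
  have h0U : (0 : J) ∈ U := by
    rw [hU, mem_image]
    exact ⟨r, hr, hst.lab.root⟩
  have hmiss' : ∀ ℓ, 1 ≤ ℓ → ℓ ≤ D.L → 2 ^ 20 * (T ℓ \ U).card < (D.Z ℓ).card := by
    intro ℓ h1 h2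
    rw [hU]
    exact hmiss ℓ h1 h2
  have hcapU : ∀ x, x ∉ D.Z D.L → 16 * (U ∩ D.cst x).card ≤ (D.cst x).card := by
    rw [hU]
    exact hst.cap
  have hZL : 2 ^ 40 ≤ (D.Z D.L).card := by
    refine le_trans ?_ (D.big D.L hL1 le_rfl)
    exact Nat.pow_le_pow_right (by norm_num) (by omega)
  have hZl : ∀ ℓ, 1 ≤ ℓ → ℓ ≤ D.L → 2 ^ 40 ≤ (D.Z ℓ).card := by
    intro ℓ h1 h2
    refine le_trans ?_ (D.big ℓ h1 h2)
    exact Nat.pow_le_pow_right (by norm_num) (by omega)
  have hdd : ∀ y x w : J, (y + x) + (y + w) = x + w := by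
    intro y x w
    have : (y + x) + (y + w) = (y + y) + (x + w) := by abel
    rw [this, D.dbl, zero_add]
  -- the parts
  have hpart : ∀ y ∈ Y, ∃ π : J → J,
      (∀ x ∈ Y ∩ tr y (D.Z (D.reg y)), π x ∈ Y ∩ tr y (D.Z (D.reg y))) ∧
      Set.InjOn π (Y ∩ tr y (D.Z (D.reg y)) : Finset J) ∧
      (∀ x ∈ Y ∩ tr y (D.Z (D.reg y)), x + π x ∈ T (D.reg y) ∩ U) ∧
      ∀ e : J, ((Y ∩ tr y (D.Z (D.reg y))).filter (fun x => x + π x = e)).card ≤ 16 := by
    intro y hy
    have hr1 := D.reg_one y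
    have hr2 := D.reg_le y
    obtain ⟨C, hC⟩ : ∃ C : Finset J, C = Y ∩ tr y (D.Z (D.reg y)) := ⟨_, rfl⟩
    obtain ⟨Fb, hFb⟩ : ∃ Fb : Finset J, Fb = D.Z (D.reg y) \ (T (D.reg y) ∩ U) := ⟨_, rfl⟩
    have hmain : 256 ≤ C.card ∧ ∀ a ∈ C, 4 * (C.filter (fun x => a + x ∈ Fb)).card ≤ C.card := by
      by_cases hyL : y ∈ D.Z D.L
      · -- the part in `Z L`
        have hreg := D.reg_L y hyL
        rw [hreg] at hC hFb
        obtain ⟨R1, hR1d⟩ : ∃ R1 : Finset J, R1 = R0 \ D.Z (D.L - 1) := ⟨_, rfl⟩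
        have hCm : ∀ x, x ∈ C ↔ x ∉ U ∧ x ∈ D.Z D.L := by
          intro x
          rw [hC, mem_inter, hYm, mem_tr]
          constructor
          · rintro ⟨h1, h2⟩
            refine ⟨h1, ?_⟩
            have h3 := D.add _ _ hyL _ h2
            rwa [← add_assoc, D.dbl, zero_add] at h3
          · rintro ⟨h1, h2⟩
            exact ⟨h1, D.add _ _ hyL _ h2⟩
        have hR1C : R1 ⊆ C := by
          intro x hx
          rw [hR1d, mem_sdiff] at hx
          rw [hCm]
          refine ⟨?_, hR4 hx.1⟩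
          intro hxU
          rw [hU, mem_image] at hxU
          obtain ⟨v, hv, hgv⟩ := hxU
          rcases hst.pure v hv (by rw [hgv]; exact hR4 hx.1) with h | ⟨h1, h2⟩
          · apply hx.2
            rw [← hgv, h, hst.lab.root]
            exact D.zero _
          · rw [hgv] at h2
            rcases Nat.lt_or_eq_of_le (hlevL v) with h3 | h3
            · exact hx.2 (D.monotone (by omega : lev v ≤ D.L - 1) (hTs _ h1 (hlevL v) x h2).1)
            · rw [h3, hTL, mem_sdiff] at h2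
              exact h2.2 hx.1
        have hCR : C \ R1 ⊆ (Icc 1 D.L).biUnion (fun ℓ => T ℓ \ U) := by
          intro x hx
          rw [mem_sdiff, hCm] at hx
          have hx0 : x ≠ 0 := by
            rintro rfl
            exact hx.1.1 h0U
          obtain ⟨ℓ, h1, h2, h3, h4⟩ := LNSFill_level D x hx.1.2 hx0
          rw [mem_biUnion]
          refine ⟨ℓ, mem_Icc.2 ⟨h1, h2⟩, ?_⟩
          rw [mem_sdiff]
          refine ⟨?_, hx.1.1⟩
          rcases hTd ℓ h1 h2 x h3 h4 with h | ⟨h5, h6⟩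
          · exact h
          · exfalso
            apply hx.2
            rw [hR1d, mem_sdiff]
            subst h5
            exact ⟨h6, h4⟩
        have hCRc : 2 ^ 20 * (C \ R1).card ≤ 2 * (D.Z D.L).card := by
          calc 2 ^ 20 * (C \ R1).card ≤ 2 ^ 20 * ∑ ℓ ∈ Icc 1 D.L, (T ℓ \ U).card :=
                Nat.mul_le_mul_left _ ((card_le_card hCR).trans card_biUnion_le)
            _ = ∑ ℓ ∈ Icc 1 D.L, 2 ^ 20 * (T ℓ \ U).card := by rw [mul_sum]
            _ ≤ ∑ ℓ ∈ Icc 1 D.L, (D.Z ℓ).card := sum_le_sum fun ℓ hℓ =>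
                (hmiss' ℓ (mem_Icc.1 hℓ).1 (mem_Icc.1 hℓ).2).le
            _ ≤ 2 * (D.Z D.L).card := LNSFill_sum D D.L le_rfl
        have hR1c : R0.card ≤ R1.card + (D.Z (D.L - 1)).card := by
          have h1 : R0 ⊆ R1 ∪ D.Z (D.L - 1) := by
            intro x hx
            by_cases h : x ∈ D.Z (D.L - 1)
            · exact mem_union_right _ h
            · exact mem_union_left _ (by rw [hR1d, mem_sdiff]; exact ⟨hx, h⟩)
          exact (card_le_card h1).trans (card_union_le _ _)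
        have hRC := card_le_card hR1C
        have hpL := hprev D.L hL1 le_rfl
        have hmL := hmiss' D.L hL1 le_rfl
        refine ⟨by omega, ?_⟩
        intro a ha
        have ha0 : a ≠ 0 := by
          rintro rfl
          exact ((hCm 0).1 ha).1 h0U
        have hsub : C.filter (fun x => a + x ∈ Fb) ⊆ ((C \ R1) ∪
            C.filter (fun x => a + x ∈ D.Z (D.L - 1))) ∪ (C.filter (fun x => a + x ∈ T D.L \ U) ∪
              R0.filter (fun x => x + a ∈ R0)) := by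
          intro x hx
          rw [mem_filter] at hx
          by_cases hx1 : x ∈ R1
          · have hxR : x ∈ R0 := by
              rw [hR1d, mem_sdiff] at hx1
              exact hx1.1
            by_cases h1 : a + x ∈ D.Z (D.L - 1)
            · exact mem_union_left _ (mem_union_right _ (mem_filter.2 ⟨hx.1, h1⟩))
            · have h2 := hx.2
              rw [hFb, mem_sdiff, mem_inter] at h2
              rcases hTd D.L hL1 le_rfl _ h2.1 h1 with h3 | ⟨_, h3⟩
              · refine mem_union_right _ (mem_union_left _ (mem_filter.2 ⟨hx.1, ?_⟩))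
                rw [mem_sdiff]
                exact ⟨h3, fun h4 => h2.2 ⟨h3, h4⟩⟩
              · refine mem_union_right _ (mem_union_right _ (mem_filter.2 ⟨hxR, ?_⟩))
                rwa [add_comm]
          · exact mem_union_left _ (mem_union_left _ (mem_sdiff.2 ⟨hx.1, hx1⟩))
        have hc1 := card_le_card hsub
        have hc2 := card_union_le ((C \ R1) ∪ C.filter (fun x => a + x ∈ D.Z (D.L - 1)))
          (C.filter (fun x => a + x ∈ T D.L \ U) ∪ R0.filter (fun x => x + a ∈ R0))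
        have hc3 := card_union_le (C \ R1) (C.filter (fun x => a + x ∈ D.Z (D.L - 1)))
        have hc4 := card_union_le (C.filter (fun x => a + x ∈ T D.L \ U))
          (R0.filter (fun x => x + a ∈ R0))
        have hc5 := LNSFill_cnt C (D.Z (D.L - 1)) a
        have hc6 := LNSFill_cnt C (T D.L \ U) a
        have hc7 := hR1 a ha0
        omega
      · -- a part outside `Z L`
        have hcst : D.cst y = tr y (D.Z (D.reg y)) := rfl
        have h1 := hcapU y hyL
        rw [hcst, D.card_tr] at h1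
        have h2 : (D.Z (D.reg y)).card ≤ C.card + (U ∩ tr y (D.Z (D.reg y))).card := by
          rw [← D.card_tr y (D.Z (D.reg y))]
          have h3 : tr y (D.Z (D.reg y)) ⊆ C ∪ (U ∩ tr y (D.Z (D.reg y))) := by
            intro x hx
            by_cases hxU : x ∈ U
            · exact mem_union_right _ (mem_inter.2 ⟨hxU, hx⟩)
            · exact mem_union_left _ (by rw [hC, mem_inter, hYm]; exact ⟨hxU, hx⟩)
          exact (card_le_card h3).trans (card_union_le _ _)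
        have hp := hprev _ hr1 hr2
        have hm := hmiss' _ hr1 hr2
        have hz := hZl _ hr1 hr2
        have hFbc : 8 * Fb.card ≤ 8 * (D.Z (D.reg y - 1)).card + 8 * (T (D.reg y) \ U).card +
            (D.Z (D.reg y)).card := by
          by_cases hL : D.reg y = D.L
          · have h3 : Fb ⊆ (D.Z (D.reg y - 1) ∪ (T (D.reg y) \ U)) ∪ R0 := by
              intro x hx
              rw [hFb, mem_sdiff, mem_inter] at hx
              by_cases h4 : x ∈ D.Z (D.reg y - 1)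
              · exact mem_union_left _ (mem_union_left _ h4)
              · rcases hTd _ hr1 hr2 x hx.1 h4 with h5 | ⟨_, h5⟩
                · refine mem_union_left _ (mem_union_right _ (mem_sdiff.2 ⟨h5, fun h6 => ?_⟩))
                  exact hx.2 ⟨h5, h6⟩
                · exact mem_union_right _ h5
            have h4 := card_le_card h3
            have h5 := card_union_le (D.Z (D.reg y - 1) ∪ (T (D.reg y) \ U)) R0
            have h6 := card_union_le (D.Z (D.reg y - 1)) (T (D.reg y) \ U)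
            have h7 : 2 ^ 4 * R0.card ≤ (D.Z (D.reg y)).card := by
              rw [hL]
              exact hR3
            omega
          · have h3 : Fb ⊆ D.Z (D.reg y - 1) ∪ (T (D.reg y) \ U) := by
              intro x hx
              rw [hFb, mem_sdiff, mem_inter] at hx
              by_cases h4 : x ∈ D.Z (D.reg y - 1)
              · exact mem_union_left _ h4
              · rcases hTd _ hr1 hr2 x hx.1 h4 with h5 | ⟨h5, _⟩
                · refine mem_union_right _ (mem_sdiff.2 ⟨h5, fun h6 => ?_⟩)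
                  exact hx.2 ⟨h5, h6⟩
                · exact absurd h5 hL
            have h4 := card_le_card h3
            have h6 := card_union_le (D.Z (D.reg y - 1)) (T (D.reg y) \ U)
            omega
        refine ⟨by omega, ?_⟩
        intro a _
        have h3 := LNSFill_cnt C Fb a
        omega
    obtain ⟨π, hπ1, hπ2, hπ3, hπ4⟩ := exists_perm_avoid D.dbl C Fb hmain.1 hmain.2
    rw [← hC]
    refine ⟨π, hπ1, hπ2, ?_, hπ4⟩
    intro x hx
    have hx1 := hx
    have hx2 := hπ1 x hx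
    rw [hC, mem_inter, mem_tr] at hx1 hx2
    have h3 := D.add _ _ hx1.2 _ hx2.2
    rw [hdd] at h3
    by_contra hcon
    apply hπ3 x hx
    rw [hFb, mem_sdiff]
    exact ⟨h3, hcon⟩
  obtain ⟨π, hπ1, hπ2, hπ3, hπ4⟩ := perm_of_parts D.dbl D.Z (fun ℓ => T ℓ ∩ U) D.zero D.add Y D.reg
    (fun y _ y' _ h => D.reg_inv y y' h) hpart
  have hπ3' : ∀ y ∈ Y, y + π y ∈ T (D.reg y) ∧ y + π y ∈ U := fun y hy => mem_inter.1 (hπ3 y hy)
  refine lab_fill_perm D.dbl hr hpE hELf hst.lab π ?_ ?_ ?_ ?_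
  · intro y hy
    rw [← hU] at hy ⊢
    exact (hYm _).1 (hπ1 y ((hYm y).2 hy))
  · intro y y' hy hy' h
    rw [← hU] at hy hy'
    exact hπ2 (mem_coe.2 ((hYm y).2 hy)) (mem_coe.2 ((hYm y').2 hy')) h
  · intro y hy
    rw [← hU] at hy
    have h1 := (hπ3' y ((hYm y).2 hy)).2
    rw [hU, mem_image] at h1
    exact h1
  · intro v hv
    rw [← hU, ← hY]
    rcases (Y.filter (fun y => y + π y = g v)).eq_empty_or_nonempty with he | ⟨y0, hy0⟩
    · rw [he, card_empty]
      exact Nat.zero_le _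
    · rw [mem_filter] at hy0
      have h1 := (hπ3' y0 hy0.1).1
      rw [hy0.2] at h1
      have h2 := hTs _ (D.reg_one y0) (D.reg_le y0) _ h1
      have h3 : g v ∈ D.Z D.L := D.monotone (D.reg_le y0) h2.1
      have h4 : v ≠ r := by
        rintro rfl
        apply h2.2
        rw [hst.lab.root]
        exact D.zero _
      rcases hst.pure v hv h3 with h5 | ⟨h5, h6⟩
      · exact absurd h5 h4
      · have h7 : Y.filter (fun y => y + π y = g v) ⊆
            Y.filter (fun y => D.reg y = lev v ∧ y + π y = g v) := by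
          intro y hy
          rw [mem_filter] at hy ⊢
          have h8 := (hπ3' y hy.1).1
          rw [hy.2] at h8
          exact ⟨hy.1, hTdis _ _ (D.reg_one y) (D.reg_le y) h5 (hlevL v) _ h8 h6, hy.2⟩
        refine (card_le_card h7).trans (le_trans ?_ (hcapa v hv h5))
        refine hπ4 (lev v) (g v) (univ.filter (fun x => D.reg x = lev v)) (N (lev v)) ?_ ?_
          (hN (lev v) h5 (hlevL v))
        · intro x hx z hz
          rw [mem_filter] at hx ⊢
          refine ⟨mem_univ _, ?_⟩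
          rw [← hx.2]
          apply D.reg_inv
          rw [← add_assoc, D.dbl, zero_add, hx.2]
          exact hz
        · intro y _ hy
          rw [mem_filter]
          exact ⟨mem_univ _, hy⟩

end Pool.Agent.H60.LN
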