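import Mathlib
import Pool.Agent.H60.FN.Add
import Pool.Agent.H60.LN.SDefs
import Pool.Agent.H60.LN.Avail
import Pool.Agent.H60.LN.Cap

/-!
# LNServe: serving the active children of a vertex `u` (S-case)

Proof.  Induction on `m` (generalise everything).  `m = 0`: `K2 = K2' = ∅`, `g2 = g`.
`m + 1`: choose `h ∈ K`, `h' ∈ K'`, `ℓ = lev h`, `U = E1.image g`, `x = g u`.
(1) `2 ^ 20 * (T ℓ \ U).card < (Z ℓ).card`: apply the induction hypothesis with `K.erase h`, `K'.erase h'` (same
`E1`, `g`); in the last statement for `ℓ` the first alternative holds (labels are only added: `U ⊆ U2`,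
so `T ℓ \ U2 ⊆ T ℓ \ U`); for `i ≠ ℓ` the number of the `v ∈ K` with `lev v = i` is the same for `K.erase h`.
(2) Otherwise `avail` (for `i >= ℓ`: `2 ^ 26 * (U ∩ tr x (Z i)).card <= (Z i).card` by the budget) gives `z ∈ T ℓ`,
`z ∉ U`, `x + z ∉ U`, `x + z ∉ blk U`.  `lab_add_two` with `v = h`, `v' = h'` and label `z` (`p h = u ∈ E1`, `u ≠ r`;
`z + g u = x + z`): `g1 = update (update g h z) h' (z + x)` on `E1' = insert h' (insert h E1)`.
pure: `z ∈ T (lev h)`; `x + z ∉ Z L` as `z ∈ Z ℓ ⊆ Z L` and `x ∉ Z L`.
cap: `U' = insert (z + x) (insert z U)`: `cap_insert_Z` and `cap_insert` (the new label `x + z` is not blocked for `U`;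
do `cap_insert` first, then `cap_insert_Z`: `insert z (insert (x + z) U)`).
Budget for `E1'`, `K.erase h`: `U' ∩ tr x (Z i)` contains `x + z` in addition iff `z ∈ Z i`, and never `z`
(`x + z ∉ Z L`).  If `z ∈ Z i`, then `ℓ <= i` (for `i < ℓ`, `T ℓ` and `Z i ⊆ Z (ℓ - 1)` are disjoint), so the second summand
decreases by one (`lev h = ℓ <= i`).  The sum does not increase.
Apply the induction hypothesis to `E1'`, `K.erase h`, `K'.erase h'`, `g1`, and add `h`, `h'` to `K2`, `K2'`.
Last statement for `ℓ`: `z ∈ T ℓ ∩ U'` is new: `(T ℓ ∩ U').card = (T ℓ ∩ U).card + 1` (at least).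
Locations: `g2 h = z ∈ Z L`, `g u + g2 h' = z ∈ Z L` (exponent two).
-/

set_option autoImplicit false

open Finset

namespace Pool.Agent.H60.LN

open Pool.Agent.H57.SS Pool.Agent.H60.FN

private theorem LNServe_filter_erase {V : Type*} [DecidableEq V] (K : Finset V) (h : V)
    (P : V → Prop) [DecidablePred P] :
    (K.filter P).card ≤ ((K.erase h).filter P).card + 1 := by
  rw [Finset.filter_erase]
  have := Finset.pred_card_le_card_erase (s := K.filter P) (a := h)
  omega

private theorem LNServe_filter_erase_eq {V : Type*} [DecidableEq V] (K : Finset V) (h : V)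
    (P : V → Prop) [DecidablePred P] (hP : ¬ P h) :
    ((K.erase h).filter P).card = (K.filter P).card := by
  rw [Finset.filter_erase, Finset.erase_eq_of_notMem]
  intro h1
  exact hP (Finset.mem_filter.1 h1).2

private theorem LNServe_filter_erase_lt {V : Type*} [DecidableEq V] {K : Finset V} {h : V}
    (hK : h ∈ K) (P : V → Prop) [DecidablePred P] (hP : P h) :
    ((K.erase h).filter P).card + 1 = (K.filter P).card := by
  rw [Finset.filter_erase]
  exact Finset.card_erase_add_one (Finset.mem_filter.2 ⟨hK, hP⟩)

/-- The intersection with the translate after adding the pair of labels. -/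
private theorem LNServe_inter {J : Type*} [AddCommGroup J] [DecidableEq J] [Fintype J]
    (D : Lv J) {U : Finset J} {x z : J} (hx : x ∉ D.Z D.L) (hz : z ∈ D.Z D.L) {i : ℕ}
    (hi : i ≤ D.L) :
    insert (z + x) (insert z U) ∩ tr x (D.Z i) =
      if z ∈ D.Z i then insert (z + x) (U ∩ tr x (D.Z i)) else U ∩ tr x (D.Z i) := by
  have hzx : x + (z + x) = z := by
    rw [add_comm z x, ← add_assoc, D.dbl, zero_add]
  have h1 : z ∉ tr x (D.Z i) := by
    intro h
    apply hx
    have h2 := D.add _ _ (D.monotone hi (mem_tr.1 h)) _ hz
    rwa [add_assoc, D.dbl, add_zero] at h2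
  split_ifs with h
  · rw [Finset.insert_inter_of_mem (by rw [mem_tr, hzx]; exact h),
      Finset.insert_inter_of_notMem h1]
  · rw [Finset.insert_inter_of_notMem (by rw [mem_tr, hzx]; exact h),
      Finset.insert_inter_of_notMem h1]

theorem serve {V J : Type*} [DecidableEq V] [AddCommGroup J] [DecidableEq J] [Fintype J]
    (D : Lv J) {p : V → V} {r : V} {lev : V → ℕ} {T : ℕ → Finset J}
    (hT : ∀ ℓ, 1 ≤ ℓ → ℓ ≤ D.L → T ℓ ⊆ D.Z ℓ \ D.Z (ℓ - 1)) {u : V} (hur : u ≠ r) (m : ℕ) :
    ∀ (E1 K K' : Finset V) (g : V → J), r ∈ E1 → (∀ v ∈ E1, p v ∈ E1) → u ∈ E1 →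
      SSt D p r lev T E1 g → g u ∉ D.Z D.L → K.card = m → K'.card = m → Disjoint E1 K →
      Disjoint E1 K' → Disjoint K K' → (∀ v ∈ K, p v = u ∧ 1 ≤ lev v ∧ lev v ≤ D.L) →
      (∀ v ∈ K', p v = u) →
      (∀ i, 1 ≤ i → i ≤ D.L → 2 ^ 26 * ((E1.image g ∩ tr (g u) (D.Z i)).card
        + (K.filter (fun v => lev v ≤ i)).card) ≤ (D.Z i).card) →
      ∃ (K2 K2' : Finset V) (g2 : V → J), K2 ⊆ K ∧ K2' ⊆ K' ∧ K2'.card = K2.card ∧
        (∀ v ∈ E1, g2 v = g v) ∧ SSt D p r lev T (E1 ∪ K2 ∪ K2') g2 ∧
        (∀ v ∈ K2 ∪ K2', g2 v ∈ D.Z D.L ∨ g u + g2 v ∈ D.Z D.L) ∧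
        ∀ ℓ, 1 ≤ ℓ → ℓ ≤ D.L →
          2 ^ 20 * (T ℓ \ (E1 ∪ K2 ∪ K2').image g2).card < (D.Z ℓ).card ∨
          (T ℓ ∩ E1.image g).card + (K.filter (fun v => lev v = ℓ)).card
            ≤ (T ℓ ∩ (E1 ∪ K2 ∪ K2').image g2).card := by
  induction m with
  | zero =>
    intro E1 K K' g _ _ _ hst _ hK hK' _ _ _ _ _ _
    rw [Finset.card_eq_zero] at hK hK'
    subst hK
    subst hK'
    refine ⟨∅, ∅, g, Finset.Subset.refl _, Finset.Subset.refl _, rfl, fun _ _ => rfl, ?_, ?_, ?_⟩
    · rw [Finset.union_empty, Finset.union_empty]
      exact hst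
    · intro v hv
      rw [Finset.union_empty] at hv
      exact absurd hv (Finset.notMem_empty v)
    · intro ℓ _ _
      right
      rw [Finset.union_empty, Finset.union_empty, Finset.filter_empty, Finset.card_empty, add_zero]
  | succ m ih =>
    intro E1 K K' g hr hpE hu hst hgu hK hK' hdK hdK' hdKK hKp hKp' hbud
    obtain ⟨h, hh⟩ : K.Nonempty := by
      rw [← Finset.card_pos]
      omega
    obtain ⟨h', hh'⟩ : K'.Nonempty := by
      rw [← Finset.card_pos]
      omega
    obtain ⟨hph, hl1, hlL⟩ := hKp h hh
    have hph' := hKp' h' hh'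
    have hKc : (K.erase h).card = m := by
      rw [Finset.card_erase_of_mem hh]
      omega
    have hKc' : (K'.erase h').card = m := by
      rw [Finset.card_erase_of_mem hh']
      omega
    have hTZ : T (lev h) ⊆ D.Z (lev h) := fun a ha =>
      (Finset.mem_sdiff.1 (hT (lev h) hl1 hlL ha)).1
    have hK1 : ∀ v ∈ K.erase h, p v = u ∧ 1 ≤ lev v ∧ lev v ≤ D.L := fun v hv =>
      hKp v (Finset.mem_of_mem_erase hv)
    have hK1' : ∀ v ∈ K'.erase h', p v = u := fun v hv => hKp' v (Finset.mem_of_mem_erase hv)
    have hdKK1 : Disjoint (K.erase h) (K'.erase h') :=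
      hdKK.mono (Finset.erase_subset _ _) (Finset.erase_subset _ _)
    by_cases hcase : 2 ^ 20 * (T (lev h) \ E1.image g).card < (D.Z (lev h)).card
    · -- level nearly complete
      obtain ⟨K2, K2', g2, h2, h2', hc2, hg2, hst2, hloc2, hprog2⟩ :=
        ih E1 (K.erase h) (K'.erase h') g hr hpE hu hst hgu hKc hKc'
          (hdK.mono_right (Finset.erase_subset _ _)) (hdK'.mono_right (Finset.erase_subset _ _))
          hdKK1 hK1 hK1' (by
            intro i hi1 hiL
            have h3 := hbud i hi1 hiL
            have h4 : ((K.erase h).filter (fun v => lev v ≤ i)).card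
                ≤ (K.filter (fun v => lev v ≤ i)).card :=
              Finset.card_le_card (Finset.filter_subset_filter _ (Finset.erase_subset _ _))
            refine le_trans (Nat.mul_le_mul_left _ ?_) h3
            exact Nat.add_le_add_left h4 _)
      refine ⟨K2, K2', g2, h2.trans (Finset.erase_subset _ _), h2'.trans (Finset.erase_subset _ _),
        hc2, hg2, hst2, hloc2, ?_⟩
      intro i hi1 hiL
      by_cases hiℓ : lev h = i
      · left
        subst hiℓ
        refine lt_of_le_of_lt (Nat.mul_le_mul_left _ (Finset.card_le_card ?_)) hcase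
        apply Finset.sdiff_subset_sdiff (Finset.Subset.refl _)
        intro a ha
        obtain ⟨v, hv, rfl⟩ := Finset.mem_image.1 ha
        exact Finset.mem_image.2 ⟨v, Finset.mem_union_left _ (Finset.mem_union_left _ hv), hg2 v hv⟩
      · rcases hprog2 i hi1 hiL with h3 | h3
        · exact Or.inl h3
        · right
          rw [LNServe_filter_erase_eq K h (fun v => lev v = i) hiℓ] at h3
          exact h3
    · -- a new pair
      obtain ⟨z, hzT, hzU, hxzU, hxzB⟩ := avail D hgu hl1 hlL hTZ
        (fun i hi hiL => by
          have h3 := hbud i (hl1.trans hi) hiL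
          refine le_trans (Nat.mul_le_mul_left _ ?_) h3
          exact Nat.le_add_right _ _) (not_lt.1 hcase)
      have hzZ : z ∈ D.Z D.L := D.monotone hlL (hTZ hzT)
      have hhE : h ∉ E1 := fun h3 => (Finset.disjoint_left.1 hdK) h3 hh
      have hhE' : h' ∉ E1 := fun h3 => (Finset.disjoint_left.1 hdK') h3 hh'
      have hne : h ≠ h' := fun h3 => (Finset.disjoint_left.1 hdKK) hh (h3 ▸ hh')
      have hlab := lab_add_two D.dbl hr hpE hst.lab hhE hhE' hne (by rw [hph]; exact hu)
        (by rw [hph]; exact hur) (by rw [hph, hph']) hzU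
        (by rw [hph, add_comm]; exact hxzU)
      rw [hph] at hlab
      obtain ⟨g1, hg1⟩ : ∃ g1 : V → J,
          g1 = Function.update (Function.update g h z) h' (z + g u) := ⟨_, rfl⟩
      rw [← hg1] at hlab
      have hg1h' : g1 h' = z + g u := by rw [hg1, Function.update_self]
      have hg1h : g1 h = z := by rw [hg1, Function.update_of_ne hne, Function.update_self]
      have hg1E : ∀ v ∈ E1, g1 v = g v := by
        intro v hv
        rw [hg1, Function.update_of_ne (fun h3 : v = h' => hhE' (h3 ▸ hv)),
          Function.update_of_ne (fun h3 : v = h => hhE (h3 ▸ hv))]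
      have hg1u : g1 u = g u := hg1E u hu
      have himgE : E1.image g1 = E1.image g := Finset.image_congr (fun v hv => hg1E v hv)
      have himg : (insert h' (insert h E1)).image g1 =
          insert (z + g u) (insert z (E1.image g)) := by
        rw [Finset.image_insert, Finset.image_insert, hg1h', hg1h, himgE]
      have hxZ : z + g u ∉ D.Z D.L := by
        intro h3
        apply hgu
        have h4 := D.add _ _ hzZ _ h3
        rwa [← add_assoc, D.dbl, zero_add] at h4
      have hst1 : SSt D p r lev T (insert h' (insert h E1)) g1 := by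
        refine ⟨hlab, ?_, ?_⟩
        · intro v hv hvZ
          rw [Finset.mem_insert, Finset.mem_insert] at hv
          rcases hv with rfl | rfl | hv
          · rw [hg1h'] at hvZ
            exact absurd hvZ hxZ
          · right
            rw [hg1h]
            exact ⟨hl1, hzT⟩
          · rw [hg1E v hv] at hvZ ⊢
            exact hst.pure v hv hvZ
        · rw [himg, Finset.insert_comm]
          apply cap_insert_Z D _ hzZ
          apply cap_insert D hst.cap
          rw [add_comm]
          exact hxzB
      obtain ⟨K2, K2', g2, h2, h2', hc2, hg2, hst2, hloc2, hprog2⟩ :=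
        ih (insert h' (insert h E1)) (K.erase h) (K'.erase h') g1
          (Finset.mem_insert_of_mem (Finset.mem_insert_of_mem hr))
          (by
            intro v hv
            rw [Finset.mem_insert, Finset.mem_insert] at hv
            apply Finset.mem_insert_of_mem
            apply Finset.mem_insert_of_mem
            rcases hv with rfl | rfl | hv
            · rw [hph']; exact hu
            · rw [hph]; exact hu
            · exact hpE v hv)
          (Finset.mem_insert_of_mem (Finset.mem_insert_of_mem hu)) hst1
          (by rw [hg1u]; exact hgu) hKc hKc'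
          (by
            rw [Finset.disjoint_left]
            intro a ha haK
            rw [Finset.mem_erase] at haK
            rw [Finset.mem_insert, Finset.mem_insert] at ha
            rcases ha with h3 | h3 | h3
            · subst h3
              exact (Finset.disjoint_left.1 hdKK) haK.2 hh'
            · exact haK.1 h3
            · exact (Finset.disjoint_left.1 hdK) h3 haK.2)
          (by
            rw [Finset.disjoint_left]
            intro a ha haK
            rw [Finset.mem_erase] at haK
            rw [Finset.mem_insert, Finset.mem_insert] at ha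
            rcases ha with h3 | h3 | h3
            · exact haK.1 h3
            · subst h3
              exact (Finset.disjoint_left.1 hdKK) hh haK.2
            · exact (Finset.disjoint_left.1 hdK') h3 haK.2)
          hdKK1 hK1 hK1' (by
            intro i hi1 hiL
            have h3 := hbud i hi1 hiL
            rw [himg, hg1u, LNServe_inter D hgu hzZ hiL]
            refine le_trans (Nat.mul_le_mul_left _ ?_) h3
            split_ifs with h4
            · have h5 : lev h ≤ i := by
                by_contra h6
                have h7 := (Finset.mem_sdiff.1 (hT (lev h) hl1 hlL hzT)).2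
                exact h7 (D.monotone (by omega) h4)
              have h6 := LNServe_filter_erase_lt hh (fun v => lev v ≤ i) h5
              have h7 := Finset.card_insert_le (z + g u) (E1.image g ∩ tr (g u) (D.Z i))
              omega
            · have h4 : ((K.erase h).filter (fun v => lev v ≤ i)).card
                  ≤ (K.filter (fun v => lev v ≤ i)).card :=
                Finset.card_le_card (Finset.filter_subset_filter _ (Finset.erase_subset _ _))
              omega)
      have hset : E1 ∪ insert h K2 ∪ insert h' K2' = insert h' (insert h E1) ∪ K2 ∪ K2' := by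
        ext a
        simp only [Finset.mem_union, Finset.mem_insert]
        tauto
      refine ⟨insert h K2, insert h' K2', g2, ?_, ?_, ?_, ?_, ?_, ?_, ?_⟩
      · exact Finset.insert_subset hh (h2.trans (Finset.erase_subset _ _))
      · exact Finset.insert_subset hh' (h2'.trans (Finset.erase_subset _ _))
      · rw [Finset.card_insert_of_notMem (fun h3 => Finset.notMem_erase h K (h2 h3)),
          Finset.card_insert_of_notMem (fun h3 => Finset.notMem_erase h' K' (h2' h3)), hc2]
      · intro v hv
        rw [hg2 v (Finset.mem_insert_of_mem (Finset.mem_insert_of_mem hv)), hg1E v hv]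
      · rw [hset]
        exact hst2
      · intro v hv
        have h3 : v = h ∨ v = h' ∨ v ∈ K2 ∪ K2' := by
          simp only [Finset.mem_union, Finset.mem_insert] at hv ⊢
          tauto
        rcases h3 with h3 | h3 | h3
        · left
          rw [h3, hg2 h (by simp), hg1h]
          exact hzZ
        · right
          rw [h3, hg2 h' (by simp), hg1h', add_comm z (g u), ← add_assoc, D.dbl, zero_add]
          exact hzZ
        · have h4 := hloc2 v h3
          rwa [hg1u] at h4
      · intro i hi1 hiL
        rw [hset]
        rcases hprog2 i hi1 hiL with h3 | h3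
        · exact Or.inl h3
        · right
          refine le_trans ?_ h3
          rw [himg]
          by_cases hiℓ : lev h = i
          · subst hiℓ
            have h4 := LNServe_filter_erase K h (fun v => lev v = lev h)
            have h5 : insert z (T (lev h) ∩ E1.image g) ⊆
                T (lev h) ∩ insert (z + g u) (insert z (E1.image g)) := by
              intro a ha
              rw [Finset.mem_insert, Finset.mem_inter] at ha
              rw [Finset.mem_inter, Finset.mem_insert, Finset.mem_insert]
              rcases ha with ha | ha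
              · rw [ha]
                exact ⟨hzT, Or.inr (Or.inl rfl)⟩
              · exact ⟨ha.1, Or.inr (Or.inr ha.2)⟩
            have h6 := Finset.card_le_card h5
            rw [Finset.card_insert_of_notMem
              (fun h7 => hzU (Finset.mem_inter.1 h7).2)] at h6
            omega
          · rw [LNServe_filter_erase_eq K h (fun v => lev v = i) hiℓ]
            apply Nat.add_le_add_right
            apply Finset.card_le_card
            intro a ha
            rw [Finset.mem_inter] at ha ⊢
            exact ⟨ha.1, Finset.mem_insert_of_mem (Finset.mem_insert_of_mem ha.2)⟩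

end Pool.Agent.H60.LN
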