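import Mathlib
import Pool.Agent.H60.FN.BStep
import Pool.Agent.H60.LN.Serve
import Pool.Agent.H60.LN.Active
import Pool.Agent.H60.LN.Junk

/-!
# LNSBatch: the batch step of the S-case

Proof of `S_pair`.  `U = E'.image g`, `y = g (p u)`.  `exists_good_pair` (`U.card <= E.card`) gives `x`; `lab_pair`
(`Pool/Agent/H60/FN/BStep.lean`) gives `g1` with `g1 u = x`, `g1 u' = x + y`.  The labels `x`, `x + y` are not in
`blk U ⊇ Z L`: pure and cap (`cap_insert2`; the image is `insert (x + y) (insert x U)`).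

Proof of `S_batch`.  `g1` from `S_pair` on `E1 = insert u' (insert u E')`, `U = E'.image g`, `x = g1 u`, `x' = g1 u' = x + g (p u)`.
If `u' ≠ u` then `p u ≠ r`, and `g (p u) ∉ Z L` (pure at `p u`, `lev (p u) = 0`), so `x + x' ∉ Z L`.
Let `Ch = E.filter (p · = u)` (even by `hE.even`, `u ≠ r` because `r ∈ E'`), `Ch' = E.filter (p · = u')`.
`exists_active` gives `Act`, `K'` (and `Act'`, `K''` for `u'` if `u' ≠ u`).  `Ch` is disjoint from `E1`
(`hch`; `p u ∈ E'` is not `u`, `u'`, and `p u' = p u`).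
Budget for `u`: `E1.image g1 = U ∪ {x, x'}`, so `(E1.image g1 ∩ tr x (Z i)).card <= (U ∩ tr x (Z i)).card + 2 <= 2^-27 (Z i).card + 2`;
`(Act.filter (lev <= i)).card <= ∑ ℓ in 1..i, 2^-29 (Z ℓ).card <= 2^-28 (Z i).card` (`hlight`, `gap`: the sum of the
`(Z ℓ).card`, `ℓ <= i`, is at most `2 * (Z i).card`).  `2^26 * (2^-27 + 2^-28) * (Z i).card + 2^27 <= (Z i).card` since
`(Z i).card >= 2 ^ 40`.
`serve` for `u` gives `E2 = E1 ∪ K2 ∪ K2'`, `g2`.  If `u' ≠ u`: `serve` for `u'` on `E2`: the new labels are in `Z L` or in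
`x + Z L`, so not in `tr x' (Z i)` (`x' ∉ Z L`, `x + x' ∉ Z L`): the budget for `u'` is the same computation.
We get `E3`, `g3` (if `u' = u` put `E3 = E2`).  `E3 ⊆ E` is closed (the fibres over `u`, `u'` are `K2 ∪ K2'` etc., even; the
fibre over `p u` is the one of `E'` plus `u, u'` if `u ≠ u'`; if `u' = u` then `p u = r`).
`junk_extend` from `E3` to `E` gives `g4`; pure: the new labels are not in `Z L`.
Prog at `ℓ`: let `U4 = E.image g4`.  If `2 ^ 20 * (T ℓ \ U4).card < (Z ℓ).card` done.  Otherwise the corresponding first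
alternatives fail at all earlier stages (the image only grows), so by `hprog` and the two conclusions of `serve`:
`(T ℓ ∩ U4).card >= (T ℓ ∩ U).card + a + a'` with `a = (Act.filter (lev = ℓ)).card` (`a' = 0` if `u' = u`), and
`(E.filter (lev = ℓ)).card = (E'.filter (lev = ℓ)).card + (Ch.filter ..).card + (Ch'.filter ..).card` (`hrest`, `lev u = lev u' = 0`;
only one of the last two summands if `u' = u`), similarly for `1 <= lev < ℓ`; use `exists_active`.
-/

set_option autoImplicit false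

open Finset

namespace Pool.Agent.H60.LN

open Pool.Agent.H57.SS Pool.Agent.H60.FN

section

variable {V J : Type*} [DecidableEq V] [AddCommGroup J] [DecidableEq J] [Fintype J]

private theorem SB_closed_one {p : V → V} {r : V} {E : Finset V}
    (h : Closed p r E) {v : V} (hpv : p v = r) : Closed p r (insert v E) := by
  refine ⟨mem_insert_of_mem h.root, ?_, ?_⟩
  · intro u hu
    rcases mem_insert.1 hu with rfl | hu
    · rw [hpv]
      exact mem_insert_of_mem h.root
    · exact mem_insert_of_mem (h.parent u hu)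
  · intro w hw
    rw [filter_insert, if_neg (by rw [hpv]; exact fun h => hw h.symm)]
    exact h.even w hw

private theorem SB_closed_two {p : V → V} {r : V} {E : Finset V}
    (h : Closed p r E) {v v' : V} (hv : v ∉ E) (hv' : v' ∉ E) (hne : v ≠ v') (hpvE : p v ∈ E)
    (hpp : p v' = p v) : Closed p r (insert v' (insert v E)) := by
  refine ⟨mem_insert_of_mem (mem_insert_of_mem h.root), ?_, ?_⟩
  · intro u hu
    rcases mem_insert.1 hu with rfl | hu
    · rw [hpp]
      exact mem_insert_of_mem (mem_insert_of_mem hpvE)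
    · rcases mem_insert.1 hu with rfl | hu
      · exact mem_insert_of_mem (mem_insert_of_mem hpvE)
      · exact mem_insert_of_mem (mem_insert_of_mem (h.parent u hu))
  · intro w hw
    by_cases hwv : p v = w
    · rw [filter_insert, if_pos (by rw [hpp]; exact hwv), filter_insert, if_pos hwv,
        card_insert_of_notMem, card_insert_of_notMem]
      · have := h.even w hw
        rw [add_assoc]
        exact this.add (by decide)
      · intro h1
        exact hv (mem_filter.1 h1).1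
      · intro h1
        rcases mem_insert.1 h1 with h2 | h2
        · exact hne h2.symm
        · exact hv' (mem_filter.1 h2).1
    · rw [filter_insert, if_neg (by rw [hpp]; exact hwv), filter_insert, if_neg hwv]
      exact h.even w hw

/-- Adding two sets of children of `u` of the same size. -/
private theorem SB_closed_add {p : V → V} {r : V} {E1 K K' : Finset V} (h : Closed p r E1)
    {u : V} (hu : u ∈ E1) (hK : ∀ v ∈ K, p v = u) (hK' : ∀ v ∈ K', p v = u)
    (hd : Disjoint E1 K) (hd' : Disjoint E1 K') (hdK : Disjoint K K') (hc : K'.card = K.card) :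
    Closed p r (E1 ∪ K ∪ K') := by
  refine ⟨mem_union_left _ (mem_union_left _ h.root), ?_, ?_⟩
  · intro v hv
    rw [mem_union, mem_union] at hv
    rcases hv with (hv | hv) | hv
    · exact mem_union_left _ (mem_union_left _ (h.parent v hv))
    · rw [hK v hv]
      exact mem_union_left _ (mem_union_left _ hu)
    · rw [hK' v hv]
      exact mem_union_left _ (mem_union_left _ hu)
  · intro w hw
    rw [filter_union, filter_union]
    by_cases hwu : u = w
    · subst hwu
      rw [filter_true_of_mem hK, filter_true_of_mem hK', card_union_of_disjoint,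
        card_union_of_disjoint, hc, add_assoc]
      · exact (h.even u hw).add ⟨K.card, rfl⟩
      · exact hd.mono_left (filter_subset _ _)
      · rw [disjoint_union_left]
        exact ⟨hd'.mono_left (filter_subset _ _), hdK⟩
    · rw [filter_false_of_mem (s := K) (fun v hv => by rw [hK v hv]; exact hwu),
        filter_false_of_mem (s := K') (fun v hv => by rw [hK' v hv]; exact hwu), union_empty,
        union_empty]
      exact h.even w hw

private theorem SB_budget (D : Lv J) {lev : V → ℕ} {Ch Act : Finset V} (hA : Act ⊆ Ch)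
    (hA1 : ∀ v ∈ Act, 1 ≤ lev v)
    (hlight : ∀ ℓ, 1 ≤ ℓ → ℓ ≤ D.L →
      2 ^ 29 * (Ch.filter (fun v => lev v = ℓ)).card ≤ (D.Z ℓ).card) :
    ∀ i, 1 ≤ i → i ≤ D.L →
      2 ^ 29 * (Act.filter (fun v => lev v ≤ i)).card ≤ 2 * (D.Z i).card := by
  intro i hi
  induction i, hi using Nat.le_induction with
  | base =>
    intro hL
    have h1 : Act.filter (fun v => lev v ≤ 1) ⊆ Ch.filter (fun v => lev v = 1) := by
      intro v hv
      rw [mem_filter] at hv ⊢
      exact ⟨hA hv.1, le_antisymm hv.2 (hA1 v hv.1)⟩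
    have h2 := card_le_card h1
    have h3 := hlight 1 le_rfl hL
    omega
  | succ i hi ih =>
    intro hL
    have h1 : Act.filter (fun v => lev v ≤ i + 1) ⊆
        Act.filter (fun v => lev v ≤ i) ∪ Ch.filter (fun v => lev v = i + 1) := by
      intro v hv
      rw [mem_filter] at hv
      rw [mem_union, mem_filter, mem_filter]
      rcases Nat.lt_or_ge i (lev v) with h | h
      · exact Or.inr ⟨hA hv.1, le_antisymm hv.2 h⟩
      · exact Or.inl ⟨hv.1, h⟩
    have h2 := (card_le_card h1).trans (card_union_le _ _)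
    have h3 := hlight (i + 1) (by omega) hL
    have h4 := ih (by omega)
    have h5 := D.gap i hi (by omega)
    omega

/-- The children of one vertex. -/
private theorem SB_one (D : Lv J) {p : V → V} {r : V} {lev : V → ℕ} {T : ℕ → Finset J}
    (hT : ∀ ℓ, 1 ≤ ℓ → ℓ ≤ D.L → T ℓ ⊆ D.Z ℓ \ D.Z (ℓ - 1)) (hlevL : ∀ v, lev v ≤ D.L)
    {u : V} (hur : u ≠ r) {E1 Ch : Finset V} {g : V → J} (hE1 : Closed p r E1) (hu : u ∈ E1)
    (hst : SSt D p r lev T E1 g) (hgu : g u ∉ D.Z D.L) (hCh : Even Ch.card)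
    (hChp : ∀ v ∈ Ch, p v = u) (hdis : Disjoint E1 Ch)
    (hlight : ∀ ℓ, 1 ≤ ℓ → ℓ ≤ D.L →
      2 ^ 29 * (Ch.filter (fun v => lev v = ℓ)).card ≤ (D.Z ℓ).card)
    (hbud : ∀ i, 1 ≤ i → i ≤ D.L →
      2 ^ 27 * (E1.image g ∩ tr (g u) (D.Z i)).card ≤ (D.Z i).card + 2 ^ 28) :
    ∃ (E2 : Finset V) (g2 : V → J), E1 ⊆ E2 ∧ E2 ⊆ E1 ∪ Ch ∧ Closed p r E2 ∧
      (∀ v ∈ E1, g2 v = g v) ∧ SSt D p r lev T E2 g2 ∧
      (∀ v ∈ E2, v ∉ E1 → g2 v ∈ D.Z D.L ∨ g u + g2 v ∈ D.Z D.L) ∧
      ∀ ℓ, 1 ≤ ℓ → ℓ ≤ D.L →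
        2 ^ 20 * (T ℓ \ E2.image g2).card < (D.Z ℓ).card ∨
        2 * (T ℓ ∩ E1.image g).card + (Ch.filter (fun v => lev v = ℓ)).card
          ≤ 2 * (T ℓ ∩ E2.image g2).card + (Ch.filter (fun v => 1 ≤ lev v ∧ lev v < ℓ)).card := by
  obtain ⟨Act, K', hA, hK', hdAK, hcK, hA1, hact⟩ := exists_active Ch hCh lev
  obtain ⟨K2, K2', g2, h2, h2', hc2, hg2, hst2, hloc, hprog⟩ :=
    serve D hT hur Act.card E1 Act K' g hE1.root hE1.parent hu hst hgu rfl hcK
      (hdis.mono_right hA) (hdis.mono_right hK') hdAK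
      (fun v hv => ⟨hChp v (hA hv), hA1 v hv, hlevL v⟩) (fun v hv => hChp v (hK' hv))
      (by
        intro i hi hiL
        have h1 := SB_budget D hA hA1 hlight i hi hiL
        have h3 := hbud i hi hiL
        have h4 := D.big i hi hiL
        have h5 : 2 ^ 40 ≤ 2 ^ (40 * i) := Nat.pow_le_pow_right (by norm_num) (by omega)
        omega)
  refine ⟨E1 ∪ K2 ∪ K2', g2, ?_, ?_, ?_, hg2, hst2, ?_, ?_⟩
  · rw [union_assoc]
    exact subset_union_left
  · rw [union_assoc]
    exact union_subset_union (Subset.refl _) (union_subset (h2.trans hA) (h2'.trans hK'))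
  · exact SB_closed_add hE1 hu (fun v hv => hChp v (hA (h2 hv)))
      (fun v hv => hChp v (hK' (h2' hv))) (hdis.mono_right (h2.trans hA))
      (hdis.mono_right (h2'.trans hK')) (hdAK.mono h2 h2') hc2
  · intro v hv hv1
    apply hloc
    rw [union_assoc] at hv
    rcases mem_union.1 hv with h | h
    · exact absurd h hv1
    · exact h
  · intro ℓ h1 hL
    rcases hprog ℓ h1 hL with h | h
    · exact Or.inl h
    · right
      have := hact ℓ h1
      omega

theorem S_pair (D : Lv J) {p : V → V} {r : V} {lev : V → ℕ} {T : ℕ → Finset J}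
    {E' : Finset V} {g : V → J} (hr : r ∈ E') (hpE : ∀ w ∈ E', p w ∈ E')
    (hst : SSt D p r lev T E' g) {u u' : V} (hu : u ∉ E') (hu' : u' ∉ E') (hpu : p u ∈ E')
    (hpp : p u' = p u) (hcase : (u' = u ∧ p u = r) ∨ (u' ≠ u ∧ p u ≠ r))
    (hsize : 2 ^ 29 * E'.card + 2 * (D.Z D.L).card < Fintype.card J) :
    ∃ g1 : V → J, (∀ v ∈ E', g1 v = g v) ∧ SSt D p r lev T (insert u' (insert u E')) g1 ∧
      g1 u ∉ D.Z D.L ∧ g1 u' ∉ D.Z D.L ∧ g1 u' = g1 u + g (p u) ∧
      ∀ i, 1 ≤ i → i ≤ D.L →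
        2 ^ 27 * (E'.image g ∩ tr (g1 u) (D.Z i)).card ≤ (D.Z i).card ∧
        2 ^ 27 * (E'.image g ∩ tr (g1 u') (D.Z i)).card ≤ (D.Z i).card := by
  obtain ⟨x, hxU, hxB, hyU, hyB, hgood⟩ := exists_good_pair D (E'.image g) (g (p u)) (by
    have h1 : (E'.image g).card ≤ E'.card := card_image_le
    omega)
  obtain ⟨g1, h1, h2, h3, h4⟩ := lab_pair D.dbl hr hpE hst.lab hu hu' hpu hpp hcase hxU hyU
  have hblk : ∀ y, y ∉ D.blk (E'.image g) → y ∉ D.Z D.L := by
    intro y hy hyZ
    exact hy (mem_filter.2 ⟨mem_univ _, Or.inl hyZ⟩)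
  have hxZ := hblk _ hxB
  have hyZ := hblk _ hyB
  refine ⟨g1, h1, ⟨h4, ?_, ?_⟩, ?_, ?_, ?_, ?_⟩
  · intro v hv hvZ
    rw [mem_insert, mem_insert] at hv
    rcases hv with rfl | rfl | hv
    · rw [h3] at hvZ
      exact absurd hvZ hyZ
    · rw [h2] at hvZ
      exact absurd hvZ hxZ
    · rw [h1 v hv] at hvZ ⊢
      exact hst.pure v hv hvZ
  · have himg : (insert u' (insert u E')).image g1 = insert (x + g (p u)) (insert x (E'.image g)) := by
      rw [image_insert, image_insert, h2, h3]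
      congr 2
      exact image_congr (fun v hv => h1 v hv)
    rw [himg]
    exact cap_insert2 D hst.cap hxB hyB
  · rw [h2]
    exact hxZ
  · rw [h3]
    exact hyZ
  · rw [h2, h3]
  · intro i hi hiL
    rw [h2, h3]
    exact hgood i hi hiL

theorem S_batch (D : Lv J) {p : V → V} {r : V} {d : V → ℕ}
    (hd : ∀ v, v ≠ r → d v = d (p v) + 1) {lev : V → ℕ} {T : ℕ → Finset J}
    (hT : ∀ ℓ, 1 ≤ ℓ → ℓ ≤ D.L → T ℓ ⊆ D.Z ℓ \ D.Z (ℓ - 1)) (hlevL : ∀ v, lev v ≤ D.L)
    {E E' : Finset V} (hE : Closed p r E) (hE' : Closed p r E') (hsub : E' ⊆ E) {u u' : V}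
    (huE : u ∈ E) (huE' : u' ∈ E) (hu : u ∉ E') (hu' : u' ∉ E') (hpu : p u ∈ E')
    (hpp : p u' = p u) (hcase : (u' = u ∧ p u = r) ∨ (u' ≠ u ∧ p u ≠ r))
    (hch : ∀ v ∈ E', p v ≠ u ∧ p v ≠ u')
    (hrest : ∀ v ∈ E, v ∉ E' → v = u ∨ v = u' ∨ p v = u ∨ p v = u')
    (hlu : lev u = 0) (hlu' : lev u' = 0) (hlpu : lev (p u) = 0)
    (hlight : ∀ ℓ, 1 ≤ ℓ → ℓ ≤ D.L →
      2 ^ 29 * (E.filter (fun v => p v = u ∧ lev v = ℓ)).card ≤ (D.Z ℓ).card ∧
      2 ^ 29 * (E.filter (fun v => p v = u' ∧ lev v = ℓ)).card ≤ (D.Z ℓ).card)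
    (hsize : 2 ^ 30 * E.card + 2 * (D.Z D.L).card < Fintype.card J) {g : V → J}
    (hst : SSt D p r lev T E' g) (hprog : ∀ ℓ, 1 ≤ ℓ → ℓ ≤ D.L → Prog D lev T ℓ E' g) :
    ∃ g2 : V → J, SSt D p r lev T E g2 ∧ ∀ ℓ, 1 ≤ ℓ → ℓ ≤ D.L → Prog D lev T ℓ E g2 := by
  have hE'c : E'.card ≤ E.card := card_le_card hsub
  obtain ⟨g1, hg1E, hst1, hxZ, hxZ', hxx, hgood⟩ := S_pair D hE'.root hE'.parent hst hu hu' hpu hpp
    hcase (by omega)
  have hur : u ≠ r := fun h => hu (h ▸ hE'.root)
  have hu'r : u' ≠ r := fun h => hu' (h ▸ hE'.root)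
  have hpuu : p u ≠ u := fun h => hu (h ▸ hpu)
  have hpuu' : p u ≠ u' := fun h => hu' (h ▸ hpu)
  obtain ⟨E1, hE1⟩ : ∃ E1 : Finset V, E1 = insert u' (insert u E') := ⟨_, rfl⟩
  rw [← hE1] at hst1
  have hE1c : Closed p r E1 := by
    rw [hE1]
    rcases hcase with ⟨h1, h2⟩ | ⟨h1, h2⟩
    · rw [h1, insert_idem]
      exact SB_closed_one hE' h2
    · exact SB_closed_two hE' hu hu' (Ne.symm h1) hpu hpp
  have huE1 : u ∈ E1 := by
    rw [hE1]
    exact mem_insert_of_mem (mem_insert_self _ _)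
  have hu'E1 : u' ∈ E1 := by
    rw [hE1]
    exact mem_insert_self _ _
  have hE'E1 : E' ⊆ E1 := by
    rw [hE1]
    exact (subset_insert _ _).trans (subset_insert _ _)
  have hE1E : E1 ⊆ E := by
    rw [hE1]
    exact insert_subset huE' (insert_subset huE hsub)
  obtain ⟨Ch, hCh⟩ : ∃ Ch : Finset V, Ch = E.filter (fun v => p v = u) := ⟨_, rfl⟩
  obtain ⟨Ch', hCh'⟩ : ∃ Ch' : Finset V, Ch' = E.filter (fun v => p v = u') := ⟨_, rfl⟩
  have hChp : ∀ v ∈ Ch, p v = u := fun v hv => by
    rw [hCh] at hv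
    exact (mem_filter.1 hv).2
  have hCh'p : ∀ v ∈ Ch', p v = u' := fun v hv => by
    rw [hCh'] at hv
    exact (mem_filter.1 hv).2
  have hChE : Ch ⊆ E := by
    rw [hCh]
    exact filter_subset _ _
  have hCh'E : Ch' ⊆ E := by
    rw [hCh']
    exact filter_subset _ _
  have hdis : Disjoint E1 Ch := by
    rw [disjoint_left]
    intro v hv hv2
    have h1 := hChp v hv2
    rw [hE1, mem_insert, mem_insert] at hv
    rcases hv with rfl | rfl | hv
    · rw [hpp] at h1
      exact hpuu h1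
    · exact hpuu h1
    · exact (hch v hv).1 h1
  have hdis' : Disjoint E1 Ch' := by
    rw [disjoint_left]
    intro v hv hv2
    have h1 := hCh'p v hv2
    rw [hE1, mem_insert, mem_insert] at hv
    rcases hv with rfl | rfl | hv
    · rw [hpp] at h1
      exact hpuu' h1
    · exact hpuu' h1
    · exact (hch v hv).2 h1
  have hfil : ∀ (w : V) (ℓ : ℕ), (E.filter (fun v => p v = w)).filter (fun v => lev v = ℓ) =
      E.filter (fun v => p v = w ∧ lev v = ℓ) := fun w ℓ => filter_filter _ _ _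
  have himg1 : E1.image g1 = insert (g1 u') (insert (g1 u) (E'.image g)) := by
    rw [hE1, image_insert, image_insert]
    congr 2
    exact image_congr (fun v hv => hg1E v hv)
  have hplus : ∀ W : Finset J, (E1.image g1 ∩ W).card ≤ (E'.image g ∩ W).card + 2 := by
    intro W
    rw [himg1]
    have h1 : insert (g1 u') (insert (g1 u) (E'.image g)) ∩ W ⊆
        insert (g1 u') (insert (g1 u) (E'.image g ∩ W)) := by
      intro w hw
      rw [mem_inter, mem_insert, mem_insert] at hw
      rw [mem_insert, mem_insert, mem_inter]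
      rcases hw with ⟨h | h | h, hC⟩
      · exact Or.inl h
      · exact Or.inr (Or.inl h)
      · exact Or.inr (Or.inr ⟨h, hC⟩)
    refine (card_le_card h1).trans ((card_insert_le _ _).trans ?_)
    have := card_insert_le (g1 u) (E'.image g ∩ W)
    omega
  obtain ⟨E2, g2, hE12, hE2s, hE2c, hg2, hst2, hloc2, hprog2⟩ := SB_one D hT hlevL hur hE1c huE1 hst1
    hxZ (by rw [hCh]; exact hE.even u hur) hChp hdis
    (by
      intro ℓ h1 hL
      rw [hCh, hfil]
      exact (hlight ℓ h1 hL).1)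
    (by
      intro i hi hiL
      have h1 := (hgood i hi hiL).1
      have h2 := hplus (tr (g1 u) (D.Z i))
      omega)
  -- the state after both vertices
  obtain ⟨E3, g3, hE23, hE3s, hE3c, hg3, hst3, hprog3⟩ : ∃ (E3 : Finset V) (g3 : V → J), E2 ⊆ E3 ∧
      E3 ⊆ E ∧ Closed p r E3 ∧ (∀ v ∈ E2, g3 v = g2 v) ∧ SSt D p r lev T E3 g3 ∧
      ∀ ℓ, 1 ≤ ℓ → ℓ ≤ D.L →
        2 ^ 20 * (T ℓ \ E3.image g3).card < (D.Z ℓ).card ∨
        2 * (T ℓ ∩ E2.image g2).card + ((Ch' \ Ch).filter (fun v => lev v = ℓ)).card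
          ≤ 2 * (T ℓ ∩ E3.image g3).card +
            ((Ch' \ Ch).filter (fun v => 1 ≤ lev v ∧ lev v < ℓ)).card := by
    have hE2E : E2 ⊆ E := hE2s.trans (union_subset hE1E hChE)
    rcases hcase with ⟨h1, h2⟩ | ⟨h1, h2⟩
    · refine ⟨E2, g2, Subset.refl _, hE2E, hE2c, fun _ _ => rfl, hst2, ?_⟩
      intro ℓ _ _
      right
      have h3 : Ch' \ Ch = ∅ := by
        rw [sdiff_eq_empty_iff_subset, hCh', hCh, h1]
      rw [h3, filter_empty, card_empty]
      omega
    · have h3 : Disjoint Ch' Ch := by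
        rw [disjoint_left]
        intro v hv hv2
        exact h1 ((hCh'p v hv).symm.trans (hChp v hv2))
      have h4 : Ch' \ Ch = Ch' := sdiff_eq_self_of_disjoint h3
      rw [h4]
      have hpuZ : g (p u) ∉ D.Z D.L := by
        intro h5
        rcases hst.pure (p u) hpu h5 with h6 | h6
        · exact h2 h6
        · omega
      have hg2u' : g2 u' = g1 u' := hg2 u' hu'E1
      have hxpu : g1 u + g1 u' = g (p u) := by
        rw [hxx, ← add_assoc, D.dbl, zero_add]
      obtain ⟨E3, g3, hE23, hE3s, hE3c, hg3, hst3, -, hprog3⟩ := SB_one D hT hlevL hu'r hE2c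
        (hE12 hu'E1) hst2 (by rw [hg2u']; exact hxZ') (by rw [hCh']; exact hE.even u' hu'r) hCh'p
        (by
          rw [disjoint_left]
          intro v hv hv2
          rcases mem_union.1 (hE2s hv) with h5 | h5
          · exact (disjoint_left.1 hdis') h5 hv2
          · exact (disjoint_left.1 h3) hv2 h5)
        (by
          intro ℓ h5 hL
          rw [hCh', hfil]
          exact (hlight ℓ h5 hL).2)
        (by
          intro i hi hiL
          have h5 := (hgood i hi hiL).2
          have h6 := hplus (tr (g1 u') (D.Z i))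
          have h7 : E2.image g2 ∩ tr (g2 u') (D.Z i) ⊆ E1.image g1 ∩ tr (g1 u') (D.Z i) := by
            intro y hy
            rw [mem_inter] at hy ⊢
            rw [hg2u'] at hy
            refine ⟨?_, hy.2⟩
            obtain ⟨v, hv, hvy⟩ := mem_image.1 hy.1
            by_cases hvE1 : v ∈ E1
            · rw [← hvy, hg2 v hvE1]
              exact mem_image_of_mem _ hvE1
            · exfalso
              have h8 : g1 u' + y ∈ D.Z D.L := D.monotone hiL (mem_tr.1 hy.2)
              rcases hloc2 v hv hvE1 with h9 | h9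
              · rw [hvy] at h9
                apply hxZ'
                have h10 := D.add _ _ h8 _ h9
                rwa [add_assoc, D.dbl, add_zero] at h10
              · rw [hvy] at h9
                apply hpuZ
                have h10 := D.add _ _ h9 _ h8
                have h11 : g1 u + y + (g1 u' + y) = g1 u + g1 u' := by
                  have : g1 u + y + (g1 u' + y) = g1 u + g1 u' + (y + y) := by abel
                  rw [this, D.dbl, add_zero]
                rwa [h11, hxpu] at h10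
          have h8 := card_le_card h7
          omega)
      exact ⟨E3, g3, hE23, hE3s.trans (union_subset hE2E hCh'E), hE3c, hg3, hst3, hprog3⟩
  obtain ⟨g4, hg4, hlab4, hcap4, hjunk⟩ := junk_extend D hd hE hE3c hE3s hst3.lab hst3.cap (by omega)
  have hst4 : SSt D p r lev T E g4 := by
    refine ⟨hlab4, ?_, hcap4⟩
    intro v hv hvZ
    by_cases hv3 : v ∈ E3
    · rw [hg4 v hv3] at hvZ ⊢
      exact hst3.pure v hv3 hvZ
    · exact absurd hvZ (hjunk v hv hv3)
  refine ⟨g4, hst4, ?_⟩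
  intro ℓ h1 hL
  have hi3 : E3.image g3 ⊆ E.image g4 := by
    intro y hy
    obtain ⟨v, hv, rfl⟩ := mem_image.1 hy
    exact mem_image.2 ⟨v, hE3s hv, hg4 v hv⟩
  have hi2 : E2.image g2 ⊆ E3.image g3 := by
    intro y hy
    obtain ⟨v, hv, rfl⟩ := mem_image.1 hy
    exact mem_image.2 ⟨v, hE23 hv, hg3 v hv⟩
  have hi1 : E1.image g1 ⊆ E2.image g2 := by
    intro y hy
    obtain ⟨v, hv, rfl⟩ := mem_image.1 hy
    exact mem_image.2 ⟨v, hE12 hv, hg2 v hv⟩
  have hi0 : E'.image g ⊆ E1.image g1 := by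
    intro y hy
    obtain ⟨v, hv, rfl⟩ := mem_image.1 hy
    exact mem_image.2 ⟨v, hE'E1 hv, hg1E v hv⟩
  have hmono : ∀ W : Finset J, W ⊆ E.image g4 → 2 ^ 20 * (T ℓ \ W).card < (D.Z ℓ).card →
      2 ^ 20 * (T ℓ \ E.image g4).card < (D.Z ℓ).card := by
    intro W hW h2
    have h3 := card_le_card (sdiff_subset_sdiff (Subset.refl (T ℓ)) hW)
    omega
  unfold Prog
  rcases hprog ℓ h1 hL with h2 | h2
  · exact Or.inl (hmono _ (hi0.trans (hi1.trans (hi2.trans hi3))) h2)
  rcases hprog2 ℓ h1 hL with h3 | h3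
  · exact Or.inl (hmono _ (hi2.trans hi3) h3)
  rcases hprog3 ℓ h1 hL with h4 | h4
  · exact Or.inl (hmono _ hi3 h4)
  right
  have h5 : (T ℓ ∩ E'.image g).card ≤ (T ℓ ∩ E1.image g1).card :=
    card_le_card (inter_subset_inter_left hi0)
  have h6 : (T ℓ ∩ E3.image g3).card ≤ (T ℓ ∩ E.image g4).card :=
    card_le_card (inter_subset_inter_left hi3)
  have h7 : E.filter (fun v => lev v = ℓ) ⊆ E'.filter (fun v => lev v = ℓ) ∪
      (Ch.filter (fun v => lev v = ℓ) ∪ (Ch' \ Ch).filter (fun v => lev v = ℓ)) := by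
    intro v hv
    rw [mem_filter] at hv
    rw [mem_union, mem_union, mem_filter, mem_filter, mem_filter, mem_sdiff]
    by_cases hvE' : v ∈ E'
    · exact Or.inl ⟨hvE', hv.2⟩
    · right
      by_cases hvC : v ∈ Ch
      · exact Or.inl ⟨hvC, hv.2⟩
      · right
        refine ⟨⟨?_, hvC⟩, hv.2⟩
        rcases hrest v hv.1 hvE' with h | h | h | h
        · rw [h] at hv
          omega
        · rw [h] at hv
          omega
        · exfalso
          apply hvC
          rw [hCh]
          exact mem_filter.2 ⟨hv.1, h⟩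
        · rw [hCh']
          exact mem_filter.2 ⟨hv.1, h⟩
  have h8 := (card_le_card h7).trans ((card_union_le _ _).trans
    (Nat.add_le_add_left (card_union_le _ _) _))
  have h9 : (E'.filter (fun v => 1 ≤ lev v ∧ lev v < ℓ)).card +
      ((Ch.filter (fun v => 1 ≤ lev v ∧ lev v < ℓ)).card +
        ((Ch' \ Ch).filter (fun v => 1 ≤ lev v ∧ lev v < ℓ)).card) ≤
      (E.filter (fun v => 1 ≤ lev v ∧ lev v < ℓ)).card := by
    have hd1 : Disjoint (Ch.filter (fun v => 1 ≤ lev v ∧ lev v < ℓ))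
        ((Ch' \ Ch).filter (fun v => 1 ≤ lev v ∧ lev v < ℓ)) := by
      rw [disjoint_left]
      intro v hv hv2
      exact (mem_sdiff.1 (mem_filter.1 hv2).1).2 (mem_filter.1 hv).1
    have hd2 : Disjoint (E'.filter (fun v => 1 ≤ lev v ∧ lev v < ℓ))
        (Ch.filter (fun v => 1 ≤ lev v ∧ lev v < ℓ) ∪
          (Ch' \ Ch).filter (fun v => 1 ≤ lev v ∧ lev v < ℓ)) := by
      rw [disjoint_left]
      intro v hv hv2
      have hvE := hE'E1 (mem_filter.1 hv).1
      rcases mem_union.1 hv2 with h | h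
      · exact (disjoint_left.1 hdis) hvE (mem_filter.1 h).1
      · exact (disjoint_left.1 hdis') hvE (mem_sdiff.1 (mem_filter.1 h).1).1
    rw [← card_union_of_disjoint hd1, ← card_union_of_disjoint hd2]
    apply card_le_card
    refine union_subset (filter_subset_filter _ hsub) (union_subset (filter_subset_filter _ hChE)
      (filter_subset_filter _ (sdiff_subset.trans hCh'E)))
  omega

end

end Pool.Agent.H60.LN
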