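import Mathlib
import Pool.Agent.H60.FN.Exact
import Pool.Agent.H60.LN.SBatch

/-!
# LNSLabel: the labelling of the core in the S-case

Proof of `S_root`.  `ℓ = lev v`, `U = E'.image g`.  If there is `z ∈ T ℓ`, `z ∉ U`: `lab_add_one` with label `z`; pure: `z ∈ T (lev v)`;
cap: `cap_insert_Z` (`z ∈ Z ℓ ⊆ Z L`).  Prog at `ℓ`: the left side and `(T ℓ ∩ U).card` both increase by one (for the first
alternative: `T ℓ \ U` shrinks); at `i ≠ ℓ`: the left side is the same, the right side does not decrease.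
If `T ℓ ⊆ U`: `junk_extend` to `E = insert v E'` (closed: `hE`), pure since the new label is not in `Z L`; Prog at `ℓ`:
`T ℓ \ E.image g2 = ∅`, first alternative (`(Z ℓ).card > 0`); at `i ≠ ℓ` as before.

Proof of `S_junk`.  `junk_extend`; Prog: `E` and `E'` have the same vertices with `1 <= lev`.

Proof of `S_label`.  Show by strong induction on the cardinality, for all closed `E' ⊆ E`, that there is `g` with `SSt` and `Prog`
(compare `unf_or_fnd` in `Pool/Agent/H60/FN/Exact.lean`, the case distinction is the same).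
* `E' = {r}`: `g = 0`.  pure: `v = r`.  cap: `0 ∉ cst x` for `x ∉ Z L` (otherwise `x ∈ Z (reg x) ⊆ Z L`).  Prog: `lev r = 0` by `hlevd`.
* Otherwise let `v0 ∈ E'.erase r` have maximal depth.
  (1) `p v0 = r`: `E'' = E'.erase v0` is closed.  If `lev v0 = 0` then `S_junk`, else `S_root`.
  (2) `p v0 ≠ r` and all `h ∈ E'` with `d h = d v0` have `lev h = 0`: a second child `v1` of `p v0` in `E'`,
  `E'' = (E'.erase v1).erase v0`, `S_junk`.
  (3) `p v0 ≠ r`, `h ∈ E'`, `d h = d v0`, `1 <= lev h`.  `u = p h`; `u ≠ r` since `d u + 1 = d v0 = d (p v0) + 1` and `d (p v0) > d r`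
  (`depth_lt`).  `u' = u` if `p u = r`, otherwise another element of `E'.filter (p · = p u)`.
  `E'' = E'.filter (fun v => v ≠ u ∧ v ≠ u' ∧ p v ≠ u ∧ p v ≠ u')` is closed, etc., exactly as in `unf_or_fnd`.
  `d h % 4 = c` (`hlevd`), `d u = d u' = d h - 1`, `d (p u) = d h - 2` if `p u ≠ r`: so `lev u = lev u' = lev (p u) = 0` (`lev r = 0` too).
  `S_batch`; the light condition for `E'` follows from the one for `E` (`E' ⊆ E`).
-/

set_option autoImplicit false

open Finset

namespace Pool.Agent.H60.LN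

open Pool.Agent.H57.SS Pool.Agent.H60.FN

private theorem LNSLabel_one {V : Type*} [DecidableEq V] {p : V → V} {r : V} {E : Finset V}
    (hE : Closed p r E) {v : V} (hvr : v ≠ r) (hpv : p v = r) (hno : ∀ u ∈ E, p u ≠ v) :
    Closed p r (E.erase v) := by
  refine ⟨mem_erase.2 ⟨hvr.symm, hE.root⟩, ?_, ?_⟩
  · intro u hu
    rw [mem_erase] at hu
    exact mem_erase.2 ⟨hno u hu.2, hE.parent u hu.2⟩
  · intro w hw
    have h1 : (E.erase v).filter (fun u => p u = w) = E.filter (fun u => p u = w) := by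
      ext u
      rw [mem_filter, mem_filter, mem_erase]
      constructor
      · rintro ⟨⟨_, h3⟩, h4⟩
        exact ⟨h3, h4⟩
      · rintro ⟨h3, h4⟩
        refine ⟨⟨?_, h3⟩, h4⟩
        rintro rfl
        exact hw (h4 ▸ hpv)
    rw [h1]
    exact hE.even w hw

private theorem LNSLabel_even {V : Type*} [DecidableEq V] {p : V → V} {r : V} {E : Finset V}
    (hE : Closed p r E) {w u u' : V} (hw : w ≠ r) (hu : u ∈ E) (hu' : u' ∈ E) (hne : u' ≠ u)
    (hpu : p u = w) (hpu' : p u' = w) :
    Even (((E.filter (fun v => p v = w)).erase u').erase u).card := by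
  rw [card_erase_of_mem, card_erase_of_mem]
  · obtain ⟨k, hk⟩ := hE.even w hw
    exact ⟨k - 1, by omega⟩
  · exact mem_filter.2 ⟨hu', hpu'⟩
  · exact mem_erase.2 ⟨hne.symm, mem_filter.2 ⟨hu, hpu⟩⟩

private theorem LNSLabel_two {V : Type*} [DecidableEq V] {p : V → V} {r : V} {E : Finset V}
    (hE : Closed p r E) {v v' : V} (hv : v ∈ E) (hv' : v' ∈ E) (hvr : v ≠ r) (hvr' : v' ≠ r)
    (hne : v' ≠ v) (hpp : p v' = p v) (hno : ∀ u ∈ E, p u ≠ v) (hno' : ∀ u ∈ E, p u ≠ v') :
    Closed p r ((E.erase v').erase v) := by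
  refine ⟨?_, ?_, ?_⟩
  · rw [mem_erase, mem_erase]
    exact ⟨hvr.symm, hvr'.symm, hE.root⟩
  · intro u hu
    rw [mem_erase, mem_erase] at hu ⊢
    exact ⟨hno u hu.2.2, hno' u hu.2.2, hE.parent u hu.2.2⟩
  · intro w hw
    by_cases hwv : w = p v
    · have h1 : ((E.erase v').erase v).filter (fun u => p u = w) =
          ((E.filter (fun u => p u = w)).erase v').erase v := by
        ext u
        simp only [mem_filter, mem_erase]
        tauto
      rw [h1]
      exact LNSLabel_even hE hw hv hv' hne hwv.symm (hpp.trans hwv.symm)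
    · have h1 : ((E.erase v').erase v).filter (fun u => p u = w) =
          E.filter (fun u => p u = w) := by
        ext u
        simp only [mem_filter, mem_erase]
        constructor
        · rintro ⟨⟨_, _, h3⟩, h4⟩
          exact ⟨h3, h4⟩
        · rintro ⟨h3, h4⟩
          refine ⟨⟨?_, ?_, h3⟩, h4⟩
          · intro huv
            exact hwv (by rw [← h4, huv])
          · intro huv
            exact hwv (by rw [← h4, huv, hpp])
      rw [h1]
      exact hE.even w hw

private theorem LNSLabel_cbatch {V : Type*} [DecidableEq V] {p : V → V} {r : V}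
    {E : Finset V} (hE : Closed p r E) (hpr : p r = r) {u u' : V} (hu : u ∈ E) (hu' : u' ∈ E)
    (hur : u ≠ r) (hur' : u' ≠ r) (hpp : p u' = p u)
    (hcase : (u' = u ∧ p u = r) ∨ (u' ≠ u ∧ p u ≠ r))
    (hno : ∀ v ∈ E, p (p v) ≠ u) (hno' : ∀ v ∈ E, p (p v) ≠ u') :
    Closed p r (E.filter (fun v => v ≠ u ∧ v ≠ u' ∧ p v ≠ u ∧ p v ≠ u')) := by
  refine ⟨?_, ?_, ?_⟩
  · rw [mem_filter, hpr]
    exact ⟨hE.root, hur.symm, hur'.symm, hur.symm, hur'.symm⟩
  · intro v hv
    rw [mem_filter] at hv ⊢
    exact ⟨hE.parent v hv.1, hv.2.2.2.1, hv.2.2.2.2, hno v hv.1, hno' v hv.1⟩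
  · intro w hw
    by_cases hwu : w = u
    · have h1 : (E.filter (fun v => v ≠ u ∧ v ≠ u' ∧ p v ≠ u ∧ p v ≠ u')).filter
          (fun v => p v = w) = ∅ := by
        rw [filter_eq_empty_iff]
        intro v hv h2
        rw [mem_filter] at hv
        exact hv.2.2.2.1 (h2.trans hwu)
      rw [h1, card_empty]
      exact ⟨0, rfl⟩
    by_cases hwu' : w = u'
    · have h1 : (E.filter (fun v => v ≠ u ∧ v ≠ u' ∧ p v ≠ u ∧ p v ≠ u')).filter
          (fun v => p v = w) = ∅ := by
        rw [filter_eq_empty_iff]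
        intro v hv h2
        rw [mem_filter] at hv
        exact hv.2.2.2.2 (h2.trans hwu')
      rw [h1, card_empty]
      exact ⟨0, rfl⟩
    by_cases hwp : w = p u
    · have hne : u' ≠ u := by
        rcases hcase with h | h
        · exact absurd (hwp.trans h.2) hw
        · exact h.1
      have h1 : (E.filter (fun v => v ≠ u ∧ v ≠ u' ∧ p v ≠ u ∧ p v ≠ u')).filter
          (fun v => p v = w) = ((E.filter (fun v => p v = w)).erase u').erase u := by
        ext v
        simp only [mem_filter, mem_erase]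
        constructor
        · rintro ⟨⟨h2, h3, h4, _, _⟩, h5⟩
          exact ⟨h3, h4, h2, h5⟩
        · rintro ⟨h3, h4, h2, h5⟩
          exact ⟨⟨h2, h3, h4, by rw [h5]; exact hwu, by rw [h5]; exact hwu'⟩, h5⟩
      rw [h1]
      exact LNSLabel_even hE hw hu hu' hne hwp.symm (hpp.trans hwp.symm)
    · have h1 : (E.filter (fun v => v ≠ u ∧ v ≠ u' ∧ p v ≠ u ∧ p v ≠ u')).filter
          (fun v => p v = w) = E.filter (fun v => p v = w) := by
        ext v
        simp only [mem_filter]
        constructor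
        · rintro ⟨⟨h2, _⟩, h5⟩
          exact ⟨h2, h5⟩
        · rintro ⟨h2, h5⟩
          refine ⟨⟨h2, ?_, ?_, by rw [h5]; exact hwu, by rw [h5]; exact hwu'⟩, h5⟩
          · intro h6
            exact hwp (by rw [← h5, h6])
          · intro h6
            exact hwp (by rw [← h5, h6, hpp])
      rw [h1]
      exact hE.even w hw

section

variable {V J : Type*} [DecidableEq V] [AddCommGroup J] [DecidableEq J] [Fintype J]

private theorem LNSLabel_prog (D : Lv J) {lev : V → ℕ} {T : ℕ → Finset J} {ℓ : ℕ}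
    {E E' : Finset V} {g g2 : V → J} (hsub : E' ⊆ E) (himg : E'.image g ⊆ E.image g2)
    (hlev : ∀ v ∈ E, v ∉ E' → lev v ≠ ℓ) (h : Prog D lev T ℓ E' g) : Prog D lev T ℓ E g2 := by
  rcases h with h5 | h5
  · left
    exact lt_of_le_of_lt (Nat.mul_le_mul_left _
      (card_le_card (sdiff_subset_sdiff (Subset.refl _) himg))) h5
  · right
    have h6 : E.filter (fun v => lev v = ℓ) = E'.filter (fun v => lev v = ℓ) := by
      ext v
      rw [mem_filter, mem_filter]
      constructor
      · rintro ⟨h1, h2⟩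
        refine ⟨?_, h2⟩
        by_contra h3
        exact hlev v h1 h3 h2
      · rintro ⟨h1, h2⟩
        exact ⟨hsub h1, h2⟩
    have h7 : (E'.filter (fun v => 1 ≤ lev v ∧ lev v < ℓ)).card ≤
        (E.filter (fun v => 1 ≤ lev v ∧ lev v < ℓ)).card :=
      card_le_card (filter_subset_filter _ hsub)
    have h8 : (T ℓ ∩ E'.image g).card ≤ (T ℓ ∩ E.image g2).card :=
      card_le_card (inter_subset_inter (Subset.refl _) himg)
    rw [h6]
    omega

private theorem LNSLabel_img {E E' : Finset V} {g g2 : V → J} (hsub : E' ⊆ E)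
    (h1 : ∀ v ∈ E', g2 v = g v) : E'.image g ⊆ E.image g2 := by
  intro y hy
  obtain ⟨v, hv, rfl⟩ := mem_image.1 hy
  exact mem_image.2 ⟨v, hsub hv, h1 v hv⟩

private theorem LNSLabel_junk (D : Lv J) {p : V → V} {r : V} {d : V → ℕ}
    (hd : ∀ v, v ≠ r → d v = d (p v) + 1) {lev : V → ℕ} {T : ℕ → Finset J}
    {E E' : Finset V} (hE : Closed p r E) (hE' : Closed p r E') (hsub : E' ⊆ E)
    (hsize : 2 ^ 30 * E.card + 2 * (D.Z D.L).card < Fintype.card J) {g : V → J}
    (hst : SSt D p r lev T E' g) :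
    ∃ g2 : V → J, SSt D p r lev T E g2 ∧ ∀ v ∈ E', g2 v = g v := by
  have hcard : 80 * E.card + 2 * (D.Z D.L).card ≤ Fintype.card J := by omega
  obtain ⟨g2, h1, h2, h3, h4⟩ := junk_extend D hd hE hE' hsub hst.lab hst.cap hcard
  refine ⟨g2, ⟨h2, ?_, h3⟩, h1⟩
  intro v hv hz
  by_cases hv' : v ∈ E'
  · rw [h1 v hv'] at hz ⊢
    exact hst.pure v hv' hz
  · exact absurd hz (h4 v hv hv')

theorem S_root (D : Lv J) {p : V → V} {r : V} {d : V → ℕ}
    (hd : ∀ v, v ≠ r → d v = d (p v) + 1) {lev : V → ℕ} {T : ℕ → Finset J}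
    (hT : ∀ ℓ, 1 ≤ ℓ → ℓ ≤ D.L → T ℓ ⊆ D.Z ℓ \ D.Z (ℓ - 1)) (hlevL : ∀ v, lev v ≤ D.L)
    {E E' : Finset V} (hE : Closed p r E) (hE' : Closed p r E') {v : V} (hv : v ∉ E')
    (hEv : E = insert v E') (hpv : p v = r) (hlev : 1 ≤ lev v)
    (hsize : 2 ^ 30 * E.card + 2 * (D.Z D.L).card < Fintype.card J) {g : V → J}
    (hst : SSt D p r lev T E' g) (hprog : ∀ ℓ, 1 ≤ ℓ → ℓ ≤ D.L → Prog D lev T ℓ E' g) :
    ∃ g2 : V → J, SSt D p r lev T E g2 ∧ ∀ ℓ, 1 ≤ ℓ → ℓ ≤ D.L → Prog D lev T ℓ E g2 := by
  obtain ⟨ℓ, hℓ⟩ : ∃ ℓ, ℓ = lev v := ⟨_, rfl⟩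
  have hℓL : ℓ ≤ D.L := hℓ ▸ hlevL v
  have hsub : E' ⊆ E := by
    rw [hEv]
    exact subset_insert _ _
  have hother : ∀ i, i ≠ ℓ → ∀ w ∈ E, w ∉ E' → lev w ≠ i := by
    intro i hi w hw hw' h
    rw [hEv] at hw
    rcases mem_insert.1 hw with rfl | hw
    · exact hi (by rw [← h, hℓ])
    · exact hw' hw
  by_cases hT0 : ∃ z ∈ T ℓ, z ∉ E'.image g
  · obtain ⟨z, hzT, hzU⟩ := hT0
    have hlab := lab_add_one hE'.root hE'.parent hst.lab hv hpv hzU
    have hval : ∀ w ∈ E', Function.update g v z w = g w := by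
      intro w hw
      exact Function.update_of_ne (fun h : w = v => hv (h ▸ hw)) _ _
    have himg : E.image (Function.update g v z) = insert z (E'.image g) := by
      rw [hEv, image_insert, Function.update_self]
      congr 1
      exact image_congr (fun u hu => hval u hu)
    have hzZ : z ∈ D.Z D.L := by
      have h1 := hT ℓ (hℓ ▸ hlev) hℓL hzT
      exact D.monotone hℓL (mem_sdiff.1 h1).1
    refine ⟨Function.update g v z, ⟨?_, ?_, ?_⟩, ?_⟩
    · rw [hEv]
      exact hlab
    · intro w hw hz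
      rw [hEv] at hw
      by_cases hwv : w = v
      · right
        rw [hwv, Function.update_self]
        exact ⟨hlev, hℓ ▸ hzT⟩
      · have hw' : w ∈ E' := (mem_insert.1 hw).resolve_left hwv
        rw [hval w hw'] at hz ⊢
        exact hst.pure w hw' hz
    · rw [himg]
      exact cap_insert_Z D hst.cap hzZ
    · intro i hi1 hiL
      by_cases hi : i = ℓ
      · subst hi
        rcases hprog i hi1 hiL with h5 | h5
        · left
          refine lt_of_le_of_lt (Nat.mul_le_mul_left _ (card_le_card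
            (sdiff_subset_sdiff (Subset.refl _) ?_))) h5
          rw [himg]
          exact subset_insert _ _
        · right
          have h6 : (E.filter (fun w => lev w = i)).card ≤
              (E'.filter (fun w => lev w = i)).card + 1 := by
            have h7 : E.filter (fun w => lev w = i) ⊆
                insert v (E'.filter (fun w => lev w = i)) := by
              intro w hw
              rw [mem_filter, hEv, mem_insert] at hw
              rw [mem_insert, mem_filter]
              rcases hw with ⟨rfl | h1, h2⟩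
              · exact Or.inl rfl
              · exact Or.inr ⟨h1, h2⟩
            exact (card_le_card h7).trans (card_insert_le _ _)
          have h7 : (E'.filter (fun w => 1 ≤ lev w ∧ lev w < i)).card ≤
              (E.filter (fun w => 1 ≤ lev w ∧ lev w < i)).card :=
            card_le_card (filter_subset_filter _ hsub)
          have h8 : (T i ∩ E.image (Function.update g v z)).card =
              (T i ∩ E'.image g).card + 1 := by
            rw [himg, inter_insert_of_mem hzT, card_insert_of_notMem]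
            intro h1
            exact hzU (mem_inter.1 h1).2
          omega
      · refine LNSLabel_prog D hsub ?_ (hother i hi) (hprog i hi1 hiL)
        rw [himg]
        exact subset_insert _ _
  · push Not at hT0
    obtain ⟨g2, hst2, h1⟩ := LNSLabel_junk D hd hE hE' hsub hsize hst
    refine ⟨g2, hst2, ?_⟩
    have himg := LNSLabel_img hsub h1
    intro i hi1 hiL
    by_cases hi : i = ℓ
    · left
      have h2 : T i \ E.image g2 = ∅ := by
        rw [sdiff_eq_empty_iff_subset]
        intro z hz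
        exact himg (hT0 z (hi ▸ hz))
      rw [h2, card_empty, mul_zero]
      exact card_pos.2 ⟨0, D.zero i⟩
    · exact LNSLabel_prog D hsub himg (hother i hi) (hprog i hi1 hiL)


theorem S_junk (D : Lv J) {p : V → V} {r : V} {d : V → ℕ}
    (hd : ∀ v, v ≠ r → d v = d (p v) + 1) {lev : V → ℕ} {T : ℕ → Finset J}
    {E E' : Finset V} (hE : Closed p r E) (hE' : Closed p r E') (hsub : E' ⊆ E)
    (hlev : ∀ v ∈ E, v ∉ E' → lev v = 0)
    (hsize : 2 ^ 30 * E.card + 2 * (D.Z D.L).card < Fintype.card J) {g : V → J}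
    (hst : SSt D p r lev T E' g) (hprog : ∀ ℓ, 1 ≤ ℓ → ℓ ≤ D.L → Prog D lev T ℓ E' g) :
    ∃ g2 : V → J, SSt D p r lev T E g2 ∧ ∀ ℓ, 1 ≤ ℓ → ℓ ≤ D.L → Prog D lev T ℓ E g2 := by
  obtain ⟨g2, hst2, h1⟩ := LNSLabel_junk D hd hE hE' hsub hsize hst
  refine ⟨g2, hst2, ?_⟩
  intro i hi1 hiL
  refine LNSLabel_prog D hsub (LNSLabel_img hsub h1) ?_ (hprog i hi1 hiL)
  intro v hv hv' h
  rw [hlev v hv hv'] at h
  omega


theorem S_label (D : Lv J) {p : V → V} {r : V} (hpr : p r = r) {d : V → ℕ}
    (hd : ∀ v, v ≠ r → d v = d (p v) + 1) {lev : V → ℕ} {T : ℕ → Finset J} {c : ℕ}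
    (hlevd : ∀ v, 1 ≤ lev v → d v % 4 = c ∧ v ≠ r)
    (hT : ∀ ℓ, 1 ≤ ℓ → ℓ ≤ D.L → T ℓ ⊆ D.Z ℓ \ D.Z (ℓ - 1)) (hlevL : ∀ v, lev v ≤ D.L)
    {E : Finset V} (hE : Closed p r E)
    (hlight : ∀ u, u ≠ r → ∀ ℓ, 1 ≤ ℓ → ℓ ≤ D.L →
      2 ^ 29 * (E.filter (fun v => p v = u ∧ lev v = ℓ)).card ≤ (D.Z ℓ).card)
    (hsize : 2 ^ 30 * E.card + 2 * (D.Z D.L).card < Fintype.card J) :
    ∃ g : V → J, SSt D p r lev T E g ∧ ∀ ℓ, 1 ≤ ℓ → ℓ ≤ D.L → Prog D lev T ℓ E g := by
  have hlevr : lev r = 0 := by
    by_contra h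
    exact (hlevd r (by omega)).2 rfl
  obtain ⟨N, hEN⟩ : ∃ N, E.card = N := ⟨_, rfl⟩
  induction N using Nat.strong_induction_on generalizing E with
  | _ N IH =>
    by_cases hEr : E = {r}
    · subst hEr
      refine ⟨fun _ => 0, ⟨⟨rfl, ?_, ?_⟩, ?_, ?_⟩, ?_⟩
      · intro a ha b hb _
        rw [mem_coe, mem_singleton] at ha hb
        rw [ha, hb]
      · rw [image_singleton, image_singleton, add_zero]
      · intro v hv _
        exact Or.inl (mem_singleton.1 hv)
      · intro x hx
        have h1 : (({r} : Finset V).image (fun _ => (0 : J))) ∩ D.cst x = ∅ := by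
          rw [image_singleton]
          refine singleton_inter_of_notMem ?_
          intro h2
          have h3 := mem_tr.1 h2
          rw [add_zero] at h3
          exact hx (D.monotone (D.reg_le x) h3)
        rw [h1, card_empty, mul_zero]
        exact Nat.zero_le _
      · intro i hi1 _
        right
        have h1 : ({r} : Finset V).filter (fun v => lev v = i) = ∅ := by
          rw [filter_eq_empty_iff]
          intro v hv h2
          rw [mem_singleton] at hv
          rw [hv, hlevr] at h2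
          omega
        rw [h1, card_empty]
        exact Nat.zero_le _
    have hne : (E.erase r).Nonempty := by
      rw [nonempty_iff_ne_empty]
      intro h
      rw [erase_eq_empty_iff] at h
      rcases h with h | h
      · have h1 := hE.root
        rw [h] at h1
        exact absurd h1 (notMem_empty r)
      · exact hEr h
    obtain ⟨v0, hv, hvmax⟩ := exists_max_image (E.erase r) d hne
    rw [mem_erase] at hv
    have hmax : ∀ u ∈ E, u ≠ r → d u ≤ d v0 := fun u hu hur =>
      hvmax u (mem_erase.2 ⟨hur, hu⟩)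
    have hnochild : ∀ z, z ≠ r → d z = d v0 → ∀ u ∈ E, p u ≠ z := by
      intro z hzr hdz u hu hpu
      have hur : u ≠ r := by
        rintro rfl
        rw [hpr] at hpu
        exact hzr hpu.symm
      have h3 := hd u hur
      rw [hpu] at h3
      have h4 := hmax u hu hur
      omega
    have hstep : ∀ E' : Finset V, E' ⊆ E → Closed p r E' → v0 ∉ E' →
        ∃ g : V → J, SSt D p r lev T E' g ∧ ∀ i, 1 ≤ i → i ≤ D.L → Prog D lev T i E' g := by
      intro E' hsub hcl hvE'
      have h1 : E'.card < E.card := card_lt_card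
        ((ssubset_iff_of_subset hsub).2 ⟨v0, hv.2, hvE'⟩)
      refine IH E'.card (by omega) hcl ?_ (by omega) rfl
      intro u hu i hi1 hiL
      refine le_trans (Nat.mul_le_mul_left _ (card_le_card ?_)) (hlight u hu i hi1 hiL)
      exact filter_subset_filter _ hsub
    by_cases hpv : p v0 = r
    · -- a child of the root
      have hcl := LNSLabel_one hE hv.1 hpv (hnochild v0 hv.1 rfl)
      have hsub : E.erase v0 ⊆ E := erase_subset _ _
      obtain ⟨g, hst, hprog⟩ := hstep _ hsub hcl (notMem_erase v0 E)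
      by_cases hlev : lev v0 = 0
      · refine S_junk D hd hE hcl hsub ?_ hsize hst hprog
        intro v hvE hv'
        have h1 : v = v0 := by
          by_contra h2
          exact hv' (mem_erase.2 ⟨h2, hvE⟩)
        rw [h1]
        exact hlev
      · exact S_root D hd hT hlevL hE hcl (notMem_erase v0 E) (insert_erase hv.2).symm hpv
          (by omega) hsize hst hprog
    by_cases hH0 : ∀ h ∈ E, d h = d v0 → lev h = 0
    · -- a pair of siblings without level
      obtain ⟨v1, hv1, hne1⟩ : ∃ v1 ∈ E.filter (fun u => p u = p v0), v1 ≠ v0 := by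
        have h3 : v0 ∈ E.filter (fun u => p u = p v0) := mem_filter.2 ⟨hv.2, rfl⟩
        have h4 : 1 < (E.filter (fun u => p u = p v0)).card := by
          have h5 : 0 < (E.filter (fun u => p u = p v0)).card := card_pos.2 ⟨v0, h3⟩
          obtain ⟨k, hk⟩ := hE.even (p v0) hpv
          omega
        exact exists_mem_ne h4 v0
      rw [mem_filter] at hv1
      have hv1r : v1 ≠ r := by
        rintro rfl
        rw [hpr] at hv1
        exact hpv hv1.2.symm
      have hd1 : d v1 = d v0 := by rw [hd v1 hv1r, hd v0 hv.1, hv1.2]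
      have hcl := LNSLabel_two hE hv.2 hv1.1 hv.1 hv1r hne1 hv1.2
        (hnochild v0 hv.1 rfl) (hnochild v1 hv1r hd1)
      have hsub : (E.erase v1).erase v0 ⊆ E := (erase_subset _ _).trans (erase_subset _ _)
      obtain ⟨g, hst, hprog⟩ := hstep _ hsub hcl (notMem_erase v0 _)
      refine S_junk D hd hE hcl hsub ?_ hsize hst hprog
      intro v hvE hv'
      by_cases h1 : v = v0
      · rw [h1]
        exact hH0 v0 hv.2 rfl
      · by_cases h2 : v = v1
        · rw [h2]
          exact hH0 v1 hv1.1 hd1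
        · exact absurd (mem_erase.2 ⟨h1, mem_erase.2 ⟨h2, hvE⟩⟩) hv'
    · -- a batch
      push Not at hH0
      obtain ⟨h0, hh0, hdh0, hlh0⟩ := hH0
      have hh1 := hlevd h0 (by omega)
      have hdp0 := hd v0 hv.1
      have hpv0 := depth_lt hd (p v0) hpv
      have hdh := hd h0 hh1.2
      obtain ⟨u, hu⟩ : ∃ u, u = p h0 := ⟨_, rfl⟩
      rw [← hu] at hdh
      have huE : u ∈ E := hu ▸ hE.parent h0 hh0
      have hall : ∀ z, d z + 1 = d v0 → z ≠ r ∧ lev z = 0 := by
        intro z hz
        constructor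
        · rintro rfl
          omega
        · by_contra hzl
          have h1 := (hlevd z (by omega)).1
          have h2 := hh1.1
          omega
      obtain ⟨hur, hlu⟩ := hall u (by omega)
      obtain ⟨u', hu'E, hpp, hcase⟩ : ∃ u' ∈ E, p u' = p u ∧
          ((u' = u ∧ p u = r) ∨ (u' ≠ u ∧ p u ≠ r)) := by
        by_cases hpu : p u = r
        · exact ⟨u, huE, rfl, Or.inl ⟨rfl, hpu⟩⟩
        · have h3 : u ∈ E.filter (fun v => p v = p u) := mem_filter.2 ⟨huE, rfl⟩
          have h4 : 1 < (E.filter (fun v => p v = p u)).card := by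
            have h5 : 0 < (E.filter (fun v => p v = p u)).card := card_pos.2 ⟨u, h3⟩
            obtain ⟨k, hk⟩ := hE.even (p u) hpu
            omega
          obtain ⟨u', hu', hne'⟩ := exists_mem_ne h4 u
          rw [mem_filter] at hu'
          exact ⟨u', hu'.1, hu'.2, Or.inr ⟨hne', hpu⟩⟩
      have hur' : u' ≠ r := by
        rcases hcase with h | h
        · rw [h.1]
          exact hur
        · rintro rfl
          rw [hpr] at hpp
          exact h.2 hpp.symm
      have hdu' : d u' = d u := by rw [hd u' hur', hd u hur, hpp]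
      obtain ⟨_, hlu'⟩ := hall u' (by omega)
      have hdpu := hd u hur
      have hlpu : lev (p u) = 0 := by
        by_contra hzl
        have h1 := (hlevd (p u) (by omega)).1
        have h2 := hh1.1
        omega
      have hno : ∀ z, z ≠ r → d z = d u → ∀ v ∈ E, p (p v) ≠ z := by
        intro z hzr hdz v hvE hppv
        have hpvr : p v ≠ r := by
          intro h
          rw [h, hpr] at hppv
          exact hzr hppv.symm
        have hvr : v ≠ r := by
          rintro rfl
          exact hpvr hpr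
        have h1 := hd v hvr
        have h2 := hd (p v) hpvr
        rw [hppv] at h2
        have h3 := hmax v hvE hvr
        omega
      have hcl := LNSLabel_cbatch hE hpr huE hu'E hur hur' hpp hcase (hno u hur rfl)
        (hno u' hur' hdu')
      have hsub : E.filter (fun v => v ≠ u ∧ v ≠ u' ∧ p v ≠ u ∧ p v ≠ u') ⊆ E :=
        filter_subset _ _
      have huE' : u ∉ E.filter (fun v => v ≠ u ∧ v ≠ u' ∧ p v ≠ u ∧ p v ≠ u') := by
        intro h
        exact (mem_filter.1 h).2.1 rfl
      have huE'' : u' ∉ E.filter (fun v => v ≠ u ∧ v ≠ u' ∧ p v ≠ u ∧ p v ≠ u') := by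
        intro h
        exact (mem_filter.1 h).2.2.1 rfl
      have hpuE' : p u ∈ E.filter (fun v => v ≠ u ∧ v ≠ u' ∧ p v ≠ u ∧ p v ≠ u') := by
        refine mem_filter.2 ⟨hE.parent u huE, ?_, ?_, hno u hur rfl u huE,
          hno u' hur' hdu' u huE⟩
        · intro h
          rw [h] at hdpu
          omega
        · intro h
          rw [h] at hdpu
          omega
      have hlt : (E.filter (fun v => v ≠ u ∧ v ≠ u' ∧ p v ≠ u ∧ p v ≠ u')).card < E.card :=
        card_lt_card ((ssubset_iff_of_subset hsub).2 ⟨u, huE, huE'⟩)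
      obtain ⟨g, hst, hprog⟩ : ∃ g : V → J,
          SSt D p r lev T (E.filter (fun v => v ≠ u ∧ v ≠ u' ∧ p v ≠ u ∧ p v ≠ u')) g ∧
            ∀ i, 1 ≤ i → i ≤ D.L →
              Prog D lev T i (E.filter (fun v => v ≠ u ∧ v ≠ u' ∧ p v ≠ u ∧ p v ≠ u')) g := by
        refine IH _ (by omega) hcl ?_ (by omega) rfl
        intro w hw i hi1 hiL
        refine le_trans (Nat.mul_le_mul_left _ (card_le_card ?_)) (hlight w hw i hi1 hiL)
        exact filter_subset_filter _ hsub
      refine S_batch D hd hT hlevL hE hcl hsub huE hu'E huE' huE'' hpuE' hpp hcase ?_ ?_ hlu hlu'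
        hlpu ?_ hsize hst hprog
      · intro v hv'
        exact ⟨(mem_filter.1 hv').2.2.2.1, (mem_filter.1 hv').2.2.2.2⟩
      · intro v hvE hv'
        by_contra hcon
        push Not at hcon
        exact hv' (mem_filter.2 ⟨hvE, hcon.1, hcon.2.1, hcon.2.2.1, hcon.2.2.2⟩)
      · intro i hi1 hiL
        exact ⟨hlight u hur i hi1 hiL, hlight u' hur' i hi1 hiL⟩


end

end Pool.Agent.H60.LN
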