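import Mathlib
import Pool.Agent.H67.CT.LR
import Pool.Agent.H60.LN.CorrZ
import Pool.Agent.H60.LN.SLabel
import Pool.Agent.H60.LN.SFill

/-!
# LNSCore: the theorem of the S-case for concrete data

Proof.  `exists_lv` gives `D` (`D.L = L`, `D.Z ℓ = Zc k (j ℓ)` for `ℓ <= L`, `(D.Z ℓ).card = 2 ^ j ℓ`, `j` is monotone on `0..L`, `40 <= j L`).
`exists_corr_zc` with `m = j L` gives `R0 ⊆ Z L`.  `T ℓ = Z ℓ \ Z (ℓ - 1)` for `ℓ ≠ L`, `T L = (Z L \ Z (L - 1)) \ R0`.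
`S_label` (`hsize`: `Fintype.card (Fin k → ZMod 2) = 2 ^ k`) gives `g` with `Prog` for all levels.  `hmiss`: if the second alternative of `Prog`
holds at `ℓ`, then `(E.filter (lev v = ℓ)).card <= 2 * (T ℓ).card + (E.filter (1 <= lev v ∧ lev v < ℓ)).card <= 2 * 2 ^ j ℓ + ...`,
contradicting `hsupply`.  `S_fill` with `Lf = univ \ E` (`16 * N (lev v) <= ..` by `hcapa`) gives `E2` with `2 ^ k` elements, and `plab_lr` with `E = E2`,
`E' = univ` finishes (see the end of the proof of `plab_scale` in `Pool/Agent/H60/FN/Scale.lean`; here the group already is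
`Fin k → ZMod 2`); `1 <= k` since `40 <= j L <= k`.
-/

set_option autoImplicit false

open Finset

namespace Pool.Agent.H60.LN

open Pool.Agent.H57.SS Pool.Agent.H67.CT Pool.Agent.H60.FN

theorem S_core {V : Type*} [Fintype V] [DecidableEq V] {p : V → V} {r : V} (hpr : p r = r)
    {d : V → ℕ} (hd : ∀ v, v ≠ r → d v = d (p v) + 1) {n k : ℕ}
    (hcV : Fintype.card V = 2 ^ n) (hU : Closed p r (univ : Finset V)) {E : Finset V}
    (hE : Closed p r E) (hpE : ∀ v, p v ∈ E) {L : ℕ} (hL : 1 ≤ L) (j : ℕ → ℕ) (hj0 : j 0 = 0)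
    (hgap : ∀ ℓ, ℓ < L → j ℓ + 40 ≤ j (ℓ + 1)) (hjk : j L ≤ k) (N : ℕ → ℕ) (hNL : 1 ≤ N L)
    (hsum : 2 ^ k ≤ ∑ ℓ ∈ Finset.Icc 1 L, N ℓ * 2 ^ j ℓ) (lev : V → ℕ)
    (hlevL : ∀ v, lev v ≤ L) {c : ℕ} (hlevd : ∀ v, 1 ≤ lev v → d v % 4 = c ∧ v ≠ r)
    (hlight : ∀ u, u ≠ r → ∀ ℓ, 1 ≤ ℓ → ℓ ≤ L →
      2 ^ 29 * (E.filter (fun v => p v = u ∧ lev v = ℓ)).card ≤ 2 ^ j ℓ)
    (hsupply : ∀ ℓ, 1 ≤ ℓ → ℓ ≤ L →
      2 * 2 ^ j ℓ + (E.filter (fun v => 1 ≤ lev v ∧ lev v < ℓ)).card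
        < (E.filter (fun v => lev v = ℓ)).card)
    (hsize : 2 ^ 30 * E.card + 2 * 2 ^ j L < 2 ^ k)
    (hcapa : ∀ v, 1 ≤ lev v →
      16 * N (lev v) ≤ ((univ \ E).filter (fun l => p l = v)).card) :
    PLab p r univ (Fin n → ZMod 2) := by
  have hmono : ∀ a b, a ≤ b → b ≤ L → j a ≤ j b := by
    intro a b hab
    induction hab with
    | refl => intro _; exact le_rfl
    | @step b _ ih =>
      intro hb
      have h1 := ih (by omega)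
      have h2 := hgap b (by omega)
      exact h1.trans (le_trans (Nat.le_add_right _ _) h2)
  have h40 : 40 ≤ j L := by
    have h1 := hgap 0 (by omega)
    have h2 := hmono 1 L hL le_rfl
    rw [zero_add] at h1
    omega
  obtain ⟨D, hDL, hDZ, hDN⟩ := exists_lv hL j hj0 hgap hjk N hNL hsum
  have hZc : ∀ ℓ, ℓ ≤ L → D.Z ℓ = Zc k (j ℓ) := by
    intro ℓ hℓ
    rw [hDZ, min_eq_left hℓ]
  have hcard : ∀ ℓ, ℓ ≤ L → (D.Z ℓ).card = 2 ^ j ℓ := by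
    intro ℓ hℓ
    rw [hZc ℓ hℓ]
    exact zc_card ((hmono ℓ L hℓ le_rfl).trans hjk)
  obtain ⟨R0, hR0, hRa, hRb, hRc⟩ := exists_corr_zc (k := k) (m := j L) (by omega) hjk
  have hcJ : Fintype.card (Fin k → ZMod 2) = 2 ^ k := by simp
  obtain ⟨T, hTd⟩ : ∃ T : ℕ → Finset (Fin k → ZMod 2), ∀ ℓ, T ℓ =
      if ℓ = L then (D.Z L \ D.Z (L - 1)) \ R0 else D.Z ℓ \ D.Z (ℓ - 1) := ⟨_, fun _ => rfl⟩
  have hTL : T L = (D.Z L \ D.Z (L - 1)) \ R0 := by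
    rw [hTd, if_pos rfl]
  have hTn : ∀ ℓ, ℓ < L → T ℓ = D.Z ℓ \ D.Z (ℓ - 1) := by
    intro ℓ hℓ
    rw [hTd, if_neg (by omega)]
  have hTs : ∀ ℓ, ℓ ≤ L → T ℓ ⊆ D.Z ℓ \ D.Z (ℓ - 1) := by
    intro ℓ hℓ
    rcases Nat.eq_or_lt_of_le hℓ with h | h
    · rw [h, hTL]
      exact sdiff_subset
    · rw [hTn ℓ h]
  obtain ⟨g, hst, hprog⟩ := S_label D hpr hd (lev := lev) (T := T) hlevd
    (fun ℓ _ h2 => hTs ℓ (hDL ▸ h2)) (fun v => by rw [hDL]; exact hlevL v) hE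
    (fun u hu ℓ h1 h2 => by
      rw [hDL] at h2
      rw [hcard ℓ h2]
      exact hlight u hu ℓ h1 h2)
    (by
      rw [hDL, hcard L le_rfl, hcJ]
      exact hsize)
  have hmiss : ∀ ℓ, 1 ≤ ℓ → ℓ ≤ D.L → 2 ^ 20 * (T ℓ \ E.image g).card < (D.Z ℓ).card := by
    intro ℓ h1 h2
    rcases hprog ℓ h1 h2 with h | h
    · exact h
    · exfalso
      rw [hDL] at h2
      have h3 := hsupply ℓ h1 h2
      have h4 : (T ℓ ∩ E.image g).card ≤ 2 ^ j ℓ := by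
        rw [← hcard ℓ h2]
        exact card_le_card (inter_subset_left.trans ((hTs ℓ h2).trans sdiff_subset))
      omega
  obtain ⟨E2, hE2, -, hcE2, hlab⟩ := S_fill D (p := p) (r := r) (lev := lev) (T := T)
    (fun v => by rw [hDL]; exact hlevL v) (R0 := R0) hRc
    (by rw [hDL, hcard L le_rfl]; exact hRa) (by rw [hDL, hcard L le_rfl]; exact hRb)
    (by rw [hDL, hZc L le_rfl]; exact hR0)
    (fun ℓ _ h2 => hTn ℓ (hDL ▸ h2)) (by rw [hDL]; exact hTL)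
    (E := E) (Lf := univ \ E) hE.root (fun v _ => hpE v) disjoint_sdiff hst hmiss N
    (fun ℓ h1 h2 => hDN ℓ h1 (hDL ▸ h2)) (fun v _ hv => hcapa v hv)
  rw [hcJ] at hcE2
  exact plab_lr (hE2 hE.root) hU (subset_univ _) (by omega) hcE2 (by rw [card_univ, hcV])
    (fun v _ => hE2 (hpE v)) hlab

end Pool.Agent.H60.LN
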