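import Mathlib
import Pool.Agent.H60.LN.SCore
import Pool.Agent.H60.LN.Enum

/-!
# LNSCase: many scales without concentrated vertices

Proof.  `Λ ≠ ∅` (`a >= 1`).  `exists_enum`: `L`, `e`; `e ℓ + 40 <= e (ℓ + 1)`.  `k` minimal with `2 ^ 32 * a <= 2 ^ k`, so `2 ^ k < 2 ^ 33 * a`.
`j ℓ = if ℓ = 0 then 0 else e ℓ - 3`, `N ℓ = 2 ^ (i (e ℓ) - 5)`, `Vs ℓ = X.filter (2 ^ i (e ℓ) <= w v)`.
Nested: for `1 <= ℓ < m <= L`, `(Vs ℓ).card < 2 ^ (e ℓ + 1) <= 2 ^ e m <= (Vs m).card`; both are given by a threshold for `w`, so `Vs ℓ ⊆ Vs m`.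
`lev v` = the smallest `ℓ` with `1 <= ℓ <= L`, `v ∈ Vs ℓ`, and `0` if there is none.  So for `1 <= ℓ <= L`: `lev v = ℓ` iff `v ∈ Vs ℓ` and
(`ℓ = 1` or `v ∉ Vs (ℓ - 1)`); `1 <= lev v <= ℓ` iff `v ∈ Vs ℓ`.
`S_core`:
* gap: `j 0 + 40 = 40 <= e 1 - 3` since `e 1 >= 80`.  `2 ^ j L <= 2 ^ e L <= X.card <= a <= 2 ^ k`.
* sum: `2 ^ 8 * (N ℓ * 2 ^ j ℓ) = 2 ^ (i (e ℓ) + e ℓ)`, so `2 ^ 8 * ∑ = ∑ μ ∈ Λ, 2 ^ (i μ + μ) >= 2 ^ 41 * a > 2 ^ 8 * 2 ^ k`.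
* light: `E.filter (p v = u ∧ lev v = ℓ) ⊆ X.filter (2 ^ i (e ℓ) <= w v ∧ p v = u)`, `2 ^ 3 * 2 ^ 29 = 2 ^ 32`, `2 ^ 3 * 2 ^ j ℓ = 2 ^ e ℓ`.
* supply: `(Vs (ℓ - 1)).card < 2 ^ (e (ℓ - 1) + 1) <= 2 ^ (e ℓ - 39)`; `(E.filter (lev v = ℓ)).card >= (Vs ℓ).card - (Vs (ℓ - 1)).card`
  (`X ⊆ E`), and `2 * 2 ^ (e ℓ - 3) + 2 * 2 ^ (e ℓ - 39) < 2 ^ e ℓ`.  (`ℓ = 1`: no `Vs (ℓ - 1)`.)
* size: `2 ^ 30 * E.card <= 2 ^ 31 * a`, `2 * 2 ^ j L <= 2 ^ e L <= a`.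
* capacity: `lev v = ℓ`: `2 ^ i (e ℓ) <= w v <= m v + 1`, `16 * 2 ^ (i (e ℓ) - 5) = 2 ^ (i (e ℓ) - 1) <= 2 ^ i (e ℓ) - 1`.
-/

set_option autoImplicit false

open Finset

namespace Pool.Agent.H60.LN

open Pool.Agent.H57.SS Pool.Agent.H60.FN

private theorem SCase_find {V : Type*} (L : ℕ) (Q : ℕ → V → Prop)
    (hn : ∀ a b v, 1 ≤ a → a ≤ b → b ≤ L → Q a v → Q b v) :
    ∃ lev : V → ℕ, (∀ v, lev v ≤ L) ∧ ∀ ℓ v, 1 ≤ ℓ → ℓ ≤ L → ((1 ≤ lev v ∧ lev v ≤ ℓ) ↔ Q ℓ v) := by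
  classical
  refine ⟨fun v => if h : ∃ ℓ, 1 ≤ ℓ ∧ ℓ ≤ L ∧ Q ℓ v then Nat.find h else 0, ?_, ?_⟩
  · intro v
    by_cases h : ∃ ℓ, 1 ≤ ℓ ∧ ℓ ≤ L ∧ Q ℓ v
    · simp only [dif_pos h]
      exact (Nat.find_spec h).2.1
    · simp only [dif_neg h]
      exact Nat.zero_le _
  · intro ℓ v h1 h2
    by_cases h : ∃ ℓ, 1 ≤ ℓ ∧ ℓ ≤ L ∧ Q ℓ v
    · simp only [dif_pos h]
      constructor
      · rintro ⟨h3, h4⟩
        exact hn _ ℓ v h3 h4 h2 (Nat.find_spec h).2.2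
      · intro h3
        exact ⟨(Nat.find_spec h).1, Nat.find_min' h ⟨h1, h2, h3⟩⟩
    · simp only [dif_neg h]
      constructor
      · rintro ⟨h3, -⟩
        omega
      · intro h3
        exact absurd ⟨ℓ, h1, h2, h3⟩ h

private theorem SCase_k {a : ℕ} (ha : 1 ≤ a) : ∃ k : ℕ, 2 ^ 32 * a ≤ 2 ^ k ∧ 2 ^ k < 2 ^ 33 * a := by
  have hex : ∃ k : ℕ, 2 ^ 32 * a ≤ 2 ^ k := ⟨2 ^ 32 * a, (Nat.lt_two_pow_self).le⟩
  classical
  refine ⟨Nat.find hex, Nat.find_spec hex, ?_⟩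
  have h1 : Nat.find hex ≠ 0 := by
    intro h
    have h2 := Nat.find_spec hex
    rw [h] at h2
    have h3 : (2 : ℕ) ^ 0 = 1 := pow_zero 2
    rw [h3] at h2
    omega
  obtain ⟨k', hk'⟩ := Nat.exists_eq_succ_of_ne_zero h1
  have h2 := Nat.find_min hex (m := k') (by omega)
  push Not at h2
  rw [hk', Nat.succ_eq_add_one, pow_succ]
  omega

theorem S_case {V : Type*} [Fintype V] [DecidableEq V] {p : V → V} {r : V} (hpr : p r = r)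
    {d : V → ℕ} (hd : ∀ v, v ≠ r → d v = d (p v) + 1) {n : ℕ} (hcV : Fintype.card V = 2 ^ n)
    (hU : Closed p r (univ : Finset V)) {E : Finset V} (hE : Closed p r E) (hpE : ∀ v, p v ∈ E)
    {X : Finset V} (hXE : X ⊆ E) (hXr : ∀ v ∈ X, v ≠ r) {c : ℕ} (hXd : ∀ v ∈ X, d v % 4 = c)
    {a : ℕ} (ha : 1 ≤ a) (hEa : E.card ≤ 2 * a) (hXa : X.card ≤ a) (w : V → ℕ)
    (hw : ∀ v ∈ X, w v ≤ ((univ \ E).filter (fun l => p l = v)).card + 1) {Λ : Finset ℕ}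
    {i : ℕ → ℕ}
    (hΛ : ∀ μ ∈ Λ, 80 ≤ μ ∧ 20 ≤ i μ ∧ 2 ^ μ ≤ (X.filter (fun v => 2 ^ i μ ≤ w v)).card ∧
      (X.filter (fun v => 2 ^ i μ ≤ w v)).card < 2 ^ (μ + 1))
    (hgapΛ : ∀ μ ∈ Λ, ∀ ν ∈ Λ, μ < ν → μ + 40 ≤ ν)
    (hS : ∀ μ ∈ Λ, ∀ u, u ≠ r →
      2 ^ 32 * (X.filter (fun v => 2 ^ i μ ≤ w v ∧ p v = u)).card ≤ 2 ^ μ)
    (hsum : 2 ^ 41 * a ≤ ∑ μ ∈ Λ, 2 ^ (i μ + μ)) :
    PLab p r univ (Fin n → ZMod 2) := by
  have hΛne : Λ.Nonempty := by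
    rw [Finset.nonempty_iff_ne_empty]
    intro h
    rw [h, Finset.sum_empty] at hsum
    omega
  obtain ⟨L, e, hL, heΛ, hemono, hesum⟩ := exists_enum Λ hΛne
  have hegap : ∀ ℓ, 1 ≤ ℓ → ℓ < L → e ℓ + 40 ≤ e (ℓ + 1) := fun ℓ h1 h2 =>
    hgapΛ _ (heΛ ℓ h1 (by omega)) _ (heΛ (ℓ + 1) (by omega) (by omega)) (hemono ℓ h1 h2)
  have hegap2 : ∀ a b, 1 ≤ a → a < b → b ≤ L → e a + 40 ≤ e b := by
    intro a b h1 h2
    induction b, h2 using Nat.le_induction with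
    | base => intro h3; exact hegap a h1 h3
    | succ b h2 ih =>
      intro h3
      have h4 := ih (by omega)
      have h5 := hegap b (by omega) (by omega)
      omega
  obtain ⟨k, hk1, hk2⟩ := SCase_k ha
  obtain ⟨Q, hQ⟩ : ∃ Q : ℕ → V → Prop, ∀ ℓ v, Q ℓ v ↔ v ∈ X ∧ 2 ^ i (e ℓ) ≤ w v :=
    ⟨fun ℓ v => v ∈ X ∧ 2 ^ i (e ℓ) ≤ w v, fun _ _ => Iff.rfl⟩
  have hcardlow : ∀ ℓ, 1 ≤ ℓ → ℓ ≤ L → 2 ^ e ℓ ≤ (X.filter (fun v => 2 ^ i (e ℓ) ≤ w v)).card :=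
    fun ℓ h1 h2 => (hΛ _ (heΛ ℓ h1 h2)).2.2.1
  have hcardup : ∀ ℓ, 1 ≤ ℓ → ℓ ≤ L →
      (X.filter (fun v => 2 ^ i (e ℓ) ≤ w v)).card < 2 ^ (e ℓ + 1) :=
    fun ℓ h1 h2 => (hΛ _ (heΛ ℓ h1 h2)).2.2.2
  have hnest : ∀ a b v, 1 ≤ a → a ≤ b → b ≤ L → Q a v → Q b v := by
    intro a b v h1 h2 h3 h4
    rcases Nat.eq_or_lt_of_le h2 with h5 | h5
    · rw [← h5]; exact h4
    · rw [hQ] at h4 ⊢
      refine ⟨h4.1, ?_⟩
      by_contra h6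
      push Not at h6
      have h7 : X.filter (fun v => 2 ^ i (e b) ≤ w v) ⊆ X.filter (fun v => 2 ^ i (e a) ≤ w v) := by
        intro u hu
        rw [Finset.mem_filter] at hu ⊢
        refine ⟨hu.1, ?_⟩
        have h8 := h4.2
        have h9 := hu.2
        omega
      have h8 := Finset.card_le_card h7
      have h9 := hcardlow b (by omega) h3
      have h10 := hcardup a h1 (by omega)
      have h11 := hegap2 a b h1 h5 h3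
      have h12 : (2 : ℕ) ^ (e a + 1) ≤ 2 ^ e b := Nat.pow_le_pow_right (by omega) (by omega)
      omega
  obtain ⟨lev, hlevL, hlev⟩ := SCase_find L Q hnest
  have he80 : ∀ ℓ, 1 ≤ ℓ → ℓ ≤ L → 80 ≤ e ℓ := fun ℓ h1 h2 => (hΛ _ (heΛ ℓ h1 h2)).1
  have hi20 : ∀ ℓ, 1 ≤ ℓ → ℓ ≤ L → 20 ≤ i (e ℓ) := fun ℓ h1 h2 => (hΛ _ (heΛ ℓ h1 h2)).2.1
  have hlevX : ∀ v, 1 ≤ lev v → v ∈ X ∧ 2 ^ i (e (lev v)) ≤ w v := by
    intro v hv
    exact (hQ _ _).1 ((hlev (lev v) v hv (hlevL v)).1 ⟨hv, le_rfl⟩)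
  have hVL : 2 ^ e L ≤ a := (hcardlow L hL le_rfl).trans ((Finset.card_filter_le _ _).trans hXa)
  have heL := he80 L hL le_rfl
  refine S_core hpr hd hcV hU hE hpE hL (fun ℓ => if ℓ = 0 then 0 else e ℓ - 3) (if_pos rfl) ?_ ?_
    (fun ℓ => 2 ^ (i (e ℓ) - 5)) Nat.one_le_two_pow ?_ lev hlevL (c := c) ?_ ?_ ?_ ?_ ?_ (k := k)
  · intro ℓ hℓ
    by_cases h0 : ℓ = 0
    · subst h0
      have h1 := he80 1 (by omega) (by omega)
      simp only [if_true, zero_add, one_ne_zero, if_false]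
      omega
    · have h1 := hegap ℓ (by omega) hℓ
      have h2 := he80 ℓ (by omega) (by omega)
      simp only [h0, if_false, Nat.add_eq_zero_iff, one_ne_zero, and_false]
      omega
  · have h0 : L ≠ 0 := by omega
    simp only [h0, if_false]
    have h1 : (2 : ℕ) ^ (e L - 3) ≤ 2 ^ k := by
      have h2 : (2 : ℕ) ^ (e L - 3) ≤ 2 ^ e L := Nat.pow_le_pow_right (by omega) (by omega)
      omega
    exact (Nat.pow_le_pow_iff_right (by norm_num)).1 h1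
  · have h1 : 2 ^ 8 * ∑ ℓ ∈ Finset.Icc 1 L, 2 ^ (i (e ℓ) - 5) * 2 ^ (if ℓ = 0 then 0 else e ℓ - 3) =
        ∑ μ ∈ Λ, 2 ^ (i μ + μ) := by
      rw [← hesum (fun μ => 2 ^ (i μ + μ)), Finset.mul_sum]
      refine Finset.sum_congr rfl fun ℓ hℓ => ?_
      have h2 := Finset.mem_Icc.1 hℓ
      have h3 : ℓ ≠ 0 := by omega
      have h4 := he80 ℓ h2.1 h2.2
      have h5 := hi20 ℓ h2.1 h2.2
      simp only [h3, if_false]
      rw [← pow_add, ← pow_add]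
      congr 1
      omega
    have h2 : (2 : ℕ) ^ 41 * a = 2 ^ 8 * (2 ^ 33 * a) := by ring
    omega
  · intro v hv
    exact ⟨hXd v (hlevX v hv).1, hXr v (hlevX v hv).1⟩
  · intro u hu ℓ h1 h2
    have h0 : ℓ ≠ 0 := by omega
    simp only [h0, if_false]
    have h3 := hS (e ℓ) (heΛ ℓ h1 h2) u hu
    have h4 : E.filter (fun v => p v = u ∧ lev v = ℓ) ⊆
        X.filter (fun v => 2 ^ i (e ℓ) ≤ w v ∧ p v = u) := by
      intro v hv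
      rw [Finset.mem_filter] at hv ⊢
      have h5 := hlevX v (by omega)
      rw [hv.2.2] at h5
      exact ⟨h5.1, h5.2, hv.2.1⟩
    have h5 := Finset.card_le_card h4
    have h6 := he80 ℓ h1 h2
    have h7 : (2 : ℕ) ^ e ℓ = 2 ^ 3 * 2 ^ (e ℓ - 3) := by
      rw [← pow_add]
      congr 1
      omega
    omega
  · intro ℓ h1 h2
    have h0 : ℓ ≠ 0 := by omega
    simp only [h0, if_false]
    have h6 := he80 ℓ h1 h2
    have hB : (E.filter (fun v => 1 ≤ lev v ∧ lev v < ℓ)).card ≤ 2 ^ (e ℓ - 39) := by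
      by_cases hℓ : ℓ = 1
      · have h3 : E.filter (fun v => 1 ≤ lev v ∧ lev v < ℓ) = ∅ := by
          rw [Finset.filter_eq_empty_iff]
          rintro v - ⟨h4, h5⟩
          omega
        rw [h3, Finset.card_empty]
        exact Nat.zero_le _
      · have h3 : E.filter (fun v => 1 ≤ lev v ∧ lev v < ℓ) ⊆
            X.filter (fun v => 2 ^ i (e (ℓ - 1)) ≤ w v) := by
          intro v hv
          rw [Finset.mem_filter] at hv ⊢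
          exact (hQ _ _).1 ((hlev (ℓ - 1) v (by omega) (by omega)).1 ⟨hv.2.1, by omega⟩)
        have h4 := Finset.card_le_card h3
        have h5 := hcardup (ℓ - 1) (by omega) (by omega)
        have h7 := hegap (ℓ - 1) (by omega) (by omega)
        rw [show ℓ - 1 + 1 = ℓ by omega] at h7
        have h8 : (2 : ℕ) ^ (e (ℓ - 1) + 1) ≤ 2 ^ (e ℓ - 39) :=
          Nat.pow_le_pow_right (by omega) (by omega)
        omega
    have hA : (X.filter (fun v => 2 ^ i (e ℓ) ≤ w v)).card ≤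
        (E.filter (fun v => lev v = ℓ)).card + (E.filter (fun v => 1 ≤ lev v ∧ lev v < ℓ)).card := by
      refine le_trans (Finset.card_le_card ?_) (Finset.card_union_le _ _)
      intro v hv
      rw [Finset.mem_filter] at hv
      have h3 := (hlev ℓ v h1 h2).2 ((hQ _ _).2 hv)
      rw [Finset.mem_union, Finset.mem_filter, Finset.mem_filter]
      rcases Nat.eq_or_lt_of_le h3.2 with h4 | h4
      · exact Or.inl ⟨hXE hv.1, h4⟩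
      · exact Or.inr ⟨hXE hv.1, h3.1, h4⟩
    have h3 := hcardlow ℓ h1 h2
    have h7 : (2 : ℕ) ^ e ℓ = 2 ^ 36 * (2 ^ 3 * 2 ^ (e ℓ - 39)) := by
      rw [← pow_add, ← pow_add]
      congr 1
      omega
    have h8 : (2 : ℕ) ^ (e ℓ - 3) = 2 ^ 36 * 2 ^ (e ℓ - 39) := by
      rw [← pow_add]
      congr 1
      omega
    have h9 : 0 < (2 : ℕ) ^ (e ℓ - 39) := by positivity
    omega
  · have h0 : L ≠ 0 := by omega
    simp only [h0, if_false]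
    have h7 : (2 : ℕ) ^ e L = 2 ^ 3 * 2 ^ (e L - 3) := by
      rw [← pow_add]
      congr 1
      omega
    omega
  · intro v hv
    have h1 := hlevX v hv
    have h2 := hw v h1.1
    have h3 := hi20 (lev v) hv (hlevL v)
    have h4 : (2 : ℕ) ^ i (e (lev v)) = 2 * (16 * 2 ^ (i (e (lev v)) - 5)) := by
      rw [show (16 : ℕ) = 2 ^ 4 by norm_num, ← pow_add, ← pow_succ']
      congr 1
      omega
    have h5 : 0 < (2 : ℕ) ^ (i (e (lev v)) - 5) := by positivity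
    have h6 := h1.2
    show 16 * 2 ^ (i (e (lev v)) - 5) ≤ _
    omega

end Pool.Agent.H60.LN
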