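import Mathlib
import Pool.Agent.H60.FN.Core
import Pool.Agent.H60.LN.Layer
import Pool.Agent.H60.LN.Mates
import Pool.Agent.H60.LN.SCase
import Pool.Agent.H60.LN.CCase

/-!
# LNLinCore: the linear theorem for rooted trees

Proof.  If there is `t` with `4608 * A0.card <= t * (A0.filter ..).card` use `plab_core`.  Otherwise `t * (A0.filter (t <= w v)).card < 4608 * a` for all
`t`, where `a = A0.card >= 1`, `w v = ((univ \ A0).filter (p · = v)).card`.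
`E` from `exists_core`; `w v <= ((univ \ E).filter (p · = v)).card + 1`.
`∑ v ∈ A0, w v = (univ \ A0).card = 2 ^ n - a` (`Finset.card_eq_sum_card_fiberwise`, all parents are in `A0`).  `w r < 4608 * a` (take `t = w r`;
`r ∈ A0`).  For `c < 4` let `Xc = (A0.erase r).filter (d v % 4 = c)`: `∑ c < 4, ∑ v ∈ Xc, w v = 2 ^ n - a - w r >= 2 ^ 84 * a - 4609 * a`.  So there is `c`
with `3 * 2 ^ 80 * a <= ∑ v ∈ Xc, w v` (`4 * 3 * 2 ^ 80 = 12 * 2 ^ 80 < 16 * 2 ^ 80 - 4609`).  `X = Xc`.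
`exists_scales` gives `Λ`, `i`.  `ΛS = Λ.filter (∀ u, u ≠ r → 2 ^ 32 * (X.filter (2 ^ i μ <= w v ∧ p v = u)).card <= 2 ^ μ)` (classical).
(1) `2 ^ 41 * a <= ∑ μ ∈ ΛS, 2 ^ (i μ + μ)`: `S_case` with `ΛS`.
(2) Otherwise `ΛC = Λ \ ΛS` has `∑ μ ∈ ΛC, 2 ^ (i μ + μ) >= 2 ^ 74 * a - 2 ^ 41 * a >= 2 ^ 73 * a`.  Choose `u μ ≠ r` for `μ ∈ ΛC` with
`2 ^ μ < 2 ^ 32 * (X.filter ..).card`.  `exists_mates` for `E` (even fibres over `w ≠ r`: `hE.even`) gives `mt`, `H`.  One of the two sets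
`ΛC.filter (u μ ∈ H)`, `ΛC.filter (u μ ∉ H)` has sum at least `2 ^ 72 * a`.  `C_case` with `P v = (v ∈ H)` or `P v = (v ∉ H)`; `hwr` from `hmax`.
-/

set_option autoImplicit false

open Finset

namespace Pool.Agent.H60.LN

open Pool.Agent.H57.SS Pool.Agent.H60.FN

theorem lin_core {V : Type*} [Fintype V] [DecidableEq V] {p : V → V} {r : V} (hpr : p r = r)
    {d : V → ℕ} (hd : ∀ v, v ≠ r → d v = d (p v) + 1) {n : ℕ} (hcV : Fintype.card V = 2 ^ n)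
    (hev : EvenFib p (univ : Finset V)) {A0 : Finset V} (hr : r ∈ A0) (hpA : ∀ v, p v ∈ A0)
    (hmax : ∀ w ∈ A0, ((univ \ A0).filter (fun v => p v = w)).card
      ≤ ((univ \ A0).filter (fun v => p v = r)).card)
    (h : 2 ^ 84 * A0.card ≤ 2 ^ n) :
    PLab p r univ (Fin n → ZMod 2) := by
  classical
  have hI : 1 ≤ A0.card := Finset.card_pos.2 ⟨r, hr⟩
  by_cases hpc : ∃ t : ℕ, 4608 * A0.card ≤
      t * (A0.filter (fun w => t ≤ ((univ \ A0).filter (fun v => p v = w)).card)).card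
  · obtain ⟨t, ht⟩ := hpc
    exact plab_core hpr hd hcV hev hr hpA hmax ht
  have hpc' : ∀ t : ℕ,
      t * (A0.filter (fun w => t ≤ ((univ \ A0).filter (fun v => p v = w)).card)).card
        < 4608 * A0.card := by
    intro t
    by_contra hcon
    exact hpc ⟨t, not_lt.1 hcon⟩
  clear hpc
  obtain ⟨E, hAE, hE, hEc, hEm⟩ := exists_core hev hr hpA
  have hU : Closed p r (univ : Finset V) := ⟨mem_univ _, fun _ _ => mem_univ _, fun w _ => hev w⟩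
  have hpE : ∀ v, p v ∈ E := fun v => hAE (hpA v)
  obtain ⟨w, hw⟩ : ∃ w : V → ℕ, ∀ v, w v = ((univ \ A0).filter (fun l => p l = v)).card :=
    ⟨_, fun _ => rfl⟩
  obtain ⟨a, ha⟩ : ∃ a : ℕ, a = A0.card := ⟨_, rfl⟩
  have hwtot : ∑ v ∈ A0, w v + a = 2 ^ n := by
    have h1 : (univ \ A0).card = ∑ v ∈ A0, ((univ \ A0).filter (fun l => p l = v)).card :=
      Finset.card_eq_sum_card_fiberwise (fun v _ => hpA v)
    have h2 : ∑ v ∈ A0, w v = (univ \ A0).card := by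
      rw [h1]
      exact Finset.sum_congr rfl fun v _ => hw v
    have h3 : (univ \ A0).card + A0.card = (univ : Finset V).card :=
      Finset.card_sdiff_add_card_eq_card (Finset.subset_univ A0)
    rw [Finset.card_univ, hcV] at h3
    rw [h2, ha]
    exact h3
  simp only [← hw] at hmax hpc' hEm
  rw [← ha] at hpc' hEc hI h
  have hwr : w r < 4608 * a := by
    have h1 := hpc' (w r)
    have h2 : 1 ≤ (A0.filter (fun v => w r ≤ w v)).card :=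
      Finset.card_pos.2 ⟨r, Finset.mem_filter.2 ⟨hr, le_rfl⟩⟩
    exact lt_of_le_of_lt (Nat.le_mul_of_pos_right _ h2) h1
  obtain ⟨c, hc⟩ : ∃ c : ℕ,
      3 * 2 ^ 80 * a ≤ ∑ v ∈ (A0.erase r).filter (fun v => d v % 4 = c), w v := by
    by_contra hcon
    have hcon' : ∀ c : ℕ,
        ∑ v ∈ (A0.erase r).filter (fun v => d v % 4 = c), w v < 3 * 2 ^ 80 * a := by
      intro c
      by_contra h1
      exact hcon ⟨c, not_lt.1 h1⟩
    have h1 : ∑ c ∈ Finset.range 4, ∑ v ∈ (A0.erase r).filter (fun v => d v % 4 = c), w v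
        = ∑ v ∈ A0.erase r, w v :=
      Finset.sum_fiberwise_of_maps_to
        (fun v _ => Finset.mem_range.2 (Nat.mod_lt _ (by norm_num))) _
    have h2 : ∑ v ∈ A0.erase r, w v + w r = ∑ v ∈ A0, w v := Finset.sum_erase_add _ _ hr
    rw [Finset.sum_range_succ, Finset.sum_range_succ, Finset.sum_range_succ,
      Finset.sum_range_succ, Finset.sum_range_zero] at h1
    have c0 := hcon' 0
    have c1 := hcon' 1
    have c2 := hcon' 2
    have c3 := hcon' 3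
    omega
  obtain ⟨X, hX⟩ : ∃ X : Finset V, X = (A0.erase r).filter (fun v => d v % 4 = c) := ⟨_, rfl⟩
  rw [← hX] at hc
  have hXA : X ⊆ A0 := by
    rw [hX]
    exact (Finset.filter_subset _ _).trans (Finset.erase_subset _ _)
  have hXE : X ⊆ E := hXA.trans hAE
  have hXr : ∀ v ∈ X, v ≠ r := by
    intro v hv
    rw [hX] at hv
    exact Finset.ne_of_mem_erase (Finset.mem_filter.1 hv).1
  have hXd : ∀ v ∈ X, d v % 4 = c := by
    intro v hv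
    rw [hX] at hv
    exact (Finset.mem_filter.1 hv).2
  have hXa : X.card ≤ a := by
    rw [ha]
    exact Finset.card_le_card hXA
  have hK : ∀ t, t * (X.filter (fun v => t ≤ w v)).card ≤ 4608 * a := by
    intro t
    refine le_trans (Nat.mul_le_mul_left t (Finset.card_le_card ?_)) (hpc' t).le
    exact Finset.filter_subset_filter _ hXA
  obtain ⟨Λ, i, hΛ, hgap, hsum⟩ := exists_scales X w a hI hXa hK hc
  obtain ⟨ΛS, hΛS⟩ : ∃ ΛS : Finset ℕ, ΛS = Λ.filter (fun μ => ∀ u, u ≠ r →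
      2 ^ 32 * (X.filter (fun v => 2 ^ i μ ≤ w v ∧ p v = u)).card ≤ 2 ^ μ) := ⟨_, rfl⟩
  obtain ⟨ΛC, hΛC⟩ : ∃ ΛC : Finset ℕ, ΛC = Λ.filter (fun μ => ¬ ∀ u, u ≠ r →
      2 ^ 32 * (X.filter (fun v => 2 ^ i μ ≤ w v ∧ p v = u)).card ≤ 2 ^ μ) := ⟨_, rfl⟩
  have hsplit : ∑ μ ∈ ΛS, 2 ^ (i μ + μ) + ∑ μ ∈ ΛC, 2 ^ (i μ + μ)
      = ∑ μ ∈ Λ, 2 ^ (i μ + μ) := by
    rw [hΛS, hΛC]
    exact Finset.sum_filter_add_sum_filter_not _ _ _
  have hSsub : ΛS ⊆ Λ := by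
    rw [hΛS]
    exact Finset.filter_subset _ _
  have hCsub : ΛC ⊆ Λ := by
    rw [hΛC]
    exact Finset.filter_subset _ _
  by_cases h1 : 2 ^ 41 * a ≤ ∑ μ ∈ ΛS, 2 ^ (i μ + μ)
  · refine S_case hpr hd hcV hU hE hpE hXE hXr hXd hI hEc hXa w (fun v _ => hEm v)
      (Λ := ΛS) (i := i) (fun μ hμ => hΛ μ (hSsub hμ))
      (fun μ hμ ν hν => hgap μ (hSsub hμ) ν (hSsub hν)) ?_ h1
    intro μ hμ u hu
    rw [hΛS] at hμ
    exact (Finset.mem_filter.1 hμ).2 u hu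
  rw [not_le] at h1
  have hCsum : 2 ^ 73 * a ≤ ∑ μ ∈ ΛC, 2 ^ (i μ + μ) := by omega
  have hexu : ∀ μ : ℕ, ∃ u : V, μ ∈ ΛC → (u ≠ r ∧
      2 ^ μ < 2 ^ 32 * (X.filter (fun v => 2 ^ i μ ≤ w v ∧ p v = u)).card) := by
    intro μ
    by_cases hμ : μ ∈ ΛC
    · have h2 : ¬ ∀ u, u ≠ r →
          2 ^ 32 * (X.filter (fun v => 2 ^ i μ ≤ w v ∧ p v = u)).card ≤ 2 ^ μ := by
        rw [hΛC] at hμ
        exact (Finset.mem_filter.1 hμ).2
      by_contra hcon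
      apply h2
      intro u hu
      by_contra h3
      exact hcon ⟨u, fun _ => ⟨hu, not_le.1 h3⟩⟩
    · exact ⟨r, fun h2 => absurd h2 hμ⟩
  choose u hu using hexu
  obtain ⟨mt, H, hmt⟩ := exists_mates p r E hE.even
  have hHsplit : ∑ μ ∈ ΛC.filter (fun μ => u μ ∈ H), 2 ^ (i μ + μ)
      + ∑ μ ∈ ΛC.filter (fun μ => ¬ u μ ∈ H), 2 ^ (i μ + μ) = ∑ μ ∈ ΛC, 2 ^ (i μ + μ) :=
    Finset.sum_filter_add_sum_filter_not _ _ _
  by_cases h4 : 2 ^ 72 * a ≤ ∑ μ ∈ ΛC.filter (fun μ => u μ ∈ H), 2 ^ (i μ + μ)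
  · refine C_case hpr hd hcV hU hE hpE hXE hXr hXd hI hEc hXa w (fun v _ => hEm v)
      (fun v hv => hmax v (hXA hv)) (Λ := ΛC.filter (fun μ => u μ ∈ H)) (i := i)
      (fun μ hμ => hΛ μ (hCsub (Finset.mem_filter.1 hμ).1))
      (fun μ hμ ν hν => hgap μ (hCsub (Finset.mem_filter.1 hμ).1) ν
        (hCsub (Finset.mem_filter.1 hν).1)) (fun v => v ∈ H) mt ?_ u ?_ h4
    · intro x hx hxr
      exact hmt x hx hxr
    · intro μ hμ
      obtain ⟨h5, h6⟩ := Finset.mem_filter.1 hμ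
      obtain ⟨h7, h8⟩ := hu μ h5
      exact ⟨h7, h6, h8⟩
  · have h5 : 2 ^ 72 * a ≤ ∑ μ ∈ ΛC.filter (fun μ => ¬ u μ ∈ H), 2 ^ (i μ + μ) := by
      rw [not_le] at h4
      omega
    refine C_case hpr hd hcV hU hE hpE hXE hXr hXd hI hEc hXa w (fun v _ => hEm v)
      (fun v hv => hmax v (hXA hv)) (Λ := ΛC.filter (fun μ => ¬ u μ ∈ H)) (i := i)
      (fun μ hμ => hΛ μ (hCsub (Finset.mem_filter.1 hμ).1))
      (fun μ hμ ν hν => hgap μ (hCsub (Finset.mem_filter.1 hμ).1) ν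
        (hCsub (Finset.mem_filter.1 hν).1)) (fun v => ¬ v ∈ H) mt ?_ u ?_ h5
    · intro x hx hxr
      obtain ⟨e1, e2, e3, e4⟩ := hmt x hx hxr
      exact ⟨e1, e2, e3, not_congr e4⟩
    · intro μ hμ
      obtain ⟨h5, h6⟩ := Finset.mem_filter.1 hμ
      obtain ⟨h7, h8⟩ := hu μ h5
      exact ⟨h7, h6, h8⟩

end Pool.Agent.H60.LN
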