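import Mathlib
import Pool.Agent.H60.FN.TreeB
import Pool.Agent.H60.LN.LinCore

/-!
# LNLinTree: the linear theorem for trees

Proof.  Copy the proof of `graceful_of_scale` in `Pool/Agent/H60/FN/TreeB.lean`, with `lin_core` instead of `plab_core`.
(If `A0 = ∅`, as there.)
-/

set_option autoImplicit false

open Finset

namespace Pool.Agent.H60.LN

open Pool.Agent.H57.SS Pool.Agent.H60.FN

theorem graceful_linear {V : Type*} [Fintype V] [DecidableEq V] {T : SimpleGraph V}
    [DecidableRel T.Adj] (hT : T.IsTree) (hodd : ∀ v, Odd (T.degree v)) {n : ℕ}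
    (hc : Fintype.card V = 2 ^ n)
    (h : 2 ^ 84 * (univ.filter (fun v => T.degree v ≠ 1)).card ≤ 2 ^ n) :
    ∃ g : V → (Fin n → ZMod 2), Function.Bijective g ∧
      ∀ a b c d : V, T.Adj a b → T.Adj c d → g a + g b = g c + g d → s(a, b) = s(c, d) := by
  obtain ⟨A0, hA0⟩ : ∃ A0 : Finset V, A0 = univ.filter (fun v => T.degree v ≠ 1) := ⟨_, rfl⟩
  by_cases hemp : A0 = ∅
  · have hall : ∀ v, T.degree v = 1 := by
      intro v
      by_contra hv
      have : v ∈ A0 := by rw [hA0]; simp [hv]
      rw [hemp] at this
      simp at this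
    have hsum := T.sum_degrees_eq_twice_card_edges
    have hedge := hT.card_edgeFinset
    have hcard : Fintype.card V = 2 := by
      have h1 : ∑ v, T.degree v = Fintype.card V := by
        rw [sum_congr rfl (fun v _ => hall v)]
        simp
      rw [h1] at hsum
      omega
    have hne : Nonempty V := by
      rw [← Fintype.card_pos_iff]
      omega
    obtain ⟨r⟩ := hne
    refine exists_graceful hT r hc (plab_half hT r hodd hc ?_)
    have h2 : 1 ≤ (univ.filter (fun v => T.Adj r v ∧ T.degree v = 1)).card := by
      have h3 : 0 < T.degree r := by rw [hall r]; norm_num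
      rw [T.degree_pos_iff_exists_adj] at h3
      obtain ⟨v, hv⟩ := h3
      exact card_pos.2 ⟨v, by simp [hv, hall v]⟩
    have h4 : 2 ^ n = 2 := by rw [← hc, hcard]
    omega
  · have hne : A0.Nonempty := nonempty_iff_ne_empty.2 hemp
    obtain ⟨r, hr, hmax⟩ := exists_max_image A0
      (fun w => (univ.filter (fun v => T.Adj w v ∧ T.degree v = 1)).card) hne
    have hmem : ∀ w, w ∈ A0 ↔ T.degree w ≠ 1 := by
      intro w
      rw [hA0]
      simp
    have hrd : T.degree r ≠ 1 := (hmem r).1 hr
    have hlc : ∀ w ∈ A0, univ.filter (fun v => T.Adj w v ∧ T.degree v = 1)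
        = (univ \ A0).filter (fun v => par hT r v = w) := by
      intro w hw
      rw [leaf_children hT hrd w ((hmem w).1 hw), hA0]
    have hevf : EvenFib (par hT r) (univ : Finset V) := by
      intro w
      by_cases hw : w = r
      · subst hw
        have h1 := card_children_root hT w
        obtain ⟨k, hk⟩ := hodd w
        exact ⟨k + 1, by omega⟩
      · have h1 := card_children hT r w hw
        obtain ⟨k, hk⟩ := hodd w
        exact ⟨k, by omega⟩
    refine exists_graceful hT r hc (lin_core (par_root hT r) (d := fun v => T.dist r v)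
      (fun v hv => dist_par hT r v hv) hc hevf hr ?_ ?_ ?_)
    · intro v
      exact (hmem _).2 (par_degree_ne_one hT hrd v)
    · intro w hw
      rw [← hlc w hw, ← hlc r hr]
      exact hmax w hw
    · rw [hA0]
      exact h

end Pool.Agent.H60.LN
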